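import Pool.Agent.MP_6d695c_gt.q.Base
import Mathlib.Analysis.InnerProductSpace.Rayleigh

/-! Slow skeleta: proofs of the steps, part A. -/

section PkLa1

/-! PROJECT P, row La1: adapted frames exist. -/

open scoped Manifold ContDiff Topology MeasureTheory
open Set Metric Filter Real

namespace Pool.Agent.MP_6d695c_gt.P

open SW T1 Theta

namespace La1Aux

theorem eig (E : Type) [AddCommGroup E] [Module ℝ E] [FiniteDimensional ℝ E] [Nontrivial E]
    (q : E →ₗ[ℝ] E →ₗ[ℝ] ℝ) (hs : ∀ u v, q u v = q v u) (hp : ∀ u, u ≠ 0 → 0 < q u u)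
    (S : E →ₗ[ℝ] E) (hS : ∀ u v, q (S u) v = q u (S v)) :
    ∃ (μ : ℝ) (e : E), e ≠ 0 ∧ S e = μ • e := by
  let c : InnerProductSpace.Core ℝ E :=
    { inner := fun u v => q u v
      conj_inner_symm := fun u v => hs v u
      re_inner_nonneg := fun u => by
        by_cases h : u = 0
        · simp [h]
        · exact (hp u h).le
      add_left := fun u v w => by simp
      smul_left := fun u v r => by simp
      definite := fun u h => by_contra fun h' => (hp u h').ne' h }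
  let _ : NormedAddCommGroup E := @InnerProductSpace.Core.toNormedAddCommGroup ℝ E _ _ _ c
  let _ : InnerProductSpace ℝ E := InnerProductSpace.ofCore _
  have h : S.IsSymmetric := hS
  obtain ⟨e, he⟩ := h.hasEigenvalue_iSup_of_finiteDimensional.exists_hasEigenvector
  exact ⟨_, e, he.2, he.apply_eq_smul⟩

/-- forgetting the first pair of coordinates -/
def tl (n : ℕ) : Hor (n + 1) →ₗ[ℝ] Hor n where
  toFun u := (fun j => u.1 j.succ, fun j => u.2 j.succ)
  map_add' _ _ := rfl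
  map_smul' _ _ := rfl

def h1 (n : ℕ) : Hor (n + 1) →ₗ[ℝ] ℝ := (LinearMap.proj 0).comp (LinearMap.fst ℝ _ _)

def h2 (n : ℕ) : Hor (n + 1) →ₗ[ℝ] ℝ := (LinearMap.proj 0).comp (LinearMap.snd ℝ _ _)

theorem om_succ {n : ℕ} (u v : Hor (n + 1)) :
    om u v = h2 n u * h1 n v - h1 n u * h2 n v + om (tl n u) (tl n v) := by
  rw [om, Fin.sum_univ_succ]
  rfl

theorem plane (E : Type) [AddCommGroup E] [Module ℝ E] [FiniteDimensional ℝ E] [Nontrivial E]
    (q : E →ₗ[ℝ] E →ₗ[ℝ] ℝ) (hs : ∀ u v, q u v = q v u) (hp : ∀ u, u ≠ 0 → 0 < q u u)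
    (K : E →ₗ[ℝ] E) (hK : ∀ u v, q (K u) v = -q u (K v)) (hi : ∀ u, K u = 0 → u = 0) :
    ∃ (l : ℝ) (e f : E), K e = (-l) • f ∧ K f = l • e ∧ l * q e e = 1 ∧ l * q f f = 1 ∧
      q e f = 0 := by
  obtain ⟨μ, e0, h0, he⟩ := eig E q hs hp (-(K.comp K)) fun u v => by
    simp only [LinearMap.neg_apply, LinearMap.comp_apply, map_neg]
    rw [hK, hK, neg_neg]
  have he' : K (K e0) = (-μ) • e0 := by
    rw [neg_smul, ← he]
    simp
  have a0 := hp e0 h0
  have a1 := hp (K e0) fun h => h0 (hi _ h)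
  have a2 : q (K e0) (K e0) = μ * q e0 e0 := by
    rw [hK, he']
    simp
  have hμ : 0 < μ := by
    rw [a2] at a1
    exact (mul_pos_iff_of_pos_right a0).1 a1
  obtain ⟨l, hl, rfl⟩ : ∃ l : ℝ, 0 < l ∧ μ = l * l :=
    ⟨√μ, Real.sqrt_pos.2 hμ, (Real.mul_self_sqrt hμ.le).symm⟩
  obtain ⟨t, ht⟩ : ∃ t : ℝ, t * t * (l * q e0 e0) = 1 :=
    ⟨√(l * q e0 e0)⁻¹, by
      rw [Real.mul_self_sqrt (by positivity)]
      exact inv_mul_cancel₀ (by positivity)⟩
  have a3 : q e0 (K e0) = 0 := by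
    have := hK e0 e0
    rw [hs] at this
    linarith
  refine ⟨l, t • e0, (-(t / l)) • K e0, ?_, ?_, ?_, ?_, ?_⟩
  · rw [map_smul, smul_smul]
    congr 1
    field_simp
  · rw [map_smul, he', smul_smul, smul_smul]
    congr 1
    field_simp
  · simp only [map_smul, LinearMap.smul_apply, smul_eq_mul]
    linear_combination ht
  · simp only [map_smul, LinearMap.smul_apply, smul_eq_mul, a2]
    rw [← ht]
    field_simp
  · simp only [map_smul, LinearMap.smul_apply, smul_eq_mul, a3, mul_zero]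

theorem aux (m : ℕ) : ∀ (E : Type) [AddCommGroup E] [Module ℝ E] [FiniteDimensional ℝ E]
    (q : E →ₗ[ℝ] E →ₗ[ℝ] ℝ) (K : E →ₗ[ℝ] E), Module.finrank ℝ E ≤ m → (∀ u v, q u v = q v u) →
    (∀ u, u ≠ 0 → 0 < q u u) → (∀ u v, q (K u) v = -q u (K v)) → (∀ u, K u = 0 → u = 0) →
    ∃ (n : ℕ) (A : Hor n →ₗ[ℝ] E), Function.Surjective A ∧
      (∀ u v, q (K (A u)) (A v) = om u v) ∧ ∀ u, q (A (JH u)) (A (JH u)) = q (A u) (A u) := by
  have triv : ∀ (E : Type) [AddCommGroup E] [Module ℝ E] [Subsingleton E]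
      (q : E →ₗ[ℝ] E →ₗ[ℝ] ℝ) (K : E →ₗ[ℝ] E), ∃ (n : ℕ) (A : Hor n →ₗ[ℝ] E),
      Function.Surjective A ∧ (∀ u v, q (K (A u)) (A v) = om u v) ∧
        ∀ u, q (A (JH u)) (A (JH u)) = q (A u) (A u) := fun E _ _ _ q K =>
    ⟨0, 0, fun v => ⟨0, Subsingleton.elim _ _⟩, fun u v => by simp [om], fun u => by simp⟩
  induction m with
  | zero =>
    intro E _ _ _ q K hm _ _ _ _
    have := Module.finrank_zero_iff.1 (Nat.le_zero.1 hm)
    exact triv E q K
  | succ m ih =>
    intro E _ _ _ q K hm hs hp hK hi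
    rcases subsingleton_or_nontrivial E with h0 | h0
    · exact triv E q K
    obtain ⟨l, e, f, ke, kf, qe, qf, ef⟩ := plane E q hs hp K hK hi
    have fe : q f e = 0 := by rw [hs, ef]
    have l0 : l ≠ 0 := fun h => by simp [h] at qe
    have qef : q f f = q e e := mul_left_cancel₀ l0 (qf.trans qe.symm)
    let E' : Submodule ℝ E := LinearMap.ker (q e) ⊓ LinearMap.ker (q f)
    have hE : ∀ x : E', q e x = 0 ∧ q f x = 0 ∧ q x e = 0 ∧ q x f = 0 := fun x =>
      ⟨x.2.1, x.2.2, by rw [hs]; exact x.2.1, by rw [hs]; exact x.2.2⟩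
    have hKE : ∀ x ∈ E', K x ∈ E' := fun x hx => by
      have a1 : q e x = 0 := hx.1
      have a2 : q f x = 0 := hx.2
      have a3 := hK e x
      have a4 := hK f x
      rw [ke] at a3
      rw [kf] at a4
      simp only [map_smul, LinearMap.smul_apply, smul_eq_mul, a1, a2, mul_zero] at a3 a4
      exact ⟨neg_eq_zero.1 a3.symm, neg_eq_zero.1 a4.symm⟩
    have hv : ∀ v, v - (l * q e v) • e - (l * q f v) • f ∈ E' := fun v =>
      ⟨by
        simp only [SetLike.mem_coe, LinearMap.mem_ker, map_sub, map_smul, smul_eq_mul, ef]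
        linear_combination (-q e v) * qe, by
        simp only [SetLike.mem_coe, LinearMap.mem_ker, map_sub, map_smul, smul_eq_mul, fe]
        linear_combination (-q f v) * qf⟩
    have hlt : Module.finrank ℝ E' < Module.finrank ℝ E := by
      refine Submodule.finrank_lt fun h => ?_
      have : e ∈ E' := h ▸ Submodule.mem_top
      have h1 : q e e = 0 := this.1
      simp [h1] at qe
    obtain ⟨n, A, g1, g2, g3⟩ := ih E' (q.compl₁₂ E'.subtype E'.subtype) (K.restrict hKE)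
      (by omega) (fun u v => hs u v) (fun u hu => hp u fun h => hu (Subtype.ext h))
      (fun u v => hK u v) (fun u hu => Subtype.ext (hi u (congrArg Subtype.val hu)))
    have g2' : ∀ u v, q (K (A u)) (A v) = om u v := g2
    have g3' : ∀ u, q (A (JH u)) (A (JH u)) = q (A u) (A u) := g3
    have k1 : ∀ x : E', q (K x) e = 0 := fun x => (hE ⟨_, hKE x x.2⟩).2.2.1
    have k2 : ∀ x : E', q (K x) f = 0 := fun x => (hE ⟨_, hKE x x.2⟩).2.2.2
    refine ⟨n + 1, (h1 n).smulRight e + (h2 n).smulRight f + E'.subtype.comp (A.comp (tl n)),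
      fun v => ?_, fun u v => ?_, fun u => ?_⟩
    · obtain ⟨w, hw⟩ := g1 ⟨_, hv v⟩
      refine ⟨(Fin.cons (l * q e v) w.1, Fin.cons (l * q f v) w.2), ?_⟩
      have e1 : tl n (Fin.cons (l * q e v) w.1, Fin.cons (l * q f v) w.2) = w := rfl
      have e2 : h1 n (Fin.cons (l * q e v) w.1, Fin.cons (l * q f v) w.2) = l * q e v := rfl
      have e3 : h2 n (Fin.cons (l * q e v) w.1, Fin.cons (l * q f v) w.2) = l * q f v := rfl
      simp only [LinearMap.add_apply, LinearMap.smulRight_apply, LinearMap.comp_apply, e1, e2, e3,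
        hw, Submodule.subtype_apply]
      module
    · simp only [LinearMap.add_apply, LinearMap.smulRight_apply, LinearMap.comp_apply,
        Submodule.subtype_apply, map_add, map_smul, LinearMap.smul_apply, smul_eq_mul, ke, kf,
        g2', k1, k2, ef, fe, (hE _).1, (hE _).2.1, om_succ]
      linear_combination (h2 n u * h1 n v) * qe - (h1 n u * h2 n v) * qf
    · have e1 : tl n (JH u) = JH (tl n u) := rfl
      have e2 : h1 n (JH u) = h2 n u := rfl
      have e3 : h2 n (JH u) = -h1 n u := rfl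
      simp only [LinearMap.add_apply, LinearMap.smulRight_apply, LinearMap.comp_apply,
        Submodule.subtype_apply, map_add, map_smul, LinearMap.smul_apply, smul_eq_mul, e1, e2, e3,
        g3', ef, fe, qef, (hE _).1, (hE _).2.1, (hE _).2.2.1, (hE _).2.2.2]
      ring

/-- the form as a bilinear map -/
def omL (m : ℕ) : Hor m →ₗ[ℝ] Hor m →ₗ[ℝ] ℝ :=
  LinearMap.mk₂ ℝ om
    (fun a b c => by
      rw [om, om, om, ← Finset.sum_add_distrib]
      exact Finset.sum_congr rfl fun _ _ => by simp; ring)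
    (fun a b c => by
      rw [om, om, smul_eq_mul, Finset.mul_sum]
      exact Finset.sum_congr rfl fun _ _ => by simp; ring)
    (fun a b c => by
      rw [om, om, om, ← Finset.sum_add_distrib]
      exact Finset.sum_congr rfl fun _ _ => by simp; ring)
    (fun a b c => by
      rw [om, om, smul_eq_mul, Finset.mul_sum]
      exact Finset.sum_congr rfl fun _ _ => by simp; ring)

theorem om_nondeg {m : ℕ} {u : Hor m} (h : ∀ v, om u v = 0) : u = 0 := by
  ext i
  · have := h (0, Pi.single i 1)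
    simpa [om, Pi.single_apply] using this
  · have := h (Pi.single i 1, 0)
    simpa [om, Pi.single_apply] using this

end La1Aux

open La1Aux in
theorem la1 : La1Stmt := by
  intro m q hs hp
  let q' : Hor m →ₗ[ℝ] Hor m →ₗ[ℝ] ℝ := LinearMap.mk₂ ℝ (fun u v => q u v)
    (fun a b c => by simp) (fun a b c => by simp) (fun a b c => by simp) (fun a b c => by simp)
  have qi : Function.Injective q' := (injective_iff_map_eq_zero q').2 fun u hu =>
    by_contra fun h => (hp u h).ne' (LinearMap.congr_fun hu u)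
  let qe : Hor m ≃ₗ[ℝ] Module.Dual ℝ (Hor m) :=
    LinearMap.linearEquivOfInjective q' qi Subspace.dual_finrank_eq.symm
  let K : Hor m →ₗ[ℝ] Hor m := qe.symm.toLinearMap.comp (omL m)
  have hK : ∀ u v, q' (K u) v = om u v := fun u v =>
    LinearMap.congr_fun (qe.apply_symm_apply (omL m u)) v
  obtain ⟨n, A, g1, g2, g3⟩ := aux _ (Hor m) q' K le_rfl hs hp
    (fun u v => by rw [show q' u (K v) = q' (K v) u from hs _ _, hK, hK, om_swap])
    (fun u hu => om_nondeg fun v => by rw [← hK, hu]; simp)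
  have gi : Function.Injective A := (injective_iff_map_eq_zero A).2 fun u hu =>
    om_nondeg fun v => by rw [← g2, hu]; simp
  let A' := LinearEquiv.ofBijective A ⟨gi, g1⟩
  obtain rfl : n = m := by
    have := A'.finrank_eq
    simp only [Module.finrank_prod, Module.finrank_fin_fun] at this
    omega
  exact ⟨LinearMap.toContinuousLinearMap A, LinearMap.toContinuousLinearMap A'.symm.toLinearMap,
    hs, hp, fun u v => by rw [one_mul, ← g2 u v, hK]; rfl, A'.symm_apply_apply,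
    A'.apply_symm_apply, g3⟩

end Pool.Agent.MP_6d695c_gt.P

end PkLa1

section PkLa2

/-! PROJECT P, row La2: two-sided bounds give a bound in adapted frames. -/

open scoped Manifold ContDiff Topology MeasureTheory
open Set Metric Filter Real

namespace Pool.Agent.MP_6d695c_gt.P

open SW T1 Theta

namespace La2Aux

variable {m : ℕ}

/-- the Euclidean product -/
def ip (u v : Hor m) : ℝ := ∑ j, (u.1 j * v.1 j + u.2 j * v.2 j)

theorem ip_J (u v : Hor m) : ip (JH u) v = om u v :=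
  Finset.sum_congr rfl fun j _ => by simp only [JH, Pi.neg_apply]; ring

theorem om_J (u v : Hor m) : om (JH u) v = -ip u v := by
  rw [om, ip, ← Finset.sum_neg_distrib]
  exact Finset.sum_congr rfl fun j _ => by simp only [JH, Pi.neg_apply]; ring

theorem ip_lin (a b : ℝ) (u v w : Hor m) : ip (a • u + b • v) w = a * ip u w + b * ip v w := by
  simp only [ip, Finset.mul_sum, ← Finset.sum_add_distrib]
  exact Finset.sum_congr rfl fun j _ => by
    simp only [Prod.fst_add, Prod.snd_add, Prod.smul_fst, Prod.smul_snd, Pi.add_apply, Pi.smul_apply,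
      smul_eq_mul]
    ring

theorem ip_sq (t : ℝ) (u v : Hor m) :
    ip (u + t • v) (u + t • v) = ip v v * (t * t) + 2 * ip u v * t + ip u u := by
  simp only [ip, Finset.mul_sum, Finset.sum_mul, ← Finset.sum_add_distrib]
  exact Finset.sum_congr rfl fun j _ => by
    simp only [Prod.fst_add, Prod.snd_add, Prod.smul_fst, Prod.smul_snd, Pi.add_apply, Pi.smul_apply,
      smul_eq_mul]
    ring

theorem ip_smul (t : ℝ) (u : Hor m) : ip (t • u) (t • u) = t ^ 2 * ip u u := by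
  simp only [ip, Finset.mul_sum]
  exact Finset.sum_congr rfl fun j _ => by
    simp only [Prod.smul_fst, Prod.smul_snd, Pi.smul_apply, smul_eq_mul]
    ring

theorem ip_nonneg (u : Hor m) : 0 ≤ ip u u :=
  Finset.sum_nonneg fun _ _ => add_nonneg (mul_self_nonneg _) (mul_self_nonneg _)

theorem norm_le_of_ip {u : Hor m} {r : ℝ} (hr : 0 ≤ r) (h : ip u u ≤ r ^ 2) : ‖u‖ ≤ r := by
  have a : ∀ j, u.1 j * u.1 j + u.2 j * u.2 j ≤ r ^ 2 := fun j =>
    (Finset.single_le_sum (f := fun j => u.1 j * u.1 j + u.2 j * u.2 j)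
      (fun _ _ => add_nonneg (mul_self_nonneg _) (mul_self_nonneg _)) (Finset.mem_univ j)).trans h
  refine norm_prod_le_iff.2 ⟨(pi_norm_le_iff_of_nonneg hr).2 fun j => ?_,
    (pi_norm_le_iff_of_nonneg hr).2 fun j => ?_⟩
  · exact abs_le_of_sq_le_sq (by nlinarith [a j, mul_self_nonneg (u.2 j)]) hr
  · exact abs_le_of_sq_le_sq (by nlinarith [a j, mul_self_nonneg (u.1 j)]) hr

theorem ip_eq_zero {u : Hor m} (h : ip u u = 0) : u = 0 :=
  norm_le_zero_iff.1 (norm_le_of_ip le_rfl (by rw [h]; norm_num))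

theorem ip_le (u : Hor m) : ip u u ≤ 2 * m * ‖u‖ ^ 2 := by
  have := Finset.sum_le_card_nsmul Finset.univ (fun j => u.1 j * u.1 j + u.2 j * u.2 j)
    (2 * ‖u‖ ^ 2) fun j _ => by
      have a : |u.1 j| ≤ ‖u‖ := (norm_le_pi_norm u.1 j).trans (norm_fst_le u)
      have b : |u.2 j| ≤ ‖u‖ := (norm_le_pi_norm u.2 j).trans (norm_snd_le u)
      have a' := pow_le_pow_left₀ (abs_nonneg _) a 2
      have b' := pow_le_pow_left₀ (abs_nonneg _) b 2
      rw [sq_abs] at a' b'
      nlinarith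
  simp only [Finset.card_univ, Fintype.card_fin, nsmul_eq_mul] at this
  rw [ip]
  linarith

theorem ip_cont : Continuous fun u : Hor m => ip u u := by
  unfold ip
  fun_prop

/-- a direction of maximal stretching -/
theorem exists_top (T : Hor m →L[ℝ] Hor m) : ∃ (s : ℝ) (v : Hor m),
    (∀ x, ip (T x) (T x) ≤ s * ip x x) ∧ (s = 0 ∨ (v ≠ 0 ∧ ∀ x, ip (T v) (T x) = s * ip v x)) := by
  have hK : IsCompact {x : Hor m | ip x x ≤ 1} :=
    (isCompact_closedBall (0 : Hor m) 1).of_isClosed_subset (isClosed_le ip_cont continuous_const)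
      fun x hx => mem_closedBall_zero_iff.2 (norm_le_of_ip zero_le_one (by simpa using hx))
  obtain ⟨v, hv, hm⟩ := hK.exists_isMaxOn ⟨0, by simp [ip]⟩
    (ip_cont.comp T.continuous).continuousOn
  have up : ∀ x, ip (T x) (T x) ≤ ip (T v) (T v) * ip x x := fun x => by
    rcases (ip_nonneg x).eq_or_lt with e | e
    · rw [ip_eq_zero e.symm]
      simp [ip]
    have a : ((√(ip x x))⁻¹) ^ 2 = (ip x x)⁻¹ := by rw [inv_pow, sq_sqrt e.le]
    have b : ip (T ((√(ip x x))⁻¹ • x)) (T ((√(ip x x))⁻¹ • x)) ≤ ip (T v) (T v) :=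
      hm (show ip _ _ ≤ 1 by rw [ip_smul, a, inv_mul_cancel₀ e.ne'])
    rw [map_smul, ip_smul, a, inv_mul_le_iff₀ e] at b
    linarith
  refine ⟨_, v, up, or_iff_not_imp_left.2 fun s0 => ⟨fun e => s0 (by rw [e]; simp [ip]), fun x => ?_⟩⟩
  have e : ip (T v) (T v) * ip v v = ip (T v) (T v) :=
    le_antisymm (mul_le_of_le_one_right (ip_nonneg _) hv) (up v)
  have d := discrim_le_zero (a := ip (T v) (T v) * ip x x - ip (T x) (T x))
    (b := 2 * (ip (T v) (T v) * ip v x - ip (T v) (T x))) (c := 0) fun t => by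
      have := up (v + t • x)
      rw [map_add, map_smul, ip_sq, ip_sq] at this
      linarith
  rw [discrim] at d
  have := pow_eq_zero_iff (two_ne_zero) |>.1 (le_antisymm (by linarith) (sq_nonneg
    (2 * (ip (T v) (T v) * ip v x - ip (T v) (T x)))))
  linarith

/-- the bound for the Euclidean norm -/
theorem core {T : Hor m →L[ℝ] Hor m} {p p' : Hor m → ℝ} {f c : ℝ} (hT : Sym T f) (hf : 0 < f)
    (pp : ∀ u, u ≠ 0 → 0 < p u) (pJ : ∀ u, p (JH u) = p u) (pJ' : ∀ u, p' (JH u) = p' u)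
    (ps : ∀ (t : ℝ) u, p' (t • u) = t ^ 2 * p' u) (h1 : ∀ u, p' (T u) ≤ c ^ 2 * p u)
    (h2 : ∀ u, f ^ 2 * p u ≤ c ^ 2 * p' (T u)) (x : Hor m) : ip (T x) (T x) ≤ c ^ 2 * ip x x := by
  obtain ⟨s, v, up, h⟩ := exists_top T
  refine (up x).trans (mul_le_mul_of_nonneg_right ?_ (ip_nonneg x))
  rcases h with rfl | ⟨v0, h⟩
  · exact sq_nonneg c
  have inj : Function.Injective T := (injective_iff_map_eq_zero T).2 fun u e => by_contra fun n => by
    have a := h2 u
    have b := ps 0 0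
    rw [zero_smul] at b
    rw [e, b] at a
    nlinarith [mul_pos (pow_pos hf 2) (pp u n)]
  have sur : Function.Surjective T :=
    (LinearMap.injective_iff_surjective (f := (T : Hor m →ₗ[ℝ] Hor m))).1 inj
  obtain ⟨y, hy⟩ := sur (s • JH (T (JH v)) + f • T v)
  have z : s • JH (T (JH v)) + f • T v = 0 := ip_eq_zero (by
    nth_rewrite 2 [← hy]
    rw [ip_lin, ip_J, hT, om_J, h]
    ring)
  have e : s ^ 2 * p' (T (JH v)) = f ^ 2 * p' (T v) := by
    rw [← pJ' (T (JH v)), ← ps, eq_neg_of_add_eq_zero_left z, ← neg_smul, ps, neg_sq]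
  have a := mul_le_mul_of_nonneg_left (h2 (JH v)) (sq_nonneg s)
  have b := mul_le_mul_of_nonneg_left (h1 v) (mul_nonneg (sq_nonneg c) (sq_nonneg f))
  rw [pJ, mul_left_comm _ (c ^ 2), e] at a
  have k : s ^ 2 ≤ (c ^ 2) ^ 2 :=
    le_of_mul_le_mul_right (by linarith) (mul_pos (pow_pos hf 2) (pp v v0))
  exact (le_abs_self s).trans (abs_le_of_sq_le_sq k (sq_nonneg c))

end La2Aux

open La2Aux in
theorem la2 : La2Stmt := by
  intro m
  have m0 : (0 : ℝ) ≤ m := Nat.cast_nonneg m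
  refine ⟨2 * m + 1, by linarith, fun q q' B B' D D' A f c hB hD hA hf hc h1 h2 => ?_⟩
  have hT : Sym (D'.comp (A.comp B)) f := by
    simpa using (hD.sym.inv hD.ri).comp (hA.comp hB.sym)
  refine ContinuousLinearMap.opNorm_le_bound _ (by positivity) fun x => ?_
  have k := core (p := fun u => q (B u) (B u)) (p' := fun u => q' (D u) (D u)) (c := c) hT hf
    (fun u n => hB.pos _ fun e => n (by rw [← hB.li u, e, map_zero])) hB.cm hD.cm
    (fun t u => by simp only [map_smul, ContinuousLinearMap.smul_apply, smul_eq_mul]; ring)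
    (fun u => by simpa only [ContinuousLinearMap.comp_apply, hD.ri] using h1 (B u))
    (fun u => by simpa only [ContinuousLinearMap.comp_apply, hD.ri] using h2 (B u)) x
  refine norm_le_of_ip (by positivity) (k.trans ?_)
  have := mul_le_mul_of_nonneg_left (ip_le x) (sq_nonneg c)
  have t : 0 ≤ (4 * (m : ℝ) ^ 2 + 2 * m + 1) * (c ^ 2 * ‖x‖ ^ 2) := by positivity
  linarith

end Pool.Agent.MP_6d695c_gt.P

end PkLa2

section PkFrame

/-! PROJECT P, row FRAME: adapted frames over the towers. -/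

open scoped Manifold ContDiff Topology MeasureTheory
open Set Metric Filter Real

namespace Pool.Agent.MP_6d695c_gt.P

open SW T1 Theta

namespace FrameAux

variable {m : ℕ}

/-- positive forms over a compact set are comparable at nearby points -/
theorem near_le {K : Set (Y m)} (hK : IsCompact K) {q : Y m → Hor m →L[ℝ] Hor m →L[ℝ] ℝ}
    (hq : ContinuousOn q K) (hp : ∀ y ∈ K, ∀ u, u ≠ 0 → 0 < q y u u) :
    ∃ δ, 0 < δ ∧ ∀ y ∈ K, ∀ y' ∈ K, ‖y - y'‖ ≤ δ → ∀ u, q y u u ≤ 2 ^ 2 * q y' u u := by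
  have hc : ContinuousOn (fun p : Y m × Hor m => q p.1 p.2 p.2) (K ×ˢ sphere 0 1) :=
    (((hq.comp continuous_fst.continuousOn fun p hp => hp.1).clm_apply
      continuous_snd.continuousOn).clm_apply continuous_snd.continuousOn)
  obtain ⟨μ, hμ, hle⟩ := (hK.prod (isCompact_sphere (0 : Hor m) 1)).exists_forall_le' hc
    (a := 0) fun p h => hp p.1 h.1 p.2 (by
      intro e
      have := h.2
      rw [e] at this
      simp at this)
  have low : ∀ y ∈ K, ∀ u, μ * ‖u‖ ^ 2 ≤ q y u u := fun y hy u => by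
    rcases eq_or_ne u 0 with rfl | hu
    · simp
    · have h0 : 0 < ‖u‖ := norm_pos_iff.2 hu
      have h1 := hle (y, ‖u‖⁻¹ • u) ⟨hy, by simp [norm_smul, h0.ne']⟩
      simp only [map_smul, smul_apply, smul_eq_mul] at h1
      have h2 : ‖u‖⁻¹ * (‖u‖⁻¹ * q y u u) * ‖u‖ ^ 2 = q y u u := by field_simp
      rw [← h2]
      exact mul_le_mul_of_nonneg_right h1 (sq_nonneg _)
  obtain ⟨δ, hδ, H⟩ := (Metric.uniformContinuousOn_iff_le (f := q) (s := K)).1
    (IsCompact.uniformContinuousOn_of_continuous (f := q) hK (by exact hq)) μ hμ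
  refine ⟨δ, hδ, fun y hy y' hy' h u => ?_⟩
  have h1 : ‖q y - q y'‖ ≤ μ :=
    (dist_eq_norm (q y) (q y')).ge.trans (H y hy y' hy' (by rwa [dist_eq_norm]))
  have h2 := (q y - q y').le_opNorm₂ u u
  have h3 : ‖q y - q y'‖ * ‖u‖ * ‖u‖ ≤ μ * ‖u‖ ^ 2 := by
    rw [mul_assoc, ← sq]
    exact mul_le_mul_of_nonneg_right h1 (sq_nonneg _)
  have h4 : (q y - q y') u u = q y u u - q y' u u := rfl
  rw [h4, Real.norm_eq_abs] at h2
  have h5 := low y' hy' u
  have h6 : 0 ≤ μ * ‖u‖ ^ 2 := by positivity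
  linarith [le_abs_self (q y u u - q y' u u)]

/-- adapted frames over a compact set are uniformly controlled -/
theorem fr {Cb : ℝ} (h1 : 1 ≤ Cb)
    (hL : ∀ (q q' : Hor m →L[ℝ] Hor m →L[ℝ] ℝ) (B B' D D' A : Hor m →L[ℝ] Hor m) (f c : ℝ),
      Adp q B B' → Adp q' D D' → Sym A f → 0 < f → 0 < c →
      (∀ v, q' (A v) (A v) ≤ c ^ 2 * q v v) → (∀ v, f ^ 2 * q v v ≤ c ^ 2 * q' (A v) (A v)) →
      ‖D'.comp (A.comp B)‖ ≤ Cb * c)
    {K : Set (Y m)} (hK : IsCompact K) {q : Y m → Hor m →L[ℝ] Hor m →L[ℝ] ℝ}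
    (hq : ContinuousOn q K) {B B' : Y m → Hor m →L[ℝ] Hor m}
    (ha : ∀ y ∈ K, Adp (q y) (B y) (B' y)) : ∃ C₀, ∀ C, C₀ ≤ C → Fr K B B' C (Cb * 3) := by
  obtain ⟨δ, hδ, H⟩ := near_le hK hq fun y hy => (ha y hy).pos
  have nr : ∀ y ∈ K, ∀ y' ∈ K, ‖y - y'‖ ≤ δ → ‖(B' y).comp (B y')‖ ≤ Cb * 3 :=
    fun y hy y' hy' h => by
      have := hL (q y') (q y) (B y') (B' y') (B y) (B' y) (ContinuousLinearMap.id ℝ _) 1 2
        (ha y' hy') (ha y hy) (fun u v => by simp) one_pos two_pos (fun v => H y hy y' hy' h v)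
        fun v => by
          rw [one_pow, one_mul]
          exact H y' hy' y hy (by rwa [norm_sub_rev]) v
      rw [ContinuousLinearMap.id_comp] at this
      linarith
  obtain ⟨T, hT, hfin, hcov⟩ := hK.finite_cover_balls hδ
  obtain ⟨C₁, hC₁⟩ := (hfin.image fun z => max ‖B z‖ ‖B' z‖).bddAbove
  obtain ⟨C₂, hC₂⟩ := hK.isBounded.exists_norm_le
  refine ⟨max (max 1 δ⁻¹) (max C₂ (C₁ * (Cb * 3))), fun C hC => ?_⟩
  simp only [max_le_iff] at hC
  obtain ⟨⟨c1, c2⟩, c3, c4⟩ := hC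
  refine ⟨c1, fun y hy => (ha y hy).sym, fun y hy => (ha y hy).li, fun y hy => (ha y hy).ri,
    fun y hy => ?_, fun y hy y' hy' h => nr y hy y' hy' (h.trans ?_)⟩
  · obtain ⟨z, hz, hyz⟩ := mem_iUnion₂.1 (hcov hy)
    have d1 : ‖y - z‖ ≤ δ := (mem_ball_iff_norm.1 hyz).le
    have b := max_le_iff.1 (hC₁ ⟨z, hz, rfl⟩)
    have n1 := nr y hy z (hT hz) d1
    have n2 := nr z (hT hz) y hy (by rwa [norm_sub_rev])
    have p0 : 0 ≤ C₁ := (norm_nonneg _).trans b.1
    refine ⟨(hC₂ y hy).trans c3, le_trans ?_ c4, le_trans ?_ c4⟩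
    · have e : B y = (B z).comp ((B' z).comp (B y)) :=
        ContinuousLinearMap.ext fun u => ((ha z (hT hz)).ri _).symm
      rw [e]
      exact (ContinuousLinearMap.opNorm_comp_le _ _).trans
        (mul_le_mul b.1 n2 (norm_nonneg _) p0)
    · have e : B' y = ((B' y).comp (B z)).comp (B' z) :=
        ContinuousLinearMap.ext fun u => congrArg (B' y) ((ha z (hT hz)).ri u).symm
      rw [e, mul_comm]
      exact (ContinuousLinearMap.opNorm_comp_le _ _).trans
        (mul_le_mul n1 b.2 (norm_nonneg _) (by linarith))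
  · exact inv_le_of_inv_le₀ hδ c2

variable {V : Type} [NormedAddCommGroup V] [NormedSpace ℝ V]

/-- the contact planes of a transversal -/
noncomputable def Wg (g : Y m → V) (y : Y m) : Hor m →L[ℝ] V :=
  (fderiv ℝ g y).comp ((Lt y).comp (ContinuousLinearMap.inr ℝ ℝ (Hor m)))

theorem Wg_apply (g : Y m → V) (y : Y m) (u : Hor m) : Wg g y u = fderiv ℝ g y (Lt y (0, u)) := rfl

theorem Wg_cont {g : Y m → V} (hg : ContDiff ℝ ∞ g) : Continuous (Wg g) :=
  (hg.continuous_fderiv (by simp)).clm_comp (contDiff_Lt.continuous.clm_comp continuous_const)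

variable {Z : V → V} {fl : ℝ → V → V}

theorem dPs (hf : IsFlow Z fl) {g : Y m → V} (hg : ContDiff ℝ ∞ g) (y : Y m) (a : ℝ) (w : Y m) :
    fderiv ℝ (Ps fl g) (0, y) (a, w) = a • Z (g y) + fderiv ℝ g y w := by
  have h1 : HasFDerivAt (fun q : ℝ × Y m => (q.1, g q.2)) _ (0, y) :=
    hasFDerivAt_fst.prodMk
      ((hg.differentiable (by simp) y).hasFDerivAt.comp ((0 : ℝ), y) hasFDerivAt_snd)
  have h2 := (hf.sm.differentiable (by simp) (0, g y)).hasFDerivAt.comp ((0 : ℝ), y) h1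
  have h3 := T1.Lie.flow_fderiv hf 0 (g y) a (fderiv ℝ g y w)
  rw [show fl 0 = id from funext hf.zero, fderiv_id] at h3
  rw [show fderiv ℝ (Ps fl g) (0, y) = _ from h2.fderiv]
  exact h3

/-- the form on the contact planes -/
noncomputable def qf (Q : V → V →L[ℝ] V →L[ℝ] ℝ) (g : Y m → V) (y : Y m) :
    Hor m →L[ℝ] Hor m →L[ℝ] ℝ :=
  ((ContinuousLinearMap.compL ℝ (Hor m) V ℝ).flip (Wg g y)).comp ((Q (g y)).comp (Wg g y))

theorem qf_apply (Q : V → V →L[ℝ] V →L[ℝ] ℝ) (g : Y m → V) (y : Y m) (u v : Hor m) :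
    qf Q g y u v = Q (g y) (Wg g y u) (Wg g y v) := rfl

theorem qf_cont {Q : V → V →L[ℝ] V →L[ℝ] ℝ} {g : Y m → V} (hg : ContDiff ℝ ∞ g) {U : Set V}
    (hQ : ContinuousOn Q U) {K : Set (Y m)} (hK : ∀ y ∈ K, g y ∈ U) : ContinuousOn (qf Q g) K :=
  ((ContinuousLinearMap.compL ℝ (Hor m) V ℝ).flip.continuous.comp
    (Wg_cont hg)).continuousOn.clm_comp
    ((hQ.comp hg.continuous.continuousOn hK).clm_comp (Wg_cont hg).continuousOn)

theorem al0_Lt (y : Y m) (u : Hor m) : al0 y (Lt y (0, u)) = 0 := by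
  change (Lt (-y) (Lt y (0, u))).1 = 0
  rw [Lt_neg_Lt]

theorem eq_Lt {y ξ : Y m} (h : al0 y ξ = 0) : Lt y (0, ξ.2) = ξ := by
  have e : Lt (-y) ξ = (0, ξ.2) := Prod.ext h rfl
  rw [← e, Lt_Lt_neg]

theorem lam0_zero (y : Y m) (v : ℝ × Y m) : lam0 (0, y) v = al0 y v.2 := by simp [lam0]

end FrameAux

open FrameAux

theorem frame (hLa1 : La1Stmt) (hLa2 : La2Stmt) (hSymH : SymHStmt) (hHolC : HolCStmt)
    (_hNbr : NbrStmt) (_hXBox : XBoxStmt) : FrameStmt := by
  intro m
  obtain ⟨Cb, hCb, hL⟩ := hLa2 m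
  refine ⟨Cb * 3, by linarith, ?_⟩
  intro V E _ _ _ _ _ M U K' K'' l Pi φ Z fl I _ τ H S₀ S Q hA' hc hK hLie hT hU hQ
  have hf := hc.flow
  have bot : ∀ i, ∀ y ∈ cthickening (8 * τ.ρ) (τ.A i),
      ((0 : ℝ), y) ∈ τ.reg i (-1) (H + 1) 10 := fun i y hy => hT.bot (by norm_num) hy
  have inU : ∀ i, ∀ y ∈ cthickening (8 * τ.ρ) (τ.A i), τ.g i y ∈ U := fun i y hy => by
    rw [← Ps_zero hf (τ.g i) y]
    exact hU (hT.inK (hT.ins i _ (bot i y hy)))
  have ex : ∀ i y, ∃ B B' : Hor m →L[ℝ] Hor m,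
      y ∈ cthickening (8 * τ.ρ) (τ.A i) → Adp (qf Q (τ.g i) y) B B' := fun i y => by
    by_cases hy : y ∈ cthickening (8 * τ.ρ) (τ.A i)
    · obtain ⟨B, B', h⟩ := hLa1 m (qf Q (τ.g i) y) (fun u v => hQ.symm _ _ _) fun u hu => by
        refine lt_of_le_of_ne (hQ.nn _ _) fun e => hu ?_
        obtain ⟨a, ha⟩ := hQ.pos _ (inU i y hy) (Wg (τ.g i) y u) e.symm
        have h1 := (hT.box i).par.dr_dg (hT.mem (bot i y hy)) (-a, Lt y (0, u))
        rw [dPs hf (hT.box i).sg, ← Wg_apply, ha, neg_smul, neg_add_cancel, map_zero] at h1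
        exact (congrArg (fun p : ℝ × Y m => p.2.2) h1).symm
      exact ⟨B, B', fun _ => h⟩
    · exact ⟨0, 0, fun h => absurd h hy⟩
  choose B B' hB using ex
  choose C₀ hC₀ using fun i => fr hCb hL (hT.cpt i).cthickening
    (qf_cont (hT.box i).sg hQ.cont (inU i)) (hB i)
  obtain ⟨C₁, hC₁⟩ := (finite_range C₀).bddAbove
  refine ⟨B, B', C₁, fun C hC i => hC₀ i C ((hC₁ ⟨i, rfl⟩).trans hC), fun e he => ?_⟩
  obtain ⟨C₂, hC₂⟩ := hHolC V E m M K' K'' l Pi φ Z fl I τ H S₀ S hA' hc hK hLie hT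
  have hS := hSymH m _ _ _ _ (le_max_right C₂ 1) (hC₂ _ (le_max_left _ _) e he)
  obtain ⟨i, y, k, j, h, f⟩ := e
  obtain ⟨t, y', a, -, r1, r2⟩ := he
  dsimp only at a r1 r2 hS
  subst r1 r2
  have hρ := hT.ρpos
  have my : y ∈ cthickening (8 * τ.ρ) (τ.A i) := cthickening_mono (by linarith) _ a.my
  have my' : y' ∈ cthickening (8 * τ.ρ) (τ.A j) := cthickening_mono (by linarith) _ a.my'
  have e0 : hol fl τ i j t y = y' := a.hol_eq hf hT
  have hit : fl (-t) (τ.g i y) = τ.g j y' := a.hit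
  have t0 : 0 ≤ t := by linarith [a.mt.1, hT.Hle]
  have k1 := hT.kap (bot i y my)
  have k2 := hT.kap (bot j y' my')
  have lo := (hT.box i).low _ (hT.mem (bot i y my))
  rw [Ps_zero hf] at k1 k2 lo
  have key : ∀ u, qf Q (τ.g j) y' (hA (hol fl τ i j t) y u) (hA (hol fl τ i j t) y u) ≤
        9 * qf Q (τ.g i) y u u ∧ exp (-t) ^ 2 * qf Q (τ.g i) y u u ≤
        9 * qf Q (τ.g j) y' (hA (hol fl τ i j t) y u) (hA (hol fl τ i j t) y u) := fun u => by
    have d0 := dPs hf (hT.box i).sg y 0 (Lt y (0, u))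
    rw [zero_smul, zero_add, ← Wg_apply] at d0
    have tv : Wg (τ.g i) y u ∈ Tg M (τ.g i y) := by
      have := (hT.box i).par.tg (hT.mem (bot i y my))
      rw [Ps_zero hf] at this
      rw [this]
      exact ⟨_, d0⟩
    have lv : l (τ.g i y) (Wg (τ.g i) y u) = 0 := by
      have := (hT.box i).form _ (hT.mem (bot i y my)) (0, Lt y (0, u))
      rwa [Ps_zero hf, d0, lam0_zero, al0_Lt] at this
    have lie := hLie _ k1.1 (-t) (fun s hs => by
      rw [uIcc_of_ge (by linarith)] at hs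
      have := hK.back _ k1.1 (by linarith) (-s) (by linarith [hs.2])
      rw [neg_neg] at this
      exact this.trans_lt (max_lt (by linarith) (by norm_num))) _ tv
    have bd := hQ.bd _ k1.1 (inU i y my) t ⟨t0, a.mt.2⟩ (hit ▸ inU j y' my') _ tv lv
    obtain ⟨tw, lw, -⟩ := lie
    rw [lv, mul_zero] at lw
    have ch : fderiv ℝ (hol fl τ i j t) y (Lt y (0, u)) =
        (fderiv ℝ (τ.κ j) (fl (-t) (τ.g i y))
          (fderiv ℝ (fl (-t)) (τ.g i y) (Wg (τ.g i) y u))).2 := by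
      have c1 := ((hT.box i).sg.differentiable (by simp) y).hasFDerivAt
      have c2 := ((T1.Lie.flow_sm hf (-t)).differentiable (by simp) (τ.g i y)).hasFDerivAt
      have c3 := ((hT.box j).sκ.differentiable (by simp) (fl (-t) (τ.g i y))).hasFDerivAt
      have c4 := (c3.comp y (c2.comp y c1)).snd
      rw [show fderiv ℝ (hol fl τ i j t) y = _ from c4.fderiv]
      rfl
    rw [hit] at bd tw lw ch
    generalize fderiv ℝ (fl (-t)) (τ.g i y) (Wg (τ.g i) y u) = w at bd tw lw ch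
    have ret := (hT.box j).par.ret k2.1 k2.2.1 tw
    have fo := (hT.box j).form _ (hT.mem (bot j y' my')) (fderiv ℝ (τ.κ j) (τ.g j y') w)
    rw [k2.2.2] at ret
    rw [ret, Ps_zero hf, lw, lam0_zero] at fo
    have hx : hA (hol fl τ i j t) y u = (fderiv ℝ (τ.κ j) (τ.g j y') w).2.2 := congrArg Prod.snd ch
    generalize fderiv ℝ (τ.κ j) (τ.g j y') w = p at ret fo hx
    obtain ⟨b, ξ⟩ := p
    rw [dPs hf (hT.box j).sg, ← eq_Lt (ξ := ξ) fo.symm, ← Wg_apply] at ret
    have kl := hQ.kill _ (inU j y' my')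
    have e1 : Q (τ.g j y') w w = qf Q (τ.g j) y' ξ.2 ξ.2 := by
      have kr : ∀ v, Q (τ.g j y') v (Z (τ.g j y')) = 0 := fun v => by rw [hQ.symm, kl]
      rw [qf_apply, ← ret]
      simp only [map_add, map_smul, add_apply, smul_apply, kl, kr, smul_zero, zero_add, add_zero]
    rw [hx, ← e1]
    exact bd
  change ‖(B' j (hol fl τ i j t y)).comp ((hA (hol fl τ i j t) y).comp (B i y))‖ ≤ Cb * 3
  rw [e0]
  exact hL _ _ _ _ _ _ _ _ 3 (hB i y my) (hB j y' my') hS (exp_pos _) three_pos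
    (fun v => by have := (key v).1; linarith) fun v => by have := (key v).2; linarith

end Pool.Agent.MP_6d695c_gt.P

end PkFrame

section PkNormK

/-! PROJECT P: the Lyapunov form on the skeleton. -/

set_option linter.unusedVariables false

open scoped Manifold ContDiff Topology MeasureTheory
open Set Metric Filter Real

namespace Pool.Agent.MP_6d695c_gt.P

open SW T1 Theta

namespace NormKAux

/-- the weight -/
noncomputable def ow (ε s : ℝ) : ℝ := exp (min (4 * ε * s) (-((2 + 4 * ε) * s)))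

theorem ow_pos (ε s : ℝ) : 0 < ow ε s := exp_pos _

theorem ow_cont (ε : ℝ) : Continuous (ow ε) := by
  unfold ow
  fun_prop

theorem ow_shift {ε t : ℝ} (hε : 0 < ε) (h0 : 0 ≤ t) (h1 : 4 * ε * t ≤ 1) (s : ℝ) :
    ow ε (s + t) ≤ exp 1 * ow ε s ∧ exp (-t) ^ 2 * ow ε s ≤ exp 1 * ow ε (s + t) := by
  have h2 := mul_nonneg hε.le h0
  simp only [ow, sq, ← exp_add, exp_le_exp]
  constructor
  · rw [← min_add_add_left]
    exact min_le_min (by linarith) (by linarith)
  · rw [← min_add_add_left, ← min_add_add_left]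
    exact min_le_min (by linarith) (by linarith)

theorem core {ε S C : ℝ} (hε : 0 < ε) (hS : 0 ≤ S) (h4 : 4 * ε * S ≤ 1) (hC : 0 < C) :
    ∃ T : ℝ, 1 ≤ T ∧ ∀ n : ℝ → ℝ, Continuous n → (∀ s, 0 ≤ n s) →
      (∀ t, 0 ≤ t → n (-t) ≤ C * exp (ε * t) ^ 2 * n 0) →
      (∀ t, 0 ≤ t → n t ≤ C * exp ((1 + ε) * t) ^ 2 * n 0) →
      (∀ t, 0 ≤ t → n 0 ≤ C * exp (ε * t) ^ 2 * n t) → ∀ t ∈ Icc 0 S,
      ∫ s in -T..T, ow ε s * n (s - t) ≤ 6 * ∫ s in -T..T, ow ε s * n s ∧
      exp (-t) ^ 2 * ∫ s in -T..T, ow ε s * n s ≤ 6 * ∫ s in -T..T, ow ε s * n (s - t) := by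
  obtain ⟨C', hC', e'⟩ : ∃ C' : ℝ, 0 < C' ∧ C' = C * exp (2 + 6 * ε) := ⟨_, by positivity, rfl⟩
  obtain ⟨u, hu, hu'⟩ : ∃ u : ℝ, 1 ≤ u ∧ S * (C * exp (-(2 * ε * u)) * C') ≤ 1 / 2 := by
    have h0 : 0 ≤ S * C * C' / ε := by positivity
    refine ⟨1 + S * C * C' / ε, by linarith, ?_⟩
    have h1 := add_one_le_exp (2 * ε * (1 + S * C * C' / ε))
    rw [show 2 * ε * (1 + S * C * C' / ε) + 1 = 2 * ε + 2 * (S * C * C') + 1 by field_simp] at h1
    rw [exp_neg, show ∀ y : ℝ, S * (C * y⁻¹ * C') = S * C * C' / y from fun y => by ring,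
      div_le_iff₀ (exp_pos _)]
    linarith
  refine ⟨S + u, by linarith, fun n hn n0 b1 b2 b3 t ht => ?_⟩
  obtain ⟨t0, t1⟩ := ht
  set T := S + u with hT
  set f : ℝ → ℝ := fun s => ow ε s * n s with hf
  have fc : Continuous f := (ow_cont ε).mul hn
  have f0 : ∀ s, 0 ≤ f s := fun s => mul_nonneg (ow_pos ε s).le (n0 s)
  have fi : ∀ a b, IntervalIntegrable f MeasureTheory.volume a b := fc.intervalIntegrable
  set I := ∫ s in -T..T, f s with hI
  have I0 : 0 ≤ I := intervalIntegral.integral_nonneg (by linarith) fun s _ => f0 s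
  have a1 : n 0 ≤ C' * I := by
    have h1 : ∫ s in (0 : ℝ)..1, n 0 ≤ ∫ s in (0 : ℝ)..1, C' * f s :=
      intervalIntegral.integral_mono_on zero_le_one intervalIntegrable_const
        ((fi 0 1).const_mul _) fun s hs => (b3 s hs.1).trans (by
        rw [e', hf, ← mul_assoc, mul_assoc C (exp _) (ow _ _), ow, sq, ← exp_add, ← exp_add]
        refine mul_le_mul_of_nonneg_right (mul_le_mul_of_nonneg_left (exp_le_exp.2 ?_) hC.le) (n0 s)
        rw [← min_add_add_left]
        exact le_min (by nlinarith [hs.1, hs.2]) (by nlinarith [hs.1, hs.2]))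
    rw [intervalIntegral.integral_const_mul] at h1
    have h2 : ∫ s in (0 : ℝ)..1, f s ≤ I := intervalIntegral.integral_mono_interval (by linarith)
      zero_le_one (by linarith) (Eventually.of_forall f0) (fi _ _)
    simpa using h1.trans (mul_le_mul_of_nonneg_left h2 hC'.le)
  have a2 : ∀ s, u ≤ |s| → f s ≤ C * exp (-(2 * ε * u)) * C' * I := fun s hs => by
    have h1 : f s ≤ C * exp (-(2 * ε * u)) * n 0 := by
      rcases le_total 0 s with h | h
      · rw [abs_of_nonneg h] at hs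
        refine (mul_le_mul_of_nonneg_left (b2 s h) (ow_pos ε s).le).trans ?_
        rw [← mul_assoc, mul_left_comm, ow, sq, ← exp_add, ← exp_add]
        refine mul_le_mul_of_nonneg_right (mul_le_mul_of_nonneg_left (exp_le_exp.2 ?_) hC.le) (n0 0)
        nlinarith [min_le_right (4 * ε * s) (-((2 + 4 * ε) * s))]
      · rw [abs_of_nonpos h] at hs
        have h2 := b1 (-s) (by linarith)
        rw [neg_neg] at h2
        refine (mul_le_mul_of_nonneg_left h2 (ow_pos ε s).le).trans ?_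
        rw [← mul_assoc, mul_left_comm, ow, sq, ← exp_add, ← exp_add]
        refine mul_le_mul_of_nonneg_right (mul_le_mul_of_nonneg_left (exp_le_exp.2 ?_) hC.le) (n0 0)
        nlinarith [min_le_left (4 * ε * s) (-((2 + 4 * ε) * s))]
    rw [mul_assoc]
    exact h1.trans (mul_le_mul_of_nonneg_left a1 (by positivity))
  have a3 : ∀ a, (∀ s ∈ Icc (a - t) a, u ≤ |s|) →
      0 ≤ ∫ s in a - t..a, f s ∧ ∫ s in a - t..a, f s ≤ I / 2 := fun a ha => by
    refine ⟨intervalIntegral.integral_nonneg (by linarith) fun s _ => f0 s,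
      (intervalIntegral.integral_mono_on (by linarith) (fi _ _) intervalIntegrable_const
        fun s hs => a2 s (ha s hs)).trans ?_⟩
    rw [intervalIntegral.integral_const, smul_eq_mul, sub_sub_cancel, ← mul_assoc]
    have h1 : t * (C * exp (-(2 * ε * u)) * C') ≤ 1 / 2 :=
      (mul_le_mul_of_nonneg_right t1 (by positivity)).trans hu'
    nlinarith
  obtain ⟨l0, l1⟩ := a3 (-T) fun s hs => le_abs.2 (Or.inr (by linarith [hs.2]))
  obtain ⟨r0, r1⟩ := a3 T fun s hs => le_abs.2 (Or.inl (by linarith [hs.1]))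
  have e1 := intervalIntegral.integral_add_adjacent_intervals (fi (-T - t) (T - t)) (fi _ T)
  have e2 := intervalIntegral.integral_add_adjacent_intervals (fi (-T - t) (-T)) (fi _ T)
  have e3 : ∫ s in -T..T, ow ε s * n (s - t) = ∫ s in -T - t..T - t, ow ε (s + t) * n s := by
    rw [← intervalIntegral.integral_comp_sub_right (fun s => ow ε (s + t) * n s) t]
    simp only [sub_add_cancel]
  have gi : IntervalIntegrable (fun s => ow ε (s + t) * n s) MeasureTheory.volume (-T - t) (T - t) :=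
    (((ow_cont ε).comp (continuous_add_const t)).mul hn).intervalIntegrable _ _
  have hs := ow_shift hε t0 ((mul_le_mul_of_nonneg_left t1 (by positivity)).trans h4)
  have c1 := intervalIntegral.integral_mono_on (by linarith) gi ((fi _ _).const_mul (exp 1))
    fun s _ => (mul_le_mul_of_nonneg_right (hs s).1 (n0 s)).trans_eq (mul_assoc _ _ _)
  have c2 := intervalIntegral.integral_mono_on (by linarith) ((fi _ _).const_mul (exp (-t) ^ 2))
    (gi.const_mul (exp 1)) fun s _ => (mul_assoc _ _ _).symm.trans_le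
      ((mul_le_mul_of_nonneg_right (hs s).2 (n0 s)).trans_eq (mul_assoc _ _ _))
  rw [intervalIntegral.integral_const_mul] at c1
  rw [intervalIntegral.integral_const_mul, intervalIntegral.integral_const_mul] at c2
  have J0 : 0 ≤ ∫ s in -T - t..T - t, ow ε (s + t) * n s := intervalIntegral.integral_nonneg
    (by linarith) fun s _ => mul_nonneg (ow_pos ε _).le (n0 s)
  have e4 : exp 1 ≤ 3 := by linarith [exp_one_lt_d9]
  rw [e3]
  generalize (∫ s in -T - t..T - t, ow ε (s + t) * n s) = J at *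
  generalize (∫ s in -T - t..T - t, f s) = P at *
  have p1 : I ≤ 2 * P := by linarith
  have p2 : P ≤ 2 * I := by linarith
  constructor
  · nlinarith
  · nlinarith [sq_nonneg (exp (-t))]

variable {V H : Type} [NormedAddCommGroup V] [NormedSpace ℝ V] [NormedAddCommGroup H]
  [InnerProductSpace ℝ H] (e : V ≃L[ℝ] H)

/-- the scalar product -/
noncomputable def sp : V →L[ℝ] V →L[ℝ] ℝ :=
  (innerSL ℝ : H →L[ℝ] H →L[ℝ] ℝ).bilinearComp (e : V →L[ℝ] H) (e : V →L[ℝ] H)

/-- the scalar product on the quotient by `z`, pulled back by `D` -/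
noncomputable def gq (z : V) (D : V →L[ℝ] V) : V →L[ℝ] V →L[ℝ] ℝ :=
  (sp e z z • sp e - (sp e z).smulRight (sp e z)).bilinearComp D D

/-- its values -/
noncomputable def gv (z v w : V) : ℝ :=
  inner ℝ (e z) (e z) * inner ℝ (e v) (e w) - inner ℝ (e z) (e v) * inner ℝ (e z) (e w)

theorem gq_apply (z : V) (D : V →L[ℝ] V) (v w : V) : gq e z D v w = gv e z (D v) (D w) := rfl

theorem gv_symm (z v w : V) : gv e z v w = gv e z w v := by
  rw [gv, gv, real_inner_comm (e v) (e w), mul_comm (inner ℝ (e z) (e v))]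

theorem gv_nonneg (z v : V) : 0 ≤ gv e z v v := sub_nonneg.2 (real_inner_mul_inner_self_le _ _)

theorem gv_kill (z w : V) : gv e z z w = 0 := sub_self _

theorem gv_sub (z v : V) (a : ℝ) : gv e z (v - a • z) (v - a • z) = gv e z v v := by
  simp only [gv, map_sub, map_smul, inner_sub_left, inner_sub_right, real_inner_smul_left,
    real_inner_smul_right, real_inner_comm (e z) (e v)]
  ring

theorem gv_le (z v : V) : gv e z v v ≤ ‖e z‖ ^ 2 * ‖e v‖ ^ 2 := by
  rw [gv, real_inner_self_eq_norm_sq, real_inner_self_eq_norm_sq]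
  exact sub_le_self _ (mul_self_nonneg _)

theorem gv_eq {z : V} (hz : z ≠ 0) (v : V) :
    ∃ a : ℝ, gv e z v v = ‖e z‖ ^ 2 * ‖e (v - a • z)‖ ^ 2 := by
  have h : inner ℝ (e z) (e z) ≠ 0 := inner_self_ne_zero.2 (by simpa using hz)
  refine ⟨inner ℝ (e z) (e v) / inner ℝ (e z) (e z), ?_⟩
  rw [← gv_sub e z v (inner ℝ (e z) (e v) / inner ℝ (e z) (e z)), gv, real_inner_self_eq_norm_sq,
    real_inner_self_eq_norm_sq, sub_eq_self, mul_self_eq_zero, map_sub, map_smul, inner_sub_right,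
    real_inner_smul_right, ← real_inner_self_eq_norm_sq, div_mul_cancel₀ _ h, sub_self]

variable {Z : V → V} {fl : ℝ → V → V}

theorem dZ (hf : IsFlow Z fl) (t : ℝ) (x : V) : fderiv ℝ (fl t) x (Z x) = Z (fl t x) := by
  have h1 : HasDerivAt (fun s => fl s x) (Z x) 0 := by simpa [hf.zero] using hf.der x 0
  have h2 := HasFDerivAt.comp_hasDerivAt_of_eq (0 : ℝ)
    ((Lie.flow_sm hf t).differentiable (by simp) x).hasFDerivAt h1 (hf.zero _).symm
  have h3 : HasDerivAt (fun s => fl s (fl t x)) (Z (fl t x)) 0 := by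
    simpa [hf.zero] using hf.der (fl t x) 0
  exact h2.unique (h3.congr_of_eventuallyEq (.of_forall fun s => by
    simp only [Function.comp, ← hf.add, add_comm]))

theorem dD (hf : IsFlow Z fl) (s t : ℝ) (x v : V) :
    fderiv ℝ (fl s) (fl t x) (fderiv ℝ (fl t) x v) = fderiv ℝ (fl (s + t)) x v := by
  rw [show fl (s + t) = fl s ∘ fl t from funext (hf.add s t), fderiv_comp x
    ((Lie.flow_sm hf s).differentiable (by simp) _) ((Lie.flow_sm hf t).differentiable (by simp) _)]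
  rfl

theorem d0 (hf : IsFlow Z fl) (x v : V) : fderiv ℝ (fl 0) x v = v := by
  rw [show fl 0 = id from funext hf.zero, fderiv_id]
  rfl

/-- the form at the time `s` -/
noncomputable def am (Z : V → V) (fl : ℝ → V → V) (x : V) (s : ℝ) : V →L[ℝ] V →L[ℝ] ℝ :=
  gq e (Z (fl s x)) (fderiv ℝ (fl s) x)

theorem am_cont [FiniteDimensional ℝ V] (hf : IsFlow Z fl) (hZ : Continuous Z) :
    Continuous fun q : V × ℝ => am e Z fl q.1 q.2 := by
  have h1 : Continuous fun q : V × ℝ => Z (fl q.2 q.1) :=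
    hZ.comp (hf.sm.continuous.comp continuous_swap)
  have h2 : Continuous fun q : V × ℝ => fderiv ℝ (fl q.2) q.1 :=
    Continuous.fderiv (f := fun (q : V × ℝ) => fl q.2) (n := ∞)
      (hf.sm.comp (contDiff_fst.snd.prodMk contDiff_snd)) continuous_fst (by simp)
  refine continuous_clm_apply.2 fun v => continuous_clm_apply.2 fun w => ?_
  have h3 := h2.clm_apply (continuous_const (y := v))
  have h4 := h2.clm_apply (continuous_const (y := w))
  have h5 := e.continuous.comp h1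
  have h6 := e.continuous.comp h3
  have h7 := e.continuous.comp h4
  exact ((h5.inner h5).mul (h6.inner h7)).sub ((h5.inner h6).mul (h5.inner h7))

theorem am_shift (hf : IsFlow Z fl) (s t : ℝ) (x v : V) :
    am e Z fl (fl t x) s (fderiv ℝ (fl t) x v) (fderiv ℝ (fl t) x v) =
      am e Z fl x (s + t) v v := by
  simp only [am, gq_apply, dD hf, hf.add]

theorem am_zero (hf : IsFlow Z fl) (x v : V) : am e Z fl x 0 v v = gv e (Z x) v v := by
  simp only [am, gq_apply, d0 hf, hf.zero]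

/-- growth modulo the field gives growth of the form -/
theorem am_le (hf : IsFlow Z fl) (hZ : Continuous Z) {K : Set V} (hK : IsCompact K)
    (h0 : ∀ x ∈ K, Z x ≠ 0) : ∃ C : ℝ, 0 < C ∧ ∀ x ∈ K, ∀ s, fl s x ∈ K → ∀ (v : V) (r : ℝ),
      (∀ b : ℝ, ∃ a : ℝ, ‖fderiv ℝ (fl s) x (v - b • Z x) - a • Z (fl s x)‖ ≤ r * ‖v - b • Z x‖) →
      am e Z fl x s v v ≤ C * r ^ 2 * am e Z fl x 0 v v := by
  have hc : Continuous fun x => ‖e (Z x)‖ := by fun_prop
  obtain ⟨m, hm, hm'⟩ := hK.exists_forall_le' hc.continuousOn (a := 0) fun x hx =>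
    norm_pos_iff.2 (by simpa using h0 x hx)
  obtain ⟨B, hB⟩ := hK.bddAbove_image hc.continuousOn
  obtain ⟨c, c0, c1, c2⟩ : ∃ c : ℝ, 0 < c ∧ (∀ v, ‖e v‖ ≤ c * ‖v‖) ∧ ∀ v, ‖v‖ ≤ c * ‖e v‖ := by
    refine ⟨‖(e : V →L[ℝ] H)‖ + ‖(e.symm : H →L[ℝ] V)‖ + 1, by positivity, fun v => ?_, fun v => ?_⟩
    · refine ((e : V →L[ℝ] H).le_opNorm v).trans (mul_le_mul_of_nonneg_right ?_ (norm_nonneg _))
      linarith [norm_nonneg (e.symm : H →L[ℝ] V)]
    · have h := (e.symm : H →L[ℝ] V).le_opNorm (e v)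
      rw [show (e.symm : H →L[ℝ] V) (e v) = v from e.symm_apply_apply v] at h
      refine h.trans (mul_le_mul_of_nonneg_right ?_ (norm_nonneg _))
      linarith [norm_nonneg (e : V →L[ℝ] H)]
  refine ⟨((|B| + 1) * c * c / m) ^ 2, by positivity, fun x hx s hs v r h => ?_⟩
  obtain ⟨b, hb⟩ := gv_eq e (h0 x hx) v
  obtain ⟨a, ha⟩ := h b
  rw [am_zero e hf, hb, am, gq_apply, ← gv_sub e _ _ b, ← gv_sub e _ _ a]
  rw [map_sub, map_smul, dZ hf] at ha
  refine (gv_le e _ _).trans ?_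
  rw [← sq_abs r, ← mul_pow, ← mul_pow, ← mul_pow, ← mul_pow]
  refine pow_le_pow_left₀ (by positivity) ?_ 2
  have a1 : ‖e (Z (fl s x))‖ ≤ |B| + 1 := by
    linarith [hB (mem_image_of_mem _ hs), le_abs_self B]
  have a2 := (c1 _).trans (mul_le_mul_of_nonneg_left (ha.trans (mul_le_mul (le_abs_self r) (c2 _)
    (norm_nonneg _) (abs_nonneg _))) c0.le)
  refine (mul_le_mul a1 a2 (norm_nonneg _) (by positivity)).trans ?_
  refine le_trans (le_of_eq ?_) (mul_le_mul_of_nonneg_left (mul_le_mul_of_nonneg_right (hm' x hx)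
    (norm_nonneg _)) (by positivity))
  field_simp

end NormKAux

open NormKAux in
theorem normK : NormKStmt := by
  intro V E _ _ _ _ _ M l Pi φ Z fl ε S hA hc hK hL ⟨C₁, h₁⟩ ⟨C₂, h₂⟩ h0 hε hS h4
  have hf := hc.flow
  have hZ := hc.sZ.continuous
  obtain ⟨e⟩ : Nonempty (V ≃L[ℝ] EuclideanSpace ℝ (Fin (Module.finrank ℝ V))) := ⟨toEuclidean⟩
  obtain ⟨C, hC, hb⟩ := am_le e hf hZ hK.cpt h0
  obtain ⟨T, hT, hcore⟩ := core hε hS h4 (C := C * (C₁ ^ 2 + C₂ ^ 2 + 1)) (by positivity)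
  have ac := am_cont e hf hZ
  have oc : Continuous fun q : V × ℝ => ow ε q.2 • am e Z fl q.1 q.2 :=
    ((ow_cont ε).comp continuous_snd).smul ac
  have nc : ∀ x v w, Continuous fun s => am e Z fl x s v w := fun x v w =>
    ((ac.comp (Continuous.prodMk_right x)).clm_apply continuous_const).clm_apply continuous_const
  have n0 : ∀ x s v, 0 ≤ am e Z fl x s v v := fun x s v => gv_nonneg e _ _
  have ev : ∀ x v w, (∫ s in -T..T, ow ε s • am e Z fl x s) v w =
      ∫ s in -T..T, ow ε s * am e Z fl x s v w := fun x v w => by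
    have h : Continuous fun s => ow ε s • am e Z fl x s := oc.comp (Continuous.prodMk_right x)
    rw [ContinuousLinearMap.intervalIntegral_apply (h.intervalIntegrable _ _),
      ContinuousLinearMap.intervalIntegral_apply
        ((h.clm_apply continuous_const).intervalIntegrable _ _)]
    rfl
  have red : ∀ x ∈ Ksk M φ fl, ∀ v ∈ Tg M x, l x v = 0 → ∀ b : ℝ,
      v - b • Z x ∈ Tg M x ∧ l x (v - b • Z x) = 0 := fun x hx v hv hl b => by
    have h1 := hK.low x hx
    refine ⟨hA.sub.tg_sub hx.1 hv (hA.sub.tg_smul hx.1 b ?_), ?_⟩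
    · rw [hc.eq x hx.1 (by linarith)]
      exact hA.tan x hx.1 _
    · rw [map_sub, map_smul, hl, Lie.l_Z (smp_of_amb hA) hc hx.1 (by linarith), smul_zero, sub_self]
  have b1 : ∀ x ∈ Ksk M φ fl, ∀ v ∈ Tg M x, l x v = 0 → ∀ t, 0 ≤ t → am e Z fl x (-t) v v ≤
      C * (C₁ ^ 2 + C₂ ^ 2 + 1) * exp (ε * t) ^ 2 * am e Z fl x 0 v v := fun x hx v hv hl t ht => by
    refine (hb x hx _ (hK.inv x hx _) v _ fun b =>
      h₁ x hx t ht _ (red x hx v hv hl b).1 (red x hx v hv hl b).2).trans ?_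
    rw [mul_pow, ← mul_assoc]
    gcongr
    · exact n0 _ _ _
    · nlinarith [sq_nonneg C₂]
  have b2 : ∀ x ∈ Ksk M φ fl, ∀ v ∈ Tg M x, l x v = 0 → ∀ t, 0 ≤ t → am e Z fl x t v v ≤
      C * (C₁ ^ 2 + C₂ ^ 2 + 1) * exp ((1 + ε) * t) ^ 2 * am e Z fl x 0 v v :=
    fun x hx v hv hl t ht => by
    refine (hb x hx _ (hK.inv x hx _) v _ fun b =>
      h₂ x hx t ht _ (red x hx v hv hl b).1 (red x hx v hv hl b).2).trans ?_
    rw [mul_pow, ← mul_assoc]
    gcongr
    · exact n0 _ _ _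
    · nlinarith [sq_nonneg C₁]
  refine ⟨fun x => ∫ s in -T..T, ow ε s • am e Z fl x s,
    (intervalIntegral.continuous_parametric_intervalIntegral_of_continuous' oc _ _).continuousOn,
    fun x v w => ?_, fun x v => ?_, fun x _ v => ?_, fun x hx v h => ?_,
    fun x _ hx t ht _ v hv hl => ?_⟩
  · rw [ev, ev]
    exact intervalIntegral.integral_congr fun s _ => congrArg (ow ε s * ·) (gv_symm e _ _ _)
  · rw [ev]
    exact intervalIntegral.integral_nonneg (by linarith) fun s _ =>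
      mul_nonneg (ow_pos ε s).le (n0 x s v)
  · rw [ev]
    simp only [am, gq_apply, dZ hf, gv_kill, mul_zero, intervalIntegral.integral_zero]
  · obtain ⟨a, ha⟩ := gv_eq e hx v
    refine ⟨a, sub_eq_zero.1 (by_contra fun c => ?_)⟩
    rw [ev] at h
    refine (intervalIntegral.integral_pos (by linarith) ((ow_cont ε).mul (nc x v v)).continuousOn
      (fun s _ => mul_nonneg (ow_pos ε s).le (n0 x s v)) ⟨0, ⟨by linarith, by linarith⟩,
        mul_pos (ow_pos ε 0) ?_⟩).ne' h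
    have p1 : 0 < ‖e (Z x)‖ := norm_pos_iff.2 (by simpa using hx)
    have p2 : 0 < ‖e (v - a • Z x)‖ := norm_pos_iff.2 fun h => c (e.map_eq_zero_iff.1 h)
    exact lt_of_lt_of_eq (by positivity) ((am_zero e hf x v).trans ha).symm
  · simp only [ev, am_shift e hf, ← sub_eq_add_neg]
    refine hcore (fun s => am e Z fl x s v v) (nc x v v) (fun s => n0 x s v) (b1 x hx v hv hl)
      (b2 x hx v hv hl) (fun s hs => ?_) t ht
    obtain ⟨t1, t2, -⟩ := hL x hx.1 s (fun r _ => by linarith [hK.low _ (hK.inv x hx r)]) v hv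
    have h := b1 _ (hK.inv x hx s) _ t1 (by rw [t2, hl, mul_zero]) s hs
    rwa [am_shift e hf, am_shift e hf, neg_add_cancel, zero_add] at h

end Pool.Agent.MP_6d695c_gt.P

end PkNormK

section PkNormU

/-! PROJECT P, row NormU: the bounds of the Lyapunov form hold near the skeleton. -/

open scoped Manifold ContDiff Topology MeasureTheory
open Set Metric Filter Real

namespace Pool.Agent.MP_6d695c_gt.P

open SW T1 Theta

namespace NormUAux

variable {V : Type} [NormedAddCommGroup V] [NormedSpace ℝ V]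

theorem fl_Z {Z : V → V} {fl : ℝ → V → V} (hf : IsFlow Z fl) (s : ℝ) (x : V) :
    fderiv ℝ (fl s) x (Z x) = Z (fl s x) := by
  have h2 := hf.der (fl s x) 0
  have h3 := ((T1.Lie.flow_sm hf s).differentiable (by simp)
    (fl 0 x)).hasFDerivAt.comp_hasDerivAt (0 : ℝ) (hf.der x 0)
  rw [hf.zero] at h2 h3
  refine h3.unique (h2.congr_of_eventuallyEq (Eventually.of_forall fun t => ?_))
  change fl s (fl t x) = fl t (fl s x)
  rw [← hf.add, ← hf.add, add_comm]

theorem exmin {z : V} (hz : z ≠ 0) (v : V) : ∃ a : ℝ, ∀ b : ℝ, ‖v - a • z‖ ≤ ‖v - b • z‖ := by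
  refine Continuous.exists_forall_le (f := fun a : ℝ => ‖v - a • z‖) (by fun_prop)
    (tendsto_atTop_mono (fun a => ?_) (tendsto_atTop_add_const_right _ (-‖v‖)
      ((tendsto_norm_cocompact_atTop (E := ℝ)).atTop_mul_const (norm_pos_iff.2 hz))))
  rw [← norm_smul, norm_sub_rev]
  linarith [norm_sub_norm_le (a • z) v]

theorem quad {q : V →L[ℝ] V →L[ℝ] ℝ} {z : V} (hs : ∀ v w, q v w = q w v) (hk : ∀ v, q z v = 0)
    (u : V) (a c : ℝ) : q (c • u + a • z) (c • u + a • z) = c ^ 2 * q u u := by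
  simp only [map_add, map_smul, add_apply, smul_apply, smul_eq_mul, hk, hs u z]
  ring

/-- the covector `dd l x v` -/
noncomputable def cov (l : V → V →L[ℝ] ℝ) (x v : V) : V →L[ℝ] ℝ :=
  fderiv ℝ l x v - (ContinuousLinearMap.apply ℝ ℝ v).comp (fderiv ℝ l x)

end NormUAux

open NormUAux in
theorem normU : NormUStmt := by
  intro V E _ _ _ _ _ M l Pi φ Z fl S Q hA hC hK _ hZ hQ
  have hf := hC.flow
  have cZ := hC.sZ.continuous
  have c3 : Continuous fun p : V × ℝ × V => p.2.2 := continuous_snd.snd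
  have cd : Continuous fun p : V × ℝ × V => fderiv ℝ l p.1 :=
    (hA.sl.continuous_fderiv (by simp)).comp continuous_fst
  have cy : Continuous fun p : V × ℝ × V => fl (-p.2.1) p.1 :=
    hf.sm.continuous.comp (continuous_snd.fst.neg.prodMk continuous_fst)
  have cw : Continuous fun p : V × ℝ × V => fderiv ℝ (fl (-p.2.1)) p.1 p.2.2 :=
    (Continuous.fderiv (f := fun p : V × ℝ × V => fl (-p.2.1)) (n := ∞)
      (hf.sm.comp (contDiff_fst.snd.fst.neg.prodMk contDiff_snd)) continuous_fst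
      (by simp)).clm_apply c3
  have hO : IsOpen {p : V × ℝ × V | Z p.1 ≠ 0 ∧ Z (fl (-p.2.1) p.1) ≠ 0} :=
    (isOpen_ne_fun (cZ.comp continuous_fst) continuous_const).inter
      (isOpen_ne_fun (cZ.comp cy) continuous_const)
  have q1 : ContinuousOn (fun p : V × ℝ × V => Q p.1 p.2.2 p.2.2)
      {p | Z p.1 ≠ 0 ∧ Z (fl (-p.2.1) p.1) ≠ 0} :=
    ((hQ.cont.comp continuousOn_fst fun p hp => hp.1).clm_apply c3.continuousOn).clm_apply
      c3.continuousOn
  have q2 : ContinuousOn (fun p : V × ℝ × V => Q (fl (-p.2.1) p.1)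
      (fderiv ℝ (fl (-p.2.1)) p.1 p.2.2) (fderiv ℝ (fl (-p.2.1)) p.1 p.2.2))
      {p | Z p.1 ≠ 0 ∧ Z (fl (-p.2.1) p.1) ≠ 0} :=
    ((hQ.cont.comp cy.continuousOn fun p hp => hp.2).clm_apply cw.continuousOn).clm_apply
      cw.continuousOn
  have ce : Continuous fun p : V × ℝ × V => exp (-p.2.1) ^ 2 := by fun_prop
  have hG := (((continuousOn_const (c := (9 : ℝ))).mul q1).sub q2).inf
    (((continuousOn_const (c := (9 : ℝ))).mul q2).sub (ce.continuousOn.mul q1))
      |>.isOpen_inter_preimage hO (isOpen_Ioi (a := (0 : ℝ)))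
  have hB : IsCompact (({x ∈ M | φ x ≤ 1} ×ˢ Icc 0 S ×ˢ sphere (0 : V) 1) ∩
      {p : V × ℝ × V | p.2.2 = Pi p.1 (cov l p.1 p.2.2) ∧ l p.1 p.2.2 = 0 ∧
        ∀ a : ℝ, 1 ≤ ‖p.2.2 - a • Z p.1‖}) := by
    refine ((hA.cpt 1 (by norm_num)).prod (isCompact_Icc.prod (isCompact_sphere _ _))).inter_right
      ((isClosed_eq c3 ((hA.sP.continuous.comp continuous_fst).clm_apply ((cd.clm_apply c3).sub
        (((ContinuousLinearMap.apply ℝ ℝ).continuous.comp c3).clm_comp cd)))).inter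
      ((isClosed_eq ((hA.sl.continuous.comp continuous_fst).clm_apply c3) continuous_const).inter
        ?_))
    change IsClosed {p : V × ℝ × V | ∀ a : ℝ, 1 ≤ ‖p.2.2 - a • Z p.1‖}
    rw [ofPred_forall]
    exact isClosed_iInter fun a => isClosed_le continuous_const (by fun_prop)
  have hU := ((hB.diff hG).image continuous_fst).isClosed.isOpen_compl
  refine ⟨_, hU.inter ((isOpen_ne_fun cZ (continuous_const (y := (0 : V)))).inter
    (isOpen_lt hA.sφ.continuous (continuous_const (y := (1 : ℝ))))), fun x hx => ⟨?_, hZ x hx,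
      (hK.low x hx).trans_lt (by norm_num)⟩, hQ.cont.mono fun x hx => hx.2.1, hQ.symm, hQ.nn,
    fun x hx => hQ.kill x hx.2.1, fun x hx => hQ.pos x hx.2.1, ?_⟩
  · rintro ⟨⟨x, t, v⟩, ⟨⟨⟨-, ht, -⟩, e1, e2, e3⟩, hn⟩, rfl⟩
    have hy := hK.inv x hx (-t)
    obtain ⟨b1, b2⟩ := hQ.bd x hx.1 hx t ht hy v
      (by rw [show v = _ from e1]; exact hA.tan x hx.1 _) e2
    have b3 : 0 < Q x v v := (hQ.nn x v).lt_of_ne' fun c => by
      obtain ⟨a, ha⟩ := hQ.pos x (hZ x hx) v c
      have := e3 a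
      simp only [← ha, sub_self, norm_zero] at this
      linarith
    have b4 : 0 < exp (-t) ^ 2 * Q x v v := by positivity
    refine hn ⟨⟨hZ x hx, hZ _ hy⟩, ?_⟩
    simp only [mem_preimage, mem_Ioi, lt_min_iff,
      _root_.Pi.mul_apply, _root_.Pi.sub_apply]
    constructor <;> linarith
  · rintro x hx ⟨h1, h2, h3⟩ t ht hy v hv hl
    obtain ⟨a, ha⟩ := exmin h2 v
    have hz : Z x ∈ Tg M x := by
      rw [hC.eq x hx (by linarith [show φ x < 1 from h3])]
      exact hA.tan x hx _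
    have lz := T1.Lie.l_Z (smp_of_amb hA) hC hx (by linarith [show φ x < 1 from h3])
    have key : ∀ (c : ℝ) (u : V), v = c • u + a • Z x →
        Q x v v = c ^ 2 * Q x u u ∧
        Q (fl (-t) x) (fderiv ℝ (fl (-t)) x v) (fderiv ℝ (fl (-t)) x v) =
          c ^ 2 * Q (fl (-t) x) (fderiv ℝ (fl (-t)) x u) (fderiv ℝ (fl (-t)) x u) := by
      rintro c u rfl
      rw [map_add (fderiv ℝ (fl (-t)) x), map_smul (fderiv ℝ (fl (-t)) x),
        map_smul (fderiv ℝ (fl (-t)) x), fl_Z hf]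
      exact ⟨quad (hQ.symm x) (hQ.kill x h2) u a c, quad (hQ.symm _) (hQ.kill _ hy.2.1) _ a c⟩
    by_cases h0 : v - a • Z x = 0
    · obtain ⟨k1, k2⟩ := key 0 v (by rw [zero_smul, zero_add, ← sub_eq_zero, h0])
      rw [k1, k2]
      simp
    have n0 := norm_pos_iff.2 h0
    obtain ⟨k1, k2⟩ := key ‖v - a • Z x‖ (‖v - a • Z x‖⁻¹ • (v - a • Z x))
      (by rw [smul_inv_smul₀ n0.ne', sub_add_cancel])
    have tu := hA.sub.tg_smul hx ‖v - a • Z x‖⁻¹ (hA.sub.tg_sub hx hv (hA.sub.tg_smul hx a hz))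
    have hg := not_not.1 fun c => h1 ⟨(x, t, ‖v - a • Z x‖⁻¹ • (v - a • Z x)),
      ⟨⟨⟨⟨hx, le_of_lt h3⟩, ht, mem_sphere_zero_iff_norm.2 (norm_smul_inv_norm h0)⟩,
        hA.uniq hx tu fun _ _ => rfl, by simp [hl, lz], fun b => by
          have e : ‖v - a • Z x‖⁻¹ • (v - a • Z x) - b • Z x =
              ‖v - a • Z x‖⁻¹ • (v - (a + ‖v - a • Z x‖ * b) • Z x) := by
            rw [add_smul, ← sub_sub, smul_sub _ (v - a • Z x), smul_smul,
              inv_mul_cancel_left₀ n0.ne']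
          change 1 ≤ ‖‖v - a • Z x‖⁻¹ • (v - a • Z x) - b • Z x‖
          rw [e, norm_smul, norm_inv, norm_norm, ← div_eq_inv_mul, one_le_div n0]
          exact ha _⟩, c⟩, rfl⟩
    have g0 := hg.2
    simp only [mem_preimage, mem_Ioi, lt_min_iff,
      _root_.Pi.mul_apply, _root_.Pi.sub_apply] at g0
    obtain ⟨g1, g2⟩ := g0
    rw [k1, k2]
    have n2 := sq_nonneg ‖v - a • Z x‖
    constructor <;> nlinarith [mul_nonneg n2 g1.le, mul_nonneg n2 g2.le]

end Pool.Agent.MP_6d695c_gt.P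

end PkNormU

section PkDual

/-! PROJECT P, row Dual: the forward bound follows from the backward bound. -/

open scoped Manifold ContDiff Topology MeasureTheory
open Set Metric Filter Real

namespace Pool.Agent.MP_6d695c_gt.P

open SW T1 Theta

namespace DualAux

variable {V : Type} [NormedAddCommGroup V] [NormedSpace ℝ V]

/-- the distance to a line is the value of a functional that kills the line -/
theorem hb (w z : V) : ∃ β : V →L[ℝ] ℝ, ‖β‖ ≤ 1 ∧ β z = 0 ∧
    ∀ e : ℝ, 0 < e → ∃ a : ℝ, ‖w - a • z‖ < β w + e := by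
  let S : Submodule ℝ V := Submodule.span ℝ {z}
  have : IsClosed (S : Set V) := Submodule.closed_of_finiteDimensional S
  obtain ⟨g, g1, g2⟩ := exists_dual_vector'' ℝ (Submodule.Quotient.mk w : V ⧸ S)
  let q : V →L[ℝ] V ⧸ S := S.mkQ.mkContinuous 1 fun u => by
    rw [one_mul]
    exact Submodule.Quotient.norm_mk_le S u
  have hq : ∀ u, q u = Submodule.Quotient.mk u := fun _ => rfl
  refine ⟨g.comp q, ?_, ?_, fun e he => ?_⟩
  · refine ContinuousLinearMap.opNorm_le_bound _ zero_le_one fun u => ?_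
    rw [ContinuousLinearMap.comp_apply, hq]
    exact (g.le_opNorm _).trans
      (mul_le_mul g1 (Submodule.Quotient.norm_mk_le S u) (norm_nonneg _) zero_le_one)
  · rw [ContinuousLinearMap.comp_apply, hq,
      (Submodule.Quotient.mk_eq_zero S).2 (Submodule.mem_span_singleton_self z), map_zero]
  · obtain ⟨u, h1, h2⟩ := Submodule.Quotient.norm_mk_lt (Submodule.Quotient.mk w : V ⧸ S) he
    obtain ⟨a, ha⟩ := Submodule.mem_span_singleton.1 ((Submodule.Quotient.eq S).1 h1.symm)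
    refine ⟨a, ?_⟩
    rw [ha, sub_sub_cancel, ContinuousLinearMap.comp_apply, hq, g2]
    exact h2

theorem dd_le (l : V → V →L[ℝ] ℝ) (x u v : V) :
    dd l x u v ≤ 2 * ‖fderiv ℝ l x‖ * ‖u‖ * ‖v‖ := by
  have h1 := (fderiv ℝ l x).le_opNorm₂ u v
  have h2 := (fderiv ℝ l x).le_opNorm₂ v u
  rw [Real.norm_eq_abs] at h1 h2
  have h3 := le_abs_self (fderiv ℝ l x u v)
  have h4 := neg_abs_le (fderiv ℝ l x v u)
  rw [dd]
  nlinarith

theorem back {Z : V → V} {fl : ℝ → V → V} (hf : IsFlow Z fl) (t : ℝ) (x v : V) :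
    fderiv ℝ (fl (-t)) (fl t x) (fderiv ℝ (fl t) x v) = v := by
  have h1 := ((Lie.flow_sm hf t).differentiable (by simp) x).hasFDerivAt
  have h2 := ((Lie.flow_sm hf (-t)).differentiable (by simp) (fl t x)).hasFDerivAt
  have h3 := (h2.comp x h1).fderiv
  have e : fl (-t) ∘ fl t = id := funext fun y => by
    rw [Function.comp_apply, ← hf.add, neg_add_cancel, hf.zero, id]
  rw [e, fderiv_id] at h3
  exact (congrArg (fun L : V →L[ℝ] V => L v) h3).symm

end DualAux

open DualAux in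
theorem dualP : DualStmt := by
  intro V E _ _ _ _ _ M l Pi φ Z fl ε hA hc hK hL ⟨C, hC⟩
  obtain ⟨B1, hB1⟩ := hK.cpt.exists_bound_of_continuousOn
    (hA.sl.continuous_fderiv (by simp)).continuousOn
  obtain ⟨B2, hB2⟩ : ∃ B, ∀ y ∈ Ksk M φ fl, ‖Pi y‖ ≤ B :=
    hK.cpt.exists_bound_of_continuousOn (f := Pi) hA.sP.continuous.continuousOn
  refine ⟨2 * B1 * (|C| * B2) + 1, fun x hx t ht v hv hl => ?_⟩
  by_cases v0 : v = 0
  · exact ⟨0, by simp [v0]⟩
  have vp : 0 < ‖v‖ := norm_pos_iff.2 v0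
  have hx' := hK.inv x hx t
  have low : ∀ y ∈ Ksk M φ fl, ∀ r s, s ∈ uIcc 0 r → φ (fl s y) < 4 := fun y hy r s _ =>
    (hK.low _ (hK.inv y hy s)).trans_lt (by norm_num)
  have eZ : ∀ y ∈ Ksk M φ fl, Z y = Pi y (l y) := fun y hy =>
    hc.eq y hy.1 ((hK.low y hy).trans (by norm_num))
  have ex : fl (-t) (fl t x) = x := by rw [← hc.flow.add, neg_add_cancel, hc.flow.zero]
  obtain ⟨β, b1, b2, b3⟩ := hb (fderiv ℝ (fl t) x v) (Z (fl t x))
  have tw' := (hL x hx.1 t (low x hx t) v hv).1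
  have tw := hA.tan _ hx'.1 β
  have lw : l (fl t x) (Pi (fl t x) β) = 0 := by
    have h1 := hA.dual _ hx'.1 (l (fl t x)) _ tw
    have h2 := hA.dual _ hx'.1 β _ (hA.tan _ hx'.1 (l (fl t x)))
    rw [← eZ _ hx'] at h1 h2
    rw [b2] at h2
    simp only [dd] at h1 h2
    linarith
  obtain ⟨a, ha⟩ := hC _ hx' t ht _ tw lw
  have h5 := (hL _ hx'.1 (-t) (low _ hx' (-t)) _ tw).2.2 _ tw'
  rw [back hc.flow, ex, hA.dual _ hx'.1 β _ tw'] at h5
  rw [ex] at ha
  have h6 : dd l x (Z x) v = 0 := by rw [eZ x hx, hA.dual x hx.1 _ v hv, hl]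
  set u := fderiv ℝ (fl (-t)) (fl t x) (Pi (fl t x) β) with hu
  have h7 : dd l x (u - a • Z x) v = dd l x u v := by
    simp only [dd, map_sub, map_smul, sub_apply, smul_apply, smul_eq_mul]
      at h6 ⊢
    linear_combination (-a) * h6
  have h8 : β (fderiv ℝ (fl t) x v) = exp t * dd l x (u - a • Z x) v := by
    rw [h7, h5, ← mul_assoc, ← exp_add, add_neg_cancel, exp_zero, one_mul]
  have nw : ‖Pi (fl t x) β‖ ≤ B2 := ((Pi (fl t x)).le_opNorm β).trans
    ((mul_le_of_le_one_right (norm_nonneg _) b1).trans (hB2 _ hx'))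
  have p1 : 0 ≤ B1 := (norm_nonneg _).trans (hB1 x hx)
  have h9 : ‖u - a • Z x‖ ≤ |C| * exp (ε * t) * B2 := ha.trans
    (mul_le_mul (mul_le_mul_of_nonneg_right (le_abs_self C) (exp_pos _).le) nw (norm_nonneg _)
      (by positivity))
  have h10 : dd l x (u - a • Z x) v ≤ 2 * B1 * (|C| * exp (ε * t) * B2) * ‖v‖ :=
    (dd_le l x _ v).trans (mul_le_mul_of_nonneg_right (mul_le_mul
      (mul_le_mul_of_nonneg_left (hB1 x hx) zero_le_two) h9 (norm_nonneg _) (by positivity))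
      vp.le)
  obtain ⟨a', ha'⟩ := b3 (exp ((1 + ε) * t) * ‖v‖) (by positivity)
  refine ⟨a', ha'.le.trans ?_⟩
  have e : exp ((1 + ε) * t) = exp t * exp (ε * t) := by rw [← exp_add]; ring_nf
  have h11 := mul_le_mul_of_nonneg_left h10 (exp_pos t).le
  rw [h8, e]
  linarith

end Pool.Agent.MP_6d695c_gt.P

end PkDual
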