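import Pool.Agent.MP_6d695c_gt.q.Base
import Mathlib.Order.Interval.Set.Nat

/-! Slow skeleta: proofs of the steps, part B. -/

section PkAutE

/-! PROJECT P, row AutE: the coordinates of a node are automorphisms; slopes. -/

open scoped Manifold ContDiff Topology MeasureTheory
open Set Metric Filter Real

namespace Pool.Agent.MP_6d695c_gt.P

open SW T1 Theta

namespace AutEAux

variable {m : ℕ}

theorem hom_line (A : Hor m →L[ℝ] Hor m) (f : ℝ) (ξ : Y m) :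
    HasDerivAt (fun t : ℝ => hom A f (t • ξ)) ((f * ξ.1, A ξ.2) : Y m) 0 := by
  have e : (fun t : ℝ => hom A f (t • ξ)) = fun t : ℝ => t • ((f * ξ.1, A ξ.2) : Y m) +
      t ^ 2 • ((f * hq ξ.2 - hq (A ξ.2), 0) : Y m) := by
    funext t
    simp only [hom, Prod.smul_fst, Prod.smul_snd, map_smul, hq_smul, smul_eq_mul, Prod.smul_mk,
      Prod.mk_add_mk, smul_zero, add_zero]
    refine Prod.ext ?_ rfl
    simp only
    ring
  rw [e]
  have h1 := (hasDerivAt_id (0 : ℝ)).smul_const ((f * ξ.1, A ξ.2) : Y m)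
  have h2 := (hasDerivAt_pow 2 (0 : ℝ)).smul_const ((f * hq ξ.2 - hq (A ξ.2), 0) : Y m)
  have h3 := h1.add h2
  refine (h3.congr_deriv ?_).congr_of_eventuallyEq (Eventually.of_forall fun t => rfl)
  simp

theorem key {h : Y m → Y m} {y : Y m} (hd : DifferentiableAt ℝ h y) {A : Hor m →L[ℝ] Hor m}
    {f : ℝ} (e : ∀ η, h (mul y η) = mul (h y) (hom A f η)) (ξ : Y m) :
    fderiv ℝ h y (Lt y ξ) = Lt (h y) ((f * ξ.1, A ξ.2) : Y m) := by
  have h0 := (hasDerivAt_id (0 : ℝ)).smul_const ξ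
  have h1 : HasDerivAt (fun t : ℝ => mul y (t • ξ)) (Lt y ξ) 0 := by
    have := ((Lt y).hasFDerivAt.comp_hasDerivAt (0 : ℝ) h0).const_add y
    rw [one_smul] at this
    exact this
  have h2 : HasDerivAt (fun t : ℝ => h (mul y (t • ξ))) (fderiv ℝ h y (Lt y ξ)) 0 :=
    hd.hasFDerivAt.comp_hasDerivAt_of_eq 0 h1 (by rw [zero_smul, mul_zero'])
  have h4 : HasDerivAt (fun t : ℝ => mul (h y) (hom A f (t • ξ)))
      (Lt (h y) ((f * ξ.1, A ξ.2) : Y m)) 0 :=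
    ((Lt (h y)).hasFDerivAt.comp_hasDerivAt (0 : ℝ) (hom_line A f ξ)).const_add (h y)
  simp only [e] at h2
  exact h2.unique h4

theorem dil_hom (w : ℝ) (A : Hor m →L[ℝ] Hor m) (f : ℝ) (y : Y m) :
    dil w (hom A f y) = hom (w • A) (w ^ 2 * f) y := by
  simp only [hom, dil_def, smul_apply, hq_smul]
  refine Prod.ext ?_ rfl
  simp only
  ring

theorem dil_smooth (w : ℝ) : ContDiff ℝ ∞ (dil w : Y m → Y m) := by
  unfold dil
  fun_prop

theorem mul_smooth (c : Y m) : ContDiff ℝ ∞ (mul c : Y m → Y m) :=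
  contDiff_const.add (Lt c).contDiff

theorem ldiv_smooth (c : Y m) : ContDiff ℝ ∞ (ldiv c : Y m → Y m) :=
  (Lt (-c)).contDiff.comp (contDiff_id.sub contDiff_const)

theorem lam0_eq (x v : ℝ × Y m) : lam0 x v = exp x.1 * (Lt (-x.2) v.2).1 := rfl

theorem form {h : Y m → Y m} (hs : ContDiff ℝ ∞ h) {A : Hor m →L[ℝ] Hor m} {f : ℝ}
    (e : ∀ y η, h (mul y η) = mul (h y) (hom A f η)) (x v : ℝ × Y m) :
    lam0 ((x.1, h x.2) : ℝ × Y m) (fderiv ℝ (fun x : ℝ × Y m => (x.1, h x.2)) x v) =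
      f * lam0 x v := by
  have hd : DifferentiableAt ℝ h x.2 := (hs.differentiable (by simp)) x.2
  have d : HasFDerivAt (fun x : ℝ × Y m => (x.1, h x.2)) ((ContinuousLinearMap.fst ℝ ℝ (Y m)).prod
      ((fderiv ℝ h x.2).comp (ContinuousLinearMap.snd ℝ ℝ (Y m)))) x :=
    hasFDerivAt_fst.prodMk (hd.hasFDerivAt.comp x hasFDerivAt_snd)
  have k := key hd (e x.2) (Lt (-x.2) v.2)
  rw [Lt_Lt_neg] at k
  rw [d.fderiv, lam0_eq, lam0_eq]
  change exp x.1 * (Lt (-h x.2) (fderiv ℝ h x.2 v.2)).1 = _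
  rw [k, Lt_neg_Lt]
  ring

end AutEAux

open AutEAux in
theorem autE : AutEStmt := by
  intro m
  refine ⟨fun s c B B' hs hB li ri => ?_, fun g U ψ hU hψ y => ?_⟩
  · have s1 : ContDiff ℝ ∞ (eta s c B') :=
      (dil_smooth s⁻¹).comp ((hom_smooth B' 1).comp (ldiv_smooth c))
    have s2 : ContDiff ℝ ∞ (zeta s c B) :=
      (mul_smooth c).comp ((hom_smooth B 1).comp (dil_smooth s))
    refine ⟨by positivity, contDiff_fst.prodMk (s1.comp contDiff_snd),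
      contDiff_fst.prodMk (s2.comp contDiff_snd), fun x => ?_, fun x => ?_, fun x v => ?_⟩
    · exact Prod.ext rfl (zeta_eta hs.ne' ri c x.2)
    · exact Prod.ext rfl (eta_zeta hs.ne' li c x.2)
    · have := form s1 (A := s⁻¹ • B') (f := s⁻¹ ^ 2 * 1) (fun y η => by
        rw [eta, eta, ldiv_mul_right, (hB.inv ri).hom_mul, dil_mul', dil_hom s⁻¹ B' 1 η]) x v
      rw [mul_one] at this
      exact this
  · have s1 : ContDiff ℝ ∞ fun y => mul g (hom U 1 y) := (mul_smooth g).comp (hom_smooth U 1)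
    have hd : DifferentiableAt ℝ (fun y => mul g (hom U 1 y)) y := (s1.differentiable (by simp)) y
    have hp : DifferentiableAt ℝ ψ (mul g (hom U 1 y)) := (hψ.differentiable (by simp)) _
    have d := hp.hasFDerivAt.comp y hd.hasFDerivAt
    refine ContinuousLinearMap.opNorm_le_bound _ (by positivity) fun ξ => ?_
    have k := key hd (A := U) (f := 1) (fun η => by rw [hU.hom_mul, mul_assoc']) ξ
    have e : nab (fun y => ψ (mul g (hom U 1 y))) y ξ =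
        nab ψ (mul g (hom U 1 y)) ((1 * ξ.1, U ξ.2) : Y m) := by
      rw [nab_apply, nab_apply, ← k]
      exact congrArg (fun L : Y m →L[ℝ] ℝ => L (Lt y ξ)) d.fderiv
    have n : ‖((1 * ξ.1, U ξ.2) : Y m)‖ ≤ max 1 ‖U‖ * ‖ξ‖ := by
      refine max_le ?_ ?_
      · change ‖1 * ξ.1‖ ≤ _
        rw [one_mul]
        exact (norm_fst_le ξ).trans (le_mul_of_one_le_left (norm_nonneg _) (le_max_left _ _))
      · exact (U.le_opNorm _).trans
          (mul_le_mul (le_max_right _ _) (norm_snd_le ξ) (norm_nonneg _) (by positivity))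
    rw [e]
    refine ((nab ψ _).le_opNorm _).trans ?_
    rw [mul_comm (max 1 ‖U‖), mul_assoc]
    exact mul_le_mul_of_nonneg_left n (norm_nonneg _)

end Pool.Agent.MP_6d695c_gt.P

end PkAutE

section PkSymH

/-! PROJECT P, row SymH: the horizontal differential of a contact map is conformally symplectic. -/

open scoped Manifold ContDiff Topology MeasureTheory
open Set Metric Filter Real

namespace Pool.Agent.MP_6d695c_gt.P

open SW T1 Theta

namespace SymHAux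

variable {m : ℕ}

/-- the derivative of the contact form -/
noncomputable def LL (m : ℕ) : Y m →L[ℝ] Y m →L[ℝ] ℝ :=
  ∑ j : Fin m, ((ContinuousLinearMap.proj (R := ℝ) (φ := fun _ : Fin m => ℝ) j).comp
      ((ContinuousLinearMap.snd ℝ (Fin m → ℝ) (Fin m → ℝ)).comp
        (ContinuousLinearMap.snd ℝ ℝ (Hor m)))).smulRight
    ((ContinuousLinearMap.proj (R := ℝ) (φ := fun _ : Fin m => ℝ) j).comp
      ((ContinuousLinearMap.fst ℝ (Fin m → ℝ) (Fin m → ℝ)).comp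
        (ContinuousLinearMap.snd ℝ ℝ (Hor m))))

theorem LL_apply (y v : Y m) : LL m y v = ∑ j, y.2.2 j * v.2.1 j := by
  simp [LL]

theorem al0_app (y v : Y m) : al0 y v = v.1 + ∑ j, y.2.2 j * v.2.1 j := by
  simp [al0, Lt_apply]

theorem al0_eq : (al0 : Y m → Y m →L[ℝ] ℝ) =
    fun y => ContinuousLinearMap.fst ℝ ℝ (Hor m) + LL m y := by
  funext y
  refine ContinuousLinearMap.ext fun v => ?_
  rw [al0_app, add_apply, LL_apply]
  rfl

theorem al0_has (y : Y m) : HasFDerivAt (al0 : Y m → Y m →L[ℝ] ℝ) (LL m) y := by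
  rw [al0_eq]
  exact (LL m).hasFDerivAt.const_add _

theorem dd_al0 (y u v : Y m) : dd al0 y u v = om u.2 v.2 := by
  simp only [dd, (al0_has y).fderiv, LL_apply, om, Finset.sum_sub_distrib]
  congr 1
  exact Finset.sum_congr rfl fun j _ => mul_comm _ _

theorem al0_eR (y : Y m) : al0 y (eR m) = 1 := by
  simp [al0_app, eR]

theorem al0_Lt (y : Y m) (u : Hor m) : al0 y (Lt y (0, u)) = 0 := by
  simp [al0_app, Lt_apply]

end SymHAux

open SymHAux in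
theorem symH : SymHStmt := by
  intro m C f h y hC hc u v
  obtain ⟨e, hey, he⟩ := hc.ct
  have hC0 : 0 < C⁻¹ := inv_pos.2 (by linarith)
  have h2 : ContDiffAt ℝ 2 h y := hc.sm.contDiffAt.of_le (ENat.LEInfty.out)
  have h0 : DifferentiableAt ℝ h y := h2.differentiableAt two_ne_zero
  have h1 : DifferentiableAt ℝ (fderiv ℝ h) y :=
    (h2.fderiv_right (m := 1) (by norm_num)).differentiableAt one_ne_zero
  have hal : ∀ z : Y m, DifferentiableAt ℝ (al0 : Y m → Y m →L[ℝ] ℝ) z := fun z =>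
    (al0_has z).differentiableAt
  have hP : DifferentiableAt ℝ (fun z => (al0 (h z)).comp (fderiv ℝ h z)) y :=
    ((hal (h y)).comp y h0).clm_comp h1
  have hnear : ∀ᶠ z in 𝓝 y, ‖z - y‖ ≤ C⁻¹ := by
    filter_upwards [closedBall_mem_nhds y hC0] with z hz
    rwa [mem_closedBall, dist_eq_norm] at hz
  have hev : (fun z => (al0 (h z)).comp (fderiv ℝ h z)) =ᶠ[𝓝 y] fun z => e z • al0 z := by
    filter_upwards [hnear] with z hz
    exact ContinuousLinearMap.ext fun w => he z hz w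
  have hed : DifferentiableAt ℝ e y := by
    have h3 : DifferentiableAt ℝ (fun z => ((al0 (h z)).comp (fderiv ℝ h z)) (eR m)) y :=
      hP.clm_apply (differentiableAt_const _)
    refine h3.congr_of_eventuallyEq ?_
    filter_upwards [hnear] with z hz
    rw [ContinuousLinearMap.comp_apply, he z hz, al0_eR, mul_one]
  have k1 := dd_pullback (l := al0) (hal (h y)) h2 (Lt y (0, u)) (Lt y (0, v))
  rw [Darb.dd_congr hev, Darb.dd_smul hed (hal y), al0_Lt, al0_Lt, dd_al0, dd_al0, hey] at k1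
  have k2 : om (hA h y u) (hA h y v) =
      om (fderiv ℝ h y (Lt y (0, u))).2 (fderiv ℝ h y (Lt y (0, v))).2 := rfl
  have k3 : om (Lt y (0, u)).2 (Lt y (0, v)).2 = om u v := rfl
  rw [k2, ← k1, k3]
  ring

end Pool.Agent.MP_6d695c_gt.P

end PkSymH

section PkGeo

/-! PROJECT P, row Geo: sizes of the cells, change of centre. -/

open scoped Manifold ContDiff Topology MeasureTheory
open Set Metric Filter Real

namespace Pool.Agent.MP_6d695c_gt.P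

open SW T1 Theta

namespace GeoAux

variable {m : ℕ}

theorem norm_ldiv_le {R : ℝ} {a b : Y m} (ha : ‖a‖ ≤ R) (hb : ‖b‖ ≤ R) :
    ‖ldiv a b‖ ≤ (1 + m * R) * (2 * R) := by
  have r0 : 0 ≤ R := (norm_nonneg _).trans ha
  have h1 : ‖b - a‖ ≤ 2 * R := (norm_sub_le _ _).trans (by linarith)
  refine (norm_Lt_le _ _).trans ?_
  rw [norm_neg]
  gcongr

end GeoAux

theorem geo : GeoStmt := by
  intro m Cb R
  refine ⟨max R (max 1 Cb * ((1 + m * R) * (2 * R)) +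
    2 * m * (max 1 Cb * ((1 + m * R) * (2 * R))) ^ 2),
    1 + 4 * (1 + m) * (|R| + 2 * m * R ^ 2), 4, le_max_left _ _, ?_, ?_⟩
  · have : (0 : ℝ) ≤ 4 * (1 + m) * (|R| + 2 * m * R ^ 2) := by positivity
    linarith
  intro A B B' C s hF hs hCs c hc y hy
  have r0 : 0 ≤ R := (norm_nonneg _).trans hy
  rw [abs_of_nonneg r0] at hCs
  have hC := hF.one
  have m0 : (0 : ℝ) ≤ m := Nat.cast_nonneg m
  have p1 : 1 ≤ C ^ 4 := one_le_pow₀ hC
  have k0 : (0 : ℝ) ≤ 4 * (1 + m) * (R + 2 * m * R ^ 2) := by positivity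
  have q0 : 0 ≤ C ^ 4 * s := by positivity
  have s1 : s ≤ 1 := by nlinarith [mul_nonneg k0 q0]
  have s2 : 4 * (1 + m) * (R + 2 * m * R ^ 2) * (C ^ 4 * s) ≤ 1 := by nlinarith
  have e1 : y - c = Lt c (dil s (hom (B c) 1 (eta s c (B' c) y))) := by
    conv_lhs => rw [← zeta_eta hs.ne' (hF.ri c hc) c y]
    rw [zeta, mul, add_sub_cancel_left, hom_dil]
  have b1 := norm_hom_le (hF.bd c hc).2.1 hC zero_le_one le_rfl hy
  have b2 : C * R + 2 * m * (C * R) ^ 2 ≤ C ^ 2 * (R + 2 * m * R ^ 2) := by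
    nlinarith [mul_nonneg (mul_nonneg (sub_nonneg.2 hC) (zero_le_one.trans hC)) r0]
  have b3 : 1 + m * ‖c‖ ≤ (1 + m) * C := by
    nlinarith [mul_le_mul_of_nonneg_left (hF.bd c hc).1 m0]
  have b4 : ‖y - c‖ ≤ (1 + m) * C * (s * (C ^ 2 * (R + 2 * m * R ^ 2))) := by
    rw [e1]
    refine (norm_Lt_le _ _).trans (mul_le_mul b3 ((norm_dil_le hs.le s1 _).trans ?_)
      (norm_nonneg _) (by positivity))
    exact mul_le_mul_of_nonneg_left (b1.trans b2) hs.le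
  have c0 : 0 < C := by linarith
  have b5 : ‖y - c‖ ≤ C⁻¹ / 4 := by
    refine b4.trans ?_
    rw [le_div_iff₀ (by norm_num), ← one_div, le_div_iff₀ c0]
    refine le_trans (le_of_eq ?_) s2
    ring
  refine ⟨b5, fun hyA y' hy' => ?_⟩
  have b6 : ‖y - c‖ ≤ C⁻¹ := by
    have : 0 ≤ C⁻¹ := by positivity
    linarith
  rw [eta_eta hs.ne' (hF.sym c hc) (hF.ri c hc) (B' y) c y y']
  exact (norm_hom_le ((hF.near y hyA c hc b6).trans (le_max_right 1 Cb)) (le_max_left 1 Cb)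
    zero_le_one le_rfl (GeoAux.norm_ldiv_le hy hy')).trans (le_max_right _ _)

end Pool.Agent.MP_6d695c_gt.P

end PkGeo

section PkNet

/-! PROJECT P: a finite net with bounded multiplicity. -/

open scoped Manifold ContDiff Topology MeasureTheory
open Set Metric Filter Real

namespace Pool.Agent.MP_6d695c_gt.P

open SW T1 Theta

namespace NetAux

/-- separated families in a compact set are finite, with a bound -/
theorem pack {E : Type} [MetricSpace E] {K : Set E} (hK : IsCompact K) {δ : ℝ} (hδ : 0 < δ) :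
    ∃ M : ℕ, ∀ (S : Set E) (e : E → E), (∀ a ∈ S, e a ∈ K) →
      (∀ a ∈ S, ∀ b ∈ S, a ≠ b → δ ≤ dist (e a) (e b)) → S.Finite ∧ S.ncard ≤ M := by
  obtain ⟨t, -, tf, ht⟩ := finite_cover_balls_of_compact hK (half_pos hδ)
  refine ⟨t.ncard, fun S e hS hsep => ?_⟩
  have h1 : ∀ a : E, ∃ x : E, a ∈ S → x ∈ t ∧ e a ∈ ball x (δ / 2) := fun a => by
    by_cases ha : a ∈ S
    · obtain ⟨x, hx, hx'⟩ := mem_iUnion₂.1 (ht (hS a ha))
      exact ⟨x, fun _ => ⟨hx, hx'⟩⟩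
    · exact ⟨a, fun h => absurd h ha⟩
  choose g hg using h1
  have inj : InjOn g S := fun a ha b hb hab => by
    by_contra c
    have h2 := hsep a ha b hb c
    have h3 := mem_ball.1 (hg a ha).2
    have h4 := mem_ball.1 (hg b hb).2
    rw [hab] at h3
    linarith [dist_triangle_right (e a) (e b) (g b)]
  have mp : MapsTo g S t := fun a ha => (hg a ha).1
  exact ⟨Finite.of_injOn mp inj tf, ncard_le_ncard_of_injOn g mp inj tf⟩

variable {m : ℕ}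

theorem small {C ε : ℝ} (hC : 1 ≤ C) (hε : 0 < ε) : ∃ δ : ℝ, 0 < δ ∧
    ∀ (A : Hor m →L[ℝ] Hor m) (p y : Y m), ‖A‖ ≤ C → ‖p‖ ≤ C → dist p y < δ →
      ‖hom A 1 (ldiv p y)‖ ≤ ε := by
  have hc : ContinuousAt (fun r : ℝ => C * ((1 + m * C) * r) + 2 * m * (C * ((1 + m * C) * r)) ^ 2)
      0 := by fun_prop
  obtain ⟨δ, hδ, H⟩ := Metric.continuousAt_iff.1 hc ε hε
  refine ⟨δ, hδ, fun A p y hA hp hd => ?_⟩
  have h1 : ‖ldiv p y‖ ≤ (1 + m * C) * dist p y := by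
    rw [ldiv, dist_comm, dist_eq_norm]
    refine (norm_Lt_le _ _).trans ?_
    rw [norm_neg]
    gcongr
  have h2 := norm_hom_le hA hC zero_le_one le_rfl h1
  have h3 := H (x := dist p y) (by simpa using hd)
  simp only [mul_zero, ne_eq, OfNat.ofNat_ne_zero, not_false_eq_true, zero_pow, add_zero,
    dist_zero_right, Real.norm_eq_abs] at h3
  exact h2.trans ((le_abs_self _).trans h3.le)

theorem small' {C s : ℝ} (hC : 1 ≤ C) : ∃ δ : ℝ, 0 < δ ∧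
    ∀ (A : Hor m →L[ℝ] Hor m) (p y : Y m), ‖A‖ ≤ C → ‖p‖ ≤ C → dist p y < δ →
      ‖eta s p A y‖ ≤ 1 := by
  have hc : ContinuousAt (fun x : Y m => dil s⁻¹ x) 0 := by
    simp only [dil_def]
    fun_prop
  obtain ⟨ε, hε, H⟩ := Metric.continuousAt_iff.1 hc 1 one_pos
  obtain ⟨δ, hδ, H'⟩ := small (m := m) hC (half_pos hε)
  refine ⟨δ, hδ, fun A p y hA hp hd => ?_⟩
  have h1 := H (x := hom A 1 (ldiv p y)) (by
    rw [dist_zero_right]
    linarith [H' A p y hA hp hd])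
  rw [dil_zero', dist_zero_right] at h1
  exact h1.le

theorem le_one {C₁ C₂ C s : ℝ} {k₁ k₂ : ℕ} (h₁ : 1 ≤ C₁) (h₂ : 1 ≤ C₂) (hC : 1 ≤ C) (hs : 0 < s)
    (h : C₁ * C₂ * C ^ (k₁ + k₂) * s ≤ 1) : C₁ * C ^ k₁ * s ≤ 1 := by
  refine le_trans ?_ h
  have h3 : C ^ k₁ ≤ C ^ (k₁ + k₂) := pow_le_pow_right₀ hC (Nat.le_add_right _ _)
  have h4 : C₁ ≤ C₁ * C₂ := le_mul_of_one_le_right (by linarith) h₂
  have : 0 ≤ C := by linarith
  gcongr

end NetAux

open NetAux in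
theorem net (hGeo : GeoStmt) : NetStmt := by
  intro m Cb
  obtain ⟨R₁, C₁, k₁, hR₁, hC₁, G₁⟩ := hGeo m Cb 1
  refine ⟨R₁, hR₁, fun R => ?_⟩
  obtain ⟨R₂, C₂, k₂, -, hC₂, G₂⟩ := hGeo m Cb R
  obtain ⟨δ, hδ, Hδ⟩ := small (m := m) (C := max 1 (max Cb R)) (le_max_left _ _) one_pos
  obtain ⟨M₀, HM⟩ := pack (isCompact_closedBall (0 : Y m) R) hδ
  refine ⟨M₀, C₁ * C₂, k₁ + k₂, one_le_mul_of_one_le_of_one_le hC₁ hC₂,
    fun A B B' C s hA hF hs hle => ?_⟩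
  have g₁ := G₁ A B B' C s hF hs (le_one hC₁ hC₂ hF.one hs hle)
  have g₂ := G₂ A B B' C s hF hs (le_one hC₂ hC₁ hF.one hs (by
    rwa [mul_comm C₂, add_comm k₂]))
  obtain ⟨r, hr, Hr⟩ := small' (m := m) (s := s) hF.one
  obtain ⟨M₁, H₁⟩ := pack hA hr
  let Sep : Set (Y m) → Prop := fun S =>
    S ⊆ A ∧ ∀ a ∈ S, ∀ b ∈ S, a ≠ b → 1 < ‖eta s a (B' a) b‖
  have fin : ∀ S, Sep S → S.Finite ∧ S.ncard ≤ M₁ := fun S hS =>
    H₁ S id (fun a ha => hS.1 ha) fun a ha b hb hab => not_lt.1 fun c =>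
      (hS.2 a ha b hb hab).not_ge (Hr _ a b (hF.bd a (hS.1 ha)).2.2 (hF.bd a (hS.1 ha)).1 c)
  let T : Set ℕ := {n | ∃ S, Sep S ∧ S.ncard = n}
  have bT : BddAbove T := ⟨M₁, fun n ⟨S, hS, e⟩ => e ▸ (fin S hS).2⟩
  obtain ⟨N, hN, eN⟩ : sSup T ∈ T :=
    Nat.sSup_mem ⟨0, ∅, ⟨empty_subset _, fun a ha => absurd ha (notMem_empty a)⟩, ncard_empty _⟩ bT
  refine ⟨N, (fin N hN).1, hN.1, fun y hy => ?_, fun y hy => ?_⟩
  · by_contra c
    have c' : ∀ a ∈ N, R₁ < ‖eta s a (B' a) y‖ := fun a ha => not_le.1 fun h => c ⟨a, ha, h⟩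
    have z : ‖eta s y (B' y) y‖ ≤ 1 := by
      rw [eta_self, norm_zero]
      exact zero_le_one
    have hyN : y ∉ N := fun h => (c' y h).not_ge (z.trans hR₁)
    have hs' : Sep (insert y N) := by
      refine ⟨insert_subset hy hN.1, ?_⟩
      rintro a (rfl | ha) b (rfl | hb) hab
      · exact absurd rfl hab
      · exact not_le.1 fun h => (c' b hb).not_ge ((g₁ a hy b h).2 (hN.1 hb) a z)
      · exact hR₁.trans_lt (c' a ha)
      · exact hN.2 a ha b hb hab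
    have := le_csSup bT (show (insert y N).ncard ∈ T from ⟨_, hs', rfl⟩)
    rw [ncard_insert_of_notMem hyN (fin N hN).1, eN] at this
    omega
  · refine (HM _ (eta s y (B' y)) (fun a ha => mem_closedBall_zero_iff.2 ha.2)
      fun a ha b hb hab => not_lt.1 fun c => (hN.2 a ha.1 b hb.1 hab).not_ge ?_).2
    rw [eta_eta hs.ne' (hF.sym y hy) (hF.ri y hy) (B' a) y a b]
    have h0 : 0 ≤ C⁻¹ := inv_nonneg.2 (by linarith [hF.one])
    refine Hδ _ _ _ ((hF.near a (hN.1 ha.1) y hy ?_).trans ?_) (ha.2.trans ?_) c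
    · linarith [(g₂ y hy a ha.2).1]
    · exact (le_max_left _ _).trans (le_max_right _ _)
    · exact (le_max_right _ _).trans (le_max_right _ _)

end Pool.Agent.MP_6d695c_gt.P

end PkNet

section PkCol

/-! PROJECT P: greedy colouring. -/

open scoped Manifold ContDiff Topology MeasureTheory
open Set Metric Filter Real

namespace Pool.Agent.MP_6d695c_gt.P

open SW T1 Theta

theorem col : ColStmt := by
  intro ι _ r M₀ hs hb
  classical
  have key : ∀ S : Finset ι, ∃ c : ι → ℕ, (∀ a, c a < M₀ + 1) ∧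
      ∀ a ∈ S, ∀ b ∈ S, a ≠ b → r a b → c a ≠ c b := by
    intro S
    induction S using Finset.induction_on with
    | empty => exact ⟨fun _ => 0, fun _ => Nat.succ_pos _, by simp⟩
    | insert x S hx ih =>
      obtain ⟨c, h1, h2⟩ := ih
      have h3 : ((toFinite {b | r x b}).toFinset.image c).card < (Finset.range (M₀ + 1)).card := by
        rw [Finset.card_range]
        refine Nat.lt_succ_of_le (Finset.card_image_le.trans ?_)
        rw [← Set.ncard_eq_toFinset_card]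
        exact hb x
      obtain ⟨k, hk, hk'⟩ := Finset.exists_mem_notMem_of_card_lt_card h3
      have h4 : ∀ b, r x b → k ≠ c b := fun b hb' e =>
        hk' (Finset.mem_image.2 ⟨b, by simpa using hb', e.symm⟩)
      refine ⟨Function.update c x k, fun a => ?_, fun a ha b hb' hab hr => ?_⟩
      · by_cases e : a = x
        · rw [e, Function.update_self]
          exact Finset.mem_range.1 hk
        · rw [Function.update_of_ne e]
          exact h1 a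
      · by_cases e : a = x
        · subst e
          rw [Function.update_self, Function.update_of_ne hab.symm]
          exact h4 b hr
        · by_cases e' : b = x
          · subst e'
            rw [Function.update_self, Function.update_of_ne e]
            exact (h4 a (hs _ _ hr)).symm
          · rw [Function.update_of_ne e, Function.update_of_ne e']
            exact h2 a ((Finset.mem_insert.1 ha).resolve_left e) b
              ((Finset.mem_insert.1 hb').resolve_left e') hab hr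
  obtain ⟨c, h1, h2⟩ := key (toFinite (univ : Set ι)).toFinset
  exact ⟨c, h1, fun a b => h2 a (by simp) b (by simp)⟩

end Pool.Agent.MP_6d695c_gt.P

end PkCol

section PkNodes

/-! PROJECT P, row Nodes. -/

open scoped Manifold ContDiff Topology MeasureTheory
open Set Metric Filter Real

namespace Pool.Agent.MP_6d695c_gt.P

open SW T1 Theta

namespace NodesAux

variable {m : ℕ}

theorem norm_left {g h : Y m} {X X' : ℝ} (h1 : ‖mul g h‖ ≤ X) (h2 : ‖h‖ ≤ X') :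
    ‖g‖ ≤ X + X' + m * ((X + X') * X') := by
  have x0 : 0 ≤ X := (norm_nonneg _).trans h1
  have x1 : 0 ≤ X' := (norm_nonneg _).trans h2
  have a1 : ‖g.2 + h.2‖ ≤ X := (norm_snd_le (mul g h)).trans h1
  have a2 : ‖h.2‖ ≤ X' := (norm_snd_le h).trans h2
  have a3 : ‖g.2‖ ≤ X + X' := by
    have := norm_sub_le (g.2 + h.2) h.2
    rw [add_sub_cancel_right] at this
    linarith
  have a4 : |g.1 + (h.1 - ∑ j, g.2.2 j * h.2.1 j)| ≤ X := (norm_fst_le (mul g h)).trans h1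
  have a5 : |h.1| ≤ X' := (norm_fst_le h).trans h2
  have a6 : |∑ j, g.2.2 j * h.2.1 j| ≤ m * ((X + X') * X') := by
    refine (sum_le _ _).trans (mul_le_mul_of_nonneg_left ?_ (Nat.cast_nonneg _))
    exact mul_le_mul ((norm_snd_le _).trans a3) ((norm_fst_le _).trans a2) (norm_nonneg _)
      (by linarith)
  have a7 : 0 ≤ (m : ℝ) * ((X + X') * X') := by positivity
  refine max_le ?_ (by linarith)
  change |g.1| ≤ _
  rw [abs_le] at a4 a5 a6 ⊢
  constructor <;> linarith [a4.1, a4.2, a5.1, a5.2, a6.1, a6.2]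

theorem scale {C C₁ C₂ s : ℝ} {k₁ k₂ : ℕ} (hC : 1 ≤ C) (h1 : 1 ≤ C₁) (h2 : 1 ≤ C₂) (hs : 0 < s)
    (h : C₁ * C₂ * C ^ (k₁ + k₂) * s ≤ 1) : C₁ * C ^ k₁ * s ≤ 1 ∧ C₂ * C ^ k₂ * s ≤ 1 := by
  have b1 : 1 ≤ C₁ * C ^ k₁ := one_le_mul_of_one_le_of_one_le h1 (one_le_pow₀ hC)
  have b2 : 1 ≤ C₂ * C ^ k₂ := one_le_mul_of_one_le_of_one_le h2 (one_le_pow₀ hC)
  have e : C₁ * C₂ * C ^ (k₁ + k₂) * s = C₁ * C ^ k₁ * (C₂ * C ^ k₂) * s := by ring
  rw [e] at h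
  constructor
  · refine le_trans (mul_le_mul_of_nonneg_right ?_ hs.le) h
    exact le_mul_of_one_le_right (by linarith) b2
  · refine le_trans (mul_le_mul_of_nonneg_right ?_ hs.le) h
    exact le_mul_of_one_le_left (by linarith) b1

end NodesAux

theorem nodes (hNet : NetStmt) (hGeo : GeoStmt) (hCol : ColStmt) : NodesStmt := by
  intro m Cb
  obtain ⟨R₀, hR₀, hN⟩ := hNet m Cb
  refine ⟨R₀, hR₀, fun R => ?_⟩
  obtain ⟨R', C₁, k₁, -, hC₁, hG⟩ := hGeo m Cb (R₀ + 4)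
  set X' : ℝ := max Cb 1 * (R₀ + 4) + 2 * m * (max Cb 1 * (R₀ + 4)) ^ 2 with hX'
  set R'' : ℝ := R₀ + 4 + X' + m * ((R₀ + 4 + X') * X') with hR''
  obtain ⟨M₀, C₂, k₂, hC₂, hN⟩ := hN (max R R'')
  refine ⟨M₀, C₁ * C₂, k₁ + k₂, one_le_mul_of_one_le_of_one_le hC₁ hC₂, ?_⟩
  intro I _ A ρ B B' C s hA hF hs hsc
  have sc := fun i => NodesAux.scale (hF i).one hC₁ hC₂ hs hsc
  choose N Nf Ns Nc Np using fun i =>
    hN _ (B i) (B' i) C s (hA i).cthickening (hF i) hs (sc i).2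
  have fin : {p : I × Y m | p.2 ∈ N p.1}.Finite := by
    refine (finite_iUnion fun i => (finite_singleton i).prod (Nf i)).subset fun p hp => ?_
    exact mem_iUnion.2 ⟨p.1, rfl, hp⟩
  haveI : Finite {p : I × Y m // p.2 ∈ N p.1} := fin.to_subtype
  have pk : ∀ i, ∀ y ∈ cthickening (8 * ρ) (A i), ∀ S : Set {p : I × Y m // p.2 ∈ N p.1},
      (∀ c ∈ S, c.1.1 = i ∧ ‖eta s y (B' i y) c.1.2‖ ≤ max R R'') → S.ncard ≤ M₀ := by
    intro i y hy S hS
    refine le_trans (ncard_le_ncard_of_injOn (fun c => c.1.2) (fun c hc => ?_)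
      (fun c hc c' hc' e => ?_) ((Nf i).subset (sep_subset _ _))) (Np i y hy)
    · obtain ⟨e, h⟩ := hS c hc
      exact ⟨e ▸ c.2, h⟩
    · exact Subtype.ext (Prod.ext ((hS c hc).1.trans (hS c' hc').1.symm) e)
  obtain ⟨col, c1, c2⟩ := hCol {p : I × Y m // p.2 ∈ N p.1}
    (fun c c' => c.1.1 = c'.1.1 ∧ ∃ y, ‖eta s c.1.2 (B' c.1.1 c.1.2) y‖ ≤ R₀ + 4 ∧
      ‖eta s c'.1.2 (B' c'.1.1 c'.1.2) y‖ ≤ R₀ + 4) M₀
    (fun _ _ ⟨e, y, h1, h2⟩ => ⟨e.symm, y, h2, h1⟩) fun a => by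
      refine pk a.1.1 a.1.2 (Ns _ a.2) _ ?_
      rintro ⟨⟨j, c⟩, hc⟩ ⟨e, y, h1, h2⟩
      obtain ⟨⟨i, a⟩, ha⟩ := a
      obtain rfl : i = j := e
      refine ⟨rfl, le_trans ?_ (le_max_right _ _)⟩
      change ‖eta s a (B' i a) y‖ ≤ _ at h1
      change ‖eta s c (B' i c) y‖ ≤ _ at h2
      change ‖eta s a (B' i a) c‖ ≤ _
      have ma := Ns i ha
      have mc := Ns i hc
      have d1 := (hG _ _ _ C s (hF i) hs (sc i).1 a ma y h1).1
      have d2 := (hG _ _ _ C s (hF i) hs (sc i).1 c mc y h2).1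
      have ci : 0 ≤ C⁻¹ := inv_nonneg.2 (by linarith [(hF i).one])
      have d3 : ‖a - c‖ ≤ C⁻¹ := by
        have := norm_sub_le (y - c) (y - a)
        rw [sub_sub_sub_cancel_left] at this
        linarith
      have nb := ((hF i).near a ma c mc d3).trans (le_max_left Cb 1)
      have e := eta_trans hs.ne' (((hF i).sym a ma).inv ((hF i).ri a ma)) (B i c) c a
        (eta s c (B' i c) y)
      rw [zeta_eta hs.ne' ((hF i).ri c mc)] at e
      rw [e] at h1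
      exact NodesAux.norm_left h1 (norm_hom_le nb (le_max_right _ _) zero_le_one le_rfl h2)
  refine ⟨{p : I × Y m // p.2 ∈ N p.1}, inferInstance, fun c => c.1.1, fun c => c.1.2, col,
    fun c => Ns _ c.2, fun i y hy => ?_, fun i y hy => pk i y hy _ fun c hc =>
      ⟨hc.1, hc.2.trans (le_max_left _ _)⟩, c1, fun c c' hne e ec y h1 => ?_⟩
  · obtain ⟨c, hc, h⟩ := Nc i y hy
    exact ⟨⟨(i, c), hc⟩, rfl, h⟩
  · exact lt_of_not_ge fun h2 => c2 c c' hne ⟨e, y, h1, h2⟩ ec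

end Pool.Agent.MP_6d695c_gt.P

end PkNodes

section PkSheet

/-! PROJECT P, row Sheet: the image of a cell is close to a sheet. -/

open scoped Manifold ContDiff Topology MeasureTheory
open Set Metric Filter Real

namespace Pool.Agent.MP_6d695c_gt.P

open SW T1 Theta

namespace SheetAux

variable {m : ℕ}

theorem hq_sub_le (u v : Hor m) : |hq u - hq v| ≤ m * ((‖u‖ + ‖v‖) * ‖u - v‖) := by
  have e : hq u - hq v = (∑ j, (u - v).1 j * u.2 j + ∑ j, v.1 j * (u - v).2 j) / 2 := by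
    simp only [hq, Prod.fst_sub, Prod.snd_sub, Pi.sub_apply, sub_mul, mul_sub,
      Finset.sum_sub_distrib]
    ring
  have h1 := sum_le (u - v).1 u.2
  have h2 := sum_le v.1 (u - v).2
  have h3 : ‖(u - v).1‖ * ‖u.2‖ ≤ ‖u - v‖ * ‖u‖ :=
    mul_le_mul (norm_fst_le _) (norm_snd_le _) (norm_nonneg _) (norm_nonneg _)
  have h4 : ‖v.1‖ * ‖(u - v).2‖ ≤ ‖v‖ * ‖u - v‖ :=
    mul_le_mul (norm_fst_le _) (norm_snd_le _) (norm_nonneg _) (norm_nonneg _)
  have h5 : (m : ℝ) * (‖(u - v).1‖ * ‖u.2‖) ≤ m * (‖u - v‖ * ‖u‖) := by gcongr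
  have h6 : (m : ℝ) * (‖v.1‖ * ‖(u - v).2‖) ≤ m * (‖v‖ * ‖u - v‖) := by gcongr
  have h7 := abs_add_le (∑ j, (u - v).1 j * u.2 j) (∑ j, v.1 j * (u - v).2 j)
  have h8 := abs_nonneg (∑ j, (u - v).1 j * u.2 j + ∑ j, v.1 j * (u - v).2 j)
  rw [e, abs_div, abs_two]
  nlinarith

/-- the homomorphisms are Lipschitz on bounded sets -/
theorem hom_sub_le {D : Hor m →L[ℝ] Hor m} {C W δ : ℝ} {a b : Y m} (hD : ‖D‖ ≤ C) (hC : 1 ≤ C)
    (hW : ‖a.2‖ + ‖b.2‖ ≤ W) (hδ : ‖a - b‖ ≤ δ) :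
    ‖hom D 1 a - hom D 1 b‖ ≤ (1 + 2 * m * W) * C ^ 2 * δ := by
  have d0 : 0 ≤ δ := (norm_nonneg _).trans hδ
  have w0 : 0 ≤ W := le_trans (by positivity) hW
  have c2 : 1 ≤ C ^ 2 := one_le_pow₀ hC
  have a1 : |a.1 - b.1| ≤ δ := (norm_fst_le (a - b)).trans hδ
  have a2 : ‖a.2 - b.2‖ ≤ δ := (norm_snd_le (a - b)).trans hδ
  have a3 : ‖D a.2 - D b.2‖ ≤ C * δ := by
    rw [← map_sub]
    exact (D.le_opNorm _).trans (by gcongr)
  have a4 : ‖D a.2‖ + ‖D b.2‖ ≤ C * W := by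
    have h1 : ‖D a.2‖ ≤ C * ‖a.2‖ := (D.le_opNorm _).trans (by gcongr)
    have h2 : ‖D b.2‖ ≤ C * ‖b.2‖ := (D.le_opNorm _).trans (by gcongr)
    nlinarith
  have a5 : |hq a.2 - hq b.2| ≤ m * (W * δ) := (hq_sub_le _ _).trans (by gcongr)
  have a6 : |hq (D a.2) - hq (D b.2)| ≤ m * (C * W * (C * δ)) :=
    (hq_sub_le _ _).trans (by gcongr)
  have a7 : 0 ≤ (m : ℝ) * (W * δ) := by positivity
  have a8 : (m : ℝ) * (W * δ) ≤ m * (W * δ) * C ^ 2 := le_mul_of_one_le_right a7 c2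
  have a9 : δ ≤ C ^ 2 * δ := le_mul_of_one_le_left d0 c2
  refine max_le ?_ ?_
  · change |1 * (a.1 + hq a.2) - hq (D a.2) - (1 * (b.1 + hq b.2) - hq (D b.2))| ≤ _
    rw [show 1 * (a.1 + hq a.2) - hq (D a.2) - (1 * (b.1 + hq b.2) - hq (D b.2)) =
      (a.1 - b.1) + (hq a.2 - hq b.2) - (hq (D a.2) - hq (D b.2)) by ring]
    refine (abs_sub _ _).trans ?_
    have := abs_add_le (a.1 - b.1) (hq a.2 - hq b.2)
    nlinarith
  · change ‖D a.2 - D b.2‖ ≤ _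
    have : C * δ ≤ C ^ 2 * δ := by gcongr; nlinarith
    nlinarith

theorem mul_sub_le (g a b : Y m) : ‖mul g a - mul g b‖ ≤ (1 + m * ‖g‖) * ‖a - b‖ := by
  have e : mul g a - mul g b = Lt g (a - b) := by
    simp only [mul, map_sub]
    abel
  rw [e]
  exact norm_Lt_le _ _

theorem hA_le {C f : ℝ} {h : Y m → Y m} {y : Y m} (hC : 1 ≤ C) (hc : Ctc C h y f) (u : Hor m) :
    ‖hA h y u‖ ≤ (1 + m) * C ^ 2 * ‖u‖ := by
  have h1 : ‖fderiv ℝ h y‖ ≤ C := (hc.b1 y (by simp; linarith)).1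
  have h2 : ‖Lt y ((0 : ℝ), u)‖ ≤ (1 + m * C) * ‖u‖ := by
    refine (norm_Lt_le _ _).trans ?_
    have : ‖(((0 : ℝ), u) : Y m)‖ = ‖u‖ := by simp [Prod.norm_def]
    rw [this]
    gcongr
    exact hc.b0.1
  have h3 : ‖hA h y u‖ ≤ C * ((1 + m * C) * ‖u‖) :=
    (norm_snd_le (fderiv ℝ h y (Lt y ((0 : ℝ), u)))).trans
      (((fderiv ℝ h y).le_opNorm _).trans (by gcongr))
  refine h3.trans ?_
  have h4 : C * (1 + m * C) ≤ (1 + m) * C ^ 2 := by nlinarith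
  rw [← mul_assoc]
  gcongr

end SheetAux

open SheetAux in
theorem sheet (hBlow : BlowStmt) (hSymH : SymHStmt) : SheetStmt := by
  intro m Cb R
  obtain ⟨C₁, k, hC₁, hB⟩ := hBlow m
  obtain ⟨R₁, hR, hR₁⟩ : ∃ R₁ : ℝ, R ≤ R₁ ∧ 1 ≤ R₁ := ⟨max R 1, le_max_left _ _, le_max_right _ _⟩
  obtain ⟨b, hb, hb₁⟩ : ∃ b : ℝ, Cb ≤ b ∧ 1 ≤ b := ⟨max Cb 1, le_max_left _ _, le_max_right _ _⟩
  have m0 : (0 : ℝ) ≤ m := Nat.cast_nonneg m
  set N : ℝ := (1 + m * R₁) * (b * R₁ + 2 * m * (b * R₁) ^ 2) with hN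
  have N0 : 0 ≤ N := by positivity
  refine ⟨R₁ + b + 1 + N, by linarith, fun κ hκ => ?_⟩
  obtain ⟨κ₁, k0, k1, k2⟩ : ∃ κ₁ : ℝ, 0 < κ₁ ∧ κ₁ ≤ κ ∧ κ₁ ≤ 1 :=
    ⟨min κ 1, lt_min hκ one_pos, min_le_left _ _, min_le_right _ _⟩
  set L : ℝ := (1 + m * R₁) * (1 + 6 * m * (1 + m) * R₁) with hL
  have L1 : 1 ≤ L := one_le_mul_of_one_le_of_one_le (le_add_of_nonneg_right (by positivity))
    (le_add_of_nonneg_right (by positivity))
  set Q : ℝ := (1 + 2 * m) * R₁ ^ 2 with hQ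
  have Q1 : 1 ≤ Q := one_le_mul_of_one_le_of_one_le (by linarith) (one_le_pow₀ hR₁)
  refine ⟨C₁ * Q ^ k * L / κ₁, 3 * k + 5, ?_, ?_⟩
  · rw [le_div_iff₀ k0, one_mul]
    exact k2.trans (one_le_mul_of_one_le_of_one_le
      (one_le_mul_of_one_le_of_one_le hC₁ (one_le_pow₀ Q1)) L1)
  intro C s f f₀ h y y' c B B' D' hC hs hsm hc f0 f1 f2 sB ri sD nB nD nA e1 e2
  have sA := hSymH m C f h y hC hc
  set η := eta s y B' y' with hη
  set g := eta s c D' (h y) with hg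
  set A := hA h y with hAd
  have η1 : ‖η‖ ≤ R₁ := e1.trans hR
  have g1 : ‖g‖ ≤ R₁ := e2.trans hR
  have c5 : 1 ≤ C ^ 5 := one_le_pow₀ hC
  have hy' : mul y (dil s (hom B 1 η)) = y' := by
    rw [← hom_dil]
    exact zeta_eta hs.ne' ri y y'
  have ξ1 : ‖hom B 1 η‖ ≤ Q * C ^ 2 := by
    refine (norm_hom_le nB hC zero_le_one le_rfl η1).trans ?_
    have h1 : 1 ≤ C * R₁ := one_le_mul_of_one_le_of_one_le hC hR₁
    rw [hQ]
    nlinarith
  set δ : ℝ := κ₁ / (L * C ^ 5) with hδ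
  have LC : 1 ≤ L * C ^ 5 := one_le_mul_of_one_le_of_one_le L1 c5
  have δ0 : 0 ≤ δ := by positivity
  have δ1 : δ ≤ 1 := (div_le_self k0.le LC).trans k2
  have hw := hB C (Q * C ^ 2) s δ f h y (hom B 1 η) hC
    (one_le_mul_of_one_le_of_one_le Q1 (one_le_pow₀ hC)) hs δ1 (by
      rw [hδ, le_div_iff₀ (by positivity)]
      rw [div_mul_eq_mul_div, div_mul_eq_mul_div, div_le_one k0] at hsm
      refine le_trans (le_of_eq ?_) hsm
      rw [show C * (Q * C ^ 2) = Q * C ^ 3 by ring, mul_pow, ← pow_mul, pow_add]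
      ring) hc ξ1
  rw [hy'] at hw
  set w := dil s⁻¹ (ldiv (h y) (h y')) with hwd
  set w₀ := hom A f (hom B 1 η) with hw₀
  have e3 : eta s c D' (h y') = mul g (hom D' 1 w) := by
    rw [hg, ← eta_mul hs.ne' sD, hwd, dil_dil', mul_inv_cancel₀ hs.ne', dil_one', mul_ldiv']
  have e4 : hom (D'.comp (A.comp B)) f η = hom D' 1 w₀ := by
    rw [hw₀, hom_hom, hom_hom, one_mul, mul_one]
    rfl
  have w1 : ‖w₀.2‖ ≤ (1 + m) * C ^ 3 * R₁ := by
    have h1 : ‖B η.2‖ ≤ C * R₁ :=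
      (B.le_opNorm _).trans (by gcongr; exact (norm_snd_le η).trans η1)
    refine (hA_le hC hc (B η.2)).trans ?_
    calc (1 + m) * C ^ 2 * ‖B η.2‖ ≤ (1 + m) * C ^ 2 * (C * R₁) := by gcongr
      _ = _ := by ring
  have w2 : ‖w.2‖ ≤ ‖w₀.2‖ + 1 := by
    have h1 : ‖w.2 - w₀.2‖ ≤ 1 := ((norm_snd_le (w - w₀)).trans hw).trans δ1
    have h2 := norm_sub_norm_le w.2 w₀.2
    linarith
  have c3 : 1 ≤ C ^ 3 := one_le_pow₀ hC
  have w3 : 1 ≤ (1 + m) * C ^ 3 * R₁ :=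
    one_le_mul_of_one_le_of_one_le (one_le_mul_of_one_le_of_one_le (by linarith) c3) hR₁
  have w4 := hom_sub_le (W := 3 * ((1 + m) * C ^ 3 * R₁)) nD hC (by linarith) hw
  have main : ‖eta s c D' (h y') - mul g (hom (D'.comp (A.comp B)) f η)‖ ≤ κ₁ := by
    rw [e3, e4]
    refine (mul_sub_le _ _ _).trans ?_
    have h1 : (1 + 2 * m * (3 * ((1 + m) * C ^ 3 * R₁))) * C ^ 2 * δ ≤
        (1 + 6 * m * (1 + m) * R₁) * C ^ 5 * δ := by
      gcongr ?_ * δ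
      have h2 : C ^ 2 ≤ C ^ 5 := pow_le_pow_right₀ hC (by norm_num)
      nlinarith
    calc _ ≤ (1 + m * R₁) * ((1 + 6 * m * (1 + m) * R₁) * C ^ 5 * δ) := by
          gcongr
          exact w4.trans h1
      _ = L * C ^ 5 * δ := by rw [hL]; ring
      _ = κ₁ := by rw [hδ]; field_simp
  have p1 : ‖mul g (hom (D'.comp (A.comp B)) f η)‖ ≤ R₁ + N := by
    have h1 := mul_sub_le g (hom (D'.comp (A.comp B)) f η) 0
    rw [mul_zero', sub_zero] at h1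
    have h2 := norm_hom_le (nA.trans hb) hb₁ f0 (f1.trans f2) η1
    have h3 : ‖mul g (hom (D'.comp (A.comp B)) f η) - g‖ ≤ N := h1.trans (by rw [hN]; gcongr)
    have h4 := norm_sub_norm_le (mul g (hom (D'.comp (A.comp B)) f η)) g
    linarith
  refine ⟨⟨by change ‖g‖ ≤ _; linarith, by change ‖D'.comp (A.comp B)‖ ≤ _; linarith, ?_, f0, f1⟩,
    ?_, _, ⟨η, mem_closedBall_zero_iff.2 (by linarith), rfl⟩, main.trans k1⟩
  · simpa using sD.comp (sA.comp sB)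
  · have h4 := norm_sub_norm_le (eta s c D' (h y')) (mul g (hom (D'.comp (A.comp B)) f η))
    linarith

end Pool.Agent.MP_6d695c_gt.P

end PkSheet

section PkRank

/-! PROJECT P, row RANK: the degeneracy order. -/

open Finset

namespace Pool.Agent.MP_6d695c_gt.P

namespace RankAux

open Classical in
theorem pick {ι : Type} (C ne : ℕ) (E : ι → ι → Prop) (act : ι → Prop)
    (h1 : ∀ (u : ι) (T : Finset ι), #{c ∈ T | E u c} ≤ C)
    (h2 : ∀ u : ℕ → ι, (∀ a < ne, E (u a) (u (a + 1))) → ∃ a < ne, act (u (a + 1)))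
    (S : Finset ι) (hS : S.Nonempty) :
    ∃ c ∈ S, (act c ∧ #{u ∈ S | E u c} ≤ C * ∑ j ∈ range ne, C ^ j) ∨ ∀ u ∈ S, ¬ E u c := by
  by_contra hn
  push Not at hn
  choose! p hp hE using fun c hc => (hn c hc).2
  have hi : ∀ j, ∀ c ∈ S, p^[j] c ∈ S := fun j c hc => by
    induction j with
    | zero => exact hc
    | succ j ih => rw [Function.iterate_succ_apply']; exact hp _ ih
  have ed : ∀ T T' : Finset ι, ∑ c ∈ T', #{u ∈ T | E u c} ≤ C * #T := fun T T' => by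
    simp only [card_filter]
    rw [sum_comm]
    exact (sum_le_card_nsmul _ _ C fun u _ => (card_filter _ _).ge.trans (h1 u T')).trans_eq
      (mul_comm _ _)
  set A := {c ∈ S | act c} with hA
  have hj : ∀ j, #{c ∈ S | act (p^[j] c)} ≤ C ^ j * #A := fun j => by
    induction j with
    | zero => simp [hA]
    | succ j ih =>
      refine le_trans ?_ ((ed {c ∈ S | act (p^[j] c)} {c ∈ S | act (p^[j + 1] c)}).trans
        ((Nat.mul_le_mul_left C ih).trans_eq (by ring)))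
      rw [card_eq_sum_ones]
      refine sum_le_sum fun c hc => card_pos.2 ⟨p c, ?_⟩
      have hc' := mem_filter.1 hc
      exact mem_filter.2 ⟨mem_filter.2 ⟨hp c hc'.1, hc'.2⟩, hE c hc'.1⟩
  have hc : #S ≤ (∑ j ∈ range ne, C ^ j) * #A := by
    rw [sum_mul]
    refine le_trans (card_le_card fun c hc => ?_)
      (card_biUnion_le.trans (sum_le_sum fun j _ => hj j))
    obtain ⟨a, ha, h⟩ := h2 (fun a => p^[ne - a] c) fun a ha => by
      rw [show ne - a = ne - (a + 1) + 1 by omega, Function.iterate_succ_apply']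
      exact hE _ (hi _ c hc)
    exact mem_biUnion.2 ⟨ne - (a + 1), mem_range.2 (by omega), mem_filter.2 ⟨hc, h⟩⟩
  have h3 := card_nsmul_le_sum A _ _ fun c hc =>
    Nat.succ_le_of_lt ((hn c (mem_filter.1 hc).1).1 (mem_filter.1 hc).2)
  have h4 := ed S A
  have h5 := Nat.mul_le_mul_left C hc
  have h6 := card_pos.2 hS
  rw [smul_eq_mul, Nat.mul_succ] at h3
  have h7 : #A = 0 := by nlinarith
  rw [h7] at hc
  omega

open Classical in
theorem ord {ι : Type} (b : ℕ) (E : ι → ι → Prop) (act : ι → Prop)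
    (h : ∀ S : Finset ι, S.Nonempty →
      ∃ c ∈ S, (act c ∧ #{u ∈ S | E u c} ≤ b) ∨ ∀ u ∈ S, ¬ E u c) (S : Finset ι) :
    ∃ rk : ι → ℕ, ∀ c ∈ S, #{u ∈ S | E u c ∧ rk c ≤ rk u} ≤ b ∧
      (¬ act c → ∀ u ∈ S, E u c → rk u < rk c) := by
  induction S using Finset.strongInduction with
  | H S ih =>
    rcases S.eq_empty_or_nonempty with rfl | hS
    · exact ⟨0, by simp⟩
    obtain ⟨c0, h0, hc0⟩ := h S hS
    obtain ⟨rk, hr⟩ := ih _ (erase_ssubset h0)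
    refine ⟨fun c => if c = c0 then 0 else rk c + 1, fun c hc => ?_⟩
    by_cases e : c = c0
    · subst e
      rcases hc0 with ⟨h1, h2⟩ | h1
      · exact ⟨le_trans (card_le_card fun u hu => mem_filter.2
          ⟨(mem_filter.1 hu).1, (mem_filter.1 hu).2.1⟩) h2, fun h => absurd h1 h⟩
      · exact ⟨(card_eq_zero.2 (filter_eq_empty_iff.2 fun u hu h => h1 u hu h.1)).trans_le
          (Nat.zero_le _), fun _ u hu h => absurd h (h1 u hu)⟩
    · obtain ⟨h1, h2⟩ := hr c (mem_erase.2 ⟨e, hc⟩)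
      refine ⟨le_trans (card_le_card fun u hu => ?_) h1, fun ha u hu hE => ?_⟩
      · obtain ⟨h3, h4, h5⟩ := mem_filter.1 hu
        by_cases e' : u = c0
        · simp [e, e'] at h5
        · simp only [e, e', if_false] at h5
          exact mem_filter.2 ⟨mem_erase.2 ⟨e', h3⟩, h4, by omega⟩
      · by_cases e' : u = c0
        · simp [e, e']
        · simpa [e, e'] using h2 ha u (mem_erase.2 ⟨e', hu⟩) hE

end RankAux

open Classical in
theorem rank : RankStmt := by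
  intro C ne
  refine ⟨C * ∑ j ∈ range ne, C ^ j, fun ι _ E act h1 h2 => ?_⟩
  have := Fintype.ofFinite ι
  obtain ⟨rk, hr⟩ := RankAux.ord _ E act (RankAux.pick C ne E act (fun u T => by
    refine le_trans ?_ (h1 u)
    rw [← Set.ncard_coe_finset]
    exact Set.ncard_le_ncard fun c hc => (mem_filter.1 hc).2) h2) univ
  refine ⟨rk, fun c => ⟨fun _ => le_trans ?_ (hr c (mem_univ _)).1,
    fun h u => (hr c (mem_univ _)).2 h u (mem_univ _)⟩⟩
  rw [← Set.ncard_coe_finset]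
  exact Set.ncard_le_ncard fun u hu => mem_filter.2 ⟨mem_univ _, hu⟩

end Pool.Agent.MP_6d695c_gt.P

end PkRank

section PkCfg

/-! PROJECT P, row Cfg: nodes, ranks and lists of sheets. -/

open scoped Manifold ContDiff Topology MeasureTheory
open Set Metric Filter Real

namespace Pool.Agent.MP_6d695c_gt.P

open SW T1 Theta

namespace CfgAux

theorem small {C s a a' : ℝ} {j j' : ℕ} (hC : 1 ≤ C) (hs : 0 < s) (h0 : 0 ≤ a) (ha : a ≤ a')
    (hj : j ≤ j') (h : a' * C ^ j' * s ≤ 1) : a * C ^ j * s ≤ 1 := by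
  refine le_trans (mul_le_mul_of_nonneg_right ?_ hs.le) h
  exact mul_le_mul ha (pow_le_pow_right₀ hC hj) (by positivity) (h0.trans ha)

theorem ncard_fib {α : Type} (g : α → ℕ → Prop) (M : ℕ) (h : ∀ k, {a | g a k}.ncard ≤ M)
    (n : ℕ) : {a | ∃ k < n, g a k}.ncard ≤ n * M := by
  induction n with
  | zero => simp
  | succ n ih =>
    have e : {a | ∃ k < n + 1, g a k} = {a | ∃ k < n, g a k} ∪ {a | g a n} := by
      ext a
      constructor
      · rintro ⟨k, hk, hg⟩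
        rcases Nat.lt_succ_iff_lt_or_eq.1 hk with h1 | rfl
        · exact Or.inl ⟨k, h1, hg⟩
        · exact Or.inr hg
      · rintro (⟨k, hk, hg⟩ | hg)
        · exact ⟨k, by omega, hg⟩
        · exact ⟨n, by omega, hg⟩
    rw [e, Nat.succ_mul]
    exact (ncard_union_le _ _).trans (add_le_add ih (h n))

theorem enum {α : Type} {S : Set α} (hS : S.Finite) {b : ℕ} (hb : S.ncard ≤ b) (d : α) :
    ∃ P : Fin b → α, (∀ i, P i ∈ S ∨ P i = d) ∧ ∀ p ∈ S, ∃ i, P i = p := by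
  rw [ncard_eq_toFinset_card S hS, ← Finset.length_toList] at hb
  refine ⟨fun i => hS.toFinset.toList.getD i d, fun i => ?_, fun p hp => ?_⟩
  · by_cases hi : (i : ℕ) < hS.toFinset.toList.length
    · left
      simp only [List.getD_eq_getElem _ _ hi]
      exact hS.mem_toFinset.1 (Finset.mem_toList.1 (List.getElem_mem hi))
    · right
      exact List.getD_eq_default _ _ (not_lt.1 hi)
  · obtain ⟨n, hn, e⟩ := List.getElem_of_mem (Finset.mem_toList.2 (hS.mem_toFinset.2 hp))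
    refine ⟨⟨n, hn.trans_le hb⟩, ?_⟩
    simp only [List.getD_eq_getElem _ _ hn]
    exact e

variable {m : ℕ}

theorem thick {A : Set (Y m)} {ρ a : ℝ} {x y : Y m} (hρ : 0 ≤ ρ) (ha : 0 ≤ a)
    (hy : y ∈ cthickening (a * ρ) A) (h : ‖x - y‖ ≤ ρ) : x ∈ cthickening ((a + 1) * ρ) A := by
  rw [show (a + 1) * ρ = ρ + a * ρ by ring]
  exact cthickening_cthickening_subset hρ (mul_nonneg ha hρ) A
    (mem_cthickening_of_dist_le x y ρ _ hy (by rwa [dist_eq_norm]))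

theorem norm_half {x y c : Y m} {r : ℝ} (hx : ‖x - c‖ ≤ r / 4) (hy : ‖y - c‖ ≤ r / 4) :
    ‖x - y‖ ≤ r / 2 := by
  have := norm_sub_le (x - c) (y - c)
  rw [sub_sub_sub_cancel_right] at this
  linarith

theorem good_mono {C C' f₀ : ℝ} {p : Sp m} (h : GoodP C f₀ p) (hC : C ≤ C') : GoodP C' f₀ p :=
  ⟨h.1.trans hC, h.2.1.trans hC, h.2.2⟩

theorem good_zero {C f₀ : ℝ} (hC : 0 ≤ C) (hf : 0 ≤ f₀) : GoodP C f₀ ((0, 0, 0) : Sp m) :=
  ⟨by simpa using hC, by simpa using hC, fun u v => by simp [om], le_rfl, hf⟩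

theorem sh_mono {R R' : ℝ} (h : R ≤ R') (p : Sp m) : Sh R p ⊆ Sh R' p :=
  image_mono (closedBall_subset_closedBall h)

/-- the conclusion of GEO for all towers -/
def GeoI {I : Type} (A : I → Set (Y m)) (ρ : ℝ) (B' : I → Y m → Hor m →L[ℝ] Hor m)
    (s C R R' : ℝ) : Prop :=
  ∀ i, ∀ c ∈ cthickening (8 * ρ) (A i), ∀ y, ‖eta s c (B' i c) y‖ ≤ R → ‖y - c‖ ≤ C⁻¹ / 4 ∧
    (y ∈ cthickening (8 * ρ) (A i) → ∀ y', ‖eta s c (B' i c) y'‖ ≤ R → ‖eta s y (B' i y) y'‖ ≤ R')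

/-- the conclusion of SHEET -/
def ShI (m : ℕ) (s C f₀ Cb R Cg κ : ℝ) : Prop :=
  ∀ (f : ℝ) (h : Y m → Y m) (y y' c : Y m) (B B' D' : Hor m →L[ℝ] Hor m), Ctc C h y f → 0 ≤ f →
    f ≤ f₀ → Sym B 1 → (∀ u, B (B' u) = u) → Sym D' 1 → ‖B‖ ≤ C → ‖D'‖ ≤ C →
    ‖D'.comp ((hA h y).comp B)‖ ≤ Cb → ‖eta s y B' y'‖ ≤ R → ‖eta s c D' (h y)‖ ≤ R →
    GoodP Cg f₀ (eta s c D' (h y), D'.comp ((hA h y).comp B), f) ∧ ‖eta s c D' (h y')‖ ≤ Cg ∧
      ∃ p ∈ Sh Cg (eta s c D' (h y), D'.comp ((hA h y).comp B), f), ‖eta s c D' (h y') - p‖ ≤ κ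

/-- the parameter of the sheet of a link seen from the centre `c` -/
noncomputable def par {I : Type} (B B' : I → Y m → Hor m →L[ℝ] Hor m) (s : ℝ) (c : Y m)
    (e : Lk I m) : Sp m :=
  (eta s c (B' e.j c) (e.h e.y), (B' e.j c).comp ((hA e.h e.y).comp (B e.i e.y)), e.f)

/-- the link `e` leads from the cell of `u` to the cell of `c` -/
def Wit {I ι : Type} (𝓛 : Set (Lk I m)) (tw : ι → I) (η : ι → Y m → Y m) (R : ℝ) (u c : ι)
    (e : Lk I m) : Prop :=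
  e ∈ 𝓛 ∧ tw u = e.i ∧ tw c = e.j ∧ ‖η u e.y‖ ≤ R ∧ ‖η c (e.h e.y)‖ ≤ R

section Main
variable {I : Type} {A : I → Set (Y m)} {ρ : ℝ} {B B' : I → Y m → Hor m →L[ℝ] Hor m}
  {𝓛 : Set (Lk I m)} {C Cb f₀ s R₁ R₁' R₂ R₂' R₃' Cg κ : ℝ} {nb ne : ℕ}

theorem rho_pos (hC : 1 ≤ C) (hS : Sys A ρ B B' 𝓛 C Cb f₀ nb ne) : 0 < ρ :=
  (inv_pos.2 (by linarith)).trans_le hS.le

theorem mem8 (hC : 1 ≤ C) (hS : Sys A ρ B B' 𝓛 C Cb f₀ nb ne) {e : Lk I m} (he : e ∈ 𝓛) :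
    e.y ∈ cthickening (8 * ρ) (A e.i) ∧ e.h e.y ∈ cthickening (8 * ρ) (A e.j) := by
  have h := rho_pos hC hS
  have h78 : 7 * ρ ≤ 8 * ρ := by linarith
  exact ⟨cthickening_mono h78 _ (hS.mem e he).1, cthickening_mono h78 _ (hS.mem e he).2.1⟩

/-- two links of the same index from the same cell -/
theorem key (hC : 1 ≤ C) (hCb : 1 ≤ Cb) (hS : Sys A ρ B B' 𝓛 C Cb f₀ nb ne)
    (g1 : GeoI A ρ B' s C R₁ R₁') (hR : R₁ ≤ R₁') (hsh : ShI m s C f₀ (Cb ^ 2) R₁' Cg κ)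
    {e₀ e : Lk I m} (h0 : e₀ ∈ 𝓛) (he : e ∈ 𝓛) (hi : e₀.i = e.i) (hk : e₀.k = e.k) {a c : Y m}
    (ha : a ∈ cthickening (8 * ρ) (A e₀.i)) (hc : c ∈ cthickening (8 * ρ) (A e₀.j))
    (a0 : ‖eta s a (B' e₀.i a) e₀.y‖ ≤ R₁) (a1 : ‖eta s a (B' e₀.i a) e.y‖ ≤ R₁)
    (c0 : ‖eta s c (B' e₀.j c) (e₀.h e₀.y)‖ ≤ R₁) :
    e₀.j = e.j ∧ GoodP Cg f₀ (par B B' s c e₀) ∧ ‖eta s c (B' e₀.j c) (e.h e.y)‖ ≤ Cg ∧
      ∃ p ∈ Sh Cg (par B B' s c e₀), ‖eta s c (B' e₀.j c) (e.h e.y) - p‖ ≤ κ := by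
  have hCi : 0 < C⁻¹ := inv_pos.2 (by linarith)
  obtain ⟨m1, m2⟩ := mem8 hC hS h0
  obtain ⟨d0, d1⟩ := g1 _ a ha _ a0
  have d2 := (g1 _ a ha _ a1).1
  have d3 := (g1 _ c hc _ c0).1
  obtain ⟨j1, j2⟩ := hS.coh e₀ h0 e he hi hk ((norm_half d0 d2).trans (by linarith))
  have fi := hS.fr e₀.i
  have fj := hS.fr e₀.j
  have n1 : ‖(B' e₀.j c).comp (B e₀.j (e₀.h e₀.y))‖ ≤ Cb :=
    fj.near c hc _ m2 (by rw [norm_sub_rev]; linarith)
  have n2 := hS.nrm e₀ h0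
  have n3 : ‖(B' e₀.j c).comp ((hA e₀.h e₀.y).comp (B e₀.i e₀.y))‖ ≤ Cb ^ 2 := by
    have e1 : (B' e₀.j c).comp ((hA e₀.h e₀.y).comp (B e₀.i e₀.y)) =
        ((B' e₀.j c).comp (B e₀.j (e₀.h e₀.y))).comp
          ((B' e₀.j (e₀.h e₀.y)).comp ((hA e₀.h e₀.y).comp (B e₀.i e₀.y))) := by
      refine ContinuousLinearMap.ext fun u => ?_
      simp only [ContinuousLinearMap.comp_apply, fj.ri _ m2]
    rw [e1, sq]
    exact (ContinuousLinearMap.opNorm_comp_le _ _).trans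
      (mul_le_mul n1 n2 (norm_nonneg _) (by linarith))
  have H := hsh e₀.f e₀.h e₀.y e.y c (B e₀.i e₀.y) (B' e₀.i e₀.y) (B' e₀.j c) (hS.ctc e₀ h0)
    (hS.mem e₀ h0).2.2.2.1.le (hS.mem e₀ h0).2.2.2.2 (fi.sym _ m1) (fi.ri _ m1)
    ((fj.sym _ hc).inv (fj.ri _ hc)) (fi.bd _ m1).2.1 (fj.bd _ hc).2.2 n3 (d1 m1 _ a1)
    (c0.trans hR)
  rw [j2] at H
  exact ⟨j1, H⟩

variable {ι : Type} {R₀ : ℝ} {M₀ : ℕ} {tw : ι → I} {ce : ι → Y m} {col : ι → ℕ}

/-- the out-degree for one index -/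
theorem outdeg [Finite ι] (hC : 1 ≤ C) (hCb : 1 ≤ Cb) (hS : Sys A ρ B B' 𝓛 C Cb f₀ nb ne)
    (hN : Nods A ρ B B' s R₀ R₃' M₀ tw ce col) (h0 : 0 ≤ R₁)
    (g1 : GeoI A ρ B' s C R₁ R₁') (hR : R₁ ≤ R₁') (hsh : ShI m s C f₀ (Cb ^ 2) R₁' Cg κ)
    (g2 : GeoI A ρ B' s C R₂ R₂') (h21 : R₁ ≤ R₂) (h22 : Cg ≤ R₂) (g3 : GeoI A ρ B' s C R₂' R₃')
    (u : ι) (k : ℕ) :
    {c | ∃ e, Wit 𝓛 tw (fun c => eta s (ce c) (B' (tw c) (ce c))) R₁ u c e ∧ e.k = k}.ncard ≤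
      M₀ := by
  by_cases hn : ∃ c e, Wit 𝓛 tw (fun c => eta s (ce c) (B' (tw c) (ce c))) R₁ u c e ∧ e.k = k
  swap
  · have : {c | ∃ e, Wit 𝓛 tw (fun c => eta s (ce c) (B' (tw c) (ce c))) R₁ u c e ∧ e.k = k} = ∅ :=
      eq_empty_of_forall_notMem fun c hc => hn ⟨c, hc⟩
    rw [this, ncard_empty]
    exact Nat.zero_le _
  obtain ⟨c₀, e₀, ⟨w1, w2, -, w4, -⟩, k0⟩ := hn
  have m2 := (mem8 hC hS w1).2
  refine le_trans (ncard_le_ncard ?_ (toFinite _)) (hN.pack e₀.j _ m2)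
  rintro c ⟨e, ⟨v1, v2, v3, v4, v5⟩, k1⟩
  have z0 : ∀ (y : Y m) (D' : Hor m →L[ℝ] Hor m), ‖eta s y D' y‖ ≤ R₁ := fun y D' => by
    rw [eta_self, norm_zero]
    exact h0
  have hu := hN.mem u
  have hc := hN.mem c
  simp only at w4 v4 v5
  rw [w2] at hu w4 v4
  obtain ⟨j1, -, b1, -⟩ := key hC hCb hS g1 hR hsh w1 v1 (w2.symm.trans v2) (k0.trans k1.symm)
    hu m2 w4 v4 (z0 _ _)
  have m3 := (mem8 hC hS v1).2
  rw [v3] at hc v5
  rw [← j1] at hc v5 m3 v3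
  refine ⟨v3, ?_⟩
  have s1 := (g2 _ _ hc _ (v5.trans h21)).2 m3 _ ((z0 _ _).trans h21)
  have s2 := (g2 _ _ m2 _ (b1.trans h22)).2 m3 _ ((z0 _ _).trans h21)
  exact (g3 _ _ m3 _ s2).2 m2 _ s1

/-- long chains meet an active node -/
theorem chain (hC : 1 ≤ C) (hS : Sys A ρ B B' 𝓛 C Cb f₀ nb ne)
    (hN : Nods A ρ B B' s R₀ R₃' M₀ tw ce col) (g1 : GeoI A ρ B' s C R₁ R₁') (u : ℕ → ι)
    (hu : ∀ a < ne, ∃ e, Wit 𝓛 tw (fun c => eta s (ce c) (B' (tw c) (ce c))) R₁ (u a) (u (a + 1)) e) :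
    ∃ a < ne, ce (u (a + 1)) ∈ cthickening (2 * ρ) (A (tw (u (a + 1)))) := by
  have hCi : 0 < C⁻¹ := inv_pos.2 (by linarith)
  have hρ := rho_pos hC hS
  have : Nonempty (Lk I m) := ⟨⟨tw (u 0), 0, 0, tw (u 0), id, 0⟩⟩
  choose! e he using hu
  obtain ⟨a, ha, H⟩ := hS.edge e (fun a ha => (he a ha).1) fun a ha => by
    obtain ⟨-, -, v3, -, v5⟩ := he a (by omega)
    obtain ⟨-, w2, -, w4, -⟩ := he (a + 1) ha
    refine ⟨v3.symm.trans w2, ?_⟩
    exact (norm_half (g1 _ _ (hN.mem _) _ v5).1 (g1 _ _ (hN.mem _) _ w4).1).trans (by linarith)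
  obtain ⟨-, -, v3, -, v5⟩ := he a ha
  refine ⟨a, ha, ?_⟩
  have d := (g1 _ _ (hN.mem _) _ v5).1
  rw [v3, show (2 : ℝ) = 1 + 1 by norm_num]
  refine thick hρ.le zero_le_one (by rwa [one_mul]) ?_
  rw [norm_sub_rev]
  linarith [hS.le]

/-- the list of sheets of a node -/
theorem lists [Finite ι] (hC : 1 ≤ C) (hCb : 1 ≤ Cb) (hS : Sys A ρ B B' 𝓛 C Cb f₀ nb ne)
    (hN : Nods A ρ B B' s R₀ R₃' M₀ tw ce col) (hf : 0 ≤ f₀) (hg : 0 ≤ Cg)
    (g1 : GeoI A ρ B' s C R₁ R₁') (hR : R₁ ≤ R₁') (hsh : ShI m s C f₀ (Cb ^ 2) R₁' Cg κ)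
    (c : ι) (S : Set ι) {b₀ : ℕ} (hb : S.ncard ≤ b₀) :
    ∃ P : Fin (b₀ * nb) → Sp m, (∀ i, GoodP Cg f₀ (P i)) ∧ ∀ u ∈ S, ∀ e,
      Wit 𝓛 tw (fun c => eta s (ce c) (B' (tw c) (ce c))) R₁ u c e →
      ∃ i, ∃ p ∈ Sh Cg (P i), ‖eta s (ce c) (B' (tw c) (ce c)) (e.h e.y) - p‖ ≤ κ := by
  have : Nonempty (Lk I m) := ⟨⟨tw c, 0, 0, tw c, id, 0⟩⟩
  have hw : ∀ q : ι × ℕ,
      (∃ e, Wit 𝓛 tw (fun c => eta s (ce c) (B' (tw c) (ce c))) R₁ q.1 c e ∧ e.k = q.2) →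
      ∃ e, Wit 𝓛 tw (fun c => eta s (ce c) (B' (tw c) (ce c))) R₁ q.1 c e ∧ e.k = q.2 :=
    fun _ h => h
  choose! w hw using hw
  have K : ∀ (u : ι) (e₀ e : Lk I m),
      Wit 𝓛 tw (fun c => eta s (ce c) (B' (tw c) (ce c))) R₁ u c e₀ →
      Wit 𝓛 tw (fun c => eta s (ce c) (B' (tw c) (ce c))) R₁ u c e → e₀.k = e.k →
      GoodP Cg f₀ (par B B' s (ce c) e₀) ∧ ∃ p ∈ Sh Cg (par B B' s (ce c) e₀),
        ‖eta s (ce c) (B' (tw c) (ce c)) (e.h e.y) - p‖ ≤ κ := by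
    rintro u e₀ e ⟨w1, w2, w3, w4, w5⟩ ⟨v1, v2, -, v4, -⟩ hk
    have hu := hN.mem u
    have hc := hN.mem c
    simp only at w4 w5 v4
    rw [w2] at hu w4 v4
    rw [w3] at hc w5 ⊢
    obtain ⟨-, b0, -, b2⟩ := key hC hCb hS g1 hR hsh w1 v1 (w2.symm.trans v2) hk hu hc w4 v4 w5
    exact ⟨b0, b2⟩
  set T : Set (ι × ℕ) := {q | q.1 ∈ S ∧
    ∃ e, Wit 𝓛 tw (fun c => eta s (ce c) (B' (tw c) (ce c))) R₁ q.1 c e ∧ e.k = q.2} with hT
  have sub : T ⊆ S ×ˢ Iio nb := by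
    rintro q ⟨h1, e, h2, h3⟩
    exact ⟨h1, h3 ▸ (hS.mem e h2.1).2.2.1⟩
  have fin : (S ×ˢ Iio nb).Finite := (toFinite S).prod (finite_Iio nb)
  have fT := fin.subset sub
  have cT : T.ncard ≤ b₀ * nb := by
    refine (ncard_le_ncard sub fin).trans ?_
    rw [ncard_prod, ncard_Iio_nat]
    exact Nat.mul_le_mul_right _ hb
  obtain ⟨P, p1, p2⟩ := enum (fT.image fun q => par B B' s (ce c) (w q))
    ((ncard_image_le fT).trans cT) (0, 0, 0)
  refine ⟨P, fun i => ?_, fun u hu e he => ?_⟩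
  · rcases p1 i with ⟨q, hq, e1⟩ | e1
    · rw [← e1]
      exact (K _ _ _ (hw q hq.2).1 (hw q hq.2).1 rfl).1
    · rw [e1]
      exact good_zero hg hf
  · have hq : (u, e.k) ∈ T := ⟨hu, e, he, rfl⟩
    obtain ⟨i, hi⟩ := p2 _ ⟨_, hq, rfl⟩
    refine ⟨i, ?_⟩
    rw [hi]
    exact (K _ _ _ (hw _ hq.2).1 he (hw _ hq.2).2).2

end Main

end CfgAux

open CfgAux in
theorem cfg (hNodes : NodesStmt) (hGeo : GeoStmt) (hSheet : SheetStmt) (hRank : RankStmt)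
    (hAutE : AutEStmt) : CfgStmt := by
  intro m Cb nb ne hCb
  obtain ⟨R₀, hR₀, HN⟩ := hNodes m Cb
  obtain ⟨R₁', C₁, k₁, hR₁, hC₁, G₁⟩ := hGeo m Cb (R₀ + 4)
  obtain ⟨Cg, hCg, HS⟩ := hSheet m (Cb ^ 2) R₁'
  obtain ⟨R₂', C₂, k₂, -, hC₂, G₂⟩ := hGeo m Cb (max Cg (R₀ + 4))
  obtain ⟨R₃', C₃, k₃, -, hC₃, G₃⟩ := hGeo m Cb R₂'
  obtain ⟨M₀, C₄, k₄, hC₄, HN⟩ := HN R₃'
  obtain ⟨b₀, HR⟩ := hRank (nb * M₀) ne
  refine ⟨R₀, max Cg Cb, M₀ + 1, b₀ * nb, hR₀, hCg.trans (le_max_left _ _), fun κ hκ => ?_⟩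
  obtain ⟨C₅, k₅, hC₅, HS⟩ := HS (κ / 2) (by linarith)
  refine ⟨C₁ + C₂ + C₃ + C₄ + C₅, k₁ + k₂ + k₃ + k₄ + k₅, by linarith, ?_⟩
  intro I _ A ρ B B' 𝓛 C f₀ s hC hS hf1 hf0 hs hsm
  have hCi : 0 < C⁻¹ := inv_pos.2 (by linarith)
  have hρ := rho_pos hC hS
  have g1 : GeoI A ρ B' s C (R₀ + 4) R₁' := fun i =>
    G₁ _ _ _ C s (hS.fr i) hs (small hC hs (by linarith) (by linarith) (by omega) hsm)
  have g2 : GeoI A ρ B' s C (max Cg (R₀ + 4)) R₂' := fun i =>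
    G₂ _ _ _ C s (hS.fr i) hs (small hC hs (by linarith) (by linarith) (by omega) hsm)
  have g3 : GeoI A ρ B' s C R₂' R₃' := fun i =>
    G₃ _ _ _ C s (hS.fr i) hs (small hC hs (by linarith) (by linarith) (by omega) hsm)
  have hsh : ShI m s C f₀ (Cb ^ 2) R₁' Cg (κ / 2) := fun f h y y' c D D' E' a1 a2 a3 =>
    HS C s f f₀ h y y' c D D' E' hC hs (small hC hs (by linarith) (by linarith) (by omega) hsm)
      a1 a2 a3 hf1
  obtain ⟨ι, _, tw, ce, col, hN⟩ := HN I A ρ B B' C s hS.cpt hS.fr hs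
    (small hC hs (by linarith) (by linarith) (by omega) hsm)
  obtain ⟨rk, hrk⟩ := HR ι
    (fun u c => ∃ e, Wit 𝓛 tw (fun c => eta s (ce c) (B' (tw c) (ce c))) (R₀ + 4) u c e)
    (fun c => ce c ∈ cthickening (2 * ρ) (A (tw c)))
    (fun u => by
      refine le_trans (ncard_le_ncard ?_ (toFinite _)) (ncard_fib _ M₀ (outdeg hC hCb hS hN
        (by linarith) g1 hR₁ hsh g2 (le_max_right _ _) (le_max_left _ _) g3 u) nb)
      rintro c ⟨e, he⟩
      exact ⟨e.k, (hS.mem e he.1).2.2.1, e, he, rfl⟩)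
    (chain hC hS hN g1)
  have HP : ∀ c, ∃ P : Fin (b₀ * nb) → Sp m, (∀ i, GoodP Cg f₀ (P i)) ∧
      (ce c ∈ cthickening (2 * ρ) (A (tw c)) → ∀ u, rk c ≤ rk u → ∀ e,
        Wit 𝓛 tw (fun c => eta s (ce c) (B' (tw c) (ce c))) (R₀ + 4) u c e →
        ∃ i, ∃ p ∈ Sh Cg (P i), ‖eta s (ce c) (B' (tw c) (ce c)) (e.h e.y) - p‖ ≤ κ / 2) := by
    intro c
    by_cases hc : ce c ∈ cthickening (2 * ρ) (A (tw c))
    · obtain ⟨P, p1, p2⟩ := lists hC hCb hS hN hf0 (by linarith) g1 hR₁ hsh c _ ((hrk c).1 hc)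
      exact ⟨P, p1, fun _ u hu e he => p2 u ⟨⟨e, he⟩, hu⟩ e he⟩
    · exact ⟨fun _ => (0, 0, 0), fun _ => good_zero (by linarith) hf0, fun h => absurd h hc⟩
  choose P p1 p2 using HP
  refine ⟨ι, inferInstance, tw, fun c => eta s (ce c) (B' (tw c) (ce c)),
    fun c => zeta s (ce c) (B (tw c) (ce c)), fun c => ce c ∈ cthickening (2 * ρ) (A (tw c)), col,
    P, rk, fun i => ⟨fun c => ?_, ?_⟩, hN.lt, hN.sep,
    fun c i => good_mono (p1 c i) (le_max_left _ _), fun i y hy => ?_, fun c y y' h1 h2 => ?_,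
    fun c y hc hy => ?_, fun e he u c h1 h2 h3 h4 => ?_⟩
  · have fr := hS.fr (tw c)
    have hm := hN.mem c
    exact ⟨_, (hAutE m).1 s _ _ _ hs (fr.sym _ hm) (fr.li _ hm) (fr.ri _ hm)⟩
  · rintro ⟨c, rfl⟩ ⟨c', hc'⟩ ⟨y₀, h1, h2⟩ ψ hψ y
    have fr := hS.fr (tw c)
    have hm := hN.mem c
    have hm' := hN.mem c'
    have d1 := (g1 _ _ hm _ h1).1
    have d2 := (g1 _ _ hm' _ h2).1
    simp only [hc'] at hm' ⊢
    have sy : Sym (B' (tw c) (ce c')) 1 := (fr.sym _ hm').inv (fr.ri _ hm')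
    have sU : Sym ((B' (tw c) (ce c')).comp (B (tw c) (ce c))) 1 := by
      simpa only [one_mul] using sy.comp (fr.sym _ hm)
    have nU : ‖(B' (tw c) (ce c')).comp (B (tw c) (ce c))‖ ≤ Cb := by
      refine fr.near _ hm' _ hm ?_
      rw [norm_sub_rev] at d1 d2
      exact (norm_half d2 d1).trans (by linarith)
    simp only [eta_trans hs.ne' sy]
    refine ((hAutE m).2 _ _ ψ sU hψ y).trans (mul_le_mul_of_nonneg_right ?_ (norm_nonneg _))
    exact (max_le hCb nU).trans (le_max_right _ _)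
  · obtain ⟨c, rfl, hc⟩ := hN.cover i y hy
    exact ⟨c, rfl, hc⟩
  · exact (norm_half (g1 _ _ (hN.mem c) _ h1).1 (g1 _ _ (hN.mem c) _ h2).1).trans
      (by linarith [hS.le])
  · rw [show (3 : ℝ) = 2 + 1 by norm_num]
    exact thick hρ.le zero_le_two hc ((g1 _ _ (hN.mem c) _ hy).1.trans (by linarith [hS.le]))
  · have w : Wit 𝓛 tw (fun c => eta s (ce c) (B' (tw c) (ce c))) (R₀ + 4) u c e :=
      ⟨he, h1, h2, h3.trans (by linarith), h4.trans (by linarith)⟩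
    by_cases hlt : rk u < rk c
    · exact Or.inl hlt
    by_cases hc : ce c ∈ cthickening (2 * ρ) (A (tw c))
    · obtain ⟨i, p, hp, hd⟩ := p2 c hc u (not_lt.1 hlt) e w
      exact Or.inr ⟨hc, i, p, sh_mono (le_max_left _ _) _ hp, hd⟩
    · exact Or.inl ((hrk c).2 hc u ⟨e, w⟩)

end Pool.Agent.MP_6d695c_gt.P

end PkCfg
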