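import Pool.Agent.MP_6d695c_gt.q.Base
import Mathlib.Probability.ProductMeasure
import Mathlib.Topology.MetricSpace.HausdorffDimension

/-! Slow skeleta: proofs of the steps, part C. -/

section PkKin

/-! PROJECT P, row KIN: elementary facts on the flow and the skeleton. -/

open scoped Manifold ContDiff Topology MeasureTheory
open Set Metric Filter Real

namespace Pool.Agent.MP_6d695c_gt.P

open SW T1 Theta

namespace KinAux

variable {V E : Type} [NormedAddCommGroup V] [NormedSpace ℝ V] [NormedAddCommGroup E]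
  [NormedSpace ℝ E] {M : Set V} {l : V → V →L[ℝ] ℝ} {Pi : V → (V →L[ℝ] ℝ) →L[ℝ] V} {φ : V → ℝ}
  {Z : V → V} {fl : ℝ → V → V}

/-- the barrier: backwards in time `φ` does not increase above the level one half -/
theorem bar (hA : Amb E M l Pi φ (1 / 2)) (hC : T1.Cut M l Pi φ Z fl) {x : V} (hx : x ∈ M)
    (h5 : φ x ≤ 5) {s t : ℝ} (hst : s ≤ t) (h4 : φ (fl t x) ≤ 4) :
    φ (fl s x) ≤ max (φ (fl t x)) (1 / 2) := by
  by_contra hcon
  obtain ⟨a1, a2⟩ := max_lt_iff.1 (not_le.1 hcon)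
  have hc : Continuous fun r => φ (fl r x) := hA.sφ.continuous.comp (hC.flow.cont x)
  have v1 : 1 / 2 ≤ min (φ (fl s x)) 4 := le_min a2.le (by norm_num)
  have h1 := fence_up (f := fun r => φ (fl r x)) (a := s) (b := t) (v := min (φ (fl s x)) 4)
    hc.continuousOn (fun r _ hr => Abs.rd hA.sφ hC hx h5 r (hr.le.trans (min_le_right _ _))
      (hA.shell _ (hC.inv r x hx h5).1 (v1.trans hr.ge))) (min_le_left _ _)
  have hm := (hC.inv t x hx h5).1
  have h2 := hA.shell _ hm (v1.trans (h1 t ⟨hst, le_rfl⟩))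
  rw [← hC.eq _ hm h4] at h2
  have h3 : HasDerivAt (fun r => φ (fl r x)) _ (- -t) := (neg_neg t).symm ▸
    ((hA.sφ.differentiable (by simp)) (fl t x)).hasFDerivAt.comp_hasDerivAt t (hC.flow.der x t)
  have h6 : RD (fun r => -φ (fl (-r) x)) (-t) fun a => 0 < a :=
    ⟨_, (h3.comp (-t) (hasDerivAt_neg (-t))).neg.hasDerivWithinAt, by simpa using h2⟩
  have hlt : -t < -s := neg_lt_neg (lt_of_le_of_ne hst fun e => by rw [e] at a1; exact a1.false)
  obtain ⟨r, b1, b2⟩ := (h6.ev_lt.and (Ioc_mem_nhdsGT hlt)).exists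
  have b3 := h1 (-r) ⟨by linarith [b2.2], by linarith [b2.1]⟩
  have b4 : φ (fl t x) ≤ min (φ (fl s x)) 4 := le_min a1.le h4
  simp only [neg_neg] at b1
  linarith

end KinAux

open KinAux in
theorem kin : KinStmt := by
  intro V E _ _ _ _ _ M l Pi φ Z fl hA hC
  have hφ : Continuous φ := hA.sφ.continuous
  have hQ : IsCompact {x ∈ M | φ x ≤ 2} := hA.cpt 2 (by norm_num)
  have two : ∀ x ∈ Ksk M φ fl, φ x ≤ 2 := fun x hx => by
    simpa only [hC.flow.zero] using hx.2 0 le_rfl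
  refine ⟨?_, fun x hx t => ?_, fun x hx => ?_, fun x hx h4 t ht => ?_,
    fun x hx h2 t ht e => ⟨hx, fun s _ => ?_⟩⟩
  · have e : Ksk M φ fl = {x ∈ M | φ x ≤ 2} ∩ ⋂ t ∈ Ici (0 : ℝ), {x | φ (fl t x) ≤ 2} := by
      ext x
      simp only [mem_inter_iff, mem_iInter]
      exact ⟨fun hx => ⟨⟨hx.1, two x hx⟩, hx.2⟩, fun hx => ⟨hx.1.1, hx.2⟩⟩
    rw [e]
    exact hQ.inter_right (isClosed_biInter fun t _ =>
      isClosed_le (hφ.comp (Abs.cont_fl hC.flow t)) continuous_const)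
  · have h5 : φ x ≤ 5 := by linarith [two x hx]
    refine ⟨(hC.inv t x hx.1 h5).1, fun s _ => ?_⟩
    rw [← hC.flow.add]
    rcases le_total 0 (s + t) with h | h
    · exact hx.2 _ h
    · exact (bar hA hC hx.1 h5 h (by linarith [hx.2 0 le_rfl])).trans
        (max_le (hx.2 0 le_rfl) (by norm_num))
  · by_contra h1
    rw [not_le] at h1
    have h5 : φ x ≤ 5 := by linarith [two x hx]
    have hu : Continuous fun y => fderiv ℝ φ y (Pi y (l y)) :=
      (hA.sφ.continuous_fderiv (by simp)).clm_apply hA.smZ.continuous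
    obtain ⟨m, hm, hle⟩ := exists_pos_le (hQ.inter_right (isClosed_le continuous_const hφ :
      IsClosed {y | (1 / 2 : ℝ) ≤ φ y})) hu.continuousOn fun y hy => hA.shell y hy.1.1 hy.2
    have hT : 0 ≤ 2 / m := by positivity
    have h2 := speed_ge (f := fun r => φ (fl r x)) (m := m) hT
      (hφ.comp (hC.flow.cont x)).continuousOn fun r hr =>
        Abs.rd hA.sφ hC hx.1 h5 r (by linarith [hx.2 r hr.1])
          (hle _ ⟨⟨(hC.inv r x hx.1 h5).1, hx.2 r hr.1⟩, by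
            have := bar hA hC hx.1 h5 hr.1 (by linarith [hx.2 r hr.1])
            rw [hC.flow.zero] at this
            rcases le_max_iff.1 this with h | h
            · exact h1.le.trans h
            · exact absurd h h1.not_ge⟩)
    have h4 : m * (2 / m - 0) = 2 := by field_simp; ring
    rw [h4, hC.flow.zero] at h2
    linarith [hx.2 _ hT]
  · have := bar hA hC hx (by linarith) (neg_nonpos.2 ht) (by rwa [hC.flow.zero])
    rwa [hC.flow.zero] at this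
  · have h1 : ∀ n : ℕ, fl (n * t) x = x := fun n => by
      induction n with
      | zero => rw [Nat.cast_zero, zero_mul, hC.flow.zero]
      | succ n ih => rw [Nat.cast_succ, add_mul, one_mul, hC.flow.add, e, ih]
    obtain ⟨n, hn⟩ := exists_nat_ge (s / t)
    have := bar hA hC hx (by linarith) ((div_le_iff₀ ht).1 hn) (by rw [h1]; linarith)
    rw [h1] at this
    exact this.trans (max_le h2 (by norm_num))

end Pool.Agent.MP_6d695c_gt.P

end PkKin

section PkLie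

/-! PROJECT P, row Lie: the flow scales `l` and `d l`. -/

open scoped Manifold ContDiff Topology MeasureTheory
open Set Metric Filter Real

namespace Pool.Agent.MP_6d695c_gt.P

open SW T1 Theta

theorem lieP : P.LieStmt := by
  intro V E _ _ _ _ _ M l Pi φ Z fl h hc x hx t ht v hv
  have hS := smp_of_amb h
  have hf := hc.flow
  have h4 : φ x < 4 := by simpa [hf.zero] using ht 0 left_mem_uIcc
  refine ⟨T1.Lie.tg_flow h.sφ hc h4 hv t, T1.Lie.conf hS h.sφ hc hx hv ht, fun w hw => ?_⟩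
  obtain ⟨g, r, O, N, hP, hN⟩ := h.sub x hx
  obtain ⟨hy, hg⟩ := hP.rm x hx hN
  have e := hP.tg hy
  rw [hg] at e
  obtain ⟨u, hu⟩ : v ∈ range (fderiv ℝ g (r x)) := e ▸ hv
  obtain ⟨u', hu'⟩ : w ∈ range (fderiv ℝ g (r x)) := e ▸ hw
  generalize r x = y at hy hg hu hu'
  subst hg hu hu'
  have sf := T1.Lie.flow_sm hf t
  have ev : ∀ᶠ z in 𝓝 y, ∀ s ∈ uIcc 0 t, φ (fl s (g z)) < 4 := by
    have h1 : ∀ᶠ p in 𝓝 (g y), ∀ s ∈ uIcc 0 t, φ (fl s p) < 4 := by
      refine isCompact_uIcc.eventually_forall_of_forall_eventually fun s hs => ?_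
      have c : Continuous fun q : V × ℝ => φ (fl q.2 q.1) :=
        h.sφ.continuous.comp (hf.sm.continuous.comp continuous_swap)
      exact c.continuousAt.eventually_lt continuousAt_const (ht s hs)
    exact (hP.cg hy).continuousAt.eventually h1
  have dF : ∀ z ∈ O, fderiv ℝ (fun z => fl t (g z)) z =
      (fderiv ℝ (fl t) (g z)).comp (fderiv ℝ g z) := fun z hz =>
    ((sf.differentiable (by simp) (g z)).hasFDerivAt.comp z (hP.dg hz).hasFDerivAt).fderiv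
  have key : (fun z => (l (fl t (g z))).comp (fderiv ℝ (fun z => fl t (g z)) z)) =ᶠ[𝓝 y]
      fun z => exp t • (l (g z)).comp (fderiv ℝ g z) := by
    filter_upwards [ev, hP.oO.mem_nhds hy] with z hz hO
    ext a
    have ha : fderiv ℝ g z a ∈ Tg M (g z) := by
      rw [hP.tg hO]
      exact ⟨a, rfl⟩
    have := T1.Lie.conf hS h.sφ hc (hP.gm z hO).1 ha hz
    rw [dF z hO]
    simpa using this
  have sg : ContDiffAt ℝ ∞ g y := hP.cg hy
  have sF : ContDiffAt ℝ ∞ (fun z => fl t (g z)) y := sf.contDiffAt.comp y sg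
  have p1 := dd_pullback (l := l) (f := fun z => fl t (g z)) (y := y)
    (h.sl.differentiable (by simp) _) (sF.of_le (by norm_cast)) u u'
  have p2 := dd_pullback (l := l) (f := g) (y := y)
    (h.sl.differentiable (by simp) _) (sg.of_le (by norm_cast)) u u'
  have dA : DifferentiableAt ℝ (fun z => (l (g z)).comp (fderiv ℝ g z)) y :=
    ((h.sl.contDiffAt.comp y sg).clm_comp
      (sg.fderiv_right (m := ∞) (by simp))).differentiableAt (by simp)
  have e3 := key.fderiv_eq (𝕜 := ℝ)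
  rw [fderiv_fun_const_smul dA] at e3
  rw [dF y hy] at p1
  simp only [ContinuousLinearMap.comp_apply] at p1
  rw [← p1, ← p2]
  simp only [dd, e3, smul_apply, smul_eq_mul]
  ring

end Pool.Agent.MP_6d695c_gt.P

end PkLie

section PkAttr

/-! PROJECT P, row Attr: a time function outside a small neighbourhood of the skeleton. -/

open scoped Manifold ContDiff Topology MeasureTheory
open Set Metric Filter Real

namespace Pool.Agent.MP_6d695c_gt.P

open SW T1 Theta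

namespace AttrAux

theorem bump : ∃ b β : ℝ → ℝ, ContDiff ℝ ∞ b ∧ (∀ x, HasDerivAt b (β x) x) ∧
    (∀ x ∈ Ioo (1 : ℝ) 3, 0 < β x) ∧ (∀ x ∉ Ioo (1 : ℝ) 3, β x = 0) ∧ (∀ x ≤ 1, b x = 0) ∧
    ∀ x, 1 < x → 0 < b x := by
  obtain ⟨p, hp, -, hd⟩ := exists_primitive
    (b := fun x => expNegInvGlue (x - 1) * expNegInvGlue (3 - x))
    ((expNegInvGlue.contDiff.comp (by fun_prop)).mul (expNegInvGlue.contDiff.comp (by fun_prop)))
  have h1 : ∀ x ∈ Ioo (1 : ℝ) 3, 0 < expNegInvGlue (x - 1) * expNegInvGlue (3 - x) := fun x hx =>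
    mul_pos (expNegInvGlue.pos_of_pos (sub_pos.2 hx.1)) (expNegInvGlue.pos_of_pos (sub_pos.2 hx.2))
  have h2 : ∀ x ∉ Ioo (1 : ℝ) 3, expNegInvGlue (x - 1) * expNegInvGlue (3 - x) = 0 := fun x hx => by
    rcases le_or_gt x 1 with h | h
    · rw [expNegInvGlue.zero_of_nonpos (sub_nonpos.2 h), zero_mul]
    · rw [expNegInvGlue.zero_of_nonpos (sub_nonpos.2 (not_lt.1 fun h' => hx ⟨h, h'⟩)), mul_zero]
  have hD : Differentiable ℝ p := fun x => (hd x).differentiableAt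
  have h3 : Monotone p := monotone_of_deriv_nonneg hD fun x => by
    rw [(hd x).deriv]
    exact mul_nonneg (expNegInvGlue.nonneg _) (expNegInvGlue.nonneg _)
  have h4 : StrictMonoOn p (Icc 1 3) := strictMonoOn_of_deriv_pos (convex_Icc 1 3)
    hp.continuous.continuousOn fun x hx => by
      rw [interior_Icc] at hx
      rw [(hd x).deriv]
      exact h1 x hx
  have h5 : AntitoneOn p (Iic 1) := antitoneOn_of_deriv_nonpos (convex_Iic 1)
    hp.continuous.continuousOn hD.differentiableOn fun x hx => by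
      rw [interior_Iic] at hx
      rw [(hd x).deriv, h2 x fun h => lt_asymm h.1 hx]
  refine ⟨fun x => p x - p 1, _, hp.sub contDiff_const, fun x => (hd x).sub_const _, h1, h2,
    fun x hx => sub_eq_zero.2 (le_antisymm (h3 hx) (h5 hx self_mem_Iic hx)), fun x hx => ?_⟩
  have h6 : 1 < min x 3 := lt_min hx (by norm_num)
  exact sub_pos.2 ((h4 ⟨le_rfl, by norm_num⟩ ⟨h6.le, min_le_right _ _⟩ h6).trans_le
    (h3 (min_le_left _ _)))

variable {V : Type} [NormedAddCommGroup V] [NormedSpace ℝ V] {Z : V → V} {fl : ℝ → V → V}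

theorem along (hf : IsFlow Z fl) {u : V → ℝ} (hu : ContDiff ℝ ∞ u) (x : V) (t : ℝ) :
    HasDerivAt (fun s => u (fl s x)) (fderiv ℝ u (fl t x) (Z (fl t x))) t :=
  (hu.differentiable (by simp) _).hasFDerivAt.comp_hasDerivAt t (hf.der x t)

theorem smt (hf : IsFlow Z fl) (t : ℝ) : ContDiff ℝ ∞ (fl t) :=
  hf.sm.comp (contDiff_const.prodMk contDiff_id)

/-- the derivative of a sum of translates -/
theorem dsum (hf : IsFlow Z fl) {φ : V → ℝ} (hφ : ContDiff ℝ ∞ φ) {b β : ℝ → ℝ}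
    (hb : ContDiff ℝ ∞ b) (hd : ∀ x, HasDerivAt b (β x) x) (n : ℕ) (t : ℕ → ℝ) (x : V) :
    fderiv ℝ (fun y => ∑ k ∈ Finset.range n, b (φ (fl (t k) y))) x (Z x) =
      ∑ k ∈ Finset.range n, β (φ (fl (t k) x)) * fderiv ℝ φ (fl (t k) x) (Z (fl (t k) x)) := by
  have h1 := along hf (u := fun y => ∑ k ∈ Finset.range n, b (φ (fl (t k) y)))
    (ContDiff.sum fun k _ => hb.comp (hφ.comp (smt hf _))) x 0
  rw [hf.zero] at h1
  refine h1.unique (HasDerivAt.fun_sum fun k _ => ?_)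
  have h2 := (hd _).comp 0 (along hf hφ (fl (t k) x) 0)
  rw [hf.zero] at h2
  refine h2.congr_of_eventuallyEq (Eventually.of_forall fun s => ?_)
  simp only [Function.comp, ← hf.add, add_comm]

/-- decay along the backward flow -/
theorem decay (hf : IsFlow Z fl) {L : V → ℝ} (hL : ContDiff ℝ ∞ L) {x : V} {t C : ℝ} {s : ℝ}
    (hs : s ≤ t) (h : ∀ r ∈ Ioo s t, C ≤ fderiv ℝ L (fl (-r) x) (Z (fl (-r) x))) :
    L (fl (-t) x) - L (fl (-s) x) ≤ -C * (t - s) := by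
  have hd : ∀ r, HasDerivAt (fun r => L (fl (-r) x))
      (fderiv ℝ L (fl (-r) x) (Z (fl (-r) x)) * -1) r := fun r =>
    (along hf hL x (-r)).comp r (hasDerivAt_neg r)
  refine (convex_Icc s t).image_sub_le_mul_sub_of_deriv_le (f := fun r => L (fl (-r) x))
    (fun r _ => (hd r).continuousAt.continuousWithinAt)
    (fun r _ => (hd r).differentiableAt.differentiableWithinAt) (fun r hr => ?_) s
    (left_mem_Icc.2 hs) t (right_mem_Icc.2 hs) hs
  rw [interior_Icc] at hr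
  rw [(hd r).deriv]
  linarith [h r hr]

end AttrAux

open AttrAux in
theorem attr : AttrStmt := by
  intro V E _ _ _ _ _ M U l Pi φ Z fl hA hC hK hU hS
  have hf := hC.flow
  obtain ⟨b, β, hb, hd, β1, β0, b0, b1⟩ := bump
  have b2 : ∀ x, 0 ≤ b x := fun x => (le_or_gt x 1).elim (fun h => (b0 x h).ge) fun h => (b1 x h).le
  have c2 := hA.cpt 2 (by norm_num)
  have hcont : Continuous fun q : ℝ × V => φ (fl q.1 q.2) := hA.sφ.continuous.comp hf.sm.continuous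
  -- the step
  obtain ⟨τ, τ0, hτ⟩ : ∃ τ, 0 < τ ∧ ∀ y ∈ M, φ y ≤ 1 → φ (fl τ y) < 3 := by
    have h1 : ∀ᶠ t in 𝓝 (0 : ℝ), ∀ y ∈ {x ∈ M | φ x ≤ 1}, φ (fl t y) < 3 :=
      (hA.cpt 1 (by norm_num)).eventually_forall_of_forall_eventually fun y hy =>
        hcont.continuousAt.eventually_lt continuousAt_const (by
          simp only [hf.zero]
          linarith [hy.2])
    obtain ⟨τ, h2, h3⟩ := ((h1.filter_mono nhdsWithin_le_nhds).and
      (self_mem_nhdsWithin (s := Ioi (0 : ℝ)))).exists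
    exact ⟨τ, h3, fun y hy h => h2 y ⟨hy, h⟩⟩
  -- the number of steps
  obtain ⟨n, hn⟩ : ∃ n : ℕ, ∀ x ∈ {x ∈ M | φ x ≤ 2} \ U, ∃ k < n, 1 < φ (fl (k * τ) x) := by
    obtain ⟨T, hT⟩ := (c2.diff hU).elim_finite_subcover (fun k : ℕ => {x | 1 < φ (fl (k * τ) x)})
      (fun k => isOpen_lt continuous_const (hA.sφ.comp (smt hf _)).continuous) fun x hx => by
        obtain ⟨t, t0, ht⟩ : ∃ t, 0 ≤ t ∧ 2 < φ (fl t x) := by
          by_contra! h
          exact hx.2 (hS ⟨hx.1.1, h⟩)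
        obtain ⟨k, hk⟩ := exists_nat_ge (t / τ)
        refine mem_iUnion.2 ⟨k, show 1 < φ (fl (k * τ) x) from not_le.1 fun h => ?_⟩
        have h1 := hK.back _ (hC.inv (k * τ) x hx.1.1 (by linarith [hx.1.2])).1 (by linarith)
          (k * τ - t) (sub_nonneg.2 ((div_le_iff₀ τ0).1 hk))
        rw [← hf.add, show -(k * τ - t) + k * τ = t by ring] at h1
        linarith [max_le h (show (1 / 2 : ℝ) ≤ 1 by norm_num)]
    refine ⟨T.sup id + 1, fun x hx => ?_⟩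
    obtain ⟨k, hk, h⟩ := mem_iUnion₂.1 (hT hx)
    exact ⟨k, Nat.lt_succ_of_le (Finset.le_sup (f := id) hk), h⟩
  obtain ⟨L0, hL0⟩ : ∃ L0 : V → ℝ,
    L0 = fun y => ∑ k ∈ Finset.range n, b (φ (fl (k * τ) y)) := ⟨_, rfl⟩
  have sm : ContDiff ℝ ∞ L0 :=
    hL0 ▸ ContDiff.sum fun k _ => hb.comp (hA.sφ.comp (smt hf _))
  have pos : ∀ y ∈ M, φ y ∈ Ioo (1 : ℝ) 3 → 0 < β (φ y) * fderiv ℝ φ y (Z y) := fun y hy h => by
    rw [hC.eq y hy (by linarith [h.2])]
    exact mul_pos (β1 _ h) (hA.shell y hy (by linarith [h.1]))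
  have nn : ∀ y ∈ M, 0 ≤ β (φ y) * fderiv ℝ φ y (Z y) := fun y hy => by
    by_cases h : φ y ∈ Ioo (1 : ℝ) 3
    · exact (pos y hy h).le
    · rw [β0 _ h, zero_mul]
  have d0 : ∀ x ∈ M, φ x ≤ 2 → 0 ≤ fderiv ℝ L0 x (Z x) := fun x hx h => by
    rw [hL0, dsum hf hA.sφ hb hd]
    exact Finset.sum_nonneg fun k _ => nn _ (hC.inv _ x hx (by linarith)).1
  have d1 : ∀ x ∈ M, φ x ≤ 2 → 0 < L0 x → 0 < fderiv ℝ L0 x (Z x) := fun x hx h hp => by
    have ex : ∃ k, k < n ∧ 1 < φ (fl (k * τ) x) := by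
      by_contra! h'
      rw [hL0] at hp
      exact hp.ne' (Finset.sum_eq_zero fun k hk => b0 _ (h' k (Finset.mem_range.1 hk)))
    have inv := fun t => (hC.inv t x hx (by linarith)).1
    have h1 := Nat.find_spec ex
    rw [hL0, dsum hf hA.sφ hb hd]
    refine Finset.sum_pos' (fun k _ => nn _ (inv _))
      ⟨Nat.find ex, Finset.mem_range.2 h1.1, pos _ (inv _) ⟨h1.2, ?_⟩⟩
    rcases h2 : Nat.find ex with _ | j
    · simp only [Nat.cast_zero, zero_mul, hf.zero]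
      linarith
    · have h3 := Nat.find_min ex (show j < Nat.find ex by omega)
      have h4 := hτ _ (inv (j * τ)) (not_lt.1 fun h' => h3 ⟨by omega, h'⟩)
      rwa [← hf.add, show τ + j * τ = (j + 1 : ℕ) * τ by push_cast; ring] at h4
  obtain ⟨c0, c0p, hc0⟩ := exists_pos_le (c2.diff hU) sm.continuous.continuousOn fun x hx => by
    obtain ⟨k, hk, h⟩ := hn x hx
    rw [hL0]
    exact Finset.sum_pos' (fun k _ => b2 _) ⟨k, Finset.mem_range.2 hk, b1 _ h⟩
  obtain ⟨μ, μp, hμ⟩ := exists_pos_le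
    (c2.inter_right (isClosed_le (continuous_const (y := c0 / 4)) sm.continuous))
    (Lyap.contD sm hC.sZ).continuousOn fun x hx =>
      d1 x hx.1.1 hx.1.2 (lt_of_lt_of_le (by positivity) hx.2)
  obtain ⟨a, ap, a1, a2⟩ : ∃ a, 0 < a ∧ a ≤ μ ∧ a ≤ c0 / 4 :=
    ⟨min μ (c0 / 4), by positivity, min_le_left _ _, min_le_right _ _⟩
  have sL : ContDiff ℝ ∞ fun x => (L0 x - c0 / 2) / a := (sm.sub contDiff_const).div_const a
  have dL : ∀ x v, fderiv ℝ (fun x => (L0 x - c0 / 2) / a) x v = fderiv ℝ L0 x v / a :=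
    fun x v => by
      have h := (((sm.differentiable (by simp) x).hasFDerivAt.sub_const (c0 / 2)).mul_const a⁻¹)
      simp only [div_eq_mul_inv _ a]
      rw [h.fderiv]
      simp [mul_comm]
  have up : ∀ x ∈ M, φ x ≤ 2 → -1 ≤ (L0 x - c0 / 2) / a →
      1 ≤ fderiv ℝ (fun x => (L0 x - c0 / 2) / a) x (Z x) := fun x hx h h1 => by
    rw [le_div_iff₀ ap] at h1
    rw [dL, le_div_iff₀ ap, one_mul]
    exact a1.trans (hμ x ⟨⟨hx, h⟩, show c0 / 4 ≤ L0 x by linarith⟩)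
  refine ⟨_, sL, fun x hx => by_contra fun h => ?_, up, fun x hx h t t0 => ?_⟩
  · have h1 := hc0 x ⟨⟨hx.1, hx.2.1⟩, h⟩
    have h2 := (div_le_iff₀ ap).1 hx.2.2
    linarith
  · have m1 : ∀ r, fl (-r) x ∈ M := fun r => (hC.inv _ x hx (by linarith)).1
    have m2 : ∀ r, 0 ≤ r → φ (fl (-r) x) ≤ 2 := fun r hr =>
      (hK.back x hx (by linarith) r hr).trans (max_le h (by norm_num))
    rcases le_total ((L0 (fl (-t) x) - c0 / 2) / a) (-1) with h1 | h1
    · exact h1.trans (le_max_right _ _)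
    · have h2 := decay hf sL (x := x) (C := 1) t0 fun r hr => up _ (m1 r) (m2 r hr.1.le) (by
        have h3 := decay hf sL (x := x) (C := 0) hr.2.le fun r' hr' => by
          rw [dL]
          exact div_nonneg (d0 _ (m1 r') (m2 r' (hr.1.trans hr'.1).le)) ap.le
        linarith)
      rw [neg_zero, hf.zero] at h2
      exact le_max_of_le_left (by linarith)

end Pool.Agent.MP_6d695c_gt.P

end PkAttr

section PkDarbN

/-! PROJECT P, row DarbN: a short chart in which `l = lam0`. -/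

open scoped Manifold ContDiff Topology MeasureTheory
open Set Metric Filter Real

namespace Pool.Agent.MP_6d695c_gt.P

open SW SW.Darb T1 T1.Chart Theta

namespace DarbNAux

variable {n : ℕ}

/-- from the symplectisation of the Heisenberg group to the model of Darboux -/
noncomputable def cw (x : ℝ × Y n) : Q n := cv x.2 + x.1 • one n

theorem cw_base : cw ((0, y1 n) : ℝ × Y n) = 0 := by simp [cw, cv_y1]

theorem sm_cw {x : ℝ × Y n} (hx : x.2 ∈ Up n) : ContDiffAt ℝ ∞ cw x :=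
  ((contDiffAt_cv hx).comp x contDiffAt_snd).add (contDiffAt_fst.smul contDiffAt_const)

theorem l0_cw {x : ℝ × Y n} (hx : x.2 ∈ Up n) (v : ℝ × Y n) :
    l0 (cw x) (fderiv ℝ cw x v) = lam0 x v := by
  have d : fderiv ℝ cw x = _ := ((((contDiffAt_cv hx).differentiableAt (by simp)).hasFDerivAt.comp
    x hasFDerivAt_snd).add (hasFDerivAt_fst.smul_const (one n))).fderiv
  rw [Chart.lam0_apply, ← l0_cv hx, d, l0_apply, l0_apply, Finset.mul_sum]
  refine Finset.sum_congr rfl fun j _ => ?_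
  simp [cw, one, exp_add]
  ring

end DarbNAux

open DarbNAux in
theorem darbN : DarbNStmt := by
  intro V _ _ _ m M l Pi φ s h p hp hZ
  have hS := smp_of_amb h
  obtain ⟨g, r, O, N, hP, hN⟩ := h.sub p hp
  obtain ⟨hy, hg⟩ := hP.rm p hp hN
  obtain ⟨n, Θ, sΘ, Θ0, hr, hΘ⟩ := loc hS hP hy (by
    by_contra hc
    push Not at hc
    rw [hg] at hc
    exact hZ (hS.nondeg hp (hS.tan p hp _) fun v hv => (hS.dual p hp _ v hv).trans (hc v hv)))
  obtain rfl : n = m := by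
    rw [finrank_Q] at hr
    simp at hr
    omega
  have hc : ContinuousAt cw ((0, y1 n) : ℝ × Y n) := (sm_cw y1_mem).continuousAt
  obtain ⟨U0, hU0, oU0, yU0⟩ := _root_.eventually_nhds_iff.1 (hc.eventually (cw_base ▸ hΘ))
  have oU := oU0.inter ((isOpen_Up (n := n)).preimage (continuous_snd (X := ℝ)))
  have cf : ∀ x ∈ U0 ∩ Prod.snd ⁻¹' Up n, ContDiffAt ℝ ∞ (Θ ∘ cw) x := fun x hx =>
    sΘ.contDiffAt.comp x (sm_cw hx.2)
  have hF : ∀ x ∈ U0 ∩ Prod.snd ⁻¹' Up n, pb l (g ∘ Θ ∘ cw) x = lam0 x := fun x hx => by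
    obtain ⟨k1, k2⟩ := hU0 x hx.1
    refine ContinuousLinearMap.ext fun v => ?_
    rw [← Function.comp_assoc, pb_comp ((hP.cg k1).comp _ sΘ.contDiffAt) (sm_cw hx.2), pb_apply, k2,
      l0_cw hx.2]
  obtain ⟨κ, O', N', hP', hO, hb⟩ := repar hP oU (fun x hx => (cf x hx).contDiffWithinAt)
    (fun x hx => by
      have k1 := (hU0 x hx.1).1
      have hi : Function.Injective (fderiv ℝ (Θ ∘ cw) x).toLinearMap :=
        (injective_iff_map_eq_zero _).2 fun w hw =>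
          (T1.model n).1.nondeg (x := x) trivial (tg_univ _ _) fun v _ => by
            rw [← dd_congr (eventually_of_mem (oU.mem_nhds hx) hF),
              dd_pb hS.sl.contDiffAt ((hP.cg k1).comp x (cf x hx)),
              fderiv_comp x (hP.dg k1) ((cf x hx).differentiableAt (by simp)),
              ContinuousLinearMap.comp_apply, show fderiv ℝ (Θ ∘ cw) x w = 0 from hw]
            simp [dd]
      exact ⟨k1, ((fderiv ℝ (Θ ∘ cw) x).toLinearMap.linearEquivOfInjective hi (by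
        rw [Module.finrank_prod, Chart.finrank_Y]
        simp
        ring)).toContinuousLinearEquiv, ContinuousLinearMap.ext fun _ => rfl⟩)
    (y := (0, y1 n)) ⟨yU0, y1_mem⟩
  refine ⟨_, κ, O', N', hP', ?_, fun q hq v => ?_⟩
  · simpa [cw_base, Θ0, hg] using (hP'.gm _ hb).2.1
  · rw [← hF q (hO hq), pb_apply]

end Pool.Agent.MP_6d695c_gt.P

end PkDarbN

section PkSBox

/-! PROJECT P, row SBOX: a short flow box through a regular point. -/

open scoped Manifold ContDiff Topology MeasureTheory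
open Set Metric Filter Real

namespace Pool.Agent.MP_6d695c_gt.P

open SW T1 Theta

namespace SBoxAux

/-- a strict automorphism of the model that shifts the height by `c` -/
theorem autA (m : ℕ) (c : ℝ) : ∃ α β : Y m → Y m,
    Aut 1 (fun x : ℝ × Y m => (x.1 + c, α x.2)) fun x => (x.1 - c, β x.2) := by
  have h1 := (T1.aff m).1 c
  have h2 := (T1.aff m).2.1 0 (exp (c / 2)) (exp_pos _)
  have h3 := (T1.aut T1.prel m _ _ _ h1).2 _ _ _ h2
  have e : (exp (c / 2))⁻¹ ^ 2 * exp c = 1 := by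
    rw [← exp_neg, ← exp_nat_mul, ← exp_add, ← exp_zero]
    congr 1
    push_cast
    ring
  rw [e] at h3
  exact ⟨fun y => mul 0 (dil (exp (c / 2))⁻¹ y), fun y => dil (exp (c / 2)) (ldiv 0 y), h3⟩

variable {V E : Type} [NormedAddCommGroup V] [NormedSpace ℝ V] [NormedAddCommGroup E]
  [NormedSpace ℝ E] {m : ℕ} {M N : Set V} {l : V → V →L[ℝ] ℝ}
  {Pi : V → (V →L[ℝ] ℝ) →L[ℝ] V} {φ : V → ℝ} {s : ℝ} {Ψ : ℝ × Y m → V} {κ : V → ℝ × Y m}
  {O : Set (ℝ × Y m)}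

/-- in the chart the Liouville field is the first coordinate field -/
theorem fld (hA : Amb E M l Pi φ s) (hP : Par M Ψ κ O N)
    (hf : ∀ q ∈ O, ∀ v, l (Ψ q) (fderiv ℝ Ψ q v) = lam0 q v) {q : ℝ × Y m} (hq : q ∈ O) :
    fderiv ℝ Ψ q (1, 0) = Pi (Ψ q) (l (Ψ q)) := by
  have h := (T1.prel (ℝ × Y m) V (ℝ × Y m) E univ O M lam0 _ l Pi Ψ 1 q (T1.model m).1
    (smp_of_amb hA) hP.oO hq trivial hP.sg
    (fun x _ hx => ⟨(hP.gm x hx).1, fun v _ => by rw [hf x hx, one_mul]⟩)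
    (fun w hw => by
      rw [hP.tg hq] at hw
      obtain ⟨v, hv⟩ := hw
      exact ⟨v, tg_univ _ _, hv⟩)).2
  have h1 := (T1.model m).2.1 q
  rw [← h, ← h1]
  rfl

end SBoxAux

open SBoxAux

theorem sbox (hDarbN : DarbNStmt) : SBoxStmt := by
  intro V _ _ _ m M l Pi φ Z fl x hA hC hx hφ hZ
  obtain ⟨Ψ, κ₀, O₀, N₀, hP₀, hxN₀, hf₀⟩ := hDarbN V m M l Pi φ _ hA x hx
    (by rwa [← hC.eq x hx (by linarith)])
  obtain ⟨κ, O₁, N₁, hP₁, hκ, hxN₁, -, hO₁, -⟩ := hP₀.global hx hxN₀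
  have hOo : IsOpen (O₁ ∩ (fun q => φ (Ψ q)) ⁻¹' Iio 1) :=
    (hA.sφ.continuous.comp_continuousOn hP₁.sg.continuousOn).isOpen_inter_preimage hP₁.oO
      isOpen_Iio
  obtain ⟨hq₀, hΨ₀⟩ := hP₁.rm x hx hxN₁
  have hq₀' : κ x ∈ O₁ ∩ (fun q => φ (Ψ q)) ⁻¹' Iio 1 := ⟨hq₀, by
    change φ (Ψ (κ x)) < 1
    rwa [hΨ₀]⟩
  obtain ⟨a, ha, hball⟩ := Metric.isOpen_iff.1 hOo _ hq₀'
  have hin : ∀ t z, |t - (κ x).1| < a → z ∈ ball (κ x).2 a →
      (t, z) ∈ O₁ ∧ φ (Ψ (t, z)) < 1 := fun t z ht hz => by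
    refine hball ?_
    rw [← ball_prod_same]
    exact ⟨by rwa [mem_ball, Real.dist_eq], hz⟩
  have hflow : ∀ τ z, |τ| < a → z ∈ ball (κ x).2 a →
      Ψ (τ + (κ x).1, z) = fl τ (Ψ ((κ x).1, z)) := fun τ z hτ hz => by
    have h := hC.flow.eq_of (c := fun t => Ψ (t, z)) (a := (κ x).1) (b := τ + (κ x).1)
      fun t ht => by
        have h1 : |t - (κ x).1| < a := by
          have := abs_sub_left_of_mem_uIcc ht
          rw [add_sub_cancel_right] at this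
          exact this.trans_lt hτ
        obtain ⟨h2, h3⟩ := hin t z h1 hz
        have h4 : HasDerivAt (fun t : ℝ => (t, z)) ((1 : ℝ), (0 : Y m)) t :=
          (hasDerivAt_id t).prodMk (hasDerivAt_const t z)
        have h5 := (hP₁.dg h2).hasFDerivAt.comp_hasDerivAt t h4
        rw [fld hA hP₁ (fun q hq => hf₀ q (hO₁ hq)) h2,
          ← hC.eq _ (hP₁.gm _ h2).1 (by linarith)] at h5
        exact h5
    rwa [add_sub_cancel_right] at h
  obtain ⟨α, β, hau⟩ := autA m (κ x).1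
  have hα : ContDiff ℝ ∞ α :=
    (hau.sA.comp ((contDiff_const (c := (0 : ℝ))).prodMk contDiff_id)).snd
  have hαβ : ∀ z, α (β z) = z := fun z => congrArg Prod.snd (hau.ri (0, z))
  have hU : IsOpen (α ⁻¹' ball (κ x).2 a) := isOpen_ball.preimage hα.continuous
  have hy₀ : β (κ x).2 ∈ α ⁻¹' ball (κ x).2 a := by
    rw [mem_preimage, hαβ]
    exact mem_ball_self ha
  obtain ⟨b, hb, -, hs, h1, -⟩ := exists_cut (isCompact_singleton (x := β (κ x).2)) hU
    (singleton_subset_iff.2 hy₀)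
  obtain ⟨U, hUb, hUo, hyU⟩ := _root_.eventually_nhds_iff.1 (h1 _ rfl)
  have hg : ContDiff ℝ ∞ fun y => b y • Ψ ((κ x).1, α y) :=
    contDiff_cut_smul hU hb hs (hP₁.sg.comp (contDiff_const.prodMk hα).contDiffOn
      fun y hy => (hin _ _ (by simpa using ha) hy).1)
  have hD : IsOpen (α ⁻¹' ball (κ x).2 a ∩ U) := hU.inter hUo
  have hbox : IsOpen (Ioo (-a) a ×ˢ (α ⁻¹' ball (κ x).2 a ∩ U)) := isOpen_Ioo.prod hD
  have hmem : ∀ q ∈ Ioo (-a) a ×ˢ (α ⁻¹' ball (κ x).2 a ∩ U),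
      (q.1 + (κ x).1, α q.2) ∈ O₁ ∧ φ (Ψ (q.1 + (κ x).1, α q.2)) < 1 := fun q hq =>
    hin _ _ (by rw [add_sub_cancel_right]; exact abs_lt.2 hq.1) hq.2.1
  have hPs : ∀ q ∈ Ioo (-a) a ×ˢ (α ⁻¹' ball (κ x).2 a ∩ U),
      Ps fl (fun y => b y • Ψ ((κ x).1, α y)) q = Ψ (q.1 + (κ x).1, α q.2) := fun q hq => by
    rw [hflow _ _ (abs_lt.2 hq.1) hq.2.1, Ps, hUb _ hq.2.2, one_smul]
  have hκ' : ContDiff ℝ ∞ fun p => (((κ p).1 - (κ x).1, β (κ p).2) : ℝ × Y m) := hau.sA'.comp hκ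
  refine ⟨fun y => b y • Ψ ((κ x).1, α y), fun p => ((κ p).1 - (κ x).1, β (κ p).2), a,
    α ⁻¹' ball (κ x).2 a ∩ U, N₁ ∩ (fun p => (((κ p).1 - (κ x).1, β (κ p).2) : ℝ × Y m)) ⁻¹'
      (Ioo (-a) a ×ˢ (α ⁻¹' ball (κ x).2 a ∩ U)), β (κ x).2, ha,
    ⟨hg, hκ', hD, ⟨hbox, hP₁.oN.inter (hbox.preimage hκ'.continuous),
      (Ps_smooth hC.flow hg).contDiffOn, hκ'.contDiffOn, fun q hq => ?_, fun p hp hp' => ?_⟩,
      fun q hq v => ?_, fun q hq => ?_⟩, ⟨hy₀, hyU⟩, ?_⟩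
  · obtain ⟨e1, e2, e3⟩ := hP₁.gm _ (hmem q hq).1
    have e4 : (((κ (Ψ (q.1 + (κ x).1, α q.2))).1 - (κ x).1,
        β (κ (Ψ (q.1 + (κ x).1, α q.2))).2) : ℝ × Y m) = q := by
      rw [e3]
      exact hau.li q
    rw [hPs q hq]
    exact ⟨e1, ⟨e2, by rw [mem_preimage, e4]; exact hq⟩, e4⟩
  · refine ⟨hp'.2, ?_⟩
    rw [hPs _ hp'.2]
    have e := hau.ri (κ p)
    beta_reduce at e
    rw [e]
    exact (hP₁.rm p hp hp'.1).2
  · have e : Ps fl (fun y => b y • Ψ ((κ x).1, α y)) =ᶠ[𝓝 q]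
        Ψ ∘ fun q : ℝ × Y m => (q.1 + (κ x).1, α q.2) := by
      filter_upwards [hbox.mem_nhds hq] with q' hq' using hPs q' hq'
    have d := (hP₁.dg (hmem q hq).1).hasFDerivAt.comp q
      (hau.sA.differentiable (by simp) q).hasFDerivAt
    rw [e.fderiv_eq, d.fderiv, hPs q hq, ContinuousLinearMap.comp_apply,
      hf₀ _ (hO₁ (hmem q hq).1), hau.form, one_mul]
  · rw [hPs q hq]
    exact (hmem q hq).2
  · change b (β (κ x).2) • Ψ ((κ x).1, α (β (κ x).2)) = x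
    rw [hUb _ hyU, one_smul, hαβ]
    exact hΨ₀

end Pool.Agent.MP_6d695c_gt.P

end PkSBox

section PkLBox

/-! PROJECT P, row LBox: a long flow box. -/

open scoped Manifold ContDiff Topology MeasureTheory
open Set Metric Filter Real

namespace Pool.Agent.MP_6d695c_gt.P

open SW T1 Theta

namespace LBoxAux

/-- local smooth left inverses on a compact set where the map is injective glue -/
theorem glue {V F : Type} [NormedAddCommGroup V] [NormedSpace ℝ V] [FiniteDimensional ℝ V]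
    [NormedAddCommGroup F] [NormedSpace ℝ F] {Ψ : F → V} {K : Set F} (hK : IsCompact K)
    (hΨ : Continuous Ψ) (hi : InjOn Ψ K)
    (hl : ∀ q ∈ K, ∃ (r : V → F) (O : Set F), ContDiff ℝ ∞ r ∧ IsOpen O ∧ q ∈ O ∧
      ∀ q' ∈ O, r (Ψ q') = q') :
    ∃ A : V → F, ContDiff ℝ ∞ A ∧ ∀ q ∈ K, A (Ψ q) = q := by
  obtain ⟨A, hA⟩ := exists_contMDiffMap_forall_mem_convex_of_local (n := ⊤) 𝓘(ℝ, V)
    (t := fun v => ⋂ q ∈ {q ∈ K | Ψ q = v}, ({q} : Set F))
    (fun v => convex_iInter₂ fun q _ => convex_singleton q) fun v => by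
      by_cases hv : v ∈ Ψ '' K
      · obtain ⟨q, hq, rfl⟩ := hv
        obtain ⟨r, O, hr, hO, hqO, h⟩ := hl q hq
        refine ⟨_, ((hK.diff hO).image hΨ).isClosed.isOpen_compl.mem_nhds ?_, r,
          hr.contMDiff.contMDiffOn, fun y hy => mem_iInter₂.2 fun q' hq' => ?_⟩
        · rintro ⟨q', h1, h2⟩
          exact h1.2 (hi h1.1 hq h2 ▸ hqO)
        · obtain ⟨h1, rfl⟩ := hq'
          exact h q' (by_contra fun hn => hy ⟨q', ⟨h1, hn⟩, rfl⟩)
      · exact ⟨_, (hK.image hΨ).isClosed.isOpen_compl.mem_nhds hv, fun _ => 0, contMDiffOn_const,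
          fun y hy => mem_iInter₂.2 fun q' hq' => absurd ⟨q', hq'.1, hq'.2⟩ hy⟩
  exact ⟨A, A.contMDiff.contDiff, fun q hq => mem_iInter₂.1 (hA (Ψ q)) q ⟨hq, rfl⟩⟩

end LBoxAux

theorem lbox : LBoxStmt := by
  intro V E _ _ _ _ _ m M N₀ l Pi φ Z fl g κ a L D N y₀ hA hC hL ha hB hy₀ hL0 hlow hper hN₀ hg₀
  have hf := hC.flow
  have sΨ := Ps_smooth hf hB.sg
  have cΨ := sΨ.continuous
  have sfl : ∀ t, ContDiff ℝ ∞ (fl t) := fun t => hf.sm.comp (contDiff_const.prodMk contDiff_id)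
  have h0 : ∀ y ∈ D, ((0 : ℝ), y) ∈ Ioo (-a) a ×ˢ D := fun y hy => ⟨⟨by linarith, ha⟩, hy⟩
  -- the translated inverses
  obtain ⟨k, hk⟩ : ∃ k : ℝ → V → ℝ × Y m, k = fun t x => κ (fl (-t) x) + (t, 0) := ⟨_, rfl⟩
  have sk : ∀ t, ContDiff ℝ ∞ (k t) := fun t => by
    rw [hk]; exact (hB.sκ.comp (sfl _)).add contDiff_const
  have mem : ∀ t, ∀ q ∈ Ioo (t - a) (t + a) ×ˢ D, (-t + q.1, q.2) ∈ Ioo (-a) a ×ˢ D :=
    fun t q hq => ⟨⟨by linarith [hq.1.1], by linarith [hq.1.2]⟩, hq.2⟩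
  have kl : ∀ t, ∀ q ∈ Ioo (t - a) (t + a) ×ˢ D, k t (Ps fl g q) = q := fun t q hq => by
    rw [hk]
    simp only
    rw [fl_Ps hf, (hB.par.gm _ (mem t q hq)).2.2]
    ext <;> simp
  have kr : ∀ t, ∀ x ∈ M, φ x ≤ 5 → fl (-t) x ∈ N → Ps fl g (k t x) = x := fun t x hx h5 hN => by
    have h1 := (hB.par.rm _ (hC.inv (-t) x hx h5).1 hN).2
    have h2 : k t x = (t + (κ (fl (-t) x)).1, (κ (fl (-t) x)).2) := by
      rw [hk]; ext <;> simp [add_comm]
    rw [h2, ← fl_Ps hf, h1, ← hf.add, add_neg_cancel, hf.zero]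
  have oO : ∀ t : ℝ, IsOpen (Ioo (t - a) (t + a) ×ˢ D) := fun t => isOpen_Ioo.prod hB.oD
  have mO : ∀ q : ℝ × Y m, q.2 ∈ D → q ∈ Ioo (q.1 - a) (q.1 + a) ×ˢ D :=
    fun q hq => ⟨⟨by linarith, by linarith⟩, hq⟩
  -- injectivity near the segment
  have key : ∀ s t : ℝ, s ∈ Icc (-L) L → t ∈ Icc (-L) L → s < t → fl s (g y₀) ≠ fl t (g y₀) :=
    fun s t hs ht hst he => hper (t - s) (by linarith) (by linarith [hs.1, ht.2]) (by
      rw [sub_eq_neg_add, hf.add, ← he, ← hf.add, neg_add_cancel, hf.zero])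
  have inj : InjOn (Ps fl g) (Icc (-L) L ×ˢ {y₀}) := by
    rintro ⟨s, y⟩ ⟨hs, rfl⟩ ⟨t, y'⟩ ⟨ht, rfl⟩ he
    rcases lt_trichotomy s t with h | h | h
    · exact absurd he (key s t hs ht h)
    · rw [h]
    · exact absurd he.symm (key t s ht hs h)
  obtain ⟨W, oW, sW, iW⟩ := inj.exists_isOpen_superset (isCompact_Icc.prod isCompact_singleton)
    (fun q _ => cΨ.continuousAt) fun q hq => ⟨_, (oO q.1).mem_nhds (mO q (hq.2 ▸ hy₀)),
      fun p hp p' hp' he => by rw [← kl _ p hp, he, kl _ p' hp']⟩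
  obtain ⟨u, v, ou, ov, su, sv, huv⟩ := generalized_tube_lemma (isCompact_Icc (a := -L) (b := L))
    (isCompact_singleton (x := y₀))
    (n := W ∩ ({q | φ (Ps fl g q) < 1} ∩ Prod.snd ⁻¹' (D ∩ g ⁻¹' N₀)))
    (oW.inter ((isOpen_lt (hA.sφ.continuous.comp cΨ) continuous_const).inter
      ((hB.oD.inter (hN₀.preimage hB.sg.continuous)).preimage continuous_snd)))
    (by
      rintro ⟨t, y⟩ ⟨ht, rfl⟩
      exact ⟨sW ⟨ht, rfl⟩, hlow t (abs_le.2 ht), hy₀, hg₀⟩)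
  obtain ⟨r, hr, hrv⟩ := nhds_basis_closedBall.mem_iff.1 (ov.mem_nhds (sv rfl))
  have hK : ∀ q ∈ Icc (-L) L ×ˢ closedBall y₀ r,
      q ∈ W ∧ φ (Ps fl g q) < 1 ∧ q.2 ∈ D ∧ g q.2 ∈ N₀ := fun q hq => huv ⟨su hq.1, hrv hq.2⟩
  obtain ⟨κ', sκ', hκ'⟩ := LBoxAux.glue (isCompact_Icc.prod (isCompact_closedBall y₀ r)) cΨ
    (iW.mono fun q hq => (hK q hq).1) fun q hq =>
      ⟨k q.1, _, sk _, oO q.1, mO q (hK q hq).2.2.1, kl _⟩
  have sub : Ioo (-L) L ×ˢ ball y₀ r ⊆ Icc (-L) L ×ˢ closedBall y₀ r :=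
    prod_mono Ioo_subset_Icc_self ball_subset_closedBall
  have oB : IsOpen (Ioo (-L) L ×ˢ ball y₀ r) := isOpen_Ioo.prod isOpen_ball
  have gM : ∀ y ∈ D, g y ∈ M ∧ g y ∈ N ∧ φ (g y) < 1 := fun y hy => by
    have h1 := hB.par.gm _ (h0 y hy)
    have h2 := hB.low _ (h0 y hy)
    rw [Ps_zero hf] at h1 h2
    exact ⟨h1.1, h1.2.1, h2⟩
  have oN : IsOpen (⋃ t : ℝ, φ ⁻¹' Iio 1 ∩ (fl (-t) ⁻¹' N ∩ k t ⁻¹' (Ioo (-L) L ×ˢ ball y₀ r))) :=
    isOpen_iUnion fun t => (isOpen_Iio.preimage hA.sφ.continuous).inter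
      ((hB.par.oN.preimage (sfl _).continuous).inter (oB.preimage (sk t).continuous))
  refine ⟨κ', ball y₀ r, _, ⟨hB.sg, sκ', isOpen_ball, ⟨oB, oN, sΨ.contDiffOn, sκ'.contDiffOn,
    fun q hq => ?_, fun x hx hN => ?_⟩, fun q hq w => ?_, fun q hq => (hK q (sub hq)).2.1⟩,
    mem_ball_self hr, fun y hy => (hK (0, y) (sub ⟨⟨by linarith, hL0⟩, hy⟩)).2.2.2⟩
  · obtain ⟨-, h1, h2, -⟩ := hK q (sub hq)
    obtain ⟨g1, g2, g3⟩ := gM _ h2
    refine ⟨(hC.inv q.1 _ g1 (by linarith)).1, mem_iUnion.2 ⟨q.1, h1, ?_, ?_⟩, hκ' q (sub hq)⟩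
    · rw [mem_preimage, fl_Ps hf, neg_add_cancel, Ps_zero hf]
      exact g2
    · rw [mem_preimage, kl _ q (mO q h2)]
      exact hq
  · obtain ⟨t, h1, h2, h3⟩ := mem_iUnion.1 hN
    have h4 := kr t x hx (le_trans (le_of_lt h1) (by norm_num)) h2
    have h5 := hκ' _ (sub h3)
    rw [h4] at h5
    rw [h5]
    exact ⟨h3, h4⟩
  · obtain ⟨t, y⟩ := q
    obtain ⟨-, -, h2, -⟩ := hK _ (sub hq)
    have d1 : HasFDerivAt (fun p : ℝ × Y m => p - (t, 0)) (ContinuousLinearMap.id ℝ _) (t, y) :=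
      (hasFDerivAt_id _).sub_const _
    have e0 : ((t, y) : ℝ × Y m) - (t, 0) = (0, y) := by simp
    have d2 : HasFDerivAt (Ps fl g) (fderiv ℝ (Ps fl g) (0, y)) (((t, y) : ℝ × Y m) - (t, 0)) := by
      rw [e0]; exact (sΨ.differentiable (by simp) _).hasFDerivAt
    have d3 : HasFDerivAt (fl t) (fderiv ℝ (fl t) (Ps fl g (0, y)))
        (Ps fl g (((t, y) : ℝ × Y m) - (t, 0))) := by
      rw [e0]; exact ((sfl t).differentiable (by simp) _).hasFDerivAt
    have d4 := d3.comp (t, y) (d2.comp (t, y) d1)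
    have e1 : (fl t ∘ Ps fl g ∘ fun p : ℝ × Y m => p - (t, 0)) = Ps fl g := by
      funext p
      simp only [Function.comp, fl_Ps hf]
      congr 1
      ext <;> simp
    rw [e1] at d4
    have tg : fderiv ℝ (Ps fl g) (0, y) w ∈ Tg M (Ps fl g (0, y)) := by
      rw [hB.par.tg (h0 y h2)]; exact mem_range_self w
    have hl := (hL _ (hB.par.gm _ (h0 y h2)).1 t (fun s hs => by
      have hs' : s ∈ Icc (-L) L := uIcc_subset_Icc ⟨by linarith, hL0.le⟩ (sub hq).1 hs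
      have := (hK (s, y) ⟨hs', (sub hq).2⟩).2.1
      rw [fl_Ps hf, add_zero]
      exact this.trans (by norm_num)) _ tg).2.1
    rw [fl_Ps hf, add_zero, hB.form _ (h0 y h2)] at hl
    rw [d4.fderiv]
    refine hl.trans ?_
    simp [lam0]

end Pool.Agent.MP_6d695c_gt.P

end PkLBox

section PkGen

/-! PROJECT P: generic radii. -/

open scoped Manifold ContDiff Topology MeasureTheory NNReal ENNReal
open Set Metric Filter Real MeasureTheory

namespace Pool.Agent.MP_6d695c_gt.P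

open SW T1 Theta

namespace GenAux

/-- a point of the open cube that avoids countably many null cylinders -/
theorem avoid {ι : Type} [Countable ι] (B : (s : Finset ι) → Set (s → ℝ))
    (h : ∀ s, volume (B s) = 0) :
    ∃ t : ι → ℝ, (∀ i, t i ∈ Ioo (0 : ℝ) 1) ∧ ∀ s : Finset ι, (fun i : s => t i) ∉ B s := by
  haveI : IsProbabilityMeasure ((volume : Measure ℝ).restrict (Ioo (0 : ℝ) 1)) := ⟨by simp⟩
  have key : ∀ᵐ t ∂(Measure.infinitePi fun _ : ι => (volume : Measure ℝ).restrict (Ioo (0 : ℝ) 1)),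
      ∀ s : Finset ι, ((fun i : s => t i) ∈ univ.pi fun _ : s => Ioo (0 : ℝ) 1) ∧
        (fun i : s => t i) ∉ B s := by
    refine ae_all_iff.2 fun s => ?_
    refine ae_of_ae_map (p := fun z : s → ℝ => (z ∈ univ.pi fun _ : s => Ioo (0 : ℝ) 1) ∧ z ∉ B s)
      (Finset.measurable_restrict (X := fun _ : ι => ℝ) s).aemeasurable ?_
    rw [Measure.infinitePi_map_restrict, ← Measure.restrict_pi_pi]
    exact (ae_restrict_mem (MeasurableSet.univ_pi fun _ => measurableSet_Ioo)).and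
      (ae_restrict_of_ae (measure_eq_zero_iff_ae_notMem.1 (h s)))
  obtain ⟨t, ht⟩ := key.exists
  exact ⟨t, fun i => (ht {i}).1 ⟨i, Finset.mem_singleton_self i⟩ (mem_univ _), fun s => (ht s).2⟩

theorem lip_norm {σ E : Type} [Fintype σ] [NormedAddCommGroup E] :
    LipschitzWith 1 fun (z : σ → E) (i : σ) => ‖z i‖ := by
  refine LipschitzWith.of_dist_le_mul fun z w => ?_
  rw [NNReal.coe_one, one_mul, dist_pi_le_iff dist_nonneg]
  intro i
  exact (dist_norm_norm_le _ _).trans (by rw [← dist_eq_norm]; exact dist_le_pi_dist z w i)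

/-- the rescaled norms of a smooth family on a space of small dimension fill a null set -/
theorem null {σ E F : Type} [Fintype σ] [NormedAddCommGroup E] [NormedSpace ℝ E]
    [FiniteDimensional ℝ E] [NormedAddCommGroup F] [NormedSpace ℝ F] (G : E → σ → F)
    (hG : ContDiff ℝ 1 G) (a c : σ → ℝ) (hd : Module.finrank ℝ E < Fintype.card σ) :
    volume (range fun (y : E) (i : σ) => (‖G y i‖ - a i) / c i) = 0 := by
  have e : (range fun (y : E) (i : σ) => (‖G y i‖ - a i) / c i) =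
      (fun (u : σ → ℝ) (i : σ) => (u i - a i) / c i) ''
        ((fun (z : σ → F) (i : σ) => ‖z i‖) '' range G) := by
    rw [← range_comp, ← range_comp]
    rfl
  have hA : ContDiff ℝ 1 fun (u : σ → ℝ) (i : σ) => (u i - a i) / c i := by fun_prop
  have h1 : dimH (range fun (y : E) (i : σ) => (‖G y i‖ - a i) / c i) < (Fintype.card σ : ℝ≥0) := by
    rw [e]
    refine ((hA.contDiffOn.dimH_image_le convex_univ (subset_univ _)).trans
      ((lip_norm.dimH_image_le _).trans hG.dimH_range_le)).trans_lt ?_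
    rw [ENNReal.coe_natCast]
    exact Nat.cast_lt.2 hd
  have h2 := hausdorffMeasure_of_dimH_lt h1
  rwa [NNReal.coe_natCast, hausdorffMeasure_pi_real] at h2

theorem finrank_Y (m : ℕ) : Module.finrank ℝ (Y m) = 2 * m + 1 := by
  simp only [Module.finrank_prod, Module.finrank_self, Module.finrank_fin_fun]
  ring

end GenAux

theorem gen : GenStmt := by
  intro V _ _ m M l φ Z fl I g κ L D N ι _ k q a b hf hB hab
  have hn : ∀ s : Finset ι, volume (⋃ (_ : s.card = 2 * m + 2) (j : ι) (τ : ℚ),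
      range fun (y : Y m) (i : s) =>
        (‖(κ (k i) (Ps fl (g (k j)) ((τ : ℝ), y))).2 - q i‖ - a i) / (b i - a i)) = 0 := by
    intro s
    refine measure_iUnion_null fun hs => measure_iUnion_null fun j => measure_iUnion_null fun τ => ?_
    refine GenAux.null (fun (y : Y m) (i : s) => (κ (k i) (Ps fl (g (k j)) ((τ : ℝ), y))).2 - q i)
      (contDiff_pi.2 fun i => ?_) (fun i => a i) (fun i => b i - a i) ?_
    · have h1 : ContDiff ℝ ∞ fun y : Y m => κ (k i) (Ps fl (g (k j)) ((τ : ℝ), y)) :=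
        (hB (k i)).sκ.comp ((Ps_smooth hf (hB (k j)).sg).comp (contDiff_const.prodMk contDiff_id))
      exact (h1.snd.sub contDiff_const).of_le (by simp)
    · rw [GenAux.finrank_Y, Fintype.card_coe, hs]
      omega
  obtain ⟨t, ht, hav⟩ := GenAux.avoid _ hn
  refine ⟨fun i => a i + (b i - a i) * t i, fun i => ?_, fun x hx s hs => ?_⟩
  · have h0 := sub_pos.2 (hab i)
    have h1 := ht i
    exact ⟨by nlinarith [h1.1], by nlinarith [h1.2]⟩
  by_contra hc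
  obtain ⟨s', hs', hcard⟩ := Finset.exists_subset_card_eq (s := s) (n := 2 * m + 2) (by omega)
  obtain ⟨j, hj⟩ : s'.Nonempty := Finset.card_pos.1 (by omega)
  have hp : ∀ i ∈ s', κ (k i) x ∈ Ioo (-L) L ×ˢ D (k i) ∧ Ps fl (g (k i)) (κ (k i) x) = x :=
    fun i hi => (hB (k i)).par.rm x hx (hs i (hs' hi)).1
  have hW : IsOpen (⋂ i ∈ s', {u : ℝ | u - (κ (k j) x).1 + (κ (k i) x).1 ∈ Ioo (-L) L}) :=
    isOpen_biInter_finset fun i _ => isOpen_Ioo.preimage (by fun_prop)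
  obtain ⟨τ, hτ⟩ := Rat.denseRange_cast.exists_mem_open hW
    ⟨(κ (k j) x).1, mem_iInter₂.2 fun i hi => by simpa using (hp i hi).1.1⟩
  refine hav s' (mem_iUnion.2 ⟨hcard, mem_iUnion.2 ⟨j, mem_iUnion.2 ⟨τ, (κ (k j) x).2, ?_⟩⟩⟩)
  funext i
  have e1 : Ps fl (g (k j)) ((τ : ℝ), (κ (k j) x).2) = fl (τ - (κ (k j) x).1) x := by
    conv_rhs => rw [← (hp j hj).2]
    rw [fl_Ps hf, (hp j hj).2, sub_add_cancel]
  have e2 : fl (τ - (κ (k j) x).1) x =
      Ps fl (g (k i)) (τ - (κ (k j) x).1 + (κ (k i) x).1, (κ (k i) x).2) := by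
    rw [← fl_Ps hf, (hp i i.2).2]
  have e3 := ((hB (k i)).par.gm (τ - (κ (k j) x).1 + (κ (k i) x).1, (κ (k i) x).2)
    ⟨mem_iInter₂.1 hτ i i.2, (hp i i.2).1.2⟩).2.2
  have h0 := (sub_pos.2 (hab i)).ne'
  show (‖(κ (k i) (Ps fl (g (k j)) ((τ : ℝ), (κ (k j) x).2))).2 - q i‖ - a i) / (b i - a i) = t i
  rw [e1, e2, e3, (hs i (hs' i.2)).2]
  field_simp
  ring

end Pool.Agent.MP_6d695c_gt.P

end PkGen

section PkRecent

/-! PROJECT P, row Recent: moving the centre of a flow box. -/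

open scoped Manifold ContDiff Topology MeasureTheory
open Set Metric Filter Real

namespace Pool.Agent.MP_6d695c_gt.P

open SW T1 Theta

theorem recent : RecentStmt := by
  intro V _ _ m M l φ Z fl g κ a b a' b' c D N hf hB ha hb
  have e1 : exp (-c / 2) * exp (c / 2) = 1 := by rw [← exp_add, ← exp_zero]; congr 1; ring
  have e2 : exp (c / 2) * exp (-c / 2) = 1 := by rw [mul_comm, e1]
  have e3 : exp c * exp (-c / 2) ^ 2 = 1 := by
    rw [sq, ← exp_add, ← exp_add, ← exp_zero]; congr 1; ring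
  have sd : ∀ w : ℝ, ContDiff ℝ ∞ (dil w : Y m → Y m) := fun w => (Aff.dL (m := m) w).contDiff
  obtain ⟨T, hT⟩ : ∃ T : ℝ × Y m → ℝ × Y m, T = fun q => (q.1 + c, dil (exp (-c / 2)) q.2) :=
    ⟨_, rfl⟩
  have hP : Ps fl (fun y => fl c (g (dil (exp (-c / 2)) y))) = fun q => Ps fl g (T q) := by
    funext q
    rw [hT]
    exact (hf.add _ _ _).symm
  have hm : ∀ q ∈ Ioo a' b' ×ˢ (dil (exp (-c / 2)) ⁻¹' D), T q ∈ Ioo a b ×ˢ D := fun q hq => by
    rw [hT]
    exact ⟨⟨by linarith [hq.1.1], by linarith [hq.1.2]⟩, hq.2⟩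
  have dT : ∀ q, HasFDerivAt T ((ContinuousLinearMap.fst ℝ ℝ (Y m)).prod
      ((Aff.dL (exp (-c / 2))).comp (ContinuousLinearMap.snd ℝ ℝ (Y m)))) q := fun q => by
    rw [hT]
    exact (hasFDerivAt_fst.add_const c).prodMk
      (((Aff.dL (exp (-c / 2))).comp (ContinuousLinearMap.snd ℝ ℝ (Y m))).hasFDerivAt)
  have sg : ContDiff ℝ ∞ fun y => fl c (g (dil (exp (-c / 2)) y)) :=
    hf.sm.comp (contDiff_const.prodMk (hB.sg.comp (sd _)))
  have sκ : ContDiff ℝ ∞ fun x => ((κ x).1 - c, dil (exp (c / 2)) (κ x).2) :=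
    (hB.sκ.fst.sub contDiff_const).prodMk ((sd _).comp hB.sκ.snd)
  have oD : IsOpen (dil (exp (-c / 2)) ⁻¹' D) := hB.oD.preimage (sd _).continuous
  refine ⟨N ∩ {x | (κ x).1 - c ∈ Ioo a' b'}, sg, sκ, oD, ⟨isOpen_Ioo.prod oD,
    hB.par.oN.inter (isOpen_Ioo.preimage sκ.fst.continuous), (Ps_smooth hf sg).contDiffOn,
    sκ.contDiffOn, fun q hq => ?_, fun x hx hN => ?_⟩, fun q hq v => ?_, fun q hq => ?_⟩
  · obtain ⟨h1, h2, h3⟩ := hB.par.gm _ (hm q hq)
    have h4 : (T q).1 - c = q.1 := by rw [hT]; exact add_sub_cancel_right _ _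
    have h5 : dil (exp (c / 2)) (T q).2 = q.2 := by
      rw [hT]
      exact (dil_dil' _ _ _).trans (by rw [e2, dil_one'])
    rw [hP]
    refine ⟨h1, ⟨h2, ?_⟩, ?_⟩
    · rw [mem_ofPred_eq, h3, h4]
      exact hq.1
    · simp only [h3, h4, h5]
  · obtain ⟨h1, h2⟩ := hB.par.rm x hx hN.1
    have h3 : dil (exp (-c / 2)) (dil (exp (c / 2)) (κ x).2) = (κ x).2 := by
      rw [dil_dil', e1, dil_one']
    refine ⟨⟨hN.2, ?_⟩, ?_⟩
    · rw [mem_preimage, h3]
      exact h1.2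
    · rw [hP, hT]
      simp only [sub_add_cancel, h3, h2]
  · have d1 := ((Ps_smooth hf hB.sg).differentiable (by simp) (T q)).hasFDerivAt.comp q (dT q)
    have d2 : fderiv ℝ (fun q => Ps fl g (T q)) q = _ := d1.fderiv
    rw [hP, d2, ContinuousLinearMap.comp_apply, hB.form _ (hm q hq), Aff.lam0_apply,
      Aff.lam0_apply, hT]
    simp only [ContinuousLinearMap.prod_apply, ContinuousLinearMap.comp_apply,
      ContinuousLinearMap.coe_snd', Aff.dL_apply, dil, Pi.smul_apply, smul_eq_mul, exp_add]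
    have e4 : ∑ j, exp (-c / 2) * q.2.2.2 j * (exp (-c / 2) * v.2.2.1 j) =
        exp (-c / 2) ^ 2 * ∑ j, q.2.2.2 j * v.2.2.1 j := by
      rw [Finset.mul_sum]
      exact Finset.sum_congr rfl fun j _ => by ring
    rw [e4, ← mul_add, mul_assoc, ← mul_assoc (exp c), e3, one_mul]
  · rw [hP]
    exact hB.low _ (hm q hq)

end Pool.Agent.MP_6d695c_gt.P

end PkRecent

section PkMark

/-! PROJECT P, row MARK: the towers. -/

open scoped Manifold ContDiff Topology MeasureTheory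
open Set Metric Filter Real

namespace Pool.Agent.MP_6d695c_gt.P

open SW T1 Theta

namespace MarkAux

variable {V : Type} [NormedAddCommGroup V] [NormedSpace ℝ V] {m : ℕ} {M : Set V}
  {l : V → V →L[ℝ] ℝ} {φ : V → ℝ} {Z : V → V} {fl : ℝ → V → V}

theorem cdil (w : ℝ) : Continuous (dil w : Y m → Y m) := by
  unfold dil
  fun_prop

/-- finitely many boxes cover a compact set -/
theorem fin_cover {K : Set V} {S : ℝ} {N₀ : Set V} (hf : IsFlow Z fl) (hS : 0 < S)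
    (hK : IsCompact K) (hM : K ⊆ M)
    (h : ∀ x ∈ K, ∃ (g : Y m → V) (κ : V → ℝ × Y m) (D : Set (Y m)) (N : Set V) (y₀ : Y m),
      Box M l φ fl g κ (-S) S D N ∧ y₀ ∈ D ∧ g y₀ = x ∧ ∀ y ∈ D, g y ∈ N₀) :
    ∃ (I : Type) (_ : Finite I) (g : I → Y m → V) (κ : I → V → ℝ × Y m) (D B : I → Set (Y m))
      (N : I → Set V), (∀ i, Box M l φ fl (g i) (κ i) (-S) S (D i) (N i)) ∧
      (∀ i, IsCompact (B i) ∧ B i ⊆ D i) ∧ (∀ i, ∀ y ∈ D i, g i y ∈ N₀) ∧
      ∀ x ∈ K, ∃ i, ∃ s ∈ Ioo (-1 : ℝ) 1, ∃ y ∈ B i, Ps fl (g i) (s, y) = x := by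
  choose g κ D N y₀ hb hy hg hN using h
  have hr : ∀ x (hx : x ∈ K), ∃ r, 0 < r ∧ closedBall (y₀ x hx) r ⊆ D x hx := fun x hx =>
    nhds_basis_closedBall.mem_iff.1 ((hb x hx).oD.mem_nhds (hy x hx))
  choose r hr0 hr using hr
  obtain ⟨t, ht⟩ := hK.elim_nhds_subcover'
    (fun x hx => N x hx ∩ κ x hx ⁻¹' (Ioo (-1) 1 ×ˢ ball (y₀ x hx) (r x hx))) fun x hx => by
      have h1 := (hb x hx).par.gm (0, y₀ x hx) ⟨⟨by simpa using hS, hS⟩, hy x hx⟩
      rw [Ps_zero hf, hg x hx] at h1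
      refine (((hb x hx).par.oN).inter
        ((isOpen_Ioo.prod isOpen_ball).preimage (hb x hx).sκ.continuous)).mem_nhds ⟨h1.2.1, ?_⟩
      rw [mem_preimage, h1.2.2]
      exact ⟨⟨by norm_num, by norm_num⟩, mem_ball_self (hr0 x hx)⟩
  refine ⟨t, inferInstance, fun i => g i.1.1 i.1.2, fun i => κ i.1.1 i.1.2, fun i => D i.1.1 i.1.2,
    fun i => closedBall (y₀ i.1.1 i.1.2) (r i.1.1 i.1.2), fun i => N i.1.1 i.1.2,
    fun i => hb _ _, fun i => ⟨isCompact_closedBall _ _, hr _ _⟩, fun i => hN _ _, fun x hx => ?_⟩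
  obtain ⟨i, hi, h1, h2⟩ := mem_iUnion₂.1 (ht hx)
  exact ⟨⟨i, hi⟩, (κ i.1 i.2 x).1, h2.1, (κ i.1 i.2 x).2, ball_subset_closedBall h2.2,
    ((hb i.1 i.2).par.rm x (hM hx) h1).2⟩

/-- the markers are hit at a positive distance from the boundary -/
theorem shrink {I J : Type} [Finite I] {g : I → Y m → V} {κ : I → V → ℝ × Y m}
    {D B : I → Set (Y m)} {N : I → Set V} {S : ℝ} {O : I → J → Set (Y m)} {c : J → ℝ}
    (hf : IsFlow Z fl) (hb : ∀ i, Box M l φ fl (g i) (κ i) (-S) S (D i) (N i))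
    (hB : ∀ i, IsCompact (B i) ∧ B i ⊆ D i) (hO : ∀ i j, IsOpen (O i j) ∧ O i j ⊆ D i)
    (hc : ∀ j, c j ∈ Ioo (-S) S)
    (h : ∀ i, ∀ y ∈ B i, ∃ t ∈ Ioo 0 S, ∃ i' j', ∃ z ∈ O i' j',
      fl (-t) (g i y) = Ps fl (g i') (c j', z)) :
    ∃ δ, 0 < δ ∧ ∀ i, ∀ y ∈ B i, ∃ t ∈ Ioo 0 S, ∃ i' j' z, ball z δ ⊆ O i' j' ∧
      fl (-t) (g i y) = Ps fl (g i') (c j', z) := by
  have key : ∀ i, ∀ᶠ δ in 𝓝 (0 : ℝ), ∀ y ∈ B i, ∃ t ∈ Ioo 0 S, ∃ i' j' z, ball z δ ⊆ O i' j' ∧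
      fl (-t) (g i y) = Ps fl (g i') (c j', z) := by
    intro i
    refine (hB i).1.eventually_forall_of_forall_eventually fun y hy => ?_
    obtain ⟨t, ht, i', j', z, hz, e⟩ := h i y hy
    obtain ⟨ε, hε, hεO⟩ := Metric.isOpen_iff.1 (hO i' j').1 z hz
    have h1 := (hb i').par.gm (c j', z) ⟨hc j', (hO i' j').2 hz⟩
    have cx : Continuous fun w : Y m => fl (-t) (g i w) :=
      hf.sm.continuous.comp (continuous_const.prodMk (hb i).sg.continuous)
    have ck : Continuous fun w : Y m => κ i' (fl (-t) (g i w)) := (hb i').sκ.continuous.comp cx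
    have e1 : ∀ᶠ w in 𝓝 y, w ∈ D i := (hb i).oD.mem_nhds ((hB i).2 hy)
    have e2 : ∀ᶠ w in 𝓝 y, fl (-t) (g i w) ∈ N i' :=
      cx.continuousAt.eventually ((hb i').par.oN.mem_nhds (by
        show fl (-t) (g i y) ∈ _
        rw [e]; exact h1.2.1))
    have e3 : ∀ᶠ w in 𝓝 y, (κ i' (fl (-t) (g i w))).2 ∈ ball z (ε / 2) :=
      ck.snd.continuousAt.eventually (isOpen_ball.mem_nhds (by
        show (κ i' (fl (-t) (g i y))).2 ∈ _
        rw [e, h1.2.2]; exact mem_ball_self (half_pos hε)))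
    have e4 : ∀ᶠ w in 𝓝 y, t + ((κ i' (fl (-t) (g i w))).1 - c j') ∈ Ioo 0 S :=
      (continuous_const.add (ck.fst.sub continuous_const)).continuousAt.eventually
        (isOpen_Ioo.mem_nhds (by
          show t + ((κ i' (fl (-t) (g i y))).1 - c j') ∈ _
          rw [e, h1.2.2]; simpa using ht))
    have e5 : ∀ᶠ δ in 𝓝 (0 : ℝ), δ < ε / 2 := eventually_lt_nhds (half_pos hε)
    rw [nhds_prod_eq]
    filter_upwards [e5.prod_mk (e1.and (e2.and (e3.and e4)))] with p ⟨a5, a1, a2, a3, a4⟩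
    refine ⟨_, a4, i', j', (κ i' (fl (-t) (g i p.2))).2, ?_, ?_⟩
    · refine (ball_subset_ball' ?_).trans hεO
      rw [mem_ball] at a3
      linarith
    · have hm : fl (-t) (g i p.2) ∈ M :=
        ((hb i).par.gm (-t, p.2) ⟨⟨by linarith [ht.2], by linarith [ht.1, ht.2]⟩, a1⟩).1
      have h2 := ((hb i').par.rm _ hm a2).2
      have h3 := congrArg (fl (c j' - (κ i' (fl (-t) (g i p.2))).1)) h2
      rw [fl_Ps hf, ← hf.add, sub_add_cancel] at h3
      rw [h3]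
      congr 1
      ring
  obtain ⟨δ, h1, h2⟩ := (((eventually_all.2 key).filter_mono nhdsWithin_le_nhds).and
    (self_mem_nhdsWithin (s := Ioi (0 : ℝ)))).exists
  exact ⟨δ, h2, h1⟩

end MarkAux

open MarkAux in
theorem mark (hSBox : SBoxStmt) (hLBox : LBoxStmt) (hGut : GutStmt) (hRecent : RecentStmt) :
    MarkStmt := by
  intro V _ _ _ m M U l Pi φ L Z fl H hA hC hK hLie hAt hH hAp hU
  have hf := hC.flow
  obtain ⟨S, hS⟩ : ∃ S : ℝ, S = (2 * m + 2) * (2 * H + 10) := ⟨_, rfl⟩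
  have hm0 : (0 : ℝ) ≤ m := Nat.cast_nonneg m
  have hS1 : 1 ≤ S := by rw [hS]; nlinarith
  have hSr : Sret m H = S + 4 := by rw [Sret, hS]
  have hKc : IsCompact (Kl M φ L 0) := by
    have : Kl M φ L 0 = {x ∈ M | φ x ≤ 2} ∩ {x | L x ≤ 0} := 
      Set.ext fun x => ⟨fun h => ⟨⟨h.1, h.2.1⟩, h.2.2⟩, fun h => ⟨h.1.1, h.1.2, h.2⟩⟩
    rw [this]
    exact (hA.cpt 2 (by norm_num)).inter_right (isClosed_le hAt.sm.continuous continuous_const)
  have hback : ∀ x ∈ Kl M φ L 0, ∀ t, 0 ≤ t → fl (-t) x ∈ Kl M φ L 0 := fun x hx t ht =>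
    ⟨(hC.inv _ x hx.1 (by linarith [hx.2.1])).1,
      (hK.back x hx.1 (by linarith [hx.2.1]) t ht).trans (max_le hx.2.1 (by norm_num)),
      (hAt.back x hx.1 hx.2.1 t ht).trans (max_le (by linarith [hx.2.2]) (by norm_num))⟩
  obtain ⟨I, _, g, κ, D, B, N, hb, hB, hN, hcov⟩ := fin_cover (m := m) (l := l) (φ := φ)
    (N₀ := {x | L x < 1}) hf (by linarith : 0 < S) hKc (fun x hx => hx.1) fun x hx => by
      have hxU : x ∈ U := hAt.sub ⟨hx.1, hx.2.1, by linarith [hx.2.2]⟩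
      have hper : ∀ t, 0 < t → t ≤ 2 * S → fl t x ≠ x := fun t h0 h1 e =>
        hAp x (hK.per x hx.1 hx.2.1 t h0 e) t h0 (by rw [hSr]; linarith) e
      have hφ : ∀ t, |t| ≤ S → φ (fl t x) < 1 := fun t ht => hU x hxU t (by rw [hSr]; linarith)
      obtain ⟨g, κ, a, D, N, y₀, ha, hb, hy, hg⟩ := hSBox V m M l Pi φ Z fl x hA hC hx.1
        (by simpa [hf.zero] using hφ 0 (by simp; linarith))
        fun e => hper 1 one_pos (by linarith) (hf.fix e 1)
      obtain ⟨κ', D', N', hb', hy', hN'⟩ := hLBox V _ m M {x | L x < 1} l Pi φ Z fl g κ a S D N y₀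
        hA hC hLie ha hb hy (by linarith) (by rw [hg]; exact hφ) (by rw [hg]; exact hper)
        (isOpen_lt hAt.sm.continuous continuous_const)
        (by rw [hg]; exact lt_of_le_of_lt hx.2.2 one_pos)
      exact ⟨g, κ', D', N', y₀, hb', hy', hg, hN'⟩
  obtain ⟨O, C, hO, hdis, -, hhit⟩ := hGut V m 0 M ∅ ∅ l φ Z fl I g κ H S S D B N hf (by linarith)
    (by rw [hS]; simp) le_rfl hb hB isCompact_empty (by simp) fun x _ _ => ⟨∅, by simp, by simp⟩
  obtain ⟨c, hc⟩ : ∃ c : Fin (2 * m + 2 + 0) → ℝ,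
      ∀ j, c j = -(((j : ℕ) + 1 / 2) * (2 * H + 10)) := ⟨_, fun _ => rfl⟩
  simp only [← hc] at hdis hhit
  have hc1 : ∀ j, c j ≤ -(H + 5) := fun j => by
    have : (0 : ℝ) ≤ (j : ℕ) := Nat.cast_nonneg _
    rw [hc]; nlinarith
  have hc2 : ∀ j, -S + (H + 5) ≤ c j := fun j => by
    have : ((j : ℕ) : ℝ) + 1 ≤ 2 * m + 2 := by exact_mod_cast j.2
    rw [hc, hS]; nlinarith
  obtain ⟨δ, hδ, hhit'⟩ := shrink (O := O) (c := c) hf hb hB
    (fun i j => ⟨(hO i j).1, (hO i j).2.2.1.trans (hO i j).2.2.2⟩)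
    (fun j => ⟨by linarith [hc2 j], by linarith [hc1 j]⟩) fun i y hy => by
      obtain ⟨t, ht, h⟩ := hhit i y hy
      exact ⟨t, ht, h.resolve_left (notMem_empty _)⟩
  choose N' hN' using fun p : I × Fin (2 * m + 2 + 0) =>
    hRecent V m M l φ Z fl (g p.1) (κ p.1) (-S) S (-2) (H + 2) (c p.2) (D p.1) (N p.1) hf (hb p.1)
      (by linarith [hc2 p.2]) (by linarith [hc1 p.2])
  have hdd : ∀ j (z : Y m), dil (exp (-c j / 2)) (dil (exp (c j / 2)) z) = z := fun j z => by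
    rw [dil_dil', ← exp_add, show -c j / 2 + c j / 2 = 0 by ring, exp_zero, dil_one']
  obtain ⟨A, hAd⟩ : ∃ A : I × Fin (2 * m + 2 + 0) → Set (Y m), ∀ p, A p =
      dil (exp (c p.2 / 2)) '' (C p.1 p.2 \ thickening δ (O p.1 p.2)ᶜ) := ⟨_, fun _ => rfl⟩
  have hAc : ∀ p, IsCompact (A p) := fun p => by
    rw [hAd]
    exact ((hO p.1 p.2).2.1.diff isOpen_thickening).image (cdil _)
  have hρ : ∀ p, ∀ᶠ ρ in 𝓝[>] (0 : ℝ),
      cthickening (10 * ρ) (A p) ⊆ dil (exp (-c p.2 / 2)) ⁻¹' O p.1 p.2 := fun p => by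
    obtain ⟨ε, hε, h⟩ := (hAc p).exists_cthickening_subset_open
      ((hO p.1 p.2).1.preimage (cdil (exp (-c p.2 / 2)))) (by
        rw [hAd]
        rintro _ ⟨z, hz, rfl⟩
        rw [mem_preimage, hdd]
        by_contra e
        exact hz.2 (self_subset_thickening hδ _ e))
    filter_upwards [Ioo_mem_nhdsGT (show (0 : ℝ) < ε / 10 by positivity)] with ρ hρ
    exact (cthickening_mono (by linarith [hρ.2]) _).trans h
  obtain ⟨ρ, hρ1, hρ0⟩ := ((eventually_all.2 hρ).and self_mem_nhdsWithin).exists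
  refine ⟨I × Fin (2 * m + 2 + 0), inferInstance,
    ⟨fun p y => fl (c p.2) (g p.1 (dil (exp (-c p.2 / 2)) y)),
      fun p x => ((κ p.1 x).1 - c p.2, dil (exp (c p.2 / 2)) (κ p.1 x).2),
      fun p => dil (exp (-c p.2 / 2)) ⁻¹' D p.1, N', A, ρ⟩,
    hH, hρ0, hN', hAc, fun p y hy => (hO p.1 p.2).2.2.2 ((hO p.1 p.2).2.2.1 (hρ1 p hy)), ?_, ?_,
    fun x hx => ⟨hx.1, hx.2.1, by linarith [hx.2.2]⟩, hback, ?_⟩
  · intro p p' hp q hq q' hq' e
    refine hdis p.1 p.2 p'.1 p'.2 hp _ ((hO _ _).2.2.1 (hρ1 p hq.2)) _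
      ((hO _ _).2.2.1 (hρ1 p' hq'.2)) (-q'.1 + q.1)
      (abs_le.2 ⟨by linarith [hq.1.1, hq'.1.2], by linarith [hq.1.2, hq'.1.1]⟩) ?_
    have e' := congrArg (fl (-q'.1)) e
    simp only [Ps] at e' ⊢
    rw [← hf.add (-q'.1) q'.1, neg_add_cancel, hf.zero, ← hf.add (-q'.1) q.1] at e'
    exact e'
  · intro p q hq
    have hz : dil (exp (-c p.2 / 2)) q.2 ∈ D p.1 :=
      (hO p.1 p.2).2.2.2 ((hO p.1 p.2).2.2.1 (hρ1 p hq.2))
    have hq' : q ∈ Ioo (-2 : ℝ) (H + 2) ×ˢ (dil (exp (-c p.2 / 2)) ⁻¹' D p.1) :=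
      ⟨⟨by linarith [hq.1.1], by linarith [hq.1.2]⟩, hz⟩
    have h0 : ((0 : ℝ), dil (exp (-c p.2 / 2)) q.2) ∈ Ioo (-S) S ×ˢ D p.1 :=
      ⟨⟨by simp; linarith, by simp; linarith⟩, hz⟩
    have h1 := ((hb p.1).par.gm _ h0).1
    have h2 := (hb p.1).low _ h0
    rw [Ps_zero hf] at h1 h2
    refine ⟨((hN' p).par.gm q hq').1, by linarith [(hN' p).low q hq'], ?_⟩
    have h3 := hAt.back _ h1 (by linarith) (-(q.1 + c p.2)) (by linarith [hq.1.2, hc1 p.2])
    have h4 : L (g p.1 (dil (exp (-c p.2 / 2)) q.2)) < 1 := hN p.1 _ hz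
    rw [neg_neg, hf.add] at h3
    exact h3.trans (max_le (by linarith [hq.1.2, hc1 p.2]) (by norm_num))
  · intro x hx
    obtain ⟨i, s, hs, y, hy, e⟩ := hcov _ (hback x hx 2 (by norm_num))
    obtain ⟨t, ht, i', j', z, hz, e'⟩ := hhit' i y hy
    refine ⟨t + s + 2, ⟨by linarith [ht.1, hs.1], by rw [hSr]; linarith [ht.2, hs.2]⟩, (i', j'),
      dil (exp (c j' / 2)) z, ?_, ?_⟩
    · show _ ∈ A (i', j')
      rw [hAd]
      refine ⟨z, ⟨(hO i' j').2.2.1 (hz (mem_ball_self hδ)), fun h => ?_⟩, rfl⟩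
      obtain ⟨w, hw, hd⟩ := mem_thickening_iff.1 h
      exact hw (hz (mem_ball'.2 hd))
    · show _ = fl (c j') (g i' (dil (exp (-c j' / 2)) (dil (exp (c j' / 2)) z)))
      have e2 := congrArg (fl (-t - s)) e
      rw [fl_Ps hf, ← hf.add] at e2
      rw [hdd, show -(t + s + 2) = -t - s + -2 by ring, ← e2]
      simp only [Ps] at e' ⊢
      rw [← e', sub_add_cancel]

end Pool.Agent.MP_6d695c_gt.P

end PkMark
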