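import Pool.Agent.MP_6d695c_gt.q.Base
import Mathlib.Topology.MetricSpace.HausdorffDimension

/-! Slow skeleta: proofs of the steps, part D. -/

section PkRawP

/-! PROJECT P, row RAWP: one trap for all functions of bounded slope. -/

open scoped Manifold ContDiff Topology MeasureTheory
open Set Metric Filter Real

namespace Pool.Agent.MP_6d695c_gt.P

open SW T1 Theta

open T1.RawP (flat_mono cont_dil exists_R nab_const_sub exists_w exists_time) in
theorem rawP (hMastP : MastPStmt) (hTrfP : TrfPStmt) : RawPStmt := by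
  intro m K U Cu η hK hUo hKU hnull hη
  obtain ⟨G, h, hCR⟩ := exists_CR m
  obtain ⟨B, r, γ, hU⟩ := T1.uni m G h hCR
  have hγ := hU.γpos
  obtain ⟨Lm, σ, hLm, hσ, hM⟩ := hMastP m G h B r γ (min (γ / 4) (min (1 / 4) (η / 2))) hU
    (by positivity)
  obtain ⟨b, sb, cb, tb, b1, bI⟩ := exists_cut hK hUo hKU
  obtain ⟨-, aA, aN, aC, aH⟩ := T1.aff m
  have sF : ContDiff ℝ ∞ fun y => (Lm + 3) * b y := contDiff_const.mul sb
  obtain ⟨C₁, hC₁, hb₁⟩ := aC _ sF cb.mul_left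
  obtain ⟨C₂, hC₂, hb₂⟩ : ∃ C₂ : ℝ, 0 < C₂ ∧ Cu ≤ C₂ :=
    ⟨|Cu| + 1, by positivity, by linarith [le_abs_self Cu]⟩
  obtain ⟨Cf, hCf, hF⟩ := T1.flat m G h B r γ hU
  obtain ⟨Cd, hCd, hD⟩ := T1.disp m G h B r γ hU
  obtain ⟨w, w0, w1, hw⟩ := exists_w (e := min σ (min (1 / 100) (η / 2))) (C := C₁ + C₂)
    (D := (1 + Cd) * Cf) (by positivity) (by positivity) (by positivity)
  obtain ⟨R, hR⟩ := exists_R cb.isCompact w⁻¹
  obtain ⟨Z, fl, κ, sZ, hfl, hZ, hS⟩ := T1.flowA T1.calcP T1.model m G h (R + 1) hCR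
  obtain ⟨g, hg, hesc⟩ := T1.esc m G h B r γ R Z fl (dil w⁻¹ '' K) hU sZ hfl hZ
    (hK.image (cont_dil _)) (aH K _ hK hnull)
  have hA := aA g w w0
  set ψ : Y m → Y m := fun y => mul g (dil w⁻¹ y) with hψ
  set ψ' : Y m → Y m := fun y => dil w (ldiv g y) with hψ'
  have sψ : ContDiff ℝ ∞ ψ := contDiff_snd.comp (hA.sA.comp (contDiff_prodMk_right (0 : ℝ)))
  have sψ' : ContDiff ℝ ∞ ψ' := contDiff_snd.comp (hA.sA'.comp (contDiff_prodMk_right (0 : ℝ)))
  have li : ∀ y, ψ' (ψ y) = y := fun y => congrArg Prod.snd (hA.li (0, y))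
  have ri : ∀ y, ψ (ψ' y) = y := fun y => congrArg Prod.snd (hA.ri (0, y))
  have s0 : 0 ≤ w * (C₁ + C₂) := by positivity
  have sl : ContDiff ℝ ∞ fun y => Lm + 3 - (Lm + 3) * b y := contDiff_const.sub sF
  obtain ⟨ℓ, fℓ, dℓ⟩ := hF (fun y => Lm + 3 - (Lm + 3) * b (ψ' y)) _ (sl.comp sψ') s0 fun y => by
    refine (aN g w _ w0 w1 sl y).trans (mul_le_mul_of_nonneg_left ?_ w0.le)
    rw [nab_const_sub]
    linarith [hb₁ (dil w (ldiv g y))]
  have hu' : ∀ u : Y m → ℝ, ContDiff ℝ ∞ u → (∀ y, ‖nab u y‖ ≤ Cu) →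
      ∃ u', Flat G (Cf * (w * (C₁ + C₂))) u' ∧
        ∀ y, |u' y - u (ψ' y)| ≤ Cf * (w * (C₁ + C₂)) := fun u su hu =>
    hF (fun y => u (ψ' y)) _ (su.comp sψ') s0 fun y => by
      refine (aN g w _ w0 w1 su y).trans (mul_le_mul_of_nonneg_left ?_ w0.le)
      linarith [hu (dil w (ldiv g y))]
  rw [mul_assoc] at hw
  generalize hs : Cf * (w * (C₁ + C₂)) = s at hw fℓ dℓ hu'
  have s1 : 0 ≤ s := by rw [← hs]; positivity
  have s2 : 0 ≤ Cd * s := by positivity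
  have e1 : s + Cd * s ≤ σ := by linarith [hw.trans (min_le_left _ _)]
  have e2 : s + Cd * s ≤ 1 / 100 := by
    linarith [hw.trans ((min_le_right _ _).trans (min_le_left _ _))]
  have e3 : s + Cd * s ≤ η / 2 := by
    linarith [hw.trans ((min_le_right _ _).trans (min_le_right _ _))]
  obtain ⟨T, B', δ, f, Λ, hδ, hMast⟩ := hM ℓ (flat_mono fℓ (by linarith)) fun y => by
    have h1 := (abs_le.1 (dℓ y)).1
    have h2 : (Lm + 3) * b (ψ' y) ≤ (Lm + 3) * 1 :=
      mul_le_mul_of_nonneg_left (bI _).2 (by linarith)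
    linarith
  have hsup : ∀ y, ℓ y ≤ Lm + 2 → ψ' y ∈ tsupport b := fun y hy =>
    subset_tsupport _ fun h0 => by
      have h1 := (abs_le.1 (dℓ y)).1
      simp only [h0, mul_zero] at h1
      linarith
  have hball : ∀ y, ℓ y ≤ Lm + 1 + 1 → ‖y‖ ≤ R := fun y hy => by
    have := hR g hg _ (hsup y (by linarith))
    rwa [show mul g (dil w⁻¹ (ψ' y)) = y from ri y] at this
  have hd' := fun (u' : Y m → ℝ) (fu : Flat G s u') =>
    hD Z fl R s (Lm + 1) ℓ u' hfl (fun y hy => hZ y (by linarith)) fℓ fu s1 (by linarith) hball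
  have hd := hd' ℓ fℓ
  have hK0 : ∀ x ∈ K, ∀ t, ℓ (fl t (ψ x)) ≤ 1 / 100 := fun x hx t => by
    have h1 := (abs_le.1 (dℓ (ψ x))).2
    simp only [li, (b1 x hx).self_of_nhds] at h1
    have h2 := (abs_le.1 (hd (ψ x) (by linarith) t).1).2
    linarith
  have cfl : ∀ t, Continuous fun y => fl t (ψ y) := fun t =>
    hfl.sm.continuous.comp (continuous_const.prodMk sψ.continuous)
  obtain ⟨S, hSK⟩ := exists_time hK (F := fun t x => G (fl t (ψ x))) (c := -γ)
    (fun t => hCR.sG.continuous.comp (cfl t))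
    (fun x hx => by
      obtain ⟨t, -, ht⟩ := hesc _ (mem_image_of_mem _ hx) fun t _ =>
        hball _ (by linarith [hK0 x hx t])
      exact ⟨t, ht⟩)
    fun x hx t t' htt => by
      have := (hd (fl t (ψ x)) (by linarith [hK0 x hx t]) (t' - t)).2.2 (by linarith)
      rwa [← hfl.add, sub_add_cancel] at this
  obtain ⟨⟨M, hMκ⟩, hA2⟩ := hS S
  have hA3 := (T1.aut T1.prel m _ _ _ hA).2 _ _ _ hA2
  have hsub : {y | ℓ (ψ y) ≤ Lm + 1} ⊆ tsupport b := fun y hy => by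
    have := hsup (ψ y) (by linarith [show ℓ (ψ y) ≤ Lm + 1 from hy])
    rwa [li] at this
  refine ⟨T + M, B' + M, {y | ℓ (ψ y) ≤ Lm + 1},
    {y | G (fl S (ψ y)) < -γ ∧ ℓ (fl S (ψ y)) < 1 / 4},
    fun x => (1 * w⁻¹ ^ 2)⁻¹ * f (x.1 + κ S (ψ x.2), fl S (ψ x.2)),
    fun x => Λ (x.1 + κ S (ψ x.2), fl S (ψ x.2)), ?_, fun x hx => ⟨hSK x hx, ?_⟩, ?_⟩
  · exact (isOpen_lt (hCR.sG.continuous.comp (cfl S)) continuous_const).inter
      (isOpen_lt (fℓ.sm.continuous.comp (cfl S)) continuous_const)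
  · linarith [hK0 x hx S]
  · intro u su hu
    obtain ⟨u', fu, du⟩ := hu' u su hu
    obtain ⟨Ξ, E, hP⟩ := T1.plug m G ℓ u' γ Lm (η / 2) T B' δ f Λ hCR.sG fℓ.sm fu.sm
      (hMast u' (flat_mono fu (by linarith))) hγ hLm hδ
    obtain ⟨Ξ', E', hRaw⟩ := hTrfP m G ℓ u' u (fun y => ℓ (ψ y))
      (fun y => κ S (ψ y)) (fun y => fl S (ψ y)) γ Lm (η / 2) T B' _ M f Λ Ξ E _ U hP hA3
      (fun y => hMκ _) fu.sm su (fℓ.sm.comp sψ)
      (cb.isCompact.of_isClosed_subset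
        (isClosed_le (fℓ.sm.continuous.comp sψ.continuous) continuous_const) hsub)
      (hsub.trans tb)
      (fun y hy => by
        have h1 := (abs_le.1 (hd (fl S (ψ y)) (by linarith) (-S)).1).2
        rw [← hfl.add, neg_add_cancel, hfl.zero] at h1
        linarith)
      fun y hy => by
        have h1 := abs_le.1 (hd' u' fu (ψ y) hy S).2.1
        have h2 := abs_le.1 (du (ψ y))
        simp only [li] at h2
        rw [abs_le]
        constructor <;> linarith [h1.1, h1.2, h2.1, h2.2]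
    rw [show 2 * (η / 2) = η by ring] at hRaw
    exact ⟨Ξ', E', hRaw⟩

end Pool.Agent.MP_6d695c_gt.P

end PkRawP

section PkTrfP

/-! PROJECT P, row TRFP: a plug is pulled back by an automorphism, with explicit data. -/

open scoped Manifold ContDiff Topology MeasureTheory
open Set Metric Filter Real

namespace Pool.Agent.MP_6d695c_gt.P

open SW T1 Theta

theorem trfP : TrfPStmt := by
  intro m G ℓ u' u ρ κ ϕ γ Lm η T B k M f Λ Ξ E A' U hP hA hκ hu' hu hρ hC hU h1 h2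
  obtain ⟨χ, sχ, χ1, χ0, χr, -⟩ := exists_step (u := Lm + 1 / 2) (v := Lm + 1) (by linarith)
  set A : ℝ × Y m → ℝ × Y m := fun x => (x.1 + κ x.2, ϕ x.2) with hAd
  have hX := (T1.aut T1.prel m k A A' hA).1 f hP.sf
  have sA := hA.sA
  have comp : ∀ F : ℝ × Y m → ℝ, ContDiff ℝ ∞ F → ∀ x,
      fderiv ℝ (fun x => F (A x)) x (XY (fun x => k⁻¹ * f (A x)) x) =
        fderiv ℝ F (A x) (XY f (A x)) := fun F hF x => by
    rw [fderiv_fun_comp x (hF.differentiable (by simp) _) (sA.differentiable (by simp) x),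
      ContinuousLinearMap.comp_apply, hX]
  have out : ∀ x : ℝ × Y m, Lm + 1 / 4 < ρ x.2 → f (A x) = 0 ∧ Ξ (A x) = 0 := fun x hx =>
    hP.out (A x) (le_of_not_gt fun h => (h1 _ h).not_gt hx)
  have sW : ContDiff ℝ ∞ fun x : ℝ × Y m => u' x.2 + E x :=
    (hu'.comp contDiff_snd).add hP.slow.sE
  have su : ContDiff ℝ ∞ fun x : ℝ × Y m => u x.2 := hu.comp contDiff_snd
  have sc : ContDiff ℝ ∞ fun x : ℝ × Y m => χ (ρ x.2) := (sχ.comp hρ).comp contDiff_snd
  have cρ : Continuous fun x : ℝ × Y m => ρ x.2 := hρ.continuous.comp continuous_snd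
  refine ⟨fun x => Ξ (A x),
    fun x => χ (ρ x.2) * (u' (A x).2 + E (A x) - u x.2), contDiff_const.mul (hP.sf.comp sA),
    hP.sΛ.comp sA, hP.sΞ.comp sA, hC, hU, fun x hx => ?_, fun x hx => ?_, fun x => ?_, fun x => ?_,
    fun x hx => hP.low _ ?_, fun x hx ho => hP.high _ ?_ ho.1 ho.2, fun x => hP.rng _, fun x => ?_,
    sc.mul ((sW.comp sA).sub su), fun x _ => ?_, fun x _ => ?_⟩
  · have h : Lm + 1 < ρ x.2 := lt_of_not_ge hx
    obtain ⟨e1, e2⟩ := out x (by linarith)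
    exact ⟨by rw [e1, mul_zero], e2, by rw [χ0 _ h.le, zero_mul]⟩
  · have h3 := hκ x.2
    have h4 : |x.1| ≤ |x.1 + κ x.2| + |κ x.2| := by
      simpa using abs_sub (x.1 + κ x.2) (κ x.2)
    rw [hP.far (A x) (by change T ≤ |x.1 + κ x.2|; linarith), mul_zero]
  · exact T1.rel _ _ univ univ univ A A' _ (XY f) _ Λ x 0 isOpen_univ trivial trivial sA.contDiffOn
      (hA.sA'.differentiable (by simp) _) (hP.sΛ.comp sA) hP.sΛ
      (.of_forall fun y => ⟨trivial, hA.li y, tg_univ _ _, hX y, (add_zero _).symm⟩) (hP.lyap _)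
  · have h3 := abs_le.1 (hκ x.2)
    have h4 : -B ≤ Λ (A x) - (x.1 + κ x.2) ∧ Λ (A x) - (x.1 + κ x.2) ≤ B := abs_le.1 (hP.bd (A x))
    exact abs_le.2 ⟨by linarith [h3.1, h4.1], by linarith [h3.2, h4.2]⟩
  · change x.1 + κ x.2 ≤ -T
    linarith [(abs_le.1 (hκ x.2)).2]
  · change T ≤ x.1 + κ x.2
    linarith [(abs_le.1 (hκ x.2)).1]
  · rw [comp Ξ hP.sΞ]; exact hP.mono _
  · have h3 := hP.slow.bd (A x) trivial
    rcases le_or_gt (ρ x.2) (Lm + 1) with h | h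
    · have h4 := abs_le.1 (h2 _ h)
      have h5 := abs_le.1 h3
      rw [abs_mul, abs_of_nonneg (χr _).1]
      refine (mul_le_of_le_one_left (abs_nonneg _) (χr _).2).trans (abs_le.2 ⟨?_, ?_⟩)
      · linarith [h4.1, h5.1]
      · linarith [h4.2, h5.2]
    · rw [χ0 _ h.le, zero_mul, abs_zero]
      linarith [abs_nonneg (E (A x))]
  · have h3 := (comp _ sW x).trans_le (hP.slow.mono (A x) trivial)
    rcases lt_or_ge (ρ x.2) (Lm + 1 / 2) with h | h
    · refine le_of_eq_of_le (congrArg (fun L : (ℝ × Y m) →L[ℝ] ℝ => L _)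
        (Filter.EventuallyEq.fderiv_eq ?_)) h3
      filter_upwards [(isOpen_lt cρ continuous_const).mem_nhds h] with y hy
      rw [χ1 _ (le_of_lt hy)]
      ring
    · have h4 : XY (fun x => k⁻¹ * f (A x)) x = (1, 0) := XS_of_zero (by
        filter_upwards [(isOpen_lt continuous_const cρ).mem_nhds
          (show Lm + 1 / 4 < ρ x.2 by linarith)] with y hy
        rw [(out y hy).1, mul_zero])
      have d1 := (hu.differentiable (by simp) x.2).hasFDerivAt.comp x hasFDerivAt_snd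
      have d2 := ((sχ.comp hρ).differentiable (by simp) x.2).hasFDerivAt.comp x hasFDerivAt_snd
      have d3 := ((sW.comp sA).differentiable (by simp) x).hasFDerivAt
      have d4 := (d1.add (d2.mul (d3.sub d1))).fderiv
      rw [h4] at h3
      change fderiv ℝ _ x (XY _ x) ≤ 0
      rw [h4]
      refine le_of_eq_of_le (congrArg (fun L : (ℝ × Y m) →L[ℝ] ℝ => L (1, 0)) d4) ?_
      simpa [Function.comp_def] using mul_nonpos_of_nonneg_of_nonpos (χr (ρ x.2)).1 h3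

end Pool.Agent.MP_6d695c_gt.P

end PkTrfP

section PkShN

/-! PROJECT P, row ShN: degenerate sheets are thin. -/

open scoped Manifold ContDiff Topology MeasureTheory NNReal
open Set Metric Filter Real

namespace Pool.Agent.MP_6d695c_gt.P

open SW T1 Theta

namespace ShNAux

variable {m : ℕ}

/-- the complex structure as a linear map -/
def JL (m : ℕ) : Hor m →ₗ[ℝ] Hor m where
  toFun := JH
  map_add' u v := by simp only [JH, Prod.fst_add, Prod.snd_add, Prod.mk_add_mk, neg_add]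
  map_smul' c u := by
    simp only [JH, Prod.smul_fst, Prod.smul_snd, Prod.smul_mk, RingHom.id_apply, smul_neg]

theorem eq_zero_of_om {a b : Hor m} (h : a + JH b = 0) (ho : om a b = 0) : b = 0 := by
  have ha : a = -JH b := eq_neg_of_add_eq_zero_left h
  have e : om a b = ∑ j, (b.1 j ^ 2 + b.2 j ^ 2) := by
    rw [ha]
    refine Finset.sum_congr rfl fun j _ => ?_
    simp only [JH, Prod.neg_mk, neg_neg, Pi.neg_apply]
    ring
  rw [e, Finset.sum_eq_zero_iff_of_nonneg fun j _ => by positivity] at ho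
  have h1 : ∀ j, b.1 j = 0 ∧ b.2 j = 0 := fun j => by
    have := ho j (Finset.mem_univ j)
    constructor <;> nlinarith [sq_nonneg (b.1 j), sq_nonneg (b.2 j)]
  exact Prod.ext (funext fun j => (h1 j).1) (funext fun j => (h1 j).2)

theorem rank_le {A : Hor m →L[ℝ] Hor m} (hA : Sym A 0) :
    Module.finrank ℝ (LinearMap.range (A : Hor m →ₗ[ℝ] Hor m)) ≤ m := by
  set W := LinearMap.range (A : Hor m →ₗ[ℝ] Hor m) with hW
  have hinj : Function.Injective (W.subtype.coprod ((JL m).comp W.subtype)) := by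
    rw [injective_iff_map_eq_zero]
    rintro ⟨⟨a, u, hu⟩, ⟨b, v, hv⟩⟩ h
    have h' : a + JH b = 0 := h
    have ho : om a b = 0 := by
      rw [← hu, ← hv]
      exact (hA u v).trans (zero_mul _)
    have hb : b = 0 := eq_zero_of_om h' ho
    have ha : a = 0 := by
      have e : JH (0 : Hor m) = 0 := (JL m).map_zero
      rwa [hb, e, add_zero] at h'
    exact Prod.ext (Subtype.ext ha) (Subtype.ext hb)
  have := LinearMap.finrank_le_finrank_of_injective hinj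
  simp only [Module.finrank_prod, Module.finrank_fin_fun] at this
  omega

end ShNAux

theorem shN : ShNStmt := by
  intro m R g A hA
  set W := LinearMap.range (A : Hor m →ₗ[ℝ] Hor m) with hW
  let φ : W → Y m := fun x => g + Lt g (-hq (x : Hor m), (x : Hor m))
  have hφ : ContDiff ℝ 1 φ := by
    have h1 : ContDiff ℝ 1 (hq (m := m)) := (hq_smooth (m := m)).of_le (by simp)
    have h2 : ContDiff ℝ 1 (fun x : W => (x : Hor m)) := W.subtypeL.contDiff
    exact contDiff_const.add ((Lt g).contDiff.comp ((h1.comp h2).neg.prodMk h2))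
  have hs : Sh R (g, A, 0) ⊆ range φ := by
    rintro _ ⟨y, -, rfl⟩
    refine ⟨⟨A y.2, y.2, rfl⟩, ?_⟩
    simp only [φ, mul, hom, zero_mul, zero_sub]
  have hd : dimH (Sh R (g, A, 0)) < ((m + 1 : ℝ≥0) : ENNReal) := by
    refine ((dimH_mono hs).trans hφ.dimH_range_le).trans_lt ?_
    have := ShNAux.rank_le hA
    have h2 : Module.finrank ℝ W < m + 1 := Nat.lt_succ_of_le this
    exact_mod_cast h2
  have := hausdorffMeasure_of_dimH_lt hd
  simpa using this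

end Pool.Agent.MP_6d695c_gt.P

end PkShN

section PkRob

/-! Row Rob: a non-increasing function does not grow much along pseudo-orbits. -/

open scoped Manifold ContDiff Topology MeasureTheory
open Set Metric Filter Real

namespace Pool.Agent.MP_6d695c_gt.P

open SW T1 Theta

namespace RobAux

variable {X : Type} [NormedAddCommGroup X] [NormedSpace ℝ X]

theorem level {Z : X → X} {W : X → ℝ} {Ω : Set X} (hZ : Continuous Z) (hW : ContDiff ℝ 1 W)
    (hΩ : IsCompact Ω) {c : ℝ} (h : ∀ x ∈ Ω, W x = c → 0 < fderiv ℝ W x (Z x)) :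
    ∃ ε, 0 < ε ∧ ∀ (γ : ℝ → X) (s t : ℝ), s ≤ t → Crv Z ε γ s t → (∀ r ∈ Icc s t, γ r ∈ Ω) →
      c ≤ W (γ s) → c ≤ W (γ t) := by
  have hD : Continuous fun x => fderiv ℝ W x (Z x) :=
    (hW.continuous_fderiv one_ne_zero).clm_apply hZ
  obtain ⟨C, hC, hCb⟩ := exists_fderiv_bound hW hΩ
  have hK : IsCompact (Ω ∩ W ⁻¹' {c}) := hΩ.inter_right (isClosed_singleton.preimage hW.continuous)
  obtain ⟨m, hm, hmb⟩ := exists_pos_le hK hD.continuousOn fun x hx => h x hx.1 hx.2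
  refine ⟨m / (2 * C), by positivity, fun γ s t hst hγ hm' hc => ?_⟩
  refine fence_up (f := fun r => W (γ r)) (hW.continuous.comp_continuousOn hγ.1)
    (fun r hr e => ?_) hc t ⟨hst, le_rfl⟩
  have hr' := hm' r ⟨hr.1, hr.2.le⟩
  refine ((hγ.2 r hr).comp (hW.differentiable one_ne_zero _)).rd.mono fun a ha => ?_
  have h1 := mul_le_mul_of_nonneg_right (hCb _ hr') (show 0 ≤ m / (2 * C) by positivity)
  have h2 : C * (m / (2 * C)) = m / 2 := by field_simp
  linarith [ha.1, hmb _ ⟨hr', e⟩]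

theorem drop {Z : X → X} {W : X → ℝ} {Ω F : Set X} (hZ : Continuous Z) (hW : ContDiff ℝ 1 W)
    (hΩ : IsCompact Ω) (hF : F.Finite) (h : ∀ x ∈ Ω, x ∉ F → 0 < fderiv ℝ W x (Z x)) {δ : ℝ}
    (hδ : 0 < δ) :
    ∃ ε, 0 < ε ∧ ∀ (γ : ℝ → X) (s t : ℝ), s ≤ t → Crv Z ε γ s t → (∀ r ∈ Icc s t, γ r ∈ Ω) →
      W (γ s) - δ ≤ W (γ t) := by
  have key : ∃ ε, 0 < ε ∧ ∀ (γ : ℝ → X) (s t : ℝ), s ≤ t → Crv Z ε γ s t →
      (∀ r ∈ Icc s t, γ r ∈ Ω) → γ s ∈ Ω → W (γ s) - δ ≤ W (γ t) := by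
    refine hΩ.induction_on (p := fun S => ∃ ε, 0 < ε ∧ ∀ (γ : ℝ → X) (s t : ℝ), s ≤ t →
      Crv Z ε γ s t → (∀ r ∈ Icc s t, γ r ∈ Ω) → γ s ∈ S → W (γ s) - δ ≤ W (γ t))
      ⟨1, one_pos, fun _ _ _ _ _ _ h => h.elim⟩
      (fun S S' hS ⟨ε, h1, h2⟩ => ⟨ε, h1, fun γ s t a b c d => h2 γ s t a b c (hS d)⟩)
      (fun S S' ⟨ε, h1, h2⟩ ⟨ε', h3, h4⟩ => ⟨min ε ε', lt_min h1 h3, fun γ s t a b c d =>
        d.elim (h2 γ s t a (Crv_sub b le_rfl le_rfl (min_le_left _ _)) c)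
          (h4 γ s t a (Crv_sub b le_rfl le_rfl (min_le_right _ _)) c)⟩) fun x _ => ?_
    obtain ⟨c, hc, hcF⟩ : ∃ c ∈ Ioo (W x - δ) (W x), c ∉ W '' F :=
      (Ioo_infinite (by linarith)).exists_notMem_finite (hF.image W)
    obtain ⟨ε, h1, h2⟩ := level hZ hW hΩ (c := c) fun y hy e => h y hy fun f => hcF ⟨y, f, e⟩
    refine ⟨W ⁻¹' Ioo c (c + δ), mem_nhdsWithin_of_mem_nhds (hW.continuous.continuousAt.preimage_mem_nhds
      (Ioo_mem_nhds hc.2 (by linarith [hc.1]))), ε, h1, fun γ s t a b c' d => ?_⟩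
    linarith [h2 γ s t a b c' d.1.le, d.2]
  obtain ⟨ε, h1, h2⟩ := key
  exact ⟨ε, h1, fun γ s t a b c => h2 γ s t a b c (c s ⟨le_rfl, a⟩)⟩

theorem fin {Z : X → X} {Λ : X → ℝ} {Ω : Set X} (hΩ : IsCompact Ω)
    (h : ∀ x ∈ Ω, Ly univ Z Λ x) (hD : Continuous fun x => fderiv ℝ Λ x (Z x)) :
    ∃ F : Set X, F.Finite ∧ ∀ x ∈ Ω, x ∉ F → 0 < fderiv ℝ Λ x (Z x) := by
  obtain ⟨T, -, hT⟩ := hΩ.elim_nhds_subcover
    (fun p => {x | x ≠ p → 0 < fderiv ℝ Λ x (Z x)}) fun p hp => by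
      rcases h p hp with h | ⟨u, ⟨-, -, -, c, hc, h1⟩, h2⟩
      · filter_upwards [hD.continuousAt.eventually (lt_mem_nhds h)] with x hx _ using hx
      · rw [nhdsWithin_univ] at h1 h2
        filter_upwards [h1, h2] with x a b e
        have := norm_pos_iff.2 (sub_ne_zero.2 e)
        exact lt_of_lt_of_le (by positivity) (a.trans b)
  refine ⟨T, T.finite_toSet, fun x hx hn => ?_⟩
  obtain ⟨p, hp, hxp⟩ := mem_iUnion₂.1 (hT hx)
  exact hxp fun e => hn (e ▸ hp)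

end RobAux

theorem rob : RobStmt := by
  intro X _ _ _ Z Λ u Ω δ hZ hΛ hu hΩ hL hle hδ
  have hΛ1 : ContDiff ℝ 1 Λ := hΛ.of_le (by exact_mod_cast le_top)
  have hu1 : ContDiff ℝ 1 u := hu.of_le (by exact_mod_cast le_top)
  obtain ⟨F, hF, hpos⟩ := RobAux.fin hΩ hL
    ((hΛ1.continuous_fderiv one_ne_zero).clm_apply hZ.continuous)
  obtain ⟨B, hB⟩ := hΩ.exists_bound_of_continuousOn hΛ.continuous.continuousOn
  obtain ⟨a, ha⟩ : ∃ a, a = δ / (4 * (|B| + 1)) := ⟨_, rfl⟩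
  have ha0 : 0 < a := by rw [ha]; positivity
  have ha1 : a * (|B| + 1) = δ / 4 := by rw [ha]; field_simp
  obtain ⟨ε, h1, h2⟩ := RobAux.drop (W := fun x => a * Λ x - u x) hZ.continuous
    ((contDiff_const.mul hΛ1).sub hu1) hΩ hF (fun x hx hn => by
      rw [(((hΛ1.differentiable one_ne_zero x).hasFDerivAt.const_mul a).fun_sub
        (hu1.differentiable one_ne_zero x).hasFDerivAt).fderiv]
      have := mul_pos ha0 (hpos x hx hn)
      simp only [sub_apply, smul_apply, smul_eq_mul]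
      linarith [hle x hx]) (half_pos hδ)
  refine ⟨ε, h1, fun γ s t hst hγ hm => ?_⟩
  have e := h2 γ s t hst hγ hm
  have b1 := abs_le.1 ((hB _ (hm s ⟨le_rfl, hst⟩)).trans (le_abs_self B))
  have b2 := abs_le.1 ((hB _ (hm t ⟨hst, le_rfl⟩)).trans (le_abs_self B))
  nlinarith [mul_le_mul_of_nonneg_left b1.1 ha0.le, mul_le_mul_of_nonneg_left b2.2 ha0.le]

end Pool.Agent.MP_6d695c_gt.P

end PkRob

section PkPlace

/-! PROJECT P, row Place: a trap is moved to a node and to a given height. -/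

open scoped Manifold ContDiff Topology MeasureTheory
open Set Metric Filter Real

namespace Pool.Agent.MP_6d695c_gt.P

open SW T1 Theta

theorem place : PlaceStmt := by
  intro m k h e T B η ζ U C O u f Λ Ξ E hη hu hR
  obtain ⟨A', hA⟩ : ∃ A', Aut (k * exp (-h)) (fun x : ℝ × Y m => (x.1 - h, η x.2)) A' :=
    ⟨_, by
      have := (T1.aut T1.prel m _ _ _ ((T1.aff m).1 (-h))).2 k _ _ hη
      simp only [sub_eq_add_neg _ h]
      exact this⟩
  have hX := (T1.aut T1.prel m _ _ _ hA).1 f hR.sf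
  have hM : ∀ g : ℝ × Y m → ℝ, ContDiff ℝ ∞ g → (∀ x, fderiv ℝ g x (XY f x) ≤ 0) →
      Mono (fun x => (k * exp (-h))⁻¹ * f (x.1 - h, η x.2)) fun x => g (x.1 - h, η x.2) :=
    fun g hg hm => ⟨hg.comp hA.sA, fun x => by
      have := fderiv_comp x (hg.differentiable (by simp) _) (hA.sA.differentiable (by simp) x)
      rw [Function.comp_def] at this
      rw [this, ContinuousLinearMap.comp_apply, hX x]
      exact hm _⟩
  have hζ : Continuous ζ :=
    continuous_snd.comp (hη.sA'.continuous.comp (Continuous.prodMk_right (0 : ℝ)))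
  refine ⟨⟨contDiff_const.mul (hR.sf.comp hA.sA), hR.sΛ.comp hA.sA, hR.cpt.image hζ,
    fun x hx => mul_eq_zero_of_right _ ?_, fun x => ?_, B + |h|, fun x => ?_⟩,
    hM Ξ hR.sΞ hR.mono, hM (fun x => u x.2 + E x) ((hu.comp contDiff_snd).add hR.slow.sE)
      fun x => hR.slow.mono x (mem_univ _)⟩
  · rcases hx with hx | hx | hx
    · exact hR.far _ (le_abs.2 (Or.inr (by simp only; linarith)))
    · exact hR.far _ (le_abs.2 (Or.inl (by simp only; linarith)))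
    · exact (hR.out (x.1 - h, η x.2) fun hc => hx ⟨_, hc, congrArg Prod.snd (hη.li x)⟩).1
  · exact T1.rel _ _ univ univ univ _ A' _ (XY f) _ Λ x 0 isOpen_univ trivial trivial
      hA.sA.contDiffOn (hA.sA'.differentiable (by simp) _) (hR.sΛ.comp hA.sA) hR.sΛ
      (Eventually.of_forall fun y => ⟨trivial, hA.li y, tg_univ _ _, hX y, (add_zero _).symm⟩)
      (hR.lyap _)
  · have h1 := hR.bd (x.1 - h, η x.2)
    have h2 := abs_sub (Λ (x.1 - h, η x.2) - (x.1 - h)) h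
    rw [show Λ (x.1 - h, η x.2) - (x.1 - h) - h = Λ (x.1 - h, η x.2) - x.1 by ring] at h2
    linarith

end Pool.Agent.MP_6d695c_gt.P

end PkPlace

section PkSum

/-! PROJECT P: traps with disjoint supports are added. -/

open scoped Manifold ContDiff Topology MeasureTheory
open Set Metric Filter Real

namespace Pool.Agent.MP_6d695c_gt.P

open SW T1 Theta

namespace SumAux

variable {m : ℕ} {ι : Type} [Fintype ι] {C : ι → Set (Y m)}

/-- near `x` only the sets over `x` matter -/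
theorem away (hC : ∀ c, IsClosed (C c)) (x : ℝ × Y m) :
    ∀ᶠ y in 𝓝 x, ∀ c, x.2 ∉ C c → y.2 ∉ C c := by
  refine eventually_all.2 fun c => ?_
  by_cases h : x.2 ∈ C c
  · exact .of_forall fun _ h' => absurd h h'
  · exact (continuous_snd.continuousAt.eventually ((hC c).isOpen_compl.mem_nhds h)).mono
      fun _ hy _ => hy

theorem sum_one (hC : ∀ c, IsClosed (C c)) (hd : ∀ c c', c ≠ c' → Disjoint (C c) (C c'))
    {g : ι → ℝ × Y m → ℝ} (hg : ∀ c (x : ℝ × Y m), x.2 ∉ C c → g c x = 0) {x : ℝ × Y m} {c : ι}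
    (hx : x.2 ∈ C c) : (fun y => ∑ c, g c y) =ᶠ[𝓝 x] g c :=
  (away hC x).mono fun y hy => Finset.sum_eq_single c
    (fun c' _ h => hg c' y (hy c' fun h' => Set.disjoint_left.1 (hd c' c h) h' hx))
    fun h => absurd (Finset.mem_univ c) h

theorem sum_zero (hC : ∀ c, IsClosed (C c)) {g : ι → ℝ × Y m → ℝ}
    (hg : ∀ c (x : ℝ × Y m), x.2 ∉ C c → g c x = 0) {x : ℝ × Y m} (hx : ∀ c, x.2 ∉ C c) :
    ∀ᶠ y in 𝓝 x, ∑ c, g c y = 0 :=
  (away hC x).mono fun y hy => Finset.sum_eq_zero fun c _ => hg c y (hy c (hx c))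

theorem XY_congr {f f' : ℝ × Y m → ℝ} {x : ℝ × Y m} (h : f =ᶠ[𝓝 x] f') :
    ∀ᶠ y in 𝓝 x, XY f y = XY f' y :=
  (h.fderiv (𝕜 := ℝ)).mono fun y hy => by rw [XY, XY, XS, XS, hy]

/-- cut-off functions with disjoint supports -/
theorem cuts (hC : ∀ c, IsCompact (C c)) (hd : ∀ c c', c ≠ c' → Disjoint (C c) (C c')) :
    ∃ χ : ι → Y m → ℝ, (∀ c, ContDiff ℝ ∞ (χ c)) ∧ (∀ c, ∀ x ∈ C c, ∀ᶠ y in 𝓝 x, χ c y = 1) ∧
      (∀ c x, χ c x ∈ Icc (0 : ℝ) 1) ∧ ∀ c c' x, c' ≠ c → χ c x ≠ 0 → χ c' x = 0 := by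
  obtain ⟨N, h1, h2⟩ := Pairwise.exists_mem_filter_basis_of_disjoint
    (l := fun c => 𝓝ˢ (C c))
    (fun c c' h => disjoint_nhdsSet_nhdsSet (hC c).isClosed (hC c').isClosed (hd c c' h))
    fun c => hasBasis_nhdsSet (C c)
  choose χ a1 _ a3 a4 a5 using fun c => exists_cut (hC c) (h1 c).1 (h1 c).2
  refine ⟨χ, a1, a4, a5, fun c c' x h hx => by_contra fun hx' => ?_⟩
  exact Set.disjoint_left.1 (h2 h) (a3 c' (subset_tsupport _ hx')) (a3 c (subset_tsupport _ hx))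

theorem der {χ : ι → Y m → ℝ} {Λ : ι → ℝ × Y m → ℝ} (h1 : ∀ c, ContDiff ℝ ∞ (χ c))
    (h2 : ∀ c, ContDiff ℝ ∞ (Λ c)) (x : ℝ × Y m) :
    fderiv ℝ (fun y : ℝ × Y m => y.1 + ∑ c, χ c y.2 * (Λ c y - y.1)) x (1, 0) =
      1 + ∑ c, χ c x.2 * (fderiv ℝ (Λ c) x (1, 0) - 1) := by
  have d := (hasFDerivAt_fst (𝕜 := ℝ) (p := x)).fun_add
    (HasFDerivAt.fun_sum (u := Finset.univ) fun c _ =>
      (((h1 c).differentiable (by simp) x.2).hasFDerivAt.comp x hasFDerivAt_snd).fun_mul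
        (((h2 c).differentiable (by simp) x).hasFDerivAt.fun_sub hasFDerivAt_fst))
  have e := d.fderiv
  simp only [Function.comp] at e
  rw [e]
  simp

end SumAux

open SumAux in
theorem sumP : SumStmt := by
  intro m ι _ C a b f Λ h hd
  have hC := fun c => (h c).cpt.isClosed
  have hf : ∀ c (x : ℝ × Y m), x.2 ∉ C c → f c x = 0 := fun c x hx =>
    (h c).out x (Or.inr (Or.inr hx))
  refine ⟨?_, fun u E hu hE => ?_⟩
  · obtain ⟨χ, a1, a2, a3, a4⟩ := cuts (fun c => (h c).cpt) hd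
    choose B hB using fun c => (h c).bd
    refine ⟨fun y => y.1 + ∑ c, χ c y.2 * (Λ c y - y.1), ContDiff.sum fun c _ => (h c).sf,
      contDiff_fst.add (ContDiff.sum fun c _ =>
        ((a1 c).comp contDiff_snd).mul ((h c).sΛ.sub contDiff_fst)),
      isCompact_iUnion fun c => (h c).cpt, fun x hx => Finset.sum_eq_zero fun c _ => (h c).out x
        (hx.imp_right (Or.imp_right fun n k => n (mem_iUnion.2 ⟨c, k⟩))), fun x => ?_,
      ∑ c, B c, fun x => ?_⟩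
    · by_cases hx : ∃ c, x.2 ∈ C c
      · obtain ⟨c, hx⟩ := hx
        have e1 := XY_congr (sum_one hC hd hf hx)
        have e2 : (fun y : ℝ × Y m => y.1 + ∑ c, χ c y.2 * (Λ c y - y.1)) =ᶠ[𝓝 x] Λ c := by
          filter_upwards [continuous_snd.continuousAt.eventually (a2 c _ hx)] with y hy
          rw [Finset.sum_eq_single c (fun c' _ k => by
            rw [a4 c c' _ k (by rw [hy]; exact one_ne_zero), zero_mul])
            fun k => absurd (Finset.mem_univ c) k, hy]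
          ring
        refine (((h c).lyap x).congr trivial (e1.filter_mono nhdsWithin_le_nhds)).le trivial
          (((e2.fderiv (𝕜 := ℝ)).mono fun y hy => ?_).filter_mono nhdsWithin_le_nhds)
        rw [hy]
      · rw [not_exists] at hx
        have e1 : XY (fun x => ∑ c, f c x) x = (1, 0) := XS_of_zero (sum_zero hC hf hx)
        have e2 : ∀ c, 0 < fderiv ℝ (Λ c) x (1, 0) := fun c => by
          have e : XY (f c) x = (1, 0) :=
            XS_of_zero ((away hC x).mono fun y hy => hf c y (hy c (hx c)))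
          have := ((h c).lyap x).pos (by rw [e]; simp)
          rwa [e] at this
        left
        rw [e1, SumAux.der a1 fun c => (h c).sΛ]
        by_cases k : ∃ c, χ c x.2 ≠ 0
        · obtain ⟨c, k⟩ := k
          rw [Finset.sum_eq_single c (fun c' _ k' => by rw [a4 c c' _ k' k, zero_mul])
            fun k => absurd (Finset.mem_univ c) k]
          have := mul_pos (lt_of_le_of_ne (a3 c x.2).1 k.symm) (e2 c)
          nlinarith [(a3 c x.2).2]
        · simp only [not_exists, not_not] at k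
          simp [k]
    · rw [add_sub_cancel_left]
      refine (Finset.abs_sum_le_sum_abs _ _).trans (Finset.sum_le_sum fun c _ => ?_)
      rw [abs_mul, abs_of_nonneg (a3 c x.2).1]
      exact (mul_le_of_le_one_left (abs_nonneg _) (a3 c x.2).2).trans (hB c x)
  · have su : ContDiff ℝ ∞ fun x : ℝ × Y m => u x.2 := hu.comp contDiff_snd
    refine ⟨su.add (ContDiff.sum fun c _ => ?_), fun x => ?_⟩
    · simpa using (hE c).2.1.sub su
    by_cases hx : ∃ c, x.2 ∈ C c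
    · obtain ⟨c, hx⟩ := hx
      have e : (fun x : ℝ × Y m => u x.2 + ∑ c, E c x) =ᶠ[𝓝 x] fun x => u x.2 + E c x :=
        (sum_one hC hd (fun c => (hE c).1) hx).mono fun y hy => congrArg (u y.2 + ·) hy
      rw [(XY_congr (sum_one hC hd hf hx)).self_of_nhds, e.fderiv_eq]
      exact (hE c).2.2 x
    · rw [not_exists] at hx
      have e1 : XY (fun x => ∑ c, f c x) x = (1, 0) := XS_of_zero (sum_zero hC hf hx)
      have e : (fun x : ℝ × Y m => u x.2 + ∑ c, E c x) =ᶠ[𝓝 x] u ∘ Prod.snd :=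
        (sum_zero hC (fun c => (hE c).1) hx).mono fun y hy => by simp [hy]
      rw [e1, e.fderiv_eq,
        ((hu.differentiable (by simp) x.2).hasFDerivAt.comp x hasFDerivAt_snd).fderiv]
      simp

end Pool.Agent.MP_6d695c_gt.P

end PkSum

section PkCat

/-! PROJECT P, row Cat: uniform traps for lists of sheets. -/

open scoped Manifold ContDiff Topology MeasureTheory
open Set Metric Filter Real

namespace Pool.Agent.MP_6d695c_gt.P

open SW T1 Theta

namespace CatAux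

variable {m b : ℕ}

theorem raw_mono {U C O : Set (Y m)} {Cu η T T' B : ℝ} {f Λ : ℝ × Y m → ℝ}
    (h : RawP U Cu η T B C O f Λ) (hT : T ≤ T') : RawP U Cu η T' B C O f Λ := fun u a c => by
  obtain ⟨Ξ, E, k⟩ := h u a c
  exact ⟨Ξ, E, { k with
    far := fun x hx => k.far x (hT.trans hx)
    low := fun x hx => k.low x (hx.trans (neg_le_neg hT))
    high := fun x hx => k.high x (hT.trans hx) }⟩

theorem cont_sh : Continuous fun z : Sp m × Y m => mul z.1.1 (hom z.1.2.1 z.1.2.2 z.2) := by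
  simp only [mul_def, hom, hq]
  fun_prop

theorem sh_cpt (R : ℝ) (p : Sp m) : IsCompact (Sh R p) :=
  (isCompact_closedBall 0 R).image (cont_sh.comp (Continuous.prodMk_right p))

theorem good_cpt (C : ℝ) : IsCompact {p : Sp m | GoodP C 1 p} := by
  refine Metric.isCompact_of_isClosed_isBounded ?_
    ((isBounded_closedBall (x := 0) (r := max C 1)).subset ?_)
  · have h1 : IsClosed {p : Sp m | Sym p.2.1 p.2.2} := by
      have e : {p : Sp m | Sym p.2.1 p.2.2} =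
          ⋂ u, ⋂ v, {p : Sp m | om (p.2.1 u) (p.2.1 v) = p.2.2 * om u v} := by
        ext p
        simp only [Sym, mem_ofPred_eq, mem_iInter]
      rw [e]
      refine isClosed_iInter fun u => isClosed_iInter fun v => isClosed_eq ?_ (by fun_prop)
      simp only [om]
      fun_prop
    exact (isClosed_le continuous_fst.norm continuous_const).inter
      ((isClosed_le continuous_snd.fst.norm continuous_const).inter (h1.inter
      ((isClosed_le continuous_const continuous_snd.snd).inter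
        (isClosed_le continuous_snd.snd continuous_const))))
  · rintro p ⟨a, c, -, d, e⟩
    rw [mem_closedBall_zero_iff, Prod.norm_def, Prod.norm_def p.2]
    refine max_le (a.trans (le_max_left _ _)) (max_le (c.trans (le_max_left _ _)) ?_)
    rw [Real.norm_of_nonneg d]
    exact e.trans (le_max_right _ _)

/-- points near the sheets of nearby parameters lie in `O` -/
theorem tube {R R' : ℝ} {O : Set (Y m)} (hO : IsOpen O) (P₀ : Fin b → Sp m) (i : Fin b)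
    (h : ∀ y ∈ Sh R (P₀ i), ‖y‖ ≤ R' → y ∈ O) :
    ∀ᶠ x : ℝ × (Fin b → Sp m) in 𝓝 (0, P₀), ∀ y : Y m, ‖y‖ ≤ R' → ∀ p ∈ Sh R (x.2 i),
      ‖y - p‖ < x.1 → y ∈ O := by
  have k := ((isCompact_closedBall (0 : Y m) R').prod
    (isCompact_closedBall (0 : Y m) R)).eventually_forall_of_forall_eventually
    (x₀ := ((0 : ℝ), P₀)) (P := fun x w =>
      ‖w.1 - mul (x.2 i).1 (hom (x.2 i).2.1 (x.2 i).2.2 w.2)‖ < x.1 → w.1 ∈ O) (by
    rintro ⟨y, z⟩ ⟨hy, hz⟩
    by_cases c : y ∈ O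
    · have c1 : Continuous fun v : (ℝ × (Fin b → Sp m)) × Y m × Y m => v.2.1 := by fun_prop
      filter_upwards [c1.continuousAt.eventually (hO.mem_nhds c)] with v hv _
      exact hv
    · have c1 : Continuous fun v : (ℝ × (Fin b → Sp m)) × Y m × Y m =>
          ‖v.2.1 - mul (v.1.2 i).1 (hom (v.1.2 i).2.1 (v.1.2 i).2.2 v.2.2)‖ :=
        (continuous_snd.fst.sub (cont_sh.comp (Continuous.prodMk
          ((continuous_apply i).comp continuous_fst.snd) continuous_snd.snd))).norm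
      have c2 : 0 < ‖y - mul (P₀ i).1 (hom (P₀ i).2.1 (P₀ i).2.2 z)‖ := by
        rw [norm_pos_iff, sub_ne_zero]
        intro e
        exact c (h y ⟨z, hz, e.symm⟩ (mem_closedBall_zero_iff.1 hy))
      filter_upwards [continuous_fst.fst.continuousAt.eventually_lt c1.continuousAt
        (x₀ := (((0 : ℝ), P₀), (y, z))) c2] with v hv hv'
      exact absurd hv' hv.not_gt)
  filter_upwards [k] with x hx y hy p hp hyp
  obtain ⟨z, hz, rfl⟩ := hp
  exact hx (y, z) ⟨mem_closedBall_zero_iff.2 hy, hz⟩ hyp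

end CatAux

open CatAux in
theorem cat (hRawP : RawPStmt) (hShN : ShNStmt) : CatStmt := by
  intro m b R₀ Cg Cu η hη
  have k := (isCompact_univ_pi fun _ : Fin b =>
    good_cpt (m := m) Cg).eventually_forall_of_forall_eventually (x₀ := (0 : ℝ))
    (P := fun t P => 0 < t → (∀ i, GoodP Cg t (P i)) → ∃ B C O f Λ,
      RawP (ball 0 (R₀ + 3)) Cu η t⁻¹ B C O f Λ ∧
      ∀ y : Y m, ‖y‖ ≤ R₀ + 1 → ∀ i, ∀ p ∈ Sh Cg (P i), ‖y - p‖ < t → y ∈ O) (by
    intro P₀ hP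
    by_cases c : ∀ i, (P₀ i).2.2 ≤ 0
    · have hK : IsCompact ((⋃ i, Sh Cg (P₀ i)) ∩ closedBall 0 (R₀ + 2)) :=
        (isCompact_iUnion fun i => sh_cpt Cg (P₀ i)).inter_right isClosed_closedBall
      obtain ⟨T, B, C, O, f, Λ, hO, hKO, hR⟩ := hRawP m _ (ball 0 (R₀ + 3)) Cu η hK isOpen_ball
        (fun y hy => closedBall_subset_ball (by linarith) hy.2)
        (MeasureTheory.measure_mono_null inter_subset_left
          (MeasureTheory.measure_iUnion_null fun i => by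
            obtain ⟨-, -, s, d, -⟩ := hP i (mem_univ i)
            have e : (P₀ i).2.2 = 0 := le_antisymm (c i) d
            have := hShN m Cg (P₀ i).1 (P₀ i).2.1 (e ▸ s)
            rwa [← e] at this)) hη
      have k1 := eventually_all.2 fun i => tube (R := Cg) (R' := R₀ + 1) hO P₀ i fun y hy h1 =>
        hKO ⟨mem_iUnion.2 ⟨i, hy⟩, mem_closedBall_zero_iff.2 (by linarith)⟩
      have c1 : Continuous fun x : ℝ × (Fin b → Sp m) => x.1 * T := by fun_prop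
      filter_upwards [k1, c1.continuousAt.eventually_lt continuousAt_const
        (x₀ := ((0 : ℝ), P₀)) (show (0 : ℝ) * T < 1 by simp)] with x h1 h2 h0 _
      refine ⟨B, C, O, f, Λ, raw_mono hR ?_, fun y hy i => h1 i y hy⟩
      rw [← mul_one x.1⁻¹, le_inv_mul_iff₀ h0]
      exact h2.le
    · push Not at c
      obtain ⟨i, hi⟩ := c
      have c1 : Continuous fun x : ℝ × (Fin b → Sp m) => (x.2 i).2.2 := by fun_prop
      filter_upwards [continuous_fst.continuousAt.eventually_lt c1.continuousAt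
        (x₀ := ((0 : ℝ), P₀)) hi] with x h1 _ h2
      exact absurd (h2 i).2.2.2.2 h1.not_ge)
  obtain ⟨t, ⟨h1, h2⟩, h0⟩ := (((k.and (gt_mem_nhds one_pos)).filter_mono
    (nhdsWithin_le_nhds (s := Ioi 0))).and self_mem_nhdsWithin).exists
  exact ⟨t⁻¹, t, t, (inv_pos.2 h0).le, h0, h0, h2.le, fun P hP =>
    h1 P (fun i _ => (hP i).mono h2.le) h0 hP⟩

end Pool.Agent.MP_6d695c_gt.P

end PkCat

section PkLay

/-! PROJECT P, row LAY: one layer of traps. -/

open scoped Manifold ContDiff Topology MeasureTheory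
open Set Metric Filter Real

namespace Pool.Agent.MP_6d695c_gt.P

open SW T1 Theta

namespace LayAux

variable {m : ℕ} {k : ℝ} {η ζ : Y m → Y m}

theorem li (h : Aut k (fun x : ℝ × Y m => (x.1, η x.2)) fun x => (x.1, ζ x.2)) (y : Y m) :
    ζ (η y) = y := congrArg Prod.snd (h.li (0, y))

theorem ri (h : Aut k (fun x : ℝ × Y m => (x.1, η x.2)) fun x => (x.1, ζ x.2)) (y : Y m) :
    η (ζ y) = y := congrArg Prod.snd (h.ri (0, y))

theorem sm (h : Aut k (fun x : ℝ × Y m => (x.1, η x.2)) fun x => (x.1, ζ x.2)) :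
    ContDiff ℝ ∞ η :=
  contDiff_snd.comp (h.sA.comp ((contDiff_const (c := (0 : ℝ))).prodMk contDiff_id))

theorem sm' (h : Aut k (fun x : ℝ × Y m => (x.1, η x.2)) fun x => (x.1, ζ x.2)) :
    ContDiff ℝ ∞ ζ :=
  contDiff_snd.comp (h.sA'.comp ((contDiff_const (c := (0 : ℝ))).prodMk contDiff_id))

theorem mem_iff (h : Aut k (fun x : ℝ × Y m => (x.1, η x.2)) fun x => (x.1, ζ x.2))
    {C : Set (Y m)} {y : Y m} : y ∈ ζ '' C ↔ η y ∈ C :=
  ⟨fun ⟨z, hz, e⟩ => by rw [← e, ri h]; exact hz, fun hy => ⟨_, hy, li h y⟩⟩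

theorem nab_zero {c : ℝ} (hc : 0 ≤ c) (y : Y m) : ‖nab (fun _ : Y m => (0 : ℝ)) y‖ ≤ c := by
  rw [nab_eq_zero.2 (by simp), norm_zero]
  exact hc

theorem pos_min {J : Type} [Finite J] (e : J → ℝ) (he : ∀ j, 0 < e j) :
    ∃ ε, 0 < ε ∧ ∀ j, ε ≤ e j := by
  rcases isEmpty_or_nonempty J with h | h
  · exact ⟨1, one_pos, fun j => h.elim j⟩
  · obtain ⟨j, hj⟩ := Finite.exists_min e
    exact ⟨e j, he j, hj⟩

theorem robAll (hRob : RobStmt) {J : Type} [Finite J] {F Λ : ℝ × Y m → ℝ} (hF : ContDiff ℝ ∞ F)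
    (hΛ : ContDiff ℝ ∞ Λ) (hL : ∀ x, Ly univ (XY F) Λ x) (w : J → ℝ × Y m → ℝ)
    (hw : ∀ j, Mono F (w j)) {Ω : Set (ℝ × Y m)} (hΩ : IsCompact Ω) :
    ∃ ε, 0 < ε ∧ ∀ j (γ : ℝ → ℝ × Y m) (s t : ℝ), s ≤ t → Crv (XY F) ε γ s t →
      (∀ r ∈ Icc s t, γ r ∈ Ω) → w j (γ t) ≤ w j (γ s) + 1 / 10 := by
  choose e he H using fun j => hRob (ℝ × Y m) (XY F) Λ (w j) Ω (1 / 10) ((T1.model m).2.2 F hF) hΛ
    (hw j).1 hΩ (fun x _ => hL x) (fun x _ => (hw j).2 x) (by norm_num)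
  obtain ⟨ε, hε, hle⟩ := pos_min e he
  exact ⟨ε, hε, fun j γ s t hst hγ hm => H j γ s t hst (Crv_sub hγ le_rfl le_rfl (hle j)) hm⟩

/-- a function of the base that is locally constant over the support is monotone -/
theorem mono_of_const {C : Set (Y m)} {a b : ℝ} {f Λ : ℝ × Y m → ℝ} (h : Pl C a b f Λ)
    {u : Y m → ℝ} (hu : ContDiff ℝ ∞ u) (hc : ∀ y ∈ C, ∀ᶠ z in 𝓝 y, u z = -1) :
    Mono f fun x => u x.2 + 0 := by
  refine ⟨(hu.comp contDiff_snd).add contDiff_const, fun x => ?_⟩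
  by_cases hx : x.2 ∈ C
  · have e : (fun x : ℝ × Y m => u x.2 + 0) =ᶠ[𝓝 x] fun _ => (-1 : ℝ) := by
      filter_upwards [continuous_snd.continuousAt.eventually (hc _ hx)] with z hz
      rw [hz, add_zero]
    rw [e.fderiv_eq]
    simp
  · have e : XY f x = (1, 0) := XS_of_zero (by
      filter_upwards [continuous_snd.continuousAt.eventually
        (h.cpt.isClosed.isOpen_compl.mem_nhds hx)] with z hz
      exact h.out z (Or.inr (Or.inr hz)))
    have d : HasFDerivAt (fun x : ℝ × Y m => u x.2 + 0)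
        ((fderiv ℝ u x.2).comp (ContinuousLinearMap.snd ℝ ℝ (Y m))) x :=
      ((hu.differentiable (by simp) x.2).hasFDerivAt.comp x hasFDerivAt_snd).add_const 0
    rw [e, d.fderiv]
    simp

theorem sum_bd {J : Type} [Fintype J] {C : J → Set (Y m)} {E : J → ℝ × Y m → ℝ}
    (hd : ∀ c c', c ≠ c' → Disjoint (C c) (C c')) (h0 : ∀ c x, x.2 ∉ C c → E c x = 0)
    (hb : ∀ c x, |E c x| ≤ 1 / 10) (x : ℝ × Y m) : |∑ c, E c x| ≤ 1 / 10 := by
  by_cases h : ∃ c, x.2 ∈ C c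
  · obtain ⟨c, hc⟩ := h
    rw [Finset.sum_eq_single c (fun c' _ hn => h0 c' x fun hc' =>
      disjoint_left.1 (hd c' c hn) hc' hc) fun hn => absurd (Finset.mem_univ c) hn]
    exact hb c x
  · rw [Finset.sum_eq_zero fun c _ => h0 c x fun hc => h ⟨c, hc⟩]
    norm_num

end LayAux

open LayAux in
theorem lay (hCat : CatStmt) (hPsi : PsiStmt) (hPlace : PlaceStmt) (hSum : SumStmt)
    (hRob : RobStmt) : LayStmt := by
  classical
  intro m b R₀ Cg β hCg hβ
  obtain ⟨δ, hδ, hδβ, hδ1⟩ : ∃ δ : ℝ, 0 < δ ∧ δ ≤ β / 3 ∧ δ ≤ 1 / 3 :=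
    ⟨min (β / 3) (1 / 3), lt_min (by linarith) (by norm_num), min_le_left _ _, min_le_right _ _⟩
  obtain ⟨ψ, Cu, sψ, hCu, -, ψ0, ψ1, ψs⟩ := hPsi m (R₀ + 1) δ hδ
  obtain ⟨T, κ, f₀, hT, hκ, hf, hf1, H⟩ := hCat m b R₀ Cg (Cg * Cu) (1 / 10) (by norm_num)
  refine ⟨2 * T + 2, κ, f₀, by linarith, hκ, hf, hf1, ?_⟩
  intro ι _ η ζ act P h hN hG hsep
  choose B C O f Λ hR hO using fun c => H (P c) (hG c)
  choose k hk using hN.aut
  choose Ξ E₀ hraw using fun c => hR c (fun _ => 0) contDiff_const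
    (nab_zero (mul_nonneg hCg hCu))
  have hP := fun c => hPlace m (k c) (h + T + 1) (1 / 10) T (B c) (η c) (ζ c) _ (C c) (O c) _
    (f c) (Λ c) (Ξ c) (E₀ c) (hk c) contDiff_const (hraw c)
  rw [show h + T + 1 - T - 1 = h by ring, show h + T + 1 + T + 1 = h + (2 * T + 2) by ring] at hP
  have hlt : ∀ c y, y ∈ ζ c '' C c → ‖η c y‖ < R₀ + 3 := fun c y hy =>
    mem_ball_zero_iff.1 ((hraw c).sub ((mem_iff (hk c)).1 hy))
  have : Fintype {c // act c} := Fintype.ofFinite _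
  have hdis : ∀ c c' : {c // act c}, c ≠ c' → Disjoint (ζ c '' C c) (ζ c' '' C c') :=
    fun c c' hn => disjoint_left.2 fun y hy hy' => by
      have h1 := hlt _ _ hy
      have h2 := hlt _ _ hy'
      have := hsep c c' (fun e => hn (Subtype.ext e)) c.2 c'.2 y (by linarith)
      linarith
  obtain ⟨⟨Λ', hΛ'⟩, hM⟩ := hSum m {c // act c} (fun c => ζ c '' C c) h (h + (2 * T + 2)) _ _
    (fun c => (hP c).1) hdis
  obtain ⟨N, hNs, hNf, hNc⟩ := finite_cover_balls_of_compact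
    (isCompact_closedBall (0 : Y m) (R₀ + 1)) hδ
  have : Finite N := hNf
  have sψ' : ∀ y₀ : Y m, ContDiff ℝ ∞ fun y => -ψ (y - y₀) := fun y₀ =>
    (sψ.comp (contDiff_id.sub contDiff_const)).neg
  -- the test functions of the kicks
  have key : ∀ (j : ι × N) (c : {c // act c}), ∃ E : ℝ × Y m → ℝ,
      ((∀ x : ℝ × Y m, x.2 ∉ ζ c '' C c → E x = 0) ∧
        Mono (fun x => (k c * exp (-(h + T + 1)))⁻¹ * f c (x.1 - (h + T + 1), η c x.2))
          fun x => -ψ (η j.1 x.2 - j.2) + E x) ∧ ∀ x, |E x| ≤ 1 / 10 := by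
    rintro ⟨c₀, y₀, hy₀⟩ c
    have n₀ : ‖y₀‖ ≤ R₀ + 1 := mem_closedBall_zero_iff.1 (hNs hy₀)
    by_cases hm : ∃ y, ‖η c y‖ ≤ R₀ + 4 ∧ ‖η c₀ y‖ ≤ R₀ + 4
    · have su : ContDiff ℝ ∞ fun y => -ψ (η c₀ (ζ c y) - y₀) :=
        (sψ' y₀).comp ((sm (hk c₀)).comp (sm' (hk c)))
      obtain ⟨Ξ', E, hr⟩ := hR c _ su fun y =>
        (hN.slope c c₀ hm _ (sψ' y₀) y).trans (mul_le_mul_of_nonneg_left (ψs y₀ n₀ _) hCg)
      have h3 := (hPlace m (k c) (h + T + 1) (1 / 10) T (B c) (η c) (ζ c) _ (C c) (O c) _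
        (f c) (Λ c) Ξ' E (hk c) su hr).2.2
      simp only [li (hk c)] at h3
      exact ⟨fun x => E (x.1 - (h + T + 1), η c x.2), ⟨fun x hx =>
        (hr.out _ fun hc => hx ((mem_iff (hk c)).2 hc)).2.2, h3⟩, fun x => hr.slow.bd _ trivial⟩
    · refine ⟨fun _ => 0, ⟨fun _ _ => rfl, mono_of_const (hP c).1
        ((sψ' y₀).comp (sm (hk c₀))) fun y hy => ?_⟩, fun _ => by norm_num⟩
      have h1 := hlt _ _ hy
      have h2 : ∀ᶠ z in 𝓝 y, ‖η c z‖ < R₀ + 4 :=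
        ((sm (hk c)).continuous.norm.continuousAt).eventually_lt continuousAt_const (by linarith)
      filter_upwards [h2] with z hz
      have h3 : R₀ + 4 < ‖η c₀ z‖ := lt_of_not_ge fun h4 => hm ⟨z, hz.le, h4⟩
      have h5 := norm_sub_norm_le (η c₀ z) y₀
      change -ψ (η c₀ z - y₀) = -1
      rw [ψ1 _ (by linarith)]
  choose E hE hEb using key
  have M1 := fun j : ι × N => hM (fun y => -ψ (η j.1 y - j.2)) (E j)
    ((sψ' j.2).comp (sm (hk j.1))) (hE j)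
  have B1 := fun j : ι × N => sum_bd hdis (fun c => (hE j c).1) (hEb j)
  -- the test functions of the traps
  have M2 := fun c : {c // act c} => hM (fun _ => 0)
    (fun c' x => if c' = c then Ξ c (x.1 - (h + T + 1), η c x.2) else 0) contDiff_const
    fun c' => by
      by_cases e : c' = c
      · subst e
        simp only [if_true, zero_add]
        exact ⟨fun x hx => ((hraw c').out _ fun hc => hx ((mem_iff (hk c')).2 hc)).2.1,
          (hP c').2.1⟩
      · simp only [if_neg e, add_zero]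
        exact ⟨fun _ _ => trivial, contDiff_const, fun x => by simp⟩
  simp only [Finset.sum_ite_eq', Finset.mem_univ, if_true, zero_add] at M2
  refine ⟨_, Λ', by linarith, hΛ'.sf, hΛ'.sΛ, fun x hx => hΛ'.out x ?_, hΛ'.lyap, hΛ'.bd,
    fun Ω hΩ => ?_⟩
  · refine hx.imp_right (Or.imp_right fun h1 h2 => ?_)
    obtain ⟨c, hc⟩ := mem_iUnion.1 h2
    exact absurd (hlt _ _ hc) (not_lt.2 (h1 c c.2))
  obtain ⟨ε₁, hε₁, H₁⟩ := robAll hRob hΛ'.sf hΛ'.sΛ hΛ'.lyap _ M1 hΩ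
  obtain ⟨ε₂, hε₂, H₂⟩ := robAll hRob hΛ'.sf hΛ'.sΛ hΛ'.lyap _ M2 hΩ
  refine ⟨min ε₁ ε₂, lt_min hε₁ hε₂, fun γ s t hst hγ hm c hc => ⟨fun r hr => ?_, ?_⟩⟩
  · obtain ⟨y₀, hy₀, hy⟩ := mem_iUnion₂.1 (hNc (mem_closedBall_zero_iff.2 hc))
    rw [mem_ball_iff_norm] at hy
    have h1 := H₁ (c, ⟨y₀, hy₀⟩) γ r t hr.2 (Crv_sub hγ hr.1 le_rfl (min_le_left _ _))
      fun r' hr' => hm r' ⟨hr.1.trans hr'.1, hr'.2⟩
    have h2 := abs_le.1 (B1 (c, ⟨y₀, hy₀⟩) (γ t))
    have h3 := abs_le.1 (B1 (c, ⟨y₀, hy₀⟩) (γ r))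
    simp only [ψ0 _ hy.le] at h1
    have h4 : ‖η c (γ r).2 - y₀‖ < 2 * δ := lt_of_not_ge fun h5 => by
      rw [ψ1 _ h5] at h1
      linarith [h2.1, h3.2]
    have h6 := norm_sub_le (η c (γ r).2 - y₀) (η c (γ t).2 - y₀)
    rw [sub_sub_sub_cancel_right] at h6
    linarith
  · intro ha hb hact p hp
    obtain ⟨i, hi⟩ := mem_iUnion.1 hp
    refine le_of_not_gt fun hlt' => ?_
    have h1 := H₂ ⟨c, hact⟩ γ s t hst (Crv_sub hγ le_rfl le_rfl (min_le_right _ _)) hm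
    have h2 := (hraw c).low ((γ s).1 - (h + T + 1), η c (γ s).2) (by change _ - _ ≤ _; linarith)
    have h3 := (hraw c).high ((γ t).1 - (h + T + 1), η c (γ t).2) (by change _ ≤ _ - _; linarith)
      (hO c _ hc i p hi hlt')
    simp only [h2, h3] at h1
    norm_num at h1

end Pool.Agent.MP_6d695c_gt.P

end PkLay

section PkStk

/-! PROJECT P, row Stk: all layers of traps, one colour after the other. -/

open scoped Manifold ContDiff Topology MeasureTheory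
open Set Metric Filter Real

namespace Pool.Agent.MP_6d695c_gt.P

open SW T1 Theta

namespace StkAux

/-- the stack for the colours below `j` -/
theorem upto (hLay : LayStmt) (hJoin : JoinStmt) (m b : ℕ) (R₀ Cg : ℝ) (hC : 0 ≤ Cg) (j : ℕ) :
    ∃ H κ f₀ δ : ℝ, 0 < κ ∧ 0 < f₀ ∧ f₀ ≤ 1 ∧ 0 < δ ∧ δ ≤ 1 ∧
    ∀ (ι : Type) [Finite ι] (η ζ : ι → Y m → Y m) (act : ι → Prop) (col : ι → ℕ)
      (P : ι → Fin b → Sp m), Nod η ζ (R₀ + 4) Cg → (∀ c i, GoodP Cg f₀ (P c i)) →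
      (∀ c c', c ≠ c' → col c = col c' → ∀ y, ‖η c y‖ ≤ R₀ + 4 → R₀ + 4 < ‖η c' y‖) →
      ∃ F Λ, Tow η (fun c => act c ∧ col c < j) (fun c => ⋃ i, Sh Cg (P c i)) (R₀ + δ) (R₀ + 3)
        (1 - δ) κ 0 H F Λ := by
  induction j with
  | zero =>
    obtain ⟨T, κ, f₀, -, hκ, hf, hf1, h⟩ := hLay m b R₀ Cg (1 / 2) hC (by norm_num)
    refine ⟨0 + T, κ, f₀, 1 / 2, hκ, hf, hf1, by norm_num, by norm_num, ?_⟩
    intro ι _ η ζ act col P hN hP _
    obtain ⟨F, Λ, hT⟩ := h ι η ζ (fun c => act c ∧ col c < 0) P 0 hN hP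
      fun c _ _ hc => absurd hc.2 (Nat.not_lt_zero _)
    exact ⟨F, Λ, hT.mono (by norm_num) (by norm_num) le_rfl⟩
  | succ j ih =>
    obtain ⟨H, κ, f₀, δ, hκ, hf, hf1, hδ, hδ1, h1⟩ := ih
    have hβ : 0 < min (κ / 2) (δ / 2) := lt_min (by linarith) (by linarith)
    have b1 := min_le_left (κ / 2) (δ / 2)
    have b2 := min_le_right (κ / 2) (δ / 2)
    obtain ⟨T, κ₂, f₂, -, hκ₂, hf₂, -, h2⟩ := hLay m b R₀ Cg _ hC hβ
    refine ⟨H + T, min (κ / 2) κ₂, min f₀ f₂, δ - min (κ / 2) (δ / 2),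
      lt_min (by linarith) hκ₂, lt_min hf hf₂, (min_le_left _ _).trans hf1, by linarith,
      by linarith, ?_⟩
    intro ι _ η ζ act col P hN hP hs
    obtain ⟨F₁, Λ₁, t1⟩ := h1 ι η ζ act col P hN (fun c i => (hP c i).mono (min_le_left _ _)) hs
    obtain ⟨F₂, Λ₂, t2⟩ := h2 ι η ζ (fun c => act c ∧ col c = j) P H hN
      (fun c i => (hP c i).mono (min_le_right _ _))
      fun c c' hne hc hc' => hs c c' hne (hc.2.trans hc'.2.symm)
    have c1 := min_le_left (κ / 2) κ₂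
    obtain ⟨Λ, t⟩ := hJoin m ι η (fun c => act c ∧ col c < j + 1) _ _ _
      (R₀ + (δ - min (κ / 2) (δ / 2))) _ _ _ _ _ (min (κ / 2) κ₂) _ _ _ _ _ _ _ _ _ t1 t2
      (fun c => by rw [Nat.lt_succ_iff_lt_or_eq, and_or_left]) (by linarith) hβ.le (by linarith)
      (by linarith) (by linarith) (min_le_right _ _)
    exact ⟨_, Λ, t.mono le_rfl (by linarith) le_rfl⟩

end StkAux

theorem stk (hLay : LayStmt) (hJoin : JoinStmt) : StkStmt := by
  intro m M₀ b R₀ Cg hC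
  obtain ⟨H, κ, f₀, δ, hκ, hf, hf1, hδ, -, h⟩ := StkAux.upto hLay hJoin m b R₀ Cg hC M₀
  refine ⟨H, κ, f₀, hκ, hf, hf1, ?_⟩
  intro ι _ η ζ act col P hN hP hc hs
  obtain ⟨F, Λ, t⟩ := h ι η ζ act col P hN hP hs
  have e : (fun c => act c ∧ col c < M₀) = act := funext fun c => by simp [hc c]
  rw [e] at t
  exact ⟨F, Λ, t.mono (by linarith) (by linarith) le_rfl⟩

end Pool.Agent.MP_6d695c_gt.P

end PkStk

section PkPsi

/-! PROJECT P, row PSI: test functions of bounded slope. -/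

open scoped Manifold ContDiff Topology MeasureTheory
open Set Metric Filter Real

namespace Pool.Agent.MP_6d695c_gt.P

open SW T1 Theta

theorem psi : PsiStmt := by
  intro m R δ hδ
  let b : ContDiffBump (0 : Y m) := ⟨δ, 2 * δ, hδ, by linarith⟩
  have hb : ContDiff ℝ ∞ b := b.contDiff
  obtain ⟨K, hK⟩ := (hb.continuous_fderiv (by simp)).bounded_above_of_compact_support
    (b.hasCompactSupport.fderiv ℝ)
  have hK0 : 0 ≤ K := (norm_nonneg _).trans (hK 0)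
  refine ⟨fun y => 1 - b y, K * (1 + m * (|R| + 2 * δ)), contDiff_const.sub hb, by positivity,
    fun y => ⟨sub_nonneg.2 b.le_one, sub_le_self _ b.nonneg⟩, fun y hy => ?_, fun y hy => ?_,
    fun y₀ h₀ y => ?_⟩
  · exact sub_eq_zero.2 (b.one_of_mem_closedBall (mem_closedBall_zero_iff.2 hy)).symm
  · exact sub_eq_self.2 (b.zero_of_le_dist (by rwa [dist_zero_right]))
  · have h1 : HasFDerivAt (fun y => -(1 - b (y - y₀))) (fderiv ℝ b (y - y₀)) y := by
      have h2 := ((hb.differentiable (by simp) (y - y₀)).hasFDerivAt.comp y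
        ((hasFDerivAt_id y).sub_const y₀)).sub_const 1
      simp only [neg_sub]
      simpa [Function.comp_def] using h2
    refine ContinuousLinearMap.opNorm_le_bound _ (by positivity) fun ξ => ?_
    rw [nab_apply, h1.fderiv]
    by_cases h : ‖y - y₀‖ ≤ 2 * δ
    · have h3 : ‖y‖ ≤ |R| + 2 * δ := by
        have := norm_add_le (y - y₀) y₀
        rw [sub_add_cancel] at this
        linarith [le_abs_self R]
      refine (ContinuousLinearMap.le_of_opNorm_le _ (hK _) _).trans ?_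
      rw [mul_assoc]
      refine mul_le_mul_of_nonneg_left ((norm_Lt_le y ξ).trans ?_) hK0
      gcongr
    · have h4 : y - y₀ ∉ tsupport b := by
        rw [b.tsupport_eq, mem_closedBall_zero_iff]
        exact h
      rw [fderiv_of_notMem_tsupport ℝ h4]
      simp only [zero_apply, norm_zero]
      positivity

end Pool.Agent.MP_6d695c_gt.P

end PkPsi

section PkXBox

/-! PROJECT P, row XBox: the fields in a box. -/

open scoped Manifold ContDiff Topology MeasureTheory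
open Set Metric Filter Real

namespace Pool.Agent.MP_6d695c_gt.P

open SW T1 Theta

theorem xbox : XBoxStmt := by
  intro V E _ _ _ _ m M l Pi φ fl g κ a b D N hS hB x hx hN
  have h1 : ∀ x ∈ M, x ∈ N → ∀ v ∈ Tg M x, lam0 (κ x) (fderiv ℝ κ x v) = l x v := by
    intro x hx hN v hv
    have h2 := hB.par.rm x hx hN
    rw [← hB.form (κ x) h2.1, hB.par.ret hx hN hv, h2.2]
  refine ⟨h1 x hx hN, fun F G hF hG he => ?_⟩
  have h2 := hB.par.rm x hx hN
  obtain ⟨h3, h4⟩ := T1.prel V (ℝ × Y m) E (ℝ × Y m) M N univ l Pi lam0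
    (fun x : ℝ × Y m => exp (-x.1) • P0 x.2) κ 1 x hS (T1.model m).1 hB.par.oN hN hx
    hB.sκ.contDiffOn (fun y hy hy' => ⟨trivial, fun v hv => by rw [h1 y hy hy' v hv, one_mul]⟩)
    fun w _ => by
      have h5 := hB.par.tg h2.1
      have h6 := hB.par.dr_dg h2.1 w
      rw [h2.2] at h5 h6
      exact ⟨_, by rw [h5]; exact mem_range_self w, h6⟩
  have dκ : DifferentiableAt ℝ κ x := hB.sκ.differentiable (by simp) x
  have dF : DifferentiableAt ℝ F (κ x) := hF.differentiable (by simp) _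
  have h7 : Pi x (fderiv ℝ G x) = Pi x ((fderiv ℝ F (κ x)).comp (fderiv ℝ κ x)) :=
    hS.congr hx fun v hv => by
      rw [← fderiv_comp x dF dκ]
      exact fderiv_congr_tg (hG.differentiable (by simp) x) (dF.comp x dκ) hx he hv
  rw [map_add, map_add, h7, h3, h4, one_smul]
  exact congrArg₂ (· + ·) ((T1.model m).2.1 (κ x)) rfl

end Pool.Agent.MP_6d695c_gt.P

end PkXBox

section PkNbr

open scoped Manifold ContDiff Topology MeasureTheory
open Set Metric Filter Real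

namespace Pool.Agent.MP_6d695c_gt.P

open SW T1 Theta

theorem nbr : NbrStmt := by
  intro V _ _ m M K' K'' l φ Z fl I _ τ H S₀ δ₁ hf hT hδ
  have key : ∀ i, ∀ᶠ w : V in 𝓝 0, ∀ q ∈ τ.reg i (-1) (H + 1) 10,
      Ps fl (τ.g i) q + w ∈ τ.N i ∧ ‖τ.κ i (Ps fl (τ.g i) q + w) - q‖ < δ₁ := fun i => by
    refine (hT.reg_cpt i _ _ _).eventually_forall_of_forall_eventually fun q hq => ?_
    have c : Continuous fun z : V × ℝ × Y m => Ps fl (τ.g i) z.2 + z.1 :=
      ((Ps_smooth hf (hT.box i).sg).continuous.comp continuous_snd).add continuous_fst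
    refine Eventually.and (((hT.box i).par.oN.preimage c).mem_nhds ?_) ?_
    · simpa using (hT.kap hq).2.1
    · refine ((((hT.box i).sκ.continuous.comp c).sub continuous_snd).norm.continuousAt
        (x := (0, q))).eventually_lt continuousAt_const ?_
      simpa [(hT.kap hq).2.2] using hδ
  obtain ⟨δ, h0, h⟩ := nhds_basis_closedBall.eventually_iff.1 (eventually_all.2 key)
  refine ⟨δ, h0, fun i q hq x hx hd => ?_⟩
  have := h (x := x - Ps fl (τ.g i) q) (by simpa using hd) i q hq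
  rw [add_sub_cancel] at this
  exact ⟨this.1, this.2.le, ((hT.box i).par.rm x hx this.1).2⟩

end Pool.Agent.MP_6d695c_gt.P

end PkNbr

section PkJoin

/-! A stack of traps on top of a stack of traps. -/

open scoped Manifold ContDiff Topology MeasureTheory
open Set Metric Filter Real

namespace Pool.Agent.MP_6d695c_gt.P

open SW T1 Theta

namespace JoinAux

variable {m : ℕ}

theorem XY_congr {f f' : ℝ × Y m → ℝ} {q : ℝ × Y m} (h : ∀ᶠ y in 𝓝 q, f y = f' y) :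
    XY f q = XY f' q := by
  rw [XY, XY, XS, XS, Filter.EventuallyEq.fderiv_eq (f₁ := f) (f := f') h]

theorem ev_lt {q : ℝ × Y m} {u : ℝ} (h : q.1 < u) : ∀ᶠ y : ℝ × Y m in 𝓝 q, y.1 < u :=
  continuous_fst.continuousAt.eventually (gt_mem_nhds h)

theorem ev_gt {q : ℝ × Y m} {u : ℝ} (h : u < q.1) : ∀ᶠ y : ℝ × Y m in 𝓝 q, u < y.1 :=
  continuous_fst.continuousAt.eventually (lt_mem_nhds h)

/-- transport of the Lyapunov property -/
theorem Ly_ev {Z Z' : ℝ × Y m → ℝ × Y m} {Φ Φ' : ℝ × Y m → ℝ} {x : ℝ × Y m} (k : ℝ)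
    (h : Ly univ Z Φ x) (hZ : ∀ᶠ y in 𝓝 x, Z' y = Z y) (hΦ : ∀ᶠ y in 𝓝 x, Φ' y = Φ y + k) :
    Ly univ Z' Φ' x := by
  refine (h.congr (mem_univ _) (by rwa [nhdsWithin_univ])).le (mem_univ _) ?_
  rw [nhdsWithin_univ]
  filter_upwards [Filter.EventuallyEq.fderiv (𝕜 := ℝ) (f₁ := Φ') (f := fun y => Φ y + k) hΦ]
    with y hy
  rw [hy, fderiv_add_const]

theorem glue {F₁ F₂ F Λ₁ Λ₂ : ℝ × Y m → ℝ} {b B₁ B₂ : ℝ} (s1 : ContDiff ℝ ∞ Λ₁)
    (s2 : ContDiff ℝ ∞ Λ₂) (l1 : ∀ x, Ly univ (XY F₁) Λ₁ x) (l2 : ∀ x, Ly univ (XY F₂) Λ₂ x)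
    (b1 : ∀ x, |Λ₁ x - x.1| ≤ B₁) (b2 : ∀ x, |Λ₂ x - x.1| ≤ B₂)
    (e1 : ∀ x : ℝ × Y m, x.1 < b + 1 → XY F x = XY F₁ x)
    (e2 : ∀ x : ℝ × Y m, b - 1 < x.1 → XY F x = XY F₂ x)
    (e0 : ∀ x : ℝ × Y m, b - 1 < x.1 → x.1 < b + 1 → XY F x = (1, 0)) :
    ∃ Λ : ℝ × Y m → ℝ, ContDiff ℝ ∞ Λ ∧ (∀ x, Ly univ (XY F) Λ x) ∧ ∃ B, ∀ x, |Λ x - x.1| ≤ B := by
  obtain ⟨χ, sχ, c1, c0, cm, cd⟩ := exists_step (u := b - 1 / 2) (v := b + 1 / 2) (by linarith)
  have sc : ContDiff ℝ ∞ fun x : ℝ × Y m => χ x.1 := sχ.comp contDiff_fst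
  refine ⟨fun x => χ x.1 * (Λ₁ x - Λ₂ x - (B₁ + B₂)) + (Λ₂ x + (B₁ + B₂)),
    (sc.mul ((s1.sub s2).sub contDiff_const)).add (s2.add contDiff_const), fun x => ?_,
    B₁ + B₂ + B₂, fun x => ?_⟩
  · rcases lt_or_ge x.1 (b - 1 / 2) with h | h
    · refine Ly_ev 0 (l1 x) ((ev_lt h).mono fun y hy => e1 y (by linarith))
        ((ev_lt h).mono fun y hy => ?_)
      rw [c1 _ hy.le]
      ring
    rcases lt_or_ge (b + 1 / 2) x.1 with h' | h'
    · refine Ly_ev (B₁ + B₂) (l2 x) ((ev_gt h').mono fun y hy => e2 y (by linarith))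
        ((ev_gt h').mono fun y hy => ?_)
      rw [c0 _ hy.le]
      ring
    have z0 : XY F x = (1, 0) := e0 x (by linarith) (by linarith)
    have ne : ((1, 0) : ℝ × Y m) ≠ 0 := fun h => one_ne_zero (congrArg Prod.fst h)
    have z1 : XY F₁ x = (1, 0) := (e1 x (by linarith)).symm.trans z0
    have z2 : XY F₂ x = (1, 0) := (e2 x (by linarith)).symm.trans z0
    have p1 := (l1 x).pos (by rwa [z1])
    have p2 := (l2 x).pos (by rwa [z2])
    rw [z1] at p1
    rw [z2] at p2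
    have d1 := (s1.differentiable (by simp) x).hasFDerivAt
    have d2 := (s2.differentiable (by simp) x).hasFDerivAt
    have df : HasFDerivAt (Prod.fst : ℝ × Y m → ℝ) (ContinuousLinearMap.fst ℝ ℝ (Y m)) x :=
      hasFDerivAt_fst
    have dc : HasFDerivAt (fun x : ℝ × Y m => χ x.1)
        (deriv χ x.1 • ContinuousLinearMap.fst ℝ ℝ (Y m)) x :=
      (sχ.differentiable (by simp) x.1).hasDerivAt.comp_hasFDerivAt x df
    have dd := (dc.mul ((d1.sub d2).sub_const (B₁ + B₂))).add (d2.add_const (B₁ + B₂))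
    left
    have e : (fun x : ℝ × Y m => χ x.1 * (Λ₁ x - Λ₂ x - (B₁ + B₂)) + (Λ₂ x + (B₁ + B₂))) =
        ((fun x : ℝ × Y m => χ x.1) * fun x => (Λ₁ - Λ₂) x - (B₁ + B₂)) +
          fun x => Λ₂ x + (B₁ + B₂) := rfl
    rw [z0, e, dd.fderiv]
    simp only [ContinuousLinearMap.add_apply, ContinuousLinearMap.smul_apply,
      ContinuousLinearMap.sub_apply, ContinuousLinearMap.coe_fst', smul_eq_mul, mul_one,
      Pi.sub_apply]
    have h1 := abs_le.1 (b1 x)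
    have h2 := abs_le.1 (b2 x)
    have h3 : 0 ≤ (Λ₁ x - Λ₂ x - (B₁ + B₂)) * deriv χ x.1 :=
      mul_nonneg_of_nonpos_of_nonpos (by linarith [h1.2, h2.1]) (cd _)
    have h4 := (cm x.1).1
    have h5 := (cm x.1).2
    rcases h4.eq_or_lt with h6 | h6
    · rw [← h6]
      linarith
    · nlinarith [mul_pos h6 p1, mul_nonneg (sub_nonneg.2 h5) p2.le]
  · have h1 := abs_le.1 (b1 x)
    have h2 := abs_le.1 (b2 x)
    have h4 := (cm x.1).1
    have h5 := (cm x.1).2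
    have g1 : 0 ≤ B₁ := (abs_nonneg _).trans (b1 x)
    have g2 : 0 ≤ B₂ := (abs_nonneg _).trans (b2 x)
    rw [abs_le]
    constructor
    · nlinarith [mul_nonneg h4 (by linarith [h1.1] : 0 ≤ Λ₁ x - x.1 + B₁),
        mul_nonneg (sub_nonneg.2 h5) (by linarith [h2.1] : 0 ≤ Λ₂ x - x.1 + B₂),
        mul_nonneg (sub_nonneg.2 h5) g1, mul_nonneg h4 g1]
    · nlinarith [mul_nonneg h4 (by linarith [h1.2] : 0 ≤ B₁ - (Λ₁ x - x.1)),
        mul_nonneg (sub_nonneg.2 h5) (by linarith [h2.2] : 0 ≤ B₂ - (Λ₂ x - x.1)),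
        mul_nonneg h4 g2]

/-- the time at which the curve passes from the lower stack to the upper one -/
theorem cut {f : ℝ → ℝ} {s t b : ℝ} (hst : s ≤ t) (hf : ContinuousOn f (Icc s t))
    (hd : ∀ r ∈ Ico s t, b - 1 < f r → f r < b + 1 → RD f r fun a => 0 < a) :
    ∃ r₀ ∈ Icc s t, (∀ r ∈ Ico s r₀, f r < b + 1) ∧ (∀ r ∈ Ico r₀ t, b - 1 < f r) ∧
      (b ≤ f t → b ≤ f r₀) ∧ (f s ≤ b → f r₀ ≤ b) := by
  have up : ∀ r₀ ∈ Icc s t, b ≤ f r₀ → ∀ r ∈ Ico r₀ t, b - 1 < f r := fun r₀ h0 h r hr => by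
    have := fence_up (v := b) (hf.mono (Icc_subset_Icc h0.1 le_rfl))
      (fun x hx e => hd x ⟨h0.1.trans hx.1, hx.2⟩ (by linarith) (by linarith)) h r
      ⟨hr.1, hr.2.le⟩
    linarith
  have dn : ∀ r₀ ∈ Icc s t, f r₀ ≤ b → ∀ r ∈ Ico s r₀, f r < b + 1 := fun r₀ h0 h r hr => by
    have := fence_back (v := b + 1 / 2) (hf.mono (Icc_subset_Icc le_rfl h0.2))
      (fun x hx e => hd x ⟨hx.1, hx.2.trans_le h0.2⟩ (by linarith) (by linarith))
      (by linarith) r ⟨hr.1, hr.2.le⟩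
    linarith
  rcases le_total (f t) b with h | h
  · exact ⟨t, ⟨hst, le_rfl⟩, dn t ⟨hst, le_rfl⟩ h, fun r hr => absurd hr.2 (not_lt.2 hr.1), id,
      fun _ => h⟩
  rcases le_total b (f s) with h' | h'
  · exact ⟨s, ⟨le_rfl, hst⟩, fun r hr => absurd hr.2 (not_lt.2 hr.1), up s ⟨le_rfl, hst⟩ h',
      fun _ => h', id⟩
  obtain ⟨r₀, h0, e⟩ := intermediate_value_Icc hst hf ⟨h', h⟩
  exact ⟨r₀, h0, dn r₀ h0 e.le, up r₀ h0 e.ge, fun _ => e.ge, fun _ => e.le⟩

end JoinAux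

open JoinAux in
theorem join : JoinStmt := by
  intro m ι η act act₁ act₂ Γ Ra Ra₁ Ra₂ R β₁ β₂ κ κ₁ κ₂ a b c F₁ Λ₁ F₂ Λ₂ T₁ T₂ hact hβ₁ hβ₂
    hR₂ hR₁ hκ₁ hκ₂
  have hab := T₁.le
  have hbc := T₂.le
  have e1 : ∀ x : ℝ × Y m, x.1 < b + 1 → XY (fun x => F₁ x + F₂ x) x = XY F₁ x := fun x hx =>
    XY_congr ((ev_lt hx).mono fun y hy => by rw [T₂.out y (Or.inl hy.le), add_zero])
  have e2 : ∀ x : ℝ × Y m, b - 1 < x.1 → XY (fun x => F₁ x + F₂ x) x = XY F₂ x := fun x hx =>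
    XY_congr ((ev_gt hx).mono fun y hy => by rw [T₁.out y (Or.inr (Or.inl hy.le)), zero_add])
  have e0 : ∀ x : ℝ × Y m, b - 1 < x.1 → x.1 < b + 1 → XY (fun x => F₁ x + F₂ x) x = (1, 0) :=
    fun x hx hx' => (e1 x hx').trans
      (XS_of_zero ((ev_gt hx).mono fun y hy => T₁.out y (Or.inr (Or.inl hy.le))))
  obtain ⟨B₁, b1⟩ := T₁.bd
  obtain ⟨B₂, b2⟩ := T₂.bd
  obtain ⟨Λ, sΛ, ly, bd⟩ := glue T₁.sΛ T₂.sΛ T₁.lyap T₂.lyap b1 b2 e1 e2 e0
  refine ⟨Λ, hab.trans hbc, T₁.sF.add T₂.sF, sΛ, fun x hx => ?_, ly, bd, fun Ω hΩ => ?_⟩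
  · rcases hx with hx | hx | hx
    · rw [T₁.out x (Or.inl hx), T₂.out x (Or.inl (by linarith)), add_zero]
    · rw [T₁.out x (Or.inr (Or.inl (by linarith))), T₂.out x (Or.inr (Or.inl hx)), add_zero]
    · rw [T₁.out x (Or.inr (Or.inr fun i hi => hx i ((hact i).2 (Or.inl hi)))),
        T₂.out x (Or.inr (Or.inr fun i hi => hx i ((hact i).2 (Or.inr hi)))), add_zero]
  obtain ⟨ε₁, hε₁, H₁⟩ := T₁.dyn Ω hΩ
  obtain ⟨ε₂, hε₂, H₂⟩ := T₂.dyn Ω hΩ
  refine ⟨min (min ε₁ ε₂) (1 / 2), by positivity, fun γ s t hst hγ hm i hi => ?_⟩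
  obtain ⟨r₀, h0, lo, hi', k1, k2⟩ := cut (f := fun r => (γ r).1) (b := b) hst
    (continuous_fst.comp_continuousOn hγ.1) (fun r hr g1 g2 => by
      obtain ⟨v, h1, h2⟩ := hγ.2 r hr
      rw [e0 _ g1 g2] at h2
      have df : HasFDerivAt (Prod.fst : ℝ × Y m → ℝ) (ContinuousLinearMap.fst ℝ ℝ (Y m)) (γ r) :=
        hasFDerivAt_fst
      refine ⟨v.1, df.comp_hasDerivWithinAt r h1, ?_⟩
      have h3 := (norm_fst_le (v - (1, 0))).trans (h2.trans (min_le_right _ _))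
      rw [Prod.fst_sub, Real.norm_eq_abs, abs_le] at h3
      show 0 < v.1
      linarith [h3.1])
  have c1 : Crv (XY F₁) ε₁ γ s r₀ := by
    have h := Crv_sub hγ le_rfl h0.2 ((min_le_left _ _).trans (min_le_left _ _))
    exact ⟨h.1, fun r hr => e1 _ (lo r hr) ▸ h.2 r hr⟩
  have c2 : Crv (XY F₂) ε₂ γ r₀ t := by
    have h := Crv_sub hγ h0.1 le_rfl ((min_le_left _ _).trans (min_le_right _ _))
    exact ⟨h.1, fun r hr => e2 _ (hi' r hr) ▸ h.2 r hr⟩
  obtain ⟨A₂, K₂⟩ := H₂ γ r₀ t h0.2 c2 (fun r hr => hm r ⟨h0.1.trans hr.1, hr.2⟩) i (hi.trans hR₂)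
  have a0 := A₂ r₀ ⟨le_rfl, h0.2⟩
  have n0 : ‖η i (γ r₀).2‖ ≤ Ra₁ := by
    have := norm_le_norm_sub_add (η i (γ r₀).2) (η i (γ t).2)
    linarith
  obtain ⟨A₁, K₁⟩ := H₁ γ s r₀ h0.1 c1 (fun r hr => hm r ⟨hr.1, hr.2.trans h0.2⟩) i n0
  refine ⟨fun r hr => ?_, fun g1 g2 g3 p hp => ?_⟩
  · rcases le_total r r₀ with h | h
    · have := norm_sub_le_norm_sub_add_norm_sub (η i (γ r).2) (η i (γ r₀).2) (η i (γ t).2)
      linarith [A₁ r ⟨hr.1, h⟩]
    · linarith [A₂ r ⟨h, hr.2⟩]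
  · rcases (hact i).1 g3 with g | g
    · have h1 := K₁ g1 (k1 (hbc.trans g2)) g p hp
      have := norm_sub_le_norm_sub_add_norm_sub (η i (γ r₀).2) (η i (γ t).2) p
      linarith
    · exact hκ₂.trans (K₂ (k2 (g1.trans hab)) g2 g p hp)

end Pool.Agent.MP_6d695c_gt.P

end PkJoin
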