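import Pool.Agent.MP_6d695c_gt.q.Base

/-! Slow skeleta: proofs of the steps, part E. -/

section PkCoh

/-! PROJECT P: nearby links with the same index have the same holonomy. -/

open scoped Manifold ContDiff Topology MeasureTheory
open Set Metric Filter Real

namespace Pool.Agent.MP_6d695c_gt.P

open SW T1 Theta

namespace CohAux

theorem uc {X X' : Type} [PseudoMetricSpace X] [PseudoMetricSpace X'] {f : X → X'}
    (hf : Continuous f) {C : Set X} (hC : IsCompact C) {ε : ℝ} (hε : 0 < ε) :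
    ∃ δ, 0 < δ ∧ ∀ x ∈ C, ∀ x', dist x x' ≤ δ → dist (f x) (f x') ≤ ε := by
  obtain ⟨δ, h0, h1⟩ := mem_uniformity_dist.1 (hC.uniformContinuousAt_of_continuousAt f
    (fun _ _ => hf.continuousAt) (dist_mem_uniformity hε))
  exact ⟨δ / 2, by positivity, fun x hx x' h =>
    le_of_lt (h1 (a := x) (b := x') (by linarith) hx)⟩

theorem gap {t t' H : ℝ} (hH : 0 < H) (h0 : 0 ≤ t') (e : ⌊t / H⌋₊ = ⌊t' / H⌋₊) : t - t' ≤ H := by
  have a := Nat.lt_floor_add_one (t / H)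
  have b := Nat.floor_le (div_nonneg h0 hH.le)
  rw [e] at a
  have : (t - t') / H ≤ 1 := by rw [sub_div]; linarith
  exact (div_le_one hH).1 this

end CohAux

open CohAux in
theorem coh (hNbr : NbrStmt) : CohStmt := by
  intro V E _ _ _ _ _ m M K' K'' l Pi φ Z fl I _ τ H S₀ S hcut hT
  have hf := hcut.flow
  have hρ := hT.ρpos
  have hH := hT.Hle
  obtain ⟨ε, hε, hN⟩ := hNbr V m M K' K'' l φ Z fl I τ H S₀ (min τ.ρ 1) hf hT (by positivity)
  choose d hd0 hd using fun i => uc (Ps_smooth hf (hT.box i).sg).continuous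
    (hT.reg_cpt i (-S) 0 7) hε
  have hev : ∀ᶠ δ in 𝓝[>] (0 : ℝ), ∀ i, δ ≤ d i := eventually_all.2 fun i =>
    (eventually_le_nhds (hd0 i)).filter_mono nhdsWithin_le_nhds
  obtain ⟨δ, hδ, hδ0⟩ := (hev.and self_mem_nhdsWithin).exists
  refine ⟨δ, hδ0, ?_⟩
  rintro ⟨i, y, k, j, h, f⟩ ⟨t, y1, a, ek, eh, -⟩ ⟨i', y', k', j', h', f'⟩ ⟨t', y1', a', ek', eh', -⟩
    ei ee hy
  simp only at a a' ek ek' eh eh' ei ee hy ⊢
  subst ei eh eh'
  have t0 : 0 ≤ t := by linarith [a.mt.1]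
  have t0' : 0 ≤ t' := by linarith [a'.mt.1]
  have g1 := gap (by linarith) t0' (ek.symm.trans (ee.trans ek'))
  have g2 := gap (by linarith) t0 (ek.symm.trans (ee.trans ek')).symm
  have b' := hT.bot (by norm_num) a'.my
  have xM : fl (-t) (τ.g i y') ∈ M := by
    have u := (hT.kap b').1
    have v := (hT.box i).low _ (hT.mem b')
    rw [Ps_zero hf] at u v
    exact (hcut.inv _ _ u (by linarith)).1
  have near := hd i (-t, y) ⟨⟨by linarith [a.mt.2], by linarith⟩, a.my⟩ (-t, y') (by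
    rw [Prod.dist_eq, dist_self, dist_eq_norm]
    exact max_le (hd0 i).le (hy.trans (hδ i)))
  obtain ⟨-, n1, n2⟩ := hN j (0, y1) (hT.bot (by norm_num) a.my') _ xM (by
    rw [Ps_zero hf, ← a.hit, ← dist_eq_norm, dist_comm]
    exact near)
  have s1 : |(τ.κ j (fl (-t) (τ.g i y'))).1| ≤ 1 := by
    simpa using (norm_fst_le _).trans (n1.trans (min_le_right _ _))
  have s2 : (τ.κ j (fl (-t) (τ.g i y'))).2 ∈ cthickening (10 * τ.ρ) (τ.A j) :=
    cthickening_mono (by linarith) _ (cthickening_cthickening_subset hρ.le (by positivity) _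
      (mem_cthickening_of_dist_le _ _ _ _ a.my' (by
        rw [dist_eq_norm]
        exact (norm_snd_le (τ.κ j (fl (-t) (τ.g i y')) - (0, y1))).trans
          (n1.trans (min_le_left _ _)))))
  have c1 := le_max_left (t - t') 0
  have c2 := le_max_right (t - t') 0
  have c3 : max (t - t') 0 ≤ H := max_le g1 (by linarith)
  have c4 : max (t - t') 0 ≤ H + (t - t') := max_le (by linarith) (by linarith)
  obtain ⟨e1, e2⟩ := hT.inj (i := j) (j := j')
    (q := (max (t - t') 0 + (τ.κ j (fl (-t) (τ.g i y'))).1, (τ.κ j (fl (-t) (τ.g i y'))).2))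
    (q' := (max (t - t') 0 - (t - t'), y1'))
    ⟨⟨by linarith [(abs_le.1 s1).1], by linarith [(abs_le.1 s1).2]⟩, s2⟩
    ⟨⟨by linarith, by linarith⟩, cthickening_mono (by linarith) _ a'.my'⟩ (by
      rw [← fl_Ps hf, n2, Ps, ← a'.hit, ← hf.add, ← hf.add]
      congr 1
      ring)
  exact ⟨e1, (congrArg Prod.snd e2).trans (a'.hol_eq hf hT).symm⟩

end Pool.Agent.MP_6d695c_gt.P

end PkCoh

section PkEdge

/-! PROJECT P: a long chain of links meets a core. -/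

open scoped Manifold ContDiff Topology MeasureTheory
open Set Metric Filter Real

namespace Pool.Agent.MP_6d695c_gt.P

open SW T1 Theta

namespace EdgeAux

theorem uc {X X' : Type} [PseudoMetricSpace X] [PseudoMetricSpace X'] {f : X → X'}
    (hf : Continuous f) {C : Set X} (hC : IsCompact C) {ε : ℝ} (hε : 0 < ε) :
    ∃ δ, 0 < δ ∧ ∀ x ∈ C, ∀ x', dist x x' ≤ δ → dist (f x) (f x') ≤ ε := by
  obtain ⟨δ, h0, h1⟩ := mem_uniformity_dist.1 (hC.uniformContinuousAt_of_continuousAt f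
    (fun _ _ => hf.continuousAt) (dist_mem_uniformity hε))
  exact ⟨δ / 2, by positivity, fun x hx x' h =>
    le_of_lt (h1 (a := x) (b := x') (by linarith) hx)⟩

variable {V : Type} [NormedAddCommGroup V] [NormedSpace ℝ V] {Z : V → V} {fl : ℝ → V → V}

/-- a chain of pieces of orbits with small jumps is close to one orbit -/
theorem chain (hf : IsFlow Z fl) {C : Set V} (hC : IsCompact C) (S : ℝ) (n : ℕ) :
    ∀ ε : ℝ, 0 < ε → ∃ η, 0 < η ∧ ∀ (p : ℕ → V) (t : ℕ → ℝ), ∀ a ≤ n, (∀ b ≤ a, p b ∈ C) →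
      (∀ b < a, t b ∈ Icc 0 S ∧ dist (fl (-t b) (p b)) (p (b + 1)) ≤ η) → ∀ s ∈ Icc 0 S,
      dist (fl (-s) (p a)) (fl (-(∑ b ∈ Finset.range a, t b + s)) (p 0)) ≤ ε := by
  induction n with
  | zero =>
    intro ε hε
    refine ⟨1, one_pos, fun p t a ha _ _ s _ => ?_⟩
    obtain rfl : a = 0 := by omega
    simpa using hε.le
  | succ n ih =>
    intro ε hε
    obtain ⟨η₀, h0, H0⟩ := uc hf.sm.continuous ((isCompact_Icc (a := -S) (b := 0)).prod hC) hε
    obtain ⟨η₁, h1, H1⟩ := ih (min ε (η₀ / 2)) (by positivity)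
    refine ⟨min η₁ (η₀ / 2), by positivity, fun p t a ha hp ht s hs => ?_⟩
    rcases Nat.lt_or_ge a (n + 1) with h | h
    · exact (H1 p t a (by omega) hp (fun b hb => ⟨(ht b hb).1, (ht b hb).2.trans (min_le_left _ _)⟩)
        s hs).trans (min_le_left _ _)
    · obtain rfl : a = n + 1 := by omega
      have e1 := (H1 p t n le_rfl (fun b hb => hp b (by omega)) (fun b hb => ⟨(ht b (by omega)).1,
        (ht b (by omega)).2.trans (min_le_left _ _)⟩) _ (ht n (by omega)).1).trans (min_le_right _ _)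
      have e2 := (ht n (by omega)).2.trans (min_le_right _ _)
      have e3 := dist_triangle_left (p (n + 1)) (fl (-(∑ b ∈ Finset.range n, t b + t n)) (p 0))
        (fl (-t n) (p n))
      have := H0 (-s, p (n + 1)) ⟨⟨by linarith [hs.2], by linarith [hs.1]⟩, hp _ le_rfl⟩
        (-s, fl (-(∑ b ∈ Finset.range n, t b + t n)) (p 0))
        (by rw [Prod.dist_eq, dist_self]; exact max_le h0.le (by linarith))
      simp only [← hf.add] at this
      rw [Finset.sum_range_succ]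
      convert this using 3
      ring

end EdgeAux

open EdgeAux in
theorem edge (hNbr : NbrStmt) : EdgeStmt := by
  intro V E _ _ _ _ _ m ne M K' K'' l Pi φ Z fl I _ τ H S₀ S hcut hT hKM hne hS
  have hf := hcut.flow
  have hρ := hT.ρpos
  have hH := hT.Hle
  obtain ⟨ε, hε, hN⟩ := hNbr V m M K' K'' l φ Z fl I τ H S₀ (min τ.ρ (1 / 8)) hf hT (by positivity)
  have hg : ∀ i, Continuous (τ.g i) := fun i => (hT.box i).sg.continuous
  have hC : IsCompact (⋃ i, τ.g i '' cthickening (7 * τ.ρ) (τ.A i)) :=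
    isCompact_iUnion fun i => (hT.cpt i).cthickening.image (hg i)
  obtain ⟨η, hη, hch⟩ := chain hf hC S ne ε hε
  choose d hd0 hd using fun i => uc (hg i) ((hT.cpt i).cthickening (r := 7 * τ.ρ)) hη
  have hev : ∀ᶠ δ in 𝓝[>] (0 : ℝ), ∀ i, δ ≤ d i := eventually_all.2 fun i =>
    (eventually_le_nhds (hd0 i)).filter_mono nhdsWithin_le_nhds
  obtain ⟨δ, hδ, hδ0⟩ := (hev.and self_mem_nhdsWithin).exists
  refine ⟨δ, hδ0, fun e he hc => ?_⟩
  choose! t y' ha _ hh _ using he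
  have hy : ∀ a < ne, (e a).h (e a).y = y' a := fun a h => by rw [hh a h, (ha a h).hol_eq hf hT]
  set p : ℕ → V := fun a => τ.g (e a).i (e a).y with hp
  have hK : ∀ a < ne, p a ∈ K' := fun a h => by
    have := hT.ins _ _ (hT.bot (by norm_num) (ha a h).my)
    rw [Ps_zero hf] at this
    exact hT.inK this
  have ht0 : ∀ a < ne, 0 ≤ t a := fun a h => by linarith [(ha a h).mt.1]
  obtain ⟨ts, hts, k, ys, hys, hk⟩ := hT.cover _ (hK 0 hne)
  set T : ℕ → ℝ := fun a => ∑ b ∈ Finset.range a, t b with hTd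
  have hTs : ∀ a, T (a + 1) = T a + t a := fun a => Finset.sum_range_succ _ _
  have key : ∀ a < ne, ∀ s ∈ Icc 0 (t a), |ts - (T a + s)| ≤ 1 / 4 → ∃ q : ℝ × Y m,
      |q.1 - (ts - (T a + s))| ≤ 1 / 8 ∧ q.2 ∈ cthickening τ.ρ (τ.A k) ∧
      Ps fl (τ.g k) q = fl (-s) (p a) := by
    intro a h s hs hle
    have e1 := hch p t a h.le (fun b hb => mem_iUnion.2 ⟨_, _, (ha b (by omega)).my, rfl⟩)
      (fun b hb => ⟨⟨ht0 b (by omega), (ha b (by omega)).mt.2⟩, by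
        obtain ⟨c1, c2⟩ := hc b (by omega)
        simp only [hp]
        rw [(ha b (by omega)).hit, ← c1]
        refine hd _ _ (ha b (by omega)).my' _ ?_
        rw [dist_eq_norm, ← hy b (by omega)]
        exact c2.trans (hδ _)⟩) s ⟨hs.1, hs.2.trans (ha a h).mt.2⟩
    have e2 : fl (-(T a + s)) (p 0) = Ps fl (τ.g k) (ts - (T a + s), ys) := by
      rw [Ps, ← hk, ← hf.add]
      congr 1
      ring
    rw [abs_le] at hle
    obtain ⟨-, c2, c3⟩ := hN k (ts - (T a + s), ys) ⟨⟨by linarith [hle.1], by linarith [hle.2]⟩,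
      self_subset_cthickening _ hys⟩ _ (hKM (hT.back _ (hK a h) s hs.1))
      (by rw [← e2, ← dist_eq_norm]; exact e1)
    refine ⟨_, (norm_fst_le _).trans c2 |>.trans (min_le_right _ _), ?_, c3⟩
    refine mem_cthickening_of_dist_le _ ys _ _ hys ?_
    rw [dist_eq_norm]
    exact ((norm_snd_le _).trans c2).trans (min_le_left _ _)
  have fin : ∀ a < ne, |ts - T (a + 1)| ≤ 1 / 4 →
      ∃ a < ne, (e a).h (e a).y ∈ cthickening τ.ρ (τ.A (e a).j) := by
    intro a h hle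
    rw [hTs] at hle
    obtain ⟨q, c1, c2, c3⟩ := key a h (t a) ⟨ht0 a h, le_rfl⟩ hle
    rw [abs_le] at hle c1
    simp only [hp] at c3
    rw [(ha a h).hit, ← Ps_zero hf (τ.g (e a).j)] at c3
    obtain ⟨c4, c5⟩ := hT.inj (q := q) ⟨⟨by linarith [hle.1, c1.1], by linarith [hle.2, c1.2]⟩,
      cthickening_mono (by linarith) _ c2⟩ (hT.bot (by norm_num) (ha a h).my') c3
    refine ⟨a, h, ?_⟩
    rw [hy a h, ← c4]
    rw [c5] at c2
    exact c2
  have hTn : S₀ ≤ T ne := by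
    have := Finset.card_nsmul_le_sum (Finset.range ne) t (H - 1) fun a h =>
      (ha a (Finset.mem_range.1 h)).mt.1
    rw [Finset.card_range, nsmul_eq_mul] at this
    exact hS.trans this
  by_cases hσ : T ne ≤ ts + 1 / 4
  · obtain ⟨n, rfl⟩ : ∃ n, ne = n + 1 := ⟨ne - 1, by omega⟩
    exact fin n (by omega) (abs_le.2 ⟨by linarith, by linarith [hts.2]⟩)
  · have hex : ∃ a, a ≤ ne ∧ ts + 1 / 4 < T a := ⟨ne, le_rfl, not_le.1 hσ⟩
    classical
    obtain ⟨c1, c2⟩ := Nat.find_spec hex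
    have c3 := fun a => Nat.find_min hex (m := a)
    generalize Nat.find hex = n at c1 c2 c3
    have hT0 : T 0 = 0 := Finset.sum_range_zero _
    rcases n with _ | a
    · linarith [hts.1]
    have c4 : T a ≤ ts + 1 / 4 := not_lt.1 fun h => c3 a (by omega) ⟨by omega, h⟩
    rw [hTs] at c2
    have c5 : ts + 1 / 4 - T a < 1 / 2 := by
      by_contra h
      obtain ⟨q, d1, d2, d3⟩ := key a (by omega) (ts + 1 / 4 - T a) ⟨by linarith, by linarith⟩
        (abs_le.2 ⟨by linarith, by linarith⟩)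
      rw [abs_le] at d1
      exact (ha a (by omega)).avoid _ ⟨not_lt.1 h, by linarith⟩ k q
        ⟨⟨by linarith [d1.1], by linarith [d1.2]⟩, by rwa [one_mul]⟩ d3.symm
    rcases a with _ | a
    · linarith [hts.1]
    exact fin a (by omega) (abs_le.2 ⟨by linarith, by linarith⟩)

end Pool.Agent.MP_6d695c_gt.P

end PkEdge

section PkGlob

/-! PROJECT P: the total Hamiltonian. -/

open scoped Manifold ContDiff Topology MeasureTheory
open Set Metric Filter Real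

namespace Pool.Agent.MP_6d695c_gt.P

open SW T1 Theta

namespace GlobAux

theorem fin_zero {X : Type} [NormedAddCommGroup X] [NormedSpace ℝ X] {Z : X → X} {Φ : X → ℝ}
    (hZ : Continuous Z) (hL : ∀ x, Ly univ Z Φ x) {Ω : Set X} (hΩ : IsCompact Ω) :
    {q ∈ Ω | Z q = 0}.Finite := by
  have hc : IsCompact {q ∈ Ω | Z q = 0} := hΩ.inter_right (isClosed_eq hZ continuous_const)
  have key : ∀ q ∈ {q ∈ Ω | Z q = 0}, {x | Z x = 0 → x = q} ∈ 𝓝 q := by
    intro q hq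
    rcases hL q with h | ⟨u, ⟨-, -, -, c, hc, h⟩, -⟩
    · rw [hq.2, map_zero] at h
      exact absurd h (lt_irrefl _)
    · rw [nhdsWithin_univ] at h
      filter_upwards [h] with x hx h0
      rw [h0, map_zero] at hx
      have h1 : ‖x - q‖ ^ 2 ≤ 0 := by
        by_contra h2
        have := mul_pos hc (not_le.1 h2)
        linarith
      have h3 : ‖x - q‖ = 0 := pow_eq_zero_iff (two_ne_zero) |>.1 (le_antisymm h1 (sq_nonneg _))
      exact sub_eq_zero.1 (norm_eq_zero.1 h3)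
  obtain ⟨t, ht⟩ := hc.elim_nhds_subcover' (fun q _ => {x | Z x = 0 → x = q}) key
  refine ((t.finite_toSet.image Subtype.val)).subset fun x hx => ?_
  obtain ⟨q, hq, h⟩ := mem_iUnion₂.1 (ht hx)
  exact ⟨q, hq, (h hx.2).symm⟩

end GlobAux

theorem glob (hXBox : XBoxStmt) : GlobStmt := by
  intro V E _ _ _ _ _ m M K' K'' l Pi φ Z fl I _ τ H S₀ F Λ hS hf h hF
  classical
  have := Fintype.ofFinite I
  have hρ := h.ρpos.le
  have sub3 : ∀ i, τ.reg i 1 (H - 1) 3 ⊆ τ.reg i (-1) (H + 1) 10 := fun i =>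
    TD.reg_mono hρ i (by norm_num) (by linarith) (by norm_num)
  have sP : ∀ i, ContDiff ℝ ∞ (Ps fl (τ.g i)) := fun i => Ps_smooth hf (h.box i).sg
  have cS : ∀ i, IsCompact (Ps fl (τ.g i) '' τ.reg i 1 (H - 1) 3) := fun i =>
    (h.reg_cpt i _ _ _).image (sP i).continuous
  have sN : ∀ i, Ps fl (τ.g i) '' τ.reg i 1 (H - 1) 3 ⊆ τ.N i := by
    rintro i _ ⟨q, hq, rfl⟩
    exact (h.kap (sub3 i hq)).2.1
  choose χ sχ _ tχ oχ _ using fun i => exists_cut (cS i) (h.box i).par.oN (sN i)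
  have ta : ∀ i, ∀ x ∈ M, x ∈ τ.N i → χ i x * F i (τ.κ i x) = F i (τ.κ i x) := by
    intro i x hx hN
    by_cases hq : τ.κ i x ∈ τ.reg i 1 (H - 1) 3
    · rw [(oχ i x ⟨_, hq, ((h.box i).par.rm x hx hN).2⟩).self_of_nhds, one_mul]
    · rw [(hF i).2.2.2 _ hq, mul_zero]
  have tb : ∀ i, ∀ x ∈ M, x ∉ Ps fl (τ.g i) '' τ.reg i 1 (H - 1) 3 →
      χ i x * F i (τ.κ i x) = 0 := by
    intro i x hx hn
    by_cases hN : x ∈ τ.N i
    · rw [(hF i).2.2.2 _ fun hq => hn ⟨_, hq, ((h.box i).par.rm x hx hN).2⟩, mul_zero]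
    · rw [image_eq_zero_of_notMem_tsupport fun c => hN (tχ i c), zero_mul]
  set G : V → ℝ := fun x => ∑ i, χ i x * F i (τ.κ i x) with hG
  have sG : ContDiff ℝ ∞ G :=
    ContDiff.sum fun i _ => (sχ i).mul ((hF i).1.comp (h.box i).sκ)
  have ev : ∀ i, ∀ q ∈ τ.reg i (-1) (H + 1) 10,
      ∀ᶠ x in 𝓝[M] (Ps fl (τ.g i) q), G x = F i (τ.κ i x) := by
    intro i q hq
    have e1 : ∀ᶠ x in 𝓝 (Ps fl (τ.g i) q), ∀ j, j ≠ i →
        x ∉ Ps fl (τ.g j) '' τ.reg j 1 (H - 1) 3 := by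
      refine eventually_all.2 fun j => ?_
      by_cases hj : j = i
      · exact .of_forall fun _ c => absurd hj c
      · have : Ps fl (τ.g i) q ∈ (Ps fl (τ.g j) '' τ.reg j 1 (H - 1) 3)ᶜ := by
          rintro ⟨q', hq', e⟩
          exact h.disj j i hj q' (sub3 j hq') q hq e
        filter_upwards [(cS j).isClosed.isOpen_compl.mem_nhds this] with x hx _ using hx
    filter_upwards [self_mem_nhdsWithin, mem_nhdsWithin_of_mem_nhds e1,
      mem_nhdsWithin_of_mem_nhds ((h.box i).par.oN.mem_nhds (h.kap hq).2.1)] with x hx a1 a2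
    rw [← ta i x hx a2]
    exact Finset.sum_eq_single i (fun j _ hj => tb j x hx (a1 j hj)) fun c =>
      absurd (Finset.mem_univ i) c
  have ev2 : ∀ i, ∀ q ∈ τ.reg i (-1) (H + 1) 10, ∀ᶠ x in 𝓝[M] (Ps fl (τ.g i) q),
      x ∈ M ∧ x ∈ τ.N i ∧
        fderiv ℝ (τ.κ i) x (Pi x (l x + fderiv ℝ G x)) = XY (F i) (τ.κ i x) := by
    intro i q hq
    filter_upwards [self_mem_nhdsWithin, eventually_eventually_nhdsWithin.2 (ev i q hq),
      mem_nhdsWithin_of_mem_nhds ((h.box i).par.oN.mem_nhds (h.kap hq).2.1)] with x hx a1 a2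
    exact ⟨hx, a2, (hXBox V E m M l Pi φ fl _ _ _ _ _ _ hS (h.box i) x hx a2).2 (F i) G (hF i).1
      sG a1⟩
  refine ⟨G, sG, fun x hx hn => ?_, fun i q hq => ?_,
    ⋃ i, Ps fl (τ.g i) '' {q ∈ τ.reg i 0 (H + 1 / 2) 5 | XY (F i) q = 0}, ?_, ?_,
    fun i q hq h0 => mem_iUnion.2 ⟨i, q, ⟨hq, h0⟩, rfl⟩⟩
  · have cl : IsClosed (Supp fl τ H) := isClosed_iUnion_of_finite fun i => (cS i).isClosed
    filter_upwards [self_mem_nhdsWithin,
      mem_nhdsWithin_of_mem_nhds (cl.isOpen_compl.mem_nhds hn)] with y hy a1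
    exact Finset.sum_eq_zero fun j _ => tb j y hy fun c => a1 (mem_iUnion.2 ⟨j, c⟩)
  · have hq' : q ∈ τ.reg i (-1) (H + 1) 10 := TD.reg_mono hρ i le_rfl le_rfl (by norm_num) hq
    have := ((ev2 i q hq').self_of_nhdsWithin (h.kap hq').1).2.2
    rwa [(h.kap hq').2.2] at this
  · exact finite_iUnion fun i => (GlobAux.fin_zero ((T1.model m).2.2 _ (hF i).1).continuous
      (hF i).2.2.1 (h.reg_cpt i _ _ _)).image _
  · intro p hp
    obtain ⟨i, q, ⟨hq, h0⟩, rfl⟩ := mem_iUnion.1 hp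
    have hq' : q ∈ τ.reg i (-1) (H + 1) 10 :=
      TD.reg_mono hρ i (by norm_num) (by linarith) (by norm_num) hq
    obtain ⟨k1, k2, k3⟩ := h.kap hq'
    refine ⟨k1, ?_⟩
    have hL := T1.rel V (ℝ × Y m) M (τ.N i) univ (τ.κ i) (Ps fl (τ.g i))
      (fun x => Pi x (l x + fderiv ℝ G x)) (XY (F i)) (fun x => Λ i (τ.κ i x)) (Λ i)
      (Ps fl (τ.g i) q) 0 (h.box i).par.oN k2 k1 (h.box i).sκ.contDiffOn
      ((sP i).differentiable (by simp) _) ((hF i).2.1.comp (h.box i).sκ) (hF i).2.1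
      ((ev2 i q hq').mono fun x hx => ⟨mem_univ _, ((h.box i).par.rm x hx.1 hx.2.1).2,
        hS.tan x hx.1 _, hx.2.2, (add_zero _).symm⟩) ((hF i).2.2.1 _)
    have hz := (h.box i).par.ret k1 k2 (hS.tan _ k1
      (l (Ps fl (τ.g i) q) + fderiv ℝ G (Ps fl (τ.g i) q)))
    rw [((ev2 i q hq').self_of_nhdsWithin k1).2.2, k3, h0, map_zero] at hz
    rcases hL with a | ⟨u, a, -⟩
    · simp only [← hz, map_zero] at a
      exact absurd a (lt_irrefl _)
    · exact ⟨u, a⟩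

end Pool.Agent.MP_6d695c_gt.P

end PkGlob

section PkShad

/-! PROJECT P, row Shad: short pseudo-orbits stay near true orbits. -/

open scoped Manifold ContDiff Topology MeasureTheory
open Set Metric Filter Real

namespace Pool.Agent.MP_6d695c_gt.P

open SW T1 Theta

namespace ShadAux

variable {V : Type} [NormedAddCommGroup V] [NormedSpace ℝ V] {Z : V → V} {fl : ℝ → V → V}

theorem kill (hf : IsFlow Z fl) (r : ℝ) (x : V) :
    fderiv ℝ (fun q : ℝ × V => fl q.1 q.2) (r, x) (-1, Z x) = 0 := by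
  have hd : DifferentiableAt ℝ (fun q : ℝ × V => fl q.1 q.2) (r - 0, fl 0 x) :=
    hf.sm.differentiable (by simp) _
  have h1 : HasDerivAt (fun σ : ℝ => ((r - σ, fl σ x) : ℝ × V)) (-1, Z (fl 0 x)) 0 :=
    ((hasDerivAt_id (0 : ℝ)).const_sub r).prodMk (hf.der x 0)
  have h2 := hd.hasFDerivAt.comp_hasDerivAt (0 : ℝ) h1
  have h3 : ((fun q : ℝ × V => fl q.1 q.2) ∘ fun σ : ℝ => ((r - σ, fl σ x) : ℝ × V)) =
      fun _ => fl r x := by
    funext σ
    simp only [Function.comp]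
    rw [← hf.add, sub_add_cancel]
  rw [h3] at h2
  have h4 := h2.unique (hasDerivAt_const (0 : ℝ) (fl r x))
  simpa [hf.zero] using h4

theorem near (hf : IsFlow Z fl) {c : ℝ → V} {t τ ε C : ℝ} (h : Near c τ (Z (c τ)) ε)
    (hC : ‖fderiv ℝ (fun q : ℝ × V => fl q.1 q.2) (t - τ, c τ)‖ ≤ C) :
    Near (fun σ => fl (t - σ) (c σ)) τ 0 (C * ε) := by
  obtain ⟨v, h1, h2⟩ := h
  have hd : DifferentiableAt ℝ (fun q : ℝ × V => fl q.1 q.2) (t - τ, c τ) :=
    hf.sm.differentiable (by simp) _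
  have h3 : HasDerivWithinAt (fun σ : ℝ => ((t - σ, c σ) : ℝ × V)) (-1, v) (Ici τ) τ :=
    ((hasDerivAt_id τ).const_sub t).hasDerivWithinAt.prodMk h1
  have h6 := HasFDerivAt.comp_hasDerivWithinAt (l := fun q : ℝ × V => fl q.1 q.2)
    (f := fun σ : ℝ => ((t - σ, c σ) : ℝ × V)) τ hd.hasFDerivAt h3
  refine ⟨_, h6, ?_⟩
  have h4 : ((-1, v) : ℝ × V) = (-1, Z (c τ)) + (0, v - Z (c τ)) := by simp
  rw [sub_zero, h4, map_add, kill hf, zero_add]
  refine (ContinuousLinearMap.le_opNorm _ _).trans ?_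
  have h5 : ‖((0, v - Z (c τ)) : ℝ × V)‖ ≤ ε := by
    simpa [Prod.norm_def] using h2
  exact mul_le_mul hC h5 (norm_nonneg _) ((norm_nonneg _).trans hC)

end ShadAux

theorem shad : ShadStmt := by
  intro V _ _ _ Z fl D L δ hf hD hδ
  have hc : Continuous (fderiv ℝ fun q : ℝ × V => fl q.1 q.2) := hf.sm.continuous_fderiv (by simp)
  obtain ⟨C, hC⟩ := ((isCompact_Icc (a := -L) (b := L)).prod hD).exists_bound_of_continuousOn
    hc.continuousOn
  have hp : 0 < (|C| + 1) * (|L| + 1) := by positivity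
  refine ⟨δ / ((|C| + 1) * (|L| + 1)), div_pos hδ hp, fun c a b hab hcc hn hm s hs t ht => ?_⟩
  set ε := δ / ((|C| + 1) * (|L| + 1)) with hε
  have hε0 : 0 < ε := div_pos hδ hp
  have key : ∀ x ∈ Icc a b, ∀ y ∈ Icc a b, x ≤ y →
      ‖fl (t - y) (c y) - fl (t - x) (c x)‖ ≤ δ := by
    intro x hx y hy hxy
    have h1 : ContinuousOn (fun σ => fl (t - σ) (c σ)) (Icc x y) :=
      hf.sm.continuous.comp_continuousOn (f := fun σ : ℝ => ((t - σ, c σ) : ℝ × V))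
        ((continuousOn_const.sub continuousOn_id).prodMk (hcc.mono (Icc_subset_Icc hx.1 hy.2)))
    have h2 := drift (m := (|C| + 1) * ε) hxy h1 fun τ hτ => by
      have hτ' : τ ∈ Ioo a b := ⟨hx.1.trans_lt hτ.1, hτ.2.trans_le hy.2⟩
      refine ShadAux.near hf (hn τ hτ') ((hC _ ⟨⟨?_, ?_⟩, hm τ (Ioo_subset_Icc_self hτ')⟩).trans ?_)
      · linarith [ht.1, hτ'.2]
      · linarith [ht.2, hτ'.1]
      · linarith [le_abs_self C]
    refine h2.trans ?_
    have h3 : y - x ≤ |L| + 1 := by linarith [hx.1, hy.2, le_abs_self L]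
    calc (|C| + 1) * ε * (y - x) ≤ (|C| + 1) * ε * (|L| + 1) := by gcongr
      _ = δ := by rw [hε]; field_simp
  rcases le_total s t with h | h
  · simpa [hf.zero] using key s hs t ht h
  · have := key t ht s hs h
    rw [norm_sub_rev] at this
    simpa [hf.zero] using this

end Pool.Agent.MP_6d695c_gt.P

end PkShad

section PkConf

/-! PROJECT P, row Conf: periodic pseudo-orbits stay near the skeleton. -/

open scoped Manifold ContDiff Topology MeasureTheory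
open Set Metric Filter Real

namespace Pool.Agent.MP_6d695c_gt.P

open SW T1 Theta

theorem conf : ConfStmt := by
  intro V _ _ M U φ L Z X fl hA hK hX
  have hc : Continuous fun x => ‖fderiv ℝ L x‖ :=
    (hA.sm.continuous_fderiv (by simp)).norm
  obtain ⟨B, hB⟩ := hK.bddAbove_image hc.continuousOn
  have hB' : ∀ x ∈ {x ∈ M | φ x ≤ 2}, ‖fderiv ℝ L x‖ ≤ max B 1 := fun x hx =>
    (hB ⟨x, hx, rfl⟩).trans (le_max_left _ _)
  have h1 : (0 : ℝ) < max B 1 := lt_of_lt_of_le one_pos (le_max_right _ _)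
  refine ⟨1 / (2 * max B 1), by positivity, fun c hcy t => ?_⟩
  obtain ⟨τ, hτ, hp⟩ := hcy.per
  have hm := hcy.mem t
  refine ⟨hm.1, hm.2, ?_⟩
  refine band_le (f := fun s => L (c s)) (τ := τ) (α := 0) (hA.sm.continuous.comp hcy.cont) hτ
    (fun s => by simp only [hp s]) (fun s hs => ?_) t
  have hs' := hcy.mem s
  have hd : DifferentiableAt ℝ L (c s) := hA.sm.differentiable (by simp) _
  refine ((hcy.near s).comp hd).rd.mono fun a ha => ?_
  have e1 : X (c s) = Z (c s) := hX _ hs'.1 hs'.2 (by linarith)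
  have e2 := hA.up _ hs'.1 hs'.2 (by linarith)
  have e3 : ‖fderiv ℝ L (c s)‖ * (1 / (2 * max B 1)) ≤ 1 / 2 := by
    calc ‖fderiv ℝ L (c s)‖ * (1 / (2 * max B 1)) ≤ max B 1 * (1 / (2 * max B 1)) := by
          gcongr
          exact hB' _ hs'
      _ = 1 / 2 := by field_simp
  rw [e1] at ha
  linarith [ha.1]

end Pool.Agent.MP_6d695c_gt.P

end PkConf

section PkLast

/-! PROJECT P, row Last: the last visit to a support or to a top slab. -/

open scoped Manifold ContDiff Topology MeasureTheory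
open Set Metric Filter Real

namespace Pool.Agent.MP_6d695c_gt.P

open SW T1 Theta

theorem last (hShad : ShadStmt) (hNbr : NbrStmt) : LastStmt := by
  intro V _ _ _ m M K' K'' l φ Z X fl I _ τ H S₀ hf hT hK hKM hXZ
  have hρ := hT.ρpos
  have hH := hT.Hle
  obtain ⟨δ, hδ, hN⟩ := hNbr V m M K' K'' l φ Z fl I τ H S₀ (min τ.ρ (1 / 2)) hf hT
    (lt_min hρ (by norm_num))
  obtain ⟨ε, hε, hS⟩ := hShad V Z fl K' (S₀ + 1) δ hf hK hδ
  have hcl : ∀ a b k : ℝ, IsClosed (⋃ i, Ps fl (τ.g i) '' τ.reg i a b k) := fun a b k =>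
    (isCompact_iUnion fun i =>
      (hT.reg_cpt i a b k).image (Ps_smooth hf (hT.box i).sg).continuous).isClosed
  refine ⟨ε, hε, fun c hc t₀ => ?_⟩
  have hC : IsClosed (c ⁻¹' (Top fl τ H ∪ Supp fl τ H)) :=
    ((hcl _ _ _).union (hcl _ _ _)).preimage hc.cont
  have key : ∃ a ∈ Icc (t₀ - (S₀ + 1)) t₀, c a ∈ Supp fl τ H := by
    by_contra hno
    push Not at hno
    have sh := hS c (t₀ - (S₀ + 1)) t₀ (by linarith) hc.cont.continuousOn
      (fun t ht => by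
        have := hc.near t
        rwa [hXZ _ (hc.mem t) (hno t (Ioo_subset_Icc_self ht))] at this)
      (fun t _ => hc.mem t)
    obtain ⟨s, hs, i, y, hy, e⟩ := hT.cover _ (hc.mem t₀)
    have h0 : t₀ ∈ Icc (t₀ - (S₀ + 1)) t₀ := ⟨by linarith [hs.1, hs.2], le_rfl⟩
    have e' : ∀ r, fl (r - s) (c t₀) = Ps fl (τ.g i) (r, y) := fun r => by
      rw [sub_eq_add_neg, hf.add, e]
      rfl
    rcases le_total s 2 with h2 | h2
    · refine hno t₀ h0 (mem_iUnion.2 ⟨i, (s, y), ⟨⟨hs.1, by linarith⟩,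
        self_subset_cthickening _ hy⟩, ?_⟩)
      rw [← e' s, sub_self, hf.zero]
    · have h1 : t₀ - (s - 2) ∈ Icc (t₀ - (S₀ + 1)) t₀ := ⟨by linarith [hs.2], by linarith⟩
      have d := sh t₀ h0 _ h1
      rw [show t₀ - (s - 2) - t₀ = 2 - s by ring, e' 2] at d
      obtain ⟨-, n1, n2⟩ := hN i (2, y) ⟨⟨by norm_num, by linarith⟩,
        self_subset_cthickening _ hy⟩ _ (hKM (hc.mem _)) d
      have a1 : |(τ.κ i (c (t₀ - (s - 2)))).1 - 2| ≤ 1 / 2 :=
        ((norm_fst_le _).trans n1).trans (min_le_right _ _)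
      have a2 : ‖(τ.κ i (c (t₀ - (s - 2)))).2 - y‖ ≤ τ.ρ :=
        ((norm_snd_le _).trans n1).trans (min_le_left _ _)
      rw [abs_le] at a1
      refine hno _ h1 (mem_iUnion.2 ⟨i, _, ⟨⟨by linarith [a1.1], by linarith [a1.2]⟩, ?_⟩, n2⟩)
      exact mem_cthickening_of_dist_le _ y _ _ hy (by rw [dist_eq_norm]; linarith)
  obtain ⟨a, ha, hm⟩ := key
  obtain ⟨s, hs, h1, h2⟩ := last_time hC (a := a) (b := t₀) (Or.inr hm) ha.2
  exact ⟨s, ⟨ha.1.trans hs.1, hs.2⟩, h1, h2⟩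

end Pool.Agent.MP_6d695c_gt.P

end PkLast

section PkPrev

/-! PROJECT P, row Prev: the link to the previous tower. -/

open scoped Manifold ContDiff Topology MeasureTheory
open Set Metric Filter Real

namespace Pool.Agent.MP_6d695c_gt.P

open SW T1 Theta

namespace PrevAux

variable {m : ℕ}

theorem thick {A : Set (Y m)} {ρ k k' d : ℝ} {q q' : ℝ × Y m} (hρ : 0 < ρ) (hk : 0 ≤ k)
    (hq : q.2 ∈ cthickening (k * ρ) A) (hd : ‖q' - q‖ ≤ d) (hdρ : d ≤ ρ) (hk' : k + 1 ≤ k') :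
    q'.2 ∈ cthickening (k' * ρ) A := by
  have h1 : dist q'.2 q.2 ≤ ρ := by
    rw [dist_eq_norm]
    exact ((norm_snd_le (q' - q)).trans hd).trans hdρ
  have h2 := cthickening_cthickening_subset hρ.le (mul_nonneg hk hρ.le) A
    (mem_cthickening_of_dist_le _ _ _ _ hq h1)
  exact cthickening_mono (by nlinarith) _ h2

theorem height {d : ℝ} {q q' : ℝ × Y m} (hd : ‖q' - q‖ ≤ d) :
    q.1 - d ≤ q'.1 ∧ q'.1 ≤ q.1 + d := by
  have h : |q'.1 - q.1| ≤ d := (norm_fst_le (q' - q)).trans hd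
  constructor <;> linarith [(abs_le.1 h).1, (abs_le.1 h).2]

end PrevAux

open PrevAux in
theorem prev (hLast : LastStmt) (hShad : ShadStmt) (hNbr : NbrStmt) : PrevStmt := by
  intro V _ _ _ m M K' K'' l φ Z X fl I _ τ H S₀ δ hf hT hK hKM hX hδ
  have hρ := hT.ρpos
  have hH := hT.Hle
  obtain ⟨d, d0, dδ, dρ, d4⟩ : ∃ d : ℝ, 0 < d ∧ d ≤ δ ∧ d ≤ τ.ρ ∧ d ≤ 1 / 4 :=
    ⟨min δ (min τ.ρ (1 / 4)), by positivity, min_le_left _ _,
      (min_le_right _ _).trans (min_le_left _ _), (min_le_right _ _).trans (min_le_right _ _)⟩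
  obtain ⟨δ₂, hδ₂, hN⟩ := hNbr V m M K' K'' l φ Z fl I τ H S₀ d hf hT d0
  obtain ⟨ε₁, hε₁, hS⟩ := hShad V Z fl K' (S₀ + 1) δ₂ hf hK hδ₂
  obtain ⟨ε₂, hε₂, hL⟩ := hLast V m M K' K'' l φ Z X fl I τ H S₀ hf hT hK hKM hX
  refine ⟨min ε₁ ε₂, lt_min hε₁ hε₂, fun c hc t₀ i y hy hcy => ?_⟩
  obtain ⟨t', ht', hin, hout⟩ := hL c
    ⟨hc.cont, hc.per, hc.mem, fun t => (hc.near t).mono (min_le_right _ _)⟩ t₀
  have sh := hS c t' t₀ (by linarith [ht'.1]) hc.cont.continuousOn (fun t ht => by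
    rw [← hX _ (hc.mem t) fun h => hout t ⟨ht.1, ht.2.le⟩ (Or.inr h)]
    exact (hc.near t).mono (min_le_left _ _)) fun t _ => hc.mem t
  have th : ∀ {j k}, k ≤ 10 → cthickening (k * τ.ρ) (τ.A j) ⊆ cthickening (10 * τ.ρ) (τ.A j) :=
    fun hk => cthickening_mono (by gcongr) _
  have l0 : t' ∈ Icc t' t₀ := left_mem_Icc.2 ht'.2
  have r0 : t₀ ∈ Icc t' t₀ := right_mem_Icc.2 ht'.2
  -- the curve follows the flow lines of the towers
  have nr : ∀ s ∈ Icc t' t₀, ∀ t ∈ Icc t' t₀, ∀ j, ∀ q ∈ τ.reg j (-1) (H + 1) 10,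
      fl (t - s) (c s) = Ps fl (τ.g j) q → ∃ q', ‖q' - q‖ ≤ d ∧ Ps fl (τ.g j) q' = c t :=
    fun s hs t ht j q hq e => ⟨_, (hN j q hq (c t) (hKM (hc.mem t)) (e ▸ sh s hs t ht)).2⟩
  -- the end point has height zero
  have bot : ∀ j, ∀ q ∈ τ.reg j (-1) (H + 1) 10, Ps fl (τ.g j) q = c t₀ → q.1 = 0 :=
    fun j q hq e => by
      rw [hcy, ← Ps_zero hf (τ.g i) y] at e
      rw [(hT.inj hq (hT.bot (by norm_num) hy) e).2]
  rcases hin with hin | hin
  swap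
  · exfalso
    obtain ⟨j, q, hq, e⟩ := mem_iUnion.1 hin
    have q1 := hq.1.1
    have q2 := hq.1.2
    by_cases h : t' + (H + 1 / 4 - q.1) ≤ t₀
    · obtain ⟨q', h1, h2⟩ := nr t' l0 (t' + (H + 1 / 4 - q.1)) ⟨by linarith, h⟩ j (H + 1 / 4, q.2)
        ⟨⟨by linarith, by linarith⟩, th (by norm_num) hq.2⟩ (by
          rw [← e, fl_Ps hf]
          congr 2
          ring)
      have h3 := height h1
      refine hout _ ⟨by linarith, h⟩ (Or.inl (mem_iUnion.2 ⟨j, q', ⟨⟨?_, ?_⟩, ?_⟩, h2⟩))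
      · linarith [h3.1]
      · linarith [h3.2]
      · exact thick (q := (H + 1 / 4, q.2)) hρ (by norm_num) hq.2 h1 dρ (by norm_num)
    · have h' := ht'.2
      obtain ⟨q', h1, h2⟩ := nr t' l0 t₀ r0 j (t₀ - t' + q.1, q.2)
        ⟨⟨by linarith, by linarith⟩, th (by norm_num) hq.2⟩ (by rw [← e, fl_Ps hf])
      have h3 := height h1
      have h4 := bot j q' ⟨⟨by linarith [h3.1], by linarith [h3.2]⟩,
        thick (q := (t₀ - t' + q.1, q.2)) hρ (by norm_num) hq.2 h1 dρ (by norm_num)⟩ h2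
      linarith [h3.1]
  obtain ⟨j, q, hq, e⟩ := mem_iUnion.1 hin
  have q1 := hq.1.1
  have q2 := hq.1.2
  have t1 := ht'.1
  have t2 := ht'.2
  obtain ⟨q', h1, h2⟩ : ∃ q', ‖q' - q‖ ≤ d ∧ Ps fl (τ.g j) q' = fl (-(t₀ - t')) (τ.g i y) :=
    ⟨_, (hN j q ⟨⟨by linarith, by linarith⟩, th (by norm_num) hq.2⟩ _
      (hKM (hT.back _ (hcy ▸ hc.mem t₀) _ (by linarith))) (by
        rw [norm_sub_rev, e, ← hcy, neg_sub]
        exact sh t₀ r0 t' l0)).2⟩
  have h3 := height h1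
  have h5 := thick hρ (by norm_num) hq.2 h1 dρ (k' := 7) (by norm_num)
  have up : ∀ s, fl (-s) (τ.g i y) = Ps fl (τ.g j) (t₀ - t' + q'.1 - s, q'.2) := fun s => by
    have : t₀ - t' + q'.1 - s = (t₀ - t' - s) + q'.1 := by ring
    rw [this, ← fl_Ps hf, h2, ← hf.add]
    congr 1
    ring
  refine ⟨t', t2, j, q, hq, e.symm, t₀ - t' + q'.1, q'.2,
    ⟨cthickening_mono (by gcongr; norm_num) _ hy, h5, ⟨by linarith [h3.1], by linarith [h3.2]⟩,
      by rw [up, sub_self, Ps_zero hf], fun s hs k p hp ep => ?_⟩,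
    ((norm_snd_le (q' - q)).trans h1).trans dδ⟩
  have p1 := hp.1.1
  have p2 := hp.1.2
  have s1 := hs.1
  have s2 := hs.2
  have hp' : p ∈ τ.reg k (-1) (H + 1) 10 := ⟨⟨by linarith, by linarith⟩, th (by norm_num) hp.2⟩
  by_cases h : t₀ - t' ≤ s
  · rw [up] at ep
    have h6 := congrArg Prod.fst (hT.inj (q := (t₀ - t' + q'.1 - s, q'.2))
      ⟨⟨by linarith, by linarith [h3.2]⟩, th (by norm_num) h5⟩ hp' ep).2
    linarith [show t₀ - t' + q'.1 - s = p.1 from h6]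
  have dn : ∀ r, fl (r - s) (c t₀) = Ps fl (τ.g k) (r + p.1, p.2) := fun r => by
    rw [← fl_Ps hf, ← ep, ← hf.add, hcy, sub_eq_add_neg]
  by_cases h' : 2 - p.1 ≤ s
  · obtain ⟨r, r1, r2⟩ := nr t₀ r0 (t₀ + (2 - p.1 - s)) ⟨by linarith, by linarith⟩ k
      (2 - p.1 + p.1, p.2) ⟨⟨by linarith, by linarith⟩, hp'.2⟩ (by
        rw [add_sub_cancel_left, dn])
    have r3 := height r1
    refine hout (t₀ + (2 - p.1 - s)) ⟨by linarith, by linarith⟩
      (Or.inr (mem_iUnion.2 ⟨k, r, ⟨⟨?_, ?_⟩, ?_⟩, r2⟩))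
    · linarith [r3.1]
    · linarith [r3.2]
    · exact thick (q := (2 - p.1 + p.1, p.2)) hρ (by norm_num) hp.2 r1 dρ (by norm_num)
  · have h6 := bot k (s + p.1, p.2) ⟨⟨by linarith, by linarith⟩, hp'.2⟩ (by
      rw [← dn, sub_self, hf.zero])
    linarith [show s + p.1 = 0 from h6]

end Pool.Agent.MP_6d695c_gt.P

end PkPrev

section PkBack

/-! PROJECT P: the passage through a tower. -/

open scoped Manifold ContDiff Topology MeasureTheory
open Set Metric Filter Real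

namespace Pool.Agent.MP_6d695c_gt.P

open SW T1 Theta

namespace BackAux

/-- continuation to the left -/
theorem cont_left {G : Set ℝ} (hG : IsClosed G) {b : ℝ} (hb : b ∈ G)
    (ext : ∀ s ≤ b, (∀ r ∈ Icc s b, r ∈ G) → ∃ δ, 0 < δ ∧ ∀ r ∈ Icc (s - δ) s, r ∈ G) :
    ∀ r ≤ b, r ∈ G := by
  intro r₀ hr₀
  by_contra hn
  obtain ⟨s, hs, hsT, hno⟩ := last_time (T := closure (Gᶜ ∩ Iic b)) isClosed_closure
    (subset_closure (show r₀ ∈ Gᶜ ∩ Iic b from ⟨hn, hr₀⟩)) hr₀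
  have h1 : ∀ r ∈ Ioc s b, r ∈ G := fun r hr => by
    by_contra h
    exact hno r hr (subset_closure ⟨h, hr.2⟩)
  have h2 : ∀ r ∈ Icc s b, r ∈ G := by
    rcases hs.2.eq_or_lt with e | hlt
    · intro r hr
      have : r = b := le_antisymm hr.2 (e ▸ hr.1)
      exact this ▸ hb
    · intro r hr
      rw [← closure_Ioc hlt.ne] at hr
      exact hG.closure_subset_iff.2 h1 hr
  obtain ⟨δ, hδ, h3⟩ := ext s hs.2 h2
  obtain ⟨r, hr1, hr2, hr3⟩ := mem_closure_iff.1 hsT (Ioi (s - δ)) isOpen_Ioi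
    (show s - δ < s by linarith)
  rcases le_total r s with h | h
  · exact hr2 (h3 r ⟨le_of_lt hr1, h⟩)
  · exact hr2 (h2 r ⟨h, hr3⟩)

end BackAux

theorem back (_hNbr : NbrStmt) : BackStmt := by
  intro V _ _ _ m M K' K'' l φ Z X fl I _ τ H S₀ ε₀ j F hfl hT hK hKM hε₀ hX hF hlat
  have hρ := hT.ρpos
  have hH := hT.Hle
  have sκ : ContDiff ℝ ∞ (τ.κ j) := (hT.box j).sκ
  have cκ : Continuous (τ.κ j) := sκ.continuous
  have cP : Continuous (Ps fl (τ.g j)) := (Ps_smooth hfl (hT.box j).sg).continuous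
  obtain ⟨C, hC⟩ := hK.exists_bound_of_continuousOn
    (f := fun x => fderiv ℝ (τ.κ j) x) (sκ.continuous_fderiv (by simp)).continuousOn
  have hC1 : 0 < max C 1 := lt_max_of_lt_right one_pos
  have he : 0 < min ε₀ (1 / 2) := lt_min hε₀ (by norm_num)
  refine ⟨min ε₀ (1 / 2) / max C 1, div_pos he hC1, fun c hc t' q hq hct => ?_⟩
  have cγ : Continuous fun r => τ.κ j (c r) := cκ.comp hc.cont
  have near : ∀ r, τ.κ j (c r) ∈ τ.reg j (-1) (H + 1) 9 → Ps fl (τ.g j) (τ.κ j (c r)) = c r →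
      Near (fun r => τ.κ j (c r)) r (XY F (τ.κ j (c r))) (min ε₀ (1 / 2)) := by
    intro r h1 h2
    have h3 := (hc.near r).comp (u := τ.κ j) (sκ.differentiable (by simp) _)
    have h4 := hX _ h1
    rw [h2] at h4
    rw [h4] at h3
    refine h3.mono ?_
    calc ‖fderiv ℝ (τ.κ j) (c r)‖ * (min ε₀ (1 / 2) / max C 1)
        ≤ max C 1 * (min ε₀ (1 / 2) / max C 1) :=
          mul_le_mul_of_nonneg_right ((hC _ (hc.mem r)).trans (le_max_left _ _))
            (div_pos he hC1).le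
      _ = min ε₀ (1 / 2) := by field_simp
  have sub9 : τ.reg j 0 (H + 1 / 2) 5 ⊆ τ.reg j (-1) (H + 1) 9 :=
    TD.reg_mono hρ.le j (by norm_num) (by linarith) (by norm_num)
  have sub10 : τ.reg j 0 (H + 1 / 2) 5 ⊆ τ.reg j (-1) (H + 1) 10 :=
    TD.reg_mono hρ.le j (by norm_num) (by linarith) (by norm_num)
  have sub5 : τ.reg j 1 (H + 1 / 2) 4 ⊆ τ.reg j 0 (H + 1 / 2) 5 :=
    TD.reg_mono hρ.le j (by norm_num) le_rfl (by norm_num)
  have hq' : τ.κ j (c t') = q := by rw [hct, (hT.kap (sub10 (sub5 hq))).2.2]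
  obtain ⟨G, hGdef⟩ : ∃ G : Set ℝ, ∀ r, r ∈ G ↔ τ.κ j (c r) ∈ τ.reg j 0 (H + 1 / 2) 5 ∧
      Ps fl (τ.g j) (τ.κ j (c r)) = c r := ⟨{r | _}, fun _ => Iff.rfl⟩
  have hG : IsClosed G := by
    have : G = (fun r => τ.κ j (c r)) ⁻¹' τ.reg j 0 (H + 1 / 2) 5 ∩
        {r | Ps fl (τ.g j) (τ.κ j (c r)) = c r} := Set.ext hGdef
    rw [this]
    exact ((hT.reg_cpt j _ _ _).isClosed.preimage cγ).inter
      (isClosed_eq (cP.comp cγ) hc.cont)
  have ht' : t' ∈ G := (hGdef t').2 ⟨hq' ▸ sub5 hq, by rw [hq', hct]⟩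
  have crv : ∀ s, (∀ r ∈ Icc s t', r ∈ G) → Crv (XY F) ε₀ (fun r => τ.κ j (c r)) s t' :=
    fun s h => ⟨cγ.continuousOn, fun r hr =>
      (near r (sub9 ((hGdef r).1 (h r ⟨hr.1, hr.2.le⟩)).1)
        ((hGdef r).1 (h r ⟨hr.1, hr.2.le⟩)).2).mono (min_le_left _ _)⟩
  by_cases hA : ∃ s ≤ t', (τ.κ j (c s)).1 = 0 ∧ ∀ r ∈ Icc s t', r ∈ G
  · obtain ⟨s, hs, h0, hall⟩ := hA
    exact Or.inl ⟨s, hs, h0, crv s hall, fun r hr => (hGdef r).1 (hall r hr)⟩
  have hpos : ∀ s ≤ t', (∀ r ∈ Icc s t', r ∈ G) → 0 < (τ.κ j (c s)).1 := fun s hs h =>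
    lt_of_le_of_ne ((hGdef s).1 (h s ⟨le_rfl, hs⟩)).1.1.1 fun e => hA ⟨s, hs, e.symm, h⟩
  have hall : ∀ r ≤ t', r ∈ G := by
    refine BackAux.cont_left hG ht' fun s hs h => ?_
    obtain ⟨hs1, hs2⟩ := (hGdef s).1 (h s ⟨le_rfl, hs⟩)
    have hl := hlat _ s t' hs (crv s h) (fun r hr => ((hGdef r).1 (h r hr)).1)
      (by rw [hq']; exact hq.2)
    simp only [hq'] at hl
    have hN : c s ∈ τ.N j := hs2 ▸ (hT.kap (sub10 hs1)).2.1
    have c1 : Continuous fun r => (τ.κ j (c r)).1 := continuous_fst.comp cγ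
    have c2 : Continuous fun r => (τ.κ j (c r)).2 := continuous_snd.comp cγ
    have e1 : ∀ᶠ r in 𝓝 s, c r ∈ τ.N j :=
      hc.cont.continuousAt.eventually ((hT.box j).par.oN.mem_nhds hN)
    have e2 : ∀ᶠ r in 𝓝 s, dist (τ.κ j (c r)).2 (τ.κ j (c s)).2 < τ.ρ / 2 :=
      c2.continuousAt.eventually (ball_mem_nhds _ (by linarith))
    have e3 : ∀ᶠ r in 𝓝 s, 0 < (τ.κ j (c r)).1 :=
      c1.continuousAt.eventually (lt_mem_nhds (hpos s hs h))
    have e4 : ∀ᶠ r in 𝓝 s, dist (τ.κ j (c r)).1 (τ.κ j (c s)).1 < 1 / 2 :=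
      c1.continuousAt.eventually (ball_mem_nhds _ (by norm_num))
    obtain ⟨δ, hδ, hb⟩ := Metric.eventually_nhds_iff.1 (((e1.and e2).and e3).and e4)
    have W : ∀ r ∈ Icc (s - δ / 2) s, Ps fl (τ.g j) (τ.κ j (c r)) = c r ∧
        (τ.κ j (c r)).2 ∈ cthickening (5 * τ.ρ) (τ.A j) ∧ 0 < (τ.κ j (c r)).1 ∧
        |(τ.κ j (c r)).1 - (τ.κ j (c s)).1| < 1 / 2 := by
      intro r hr
      obtain ⟨⟨⟨w1, w2⟩, w3⟩, w4⟩ := hb (y := r)
        (by rw [Real.dist_eq, abs_lt]; constructor <;> linarith [hr.1, hr.2])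
      refine ⟨((hT.box j).par.rm _ (hKM (hc.mem r)) w1).2, ?_, w3, w4⟩
      have d1 : dist (τ.κ j (c r)).2 q.2 ≤ τ.ρ := by
        have := dist_triangle (τ.κ j (c r)).2 (τ.κ j (c s)).2 q.2
        rw [← dist_eq_norm] at hl
        linarith
      have d2 := cthickening_cthickening_subset hρ.le (show 0 ≤ 4 * τ.ρ by linarith) (τ.A j)
        (mem_cthickening_of_dist_le _ _ _ _ hq.2 d1)
      rwa [show τ.ρ + 4 * τ.ρ = 5 * τ.ρ by ring] at d2
    refine ⟨δ / 2, by linarith, fun r hr => (hGdef r).2 ⟨⟨⟨(W r hr).2.2.1.le, ?_⟩, (W r hr).2.1⟩,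
      (W r hr).1⟩⟩
    have hs3 : (τ.κ j (c s)).1 ≤ H + 1 / 2 := hs1.1.2
    rcases le_total (τ.κ j (c s)).1 H with hlo | hhi
    · linarith [(abs_lt.1 (W r hr).2.2.2).2]
    · have sp := speed_ge (f := fun r => (τ.κ j (c r)).1) (m := 0) hr.2 c1.continuousOn
        fun u hu => by
          obtain ⟨u1, u2, u3, u4⟩ := W u ⟨hr.1.trans hu.1, hu.2.le⟩
          obtain ⟨u5, u6⟩ := abs_lt.1 u4
          have hm : τ.κ j (c u) ∈ τ.reg j (-1) (H + 1) 9 :=
            ⟨⟨by linarith, by linarith⟩, cthickening_mono (by linarith) _ u2⟩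
          obtain ⟨v, v1, v2⟩ := near u hm u1
          have z : XY F (τ.κ j (c u)) = (1, 0) := XS_of_zero (by
            have : ∀ᶠ y in 𝓝 (τ.κ j (c u)), H - 1 < y.1 :=
              continuous_fst.continuousAt.eventually (lt_mem_nhds (by linarith))
            exact this.mono fun y hy => hF y hy.le)
          rw [z] at v2
          have v3 : |v.1 - 1| ≤ 1 / 2 :=
            ((norm_fst_le (v - (1, 0))).trans v2).trans (min_le_right _ _)
          refine ⟨v.1, (ContinuousLinearMap.fst ℝ ℝ (Y m)).hasFDerivAt.comp_hasDerivWithinAt u v1,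
            by linarith [(abs_le.1 v3).1]⟩
      linarith
  obtain ⟨p, hp, hper⟩ := hc.per
  have hshift : ∀ r, ∃ r' ≤ t', c r' = c r := fun r => by
    obtain ⟨n, hn⟩ := exists_nat_ge ((r - t') / p)
    refine ⟨r - n * p, ?_, hper.sub_nat_mul_eq n⟩
    have := (div_le_iff₀ hp).1 hn
    linarith
  have fin : ∀ r, (τ.κ j (c r) ∈ τ.reg j 0 (H + 1 / 2) 5 ∧ Ps fl (τ.g j) (τ.κ j (c r)) = c r) ∧
      0 < (τ.κ j (c r)).1 := fun r => by
    obtain ⟨r', h1, h2⟩ := hshift r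
    rw [← h2]
    exact ⟨(hGdef r').1 (hall r' h1), hpos r' h1 fun u hu => hall u hu.2⟩
  exact Or.inr ⟨⟨cγ, ⟨p, hp, hper.comp (τ.κ j)⟩, fun r => (fin r).1.1,
    fun r => (near r (sub9 (fin r).1.1) (fin r).1.2).mono (min_le_left _ _)⟩,
    fun r => ⟨(fin r).2, (fin r).1.2⟩⟩

end Pool.Agent.MP_6d695c_gt.P

end PkBack

section PkNoCyc

/-! PROJECT P, row NoCyc. -/

open scoped Manifold ContDiff Topology MeasureTheory
open Set Metric Filter Real

namespace Pool.Agent.MP_6d695c_gt.P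

open SW T1 Theta

theorem noCyc : NoCycStmt := by
  intro X _ _ _ Z Λ Ω x₀ hZ hΛ hΩ hL hx
  have hD : Continuous fun x => fderiv ℝ Λ x (Z x) :=
    (hΛ.continuous_fderiv (by simp)).clm_apply hZ.continuous
  have hK : IsCompact (Ω ∩ {x | fderiv ℝ Λ x (Z x) ≤ 0}) :=
    hΩ.inter_right (isClosed_le hD continuous_const)
  obtain ⟨t, -, ht⟩ := hK.elim_nhds_subcover
    (fun p => {x | x ≠ p → 0 < fderiv ℝ Λ x (Z x)}) fun p hp => by
      rcases hL p hp.1 with h | ⟨u, ⟨-, -, -, c, hc, h1⟩, h2⟩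
      · exact absurd hp.2 (not_le.2 h)
      · rw [nhdsWithin_univ] at h1 h2
        filter_upwards [h1, h2] with x a b hx
        exact (mul_pos hc (pow_pos (norm_pos_iff.2 (sub_ne_zero.2 hx)) 2)).trans_le (a.trans b)
  refine regband X Ω (Ω ∩ {x | fderiv ℝ Λ x (Z x) ≤ 0}) Z Λ hΩ
    (t.finite_toSet.subset fun x hx => ?_) hZ.continuous (hΛ.of_le (by simp))
    (fun x h h' => not_le.1 fun c => h' ⟨h, c⟩) x₀ fun h => (Ly_pos (hL x₀ h.1) hx).not_ge h.2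
  obtain ⟨p, hp, h⟩ := mem_iUnion₂.1 (ht hx)
  obtain rfl : x = p := by_contra fun c => (h c).not_ge hx.2
  exact hp

end Pool.Agent.MP_6d695c_gt.P

end PkNoCyc

section PkCyc

/-! PROJECT P, row Cyc: the rank argument. -/

open scoped Manifold ContDiff Topology MeasureTheory
open Set Metric Filter Real

namespace Pool.Agent.MP_6d695c_gt.P

open SW T1 Theta

namespace CycAux

/-- a positive lower bound of finitely many positive numbers -/
theorem fin_pos {I : Type} [Finite I] (e : I → ℝ) (h : ∀ i, 0 < e i) :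
    ∃ a, 0 < a ∧ ∀ i, a ≤ e i := by
  have h1 : ∀ᶠ a in 𝓝[>] (0 : ℝ), ∀ i, a ≤ e i :=
    eventually_all.2 fun i => mem_nhdsWithin_of_mem_nhds (Iic_mem_nhds (h i))
  obtain ⟨a, ha, hb⟩ := (h1.and self_mem_nhdsWithin).exists
  exact ⟨a, hb, ha⟩

theorem cyc_mono {X : Type} [NormedAddCommGroup X] [NormedSpace ℝ X] {S : Set X} {Z : X → X}
    {ε ε' : ℝ} {c : ℝ → X} (h : Cyc S Z ε c) (hε : ε ≤ ε') : Cyc S Z ε' c :=
  ⟨h.cont, h.per, h.mem, fun t => (h.near t).mono hε⟩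

/-- no function on a finite type increases for ever -/
theorem no_asc {ι : Type} [Finite ι] (rk : ι → ℕ) (Q : ι → Prop) (h0 : ∃ u, Q u)
    (h : ∀ u, Q u → ∃ c, Q c ∧ rk u < rk c) : False := by
  obtain ⟨u, hu, hm⟩ := Set.exists_max_image {u | Q u} rk (Set.toFinite _) h0
  obtain ⟨c, hc, hlt⟩ := h u hu
  exact absurd (hm c hc) (not_le.2 hlt)

end CycAux

open CycAux in
theorem cyc (hLast : LastStmt) (hPrev : PrevStmt) (hBack : BackStmt) (hNoCyc : NoCycStmt) :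
    CycStmt := by
  intro V _ _ _ m M K' K'' l φ Z X fl I _ τ H H₁ S₀ R₀ Cg f₀ κ M₀ b ι _ tw η ζ act col P rk F Λ x₀
    hf hT hK hKM hX hin hκ hH hC hTow hx₀
  have hρ := hT.ρpos
  have hH10 := hT.Hle
  have th : ∀ {i : I} {k k' : ℝ}, k ≤ k' →
      cthickening (k * τ.ρ) (τ.A i) ⊆ cthickening (k' * τ.ρ) (τ.A i) := fun hk =>
    cthickening_mono (by gcongr) _
  -- continuity of the coordinates
  have hη : ∀ c, Continuous (η c) := fun c => by
    obtain ⟨k, hk⟩ := (hC.nod (tw c)).aut ⟨c, rfl⟩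
    exact continuous_snd.comp (hk.sA.continuous.comp (Continuous.prodMk_right (0 : ℝ)))
  have hu : ∀ c, ∃ δ, 0 < δ ∧ ∀ y ∈ cthickening (8 * τ.ρ) (τ.A (tw c)),
      ∀ y' ∈ cthickening (8 * τ.ρ) (τ.A (tw c)), dist y y' < δ →
        dist (η c y) (η c y') < min 1 (κ / 2) := fun c =>
    Metric.uniformContinuousOn_iff.1 ((hT.cpt (tw c)).cthickening.uniformContinuousOn_of_continuous
      (hη c).continuousOn) _ (lt_min one_pos (half_pos hκ))
  choose δ₀ δp hδ using hu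
  obtain ⟨δ, hδ0, hδ1⟩ := fin_pos δ₀ δp
  -- the constants of the towers
  choose e₁ e₁p dyn using fun j => (hTow j).dyn _ (hT.reg_cpt j 0 (H + 1 / 2) 5)
  have hno : ∀ j, ∃ ε, 0 < ε ∧ ∀ γ, Cyc (τ.reg j 0 (H + 1 / 2) 5) (XY (F j)) ε γ → ∀ t,
      Ps fl (τ.g j) (γ t) = x₀ → γ t ≠ τ.κ j x₀ := fun j => by
    by_cases c : XY (F j) (τ.κ j x₀) = 0
    · refine ⟨1, one_pos, fun γ hγ t h1 h2 => hx₀ j (γ t) (hγ.mem t) ?_ h1⟩
      rwa [h2]
    · obtain ⟨ε, hε, h⟩ := hNoCyc _ (XY (F j)) (Λ j) _ (τ.κ j x₀) ((model m).2.2 _ (hTow j).sF)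
        (hTow j).sΛ (hT.reg_cpt j 0 (H + 1 / 2) 5) (fun x _ => (hTow j).lyap x) c
      exact ⟨ε, hε, fun γ hγ t _ => h γ hγ t⟩
  choose e₂ e₂p hno using hno
  have hb := fun j => hBack V m M K' K'' l φ Z X fl I τ H S₀ (min (e₁ j) (e₂ j)) j (F j) hf hT hK
    hKM (lt_min (e₁p j) (e₂p j)) (hin j)
    (fun x hx => (hTow j).out x (Or.inr (Or.inl (by linarith))))
    (fun γ s t hst hγ hm ht => by
      obtain ⟨c, hc, h1⟩ := hC.cover j _ (th (by norm_num) ht)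
      have h2 := (dyn j γ s t hst (Crv_sub hγ le_rfl le_rfl (min_le_left _ _)) hm ⟨c, hc⟩ h1).1 s
        ⟨le_rfl, hst⟩
      have h3 := norm_le_norm_add_norm_sub' (η c (γ s).2) (η c (γ t).2)
      exact hC.small c _ _ (by dsimp only at h2; linarith) (by linarith))
  choose e₃ e₃p hb using hb
  obtain ⟨e₄, e₄p, he₄⟩ := fin_pos e₃ e₃p
  obtain ⟨e₅, e₅p, last⟩ := hLast V m M K' K'' l φ Z X fl I τ H S₀ hf hT hK hKM hX
  obtain ⟨e₆, e₆p, prev⟩ := hPrev V m M K' K'' l φ Z X fl I τ H S₀ (δ / 2) hf hT hK hKM hX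
    (half_pos hδ0)
  refine ⟨min e₄ (min e₅ e₆), lt_min e₄p (lt_min e₅p e₆p), fun c hc t₀ h0 => ?_⟩
  -- the passage through a tower ends at the bottom
  have back : ∀ t' j, ∀ q ∈ τ.reg j 1 (H + 1 / 2) 4, c t' = Ps fl (τ.g j) q →
      ∃ t ≤ t', (τ.κ j (c t)).1 = 0 ∧ Crv (XY (F j)) (e₁ j) (fun r => τ.κ j (c r)) t t' ∧
        (∀ r ∈ Icc t t', τ.κ j (c r) ∈ τ.reg j 0 (H + 1 / 2) 5) ∧
        (τ.κ j (c t)).2 ∈ cthickening (5 * τ.ρ) (τ.A j) ∧ c t = τ.g j (τ.κ j (c t)).2 := by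
    intro t' j q hq e
    rcases hb j c (cyc_mono hc ((min_le_left _ _).trans (he₄ j))) t' q hq e with
      ⟨t, ht, h1, h2, h3⟩ | ⟨h1, h2⟩
    · refine ⟨t, ht, h1, Crv_sub h2 le_rfl le_rfl (min_le_left _ _), fun r hr => (h3 r hr).1,
        (h3 t ⟨le_rfl, ht⟩).1.2, ?_⟩
      rw [← Ps_zero hf (τ.g j), ← h1]
      exact (h3 t ⟨le_rfl, ht⟩).2.symm
    · exact (hno j _ (cyc_mono h1 (min_le_right _ _)) t₀ ((h2 t₀).2.trans h0) (by rw [h0])).elim
  refine no_asc rk (fun u => ∃ t, ∃ y ∈ cthickening (5 * τ.ρ) (τ.A (tw u)),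
    c t = τ.g (tw u) y ∧ ‖η u y‖ ≤ R₀ + 1) ?_ ?_
  · obtain ⟨t', -, h1, -⟩ := last c
      (cyc_mono hc ((min_le_right _ _).trans (min_le_left _ _))) t₀
    obtain ⟨j, q, hq, e⟩ : ∃ j, ∃ q ∈ τ.reg j 1 (H + 1 / 2) 4, Ps fl (τ.g j) q = c t' := by
      rcases h1 with h1 | h1
      · obtain ⟨j, q, hq, e⟩ := mem_iUnion.1 h1
        exact ⟨j, q, TD.reg_mono hρ.le j (by linarith) le_rfl le_rfl hq, e⟩
      · obtain ⟨j, q, hq, e⟩ := mem_iUnion.1 h1
        exact ⟨j, q, TD.reg_mono hρ.le j le_rfl (by linarith) (by norm_num) hq, e⟩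
    obtain ⟨t, -, -, -, -, h2, h3⟩ := back t' j q hq e.symm
    obtain ⟨u, rfl, h4⟩ := hC.cover j _ (th (by norm_num) h2)
    exact ⟨u, t, _, h2, h3, by linarith⟩
  · rintro u ⟨t, y, hy, e, hu⟩
    obtain ⟨t', -, j, q, hq, e', s, y', lk, hy'⟩ := prev c
      (cyc_mono hc ((min_le_right _ _).trans (min_le_right _ _))) t (tw u) y hy e
    obtain ⟨w, rfl, hw⟩ := hC.cover j _ (th (by norm_num) hq.2)
    have hd := hδ w y' (th (by norm_num) lk.my') q.2 (th (by norm_num) hq.2) (by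
      rw [dist_eq_norm]
      linarith [hδ1 w])
    rw [dist_eq_norm, lt_min_iff] at hd
    obtain ⟨t₁, ht₁, a1, a2, a3, a4, a5⟩ := back t' (tw w) q
      (TD.reg_mono hρ.le _ (by linarith) le_rfl le_rfl hq) e'
    have eq : τ.κ (tw w) (c t') = q := by
      rw [e']
      exact (hT.kap (TD.reg_mono hρ.le _ (by linarith) (by linarith) (by norm_num) hq)).2.2
    obtain ⟨b1, b2⟩ := dyn (tw w) _ t₁ t' ht₁ a2 a3 ⟨w, rfl⟩ (by rw [eq]; exact hw)
    have b3 := b1 t₁ ⟨le_rfl, ht₁⟩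
    dsimp only at b2 b3
    rw [eq] at b2 b3
    refine ⟨w, ⟨t₁, _, a4, a5, ?_⟩, ?_⟩
    · linarith [norm_le_norm_add_norm_sub' (η w (τ.κ (tw w) (c t₁)).2) (η w q.2)]
    have c1 := hC.link ⟨tw u, y, ⌊s / H⌋₊, tw w, hol fl τ (tw u) (tw w) s, exp (-s)⟩
      ⟨s, y', lk, rfl, rfl, rfl⟩ u w rfl rfl hu
    dsimp only at c1
    rw [lk.hol_eq hf hT] at c1
    refine (c1 (by linarith [norm_le_norm_add_norm_sub' (η w y') (η w q.2)])).resolve_right ?_
    rintro ⟨c2, i, p, hp, c3⟩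
    have c4 := b2 a1.le (hH.trans hq.1.1) c2 p (mem_iUnion.2 ⟨i, hp⟩)
    have c5 := norm_sub_le_norm_sub_add_norm_sub (η w q.2) (η w y') p
    rw [norm_sub_rev (η w q.2) (η w y')] at c5
    linarith [hd.2]

end Pool.Agent.MP_6d695c_gt.P

end PkCyc

section PkSkF

/-! PROJECT P, row SKF: the skeleton and the flow in the ambient space. -/

open scoped Manifold ContDiff Topology MeasureTheory
open Set Metric Filter Real

namespace Pool.Agent.MP_6d695c_gt.P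

open SW T1 Theta

namespace SkFAux

variable {d : ℕ} {W V : Type} [TopologicalSpace W] [ChartedSpace (Euc d) W]
  [NormedAddCommGroup V] [NormedSpace ℝ V]
  {l : OneForm (𝓡 d) W} {Z : VField (𝓡 d) W} {φ : W → ℝ} {e : W → V} {l' : V → V →L[ℝ] ℝ}
  {Pi : V → (V →L[ℝ] ℝ) →L[ℝ] V} {φ' : V → ℝ} {F : ℝ → W → W} {Z' : V → V} {fl : ℝ → V → V}

theorem mono (hE : Emb l Z φ e l' Pi φ') (hF : FlowOf Z F) (y : W) :
    Monotone fun t => φ (F t y) := by
  have hd : ∀ t, HasDerivAt (fun t => φ (F t y)) (der (𝓡 d) φ (F t y) (Z (F t y))) t := fun t => by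
    let D : Euc d →L[ℝ] ℝ := mfderiv (𝓡 d) 𝓘(ℝ, ℝ) φ (F t y)
    let v : Euc d := Z (F t y)
    have h1 : HasFDerivAt (fun t => φ (F t y)) (D.comp ((1 : ℝ →L[ℝ] ℝ).smulRight v)) t :=
      ((hE.ex.1.mdifferentiableAt (x := F t y) (by simp)).hasMFDerivAt.comp t
        ((hF y).2 t)).hasFDerivAt
    have h2 : D v = der (𝓡 d) φ (F t y) (Z (F t y)) := rfl
    simpa [h2] using h1.hasDerivAt
  exact monotone_of_hasDerivAt_nonneg hd fun t => hE.nd _

theorem eqf (hE : Emb l Z φ e l' Pi φ') (hF : FlowOf Z F)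
    (hC : T1.Cut (e '' {x | φ x < 6}) l' Pi φ' Z' fl) (y : W) (t : ℝ)
    (h : ∀ s ∈ uIcc 0 t, φ (F s y) ≤ 4) : e (F t y) = fl t (e y) := by
  have hd : ∀ s ∈ uIcc 0 t, HasDerivAt (fun s => e (F s y)) (Z' (e (F s y))) s := fun s hs => by
    have h6 : φ (F s y) < 6 := (h s hs).trans_lt (by norm_num)
    let D : Euc d →L[ℝ] V := mfderiv (𝓡 d) 𝓘(ℝ, V) e (F s y)
    let v : Euc d := Z (F s y)
    have h1 : HasFDerivAt (fun s => e (F s y)) (D.comp ((1 : ℝ →L[ℝ] ℝ).smulRight v)) s :=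
      ((hE.sm.mdifferentiableAt (x := F s y) (by simp)).hasMFDerivAt.comp s
        ((hF y).2 s)).hasFDerivAt
    have h2 : D v = Z' (e (F s y)) := (hE.fld _ h6).trans
      (hC.eq _ ⟨_, h6, rfl⟩ (by rw [hE.fn _ h6]; exact h s hs)).symm
    simpa [h2] using h1.hasDerivAt
  have h3 := hC.flow.eq_of (c := fun s => e (F s y)) hd
  simpa only [sub_zero, (hF y).1] using h3

theorem fwd (hE : Emb l Z φ e l' Pi φ') (hF : FlowOf Z F)
    (hC : T1.Cut (e '' {x | φ x < 6}) l' Pi φ' Z' fl) {y : W} (hy : φ y < 3) {t : ℝ} (ht : 0 ≤ t)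
    (h : ∀ s ∈ Icc 0 t, φ' (fl s (e y)) < 3) : φ (F t y) < 4 ∧ e (F t y) = fl t (e y) := by
  have hm := mono hE hF y
  have key : ∀ τ, 0 ≤ τ → φ (F τ y) ≤ 4 → e (F τ y) = fl τ (e y) := fun τ h0 h4 =>
    eqf hE hF hC y τ fun s hs => (hm (show s ≤ τ by rw [uIcc_of_le h0] at hs; exact hs.2)).trans h4
  have h4 : φ (F t y) < 4 := by
    by_contra hb
    have hc : Continuous fun s => φ (F s y) := hE.ex.1.continuous.comp (hF y).2.continuous
    obtain ⟨τ, hτ, e4⟩ := intermediate_value_Icc ht hc.continuousOn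
      (show (4 : ℝ) ∈ Icc (φ (F 0 y)) (φ (F t y)) from
        ⟨by rw [(hF y).1]; linarith, not_lt.1 hb⟩)
    have e5 : φ (F τ y) = 4 := e4
    have h5 := h τ hτ
    rw [← key τ hτ.1 e5.le, hE.fn _ (by rw [e5]; norm_num), e5] at h5
    norm_num at h5
  exact ⟨h4, key t ht h4.le⟩

end SkFAux

open SkFAux in
theorem skF : SkFStmt := by
  intro d W V _ _ _ _ _ _ _ l Z φ e l' Pi φ' F Z' fl hE hF hC x' hx'
  obtain ⟨⟨x, hx, rfl⟩, hK⟩ := hx'
  have hx6 : φ x < 6 := hx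
  have hx2 : φ x ≤ 2 := by
    have := hK 0 le_rfl
    rwa [hC.flow.zero, hE.fn x hx6] at this
  have h2 : ∀ t, φ (F t x) ≤ 2 := fun t => by
    rcases le_total 0 t with ht | ht
    · obtain ⟨h4, he⟩ := fwd hE hF hC (y := x) (by linarith) ht
        fun s hs => (hK s hs.1).trans_lt (by norm_num)
      rw [← hE.fn _ (h4.trans (by norm_num)), he]
      exact hK t ht
    · refine (mono hE hF x ht).trans ?_
      show φ (F 0 x) ≤ 2
      rwa [(hF x).1]
  refine ⟨x, ⟨fun t => F t x, {y | φ y ≤ 2}, (hF x).1, (hF x).2, hE.ex.2 2, fun t _ => h2 t⟩, rfl,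
    fun t => ⟨h2 t, ?_⟩⟩
  have h3 : ∀ᶠ y in 𝓝 x, φ y < 3 :=
    hE.ex.1.continuous.continuousAt.eventually_lt continuousAt_const (by linarith)
  rcases le_total 0 t with ht | ht
  · have hc : Continuous fun z : W × ℝ => φ' (fl z.2 (e z.1)) :=
      hE.amb.sφ.continuous.comp (hC.flow.sm.continuous.comp
        (continuous_snd.prodMk (hE.sm.continuous.comp continuous_fst)))
    have h4 : ∀ᶠ y in 𝓝 x, ∀ s ∈ Icc 0 t, φ' (fl s (e y)) < 3 :=
      isCompact_Icc.eventually_forall_of_forall_eventually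
        (P := fun y s => φ' (fl s (e y)) < 3) fun s hs =>
        hc.continuousAt.eventually_lt continuousAt_const ((hK s hs.1).trans_lt (by norm_num))
    filter_upwards [h3, h4] with y hy hs
    exact fwd hE hF hC hy ht hs
  · filter_upwards [h3] with y hy
    have hb : ∀ s, s ≤ 0 → φ (F s y) < 4 := fun s hs => by
      have h5 : φ (F s y) ≤ φ (F 0 y) := mono hE hF y hs
      rw [(hF y).1] at h5
      linarith
    exact ⟨hb t ht, eqf hE hF hC y t fun s hs =>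
      (hb s (by rw [uIcc_of_ge ht] at hs; exact hs.2)).le⟩

end Pool.Agent.MP_6d695c_gt.P

end PkSkF

section PkHyp

/-! PROJECT P, row HYP: the growth hypothesis passes to the ambient space. -/

open scoped Manifold ContDiff Topology MeasureTheory
open Set Metric Filter Real

namespace Pool.Agent.MP_6d695c_gt.P

open SW T1 Theta

namespace HypAux

/-- a local constant is uniform on a compact set -/
theorem unif {X : Type} [TopologicalSpace X] {K : Set X} (hK : IsCompact K) {P : ℝ → X → Prop}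
    (mono : ∀ C C' x, C ≤ C' → P C x → P C' x) (h : ∀ a ∈ K, ∃ C, ∀ᶠ z in 𝓝 a, P C z) :
    ∃ C, ∀ z ∈ K, P C z := by
  refine hK.induction_on (p := fun s => ∃ C, ∀ z ∈ s, P C z) ⟨0, by simp⟩ ?_ ?_ ?_
  · rintro s t hst ⟨C, hC⟩
    exact ⟨C, fun z hz => hC z (hst hz)⟩
  · rintro s t ⟨C, hC⟩ ⟨D, hD⟩
    refine ⟨max C D, ?_⟩
    rintro z (hz | hz)
    · exact mono _ _ _ (le_max_left _ _) (hC z hz)
    · exact mono _ _ _ (le_max_right _ _) (hD z hz)
  · intro a ha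
    obtain ⟨C, hC⟩ := h a ha
    exact ⟨_, mem_nhdsWithin_of_mem_nhds hC, C, fun z hz => hz⟩

/-- the derivative of a smooth map is locally bounded -/
theorem bdd {E X : Type} [NormedAddCommGroup E] [NormedSpace ℝ E] [NormedAddCommGroup X]
    [NormedSpace ℝ X] {g : E → X} {a : E} (hg : ContDiffAt ℝ ∞ g a) :
    ∃ A, 0 ≤ A ∧ ∀ᶠ y in 𝓝 a, DifferentiableAt ℝ g y ∧ ‖fderiv ℝ g y‖ ≤ A := by
  have h1 : ContDiffAt ℝ 1 g a := hg.of_le (by simp)
  have h2 : ContinuousAt (fderiv ℝ g) a := (h1.fderiv_right (m := 0) (by simp)).continuousAt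
  refine ⟨‖fderiv ℝ g a‖ + 1, by positivity, ?_⟩
  filter_upwards [h1.eventually (by simp),
    h2.norm.eventually (gt_mem_nhds (lt_add_one ‖fderiv ℝ g a‖))] with y k1 k2
  exact ⟨k1.differentiableAt one_ne_zero, k2.le⟩

variable {d : ℕ} {W V : Type} [TopologicalSpace W] [ChartedSpace (Euc d) W]
  [IsManifold (𝓡 d) ∞ W] [NormedAddCommGroup V] [NormedSpace ℝ V]
  {l : OneForm (𝓡 d) W} {Z : VField (𝓡 d) W} {φ : W → ℝ} {e : W → V} {l' : V → V →L[ℝ] ℝ}
  {Pi : V → (V →L[ℝ] ℝ) →L[ℝ] V} {φ' : V → ℝ}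

/-- the embedding is bounded by the chart -/
theorem upper (h : Emb l Z φ e l' Pi φ') (q : W) :
    ∃ A, 0 ≤ A ∧ ∀ᶠ y in 𝓝 q, y ∈ (extChartAt (𝓡 d) q).source ∧ ∀ u : Euc d,
      ‖(show V from mfderiv (𝓡 d) 𝓘(ℝ, V) e y u)‖ ≤ A * ‖dE (extChartAt (𝓡 d) q) y u‖ := by
  obtain ⟨A, hA, h1⟩ := bdd (Mfd.sm_in (mem_extChartAt_source (I := 𝓡 d) q) (h.sm q))
  refine ⟨A, hA, ?_⟩
  filter_upwards [(continuousAt_extChartAt (I := 𝓡 d) q).eventually h1,
    extChartAt_source_mem_nhds (I := 𝓡 d) q] with y k1 k2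
  refine ⟨k2, fun u => ?_⟩
  have k3 := Mfd.fderiv_in' k2 ((h.sm y).mdifferentiableAt (by simp)) u
  have k4 := (fderiv ℝ (fun z => e ((extChartAt (𝓡 d) q).symm z))
    (extChartAt (𝓡 d) q y)).le_of_opNorm_le k1.2 (dE (extChartAt (𝓡 d) q) y u)
  exact (congrArg norm k3).symm.trans_le k4

/-- the chart is bounded by the embedding -/
theorem lower (h : Emb l Z φ e l' Pi φ') {p : W} (hp : φ p < 6) :
    ∃ B, 0 ≤ B ∧ ∀ᶠ x in 𝓝 p, ∀ w : Euc d,
      ‖dE (extChartAt (𝓡 d) p) x w‖ ≤ B * ‖(show V from mfderiv (𝓡 d) 𝓘(ℝ, V) e x w)‖ := by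
  obtain ⟨ρ, hρ, hi⟩ := h.inv p hp
  have h0 : ρ (e p) = p := hi.self_of_nhds p hp rfl
  have h1 : ContDiffAt ℝ ∞ (fun v => extChartAt (𝓡 d) p (ρ v)) (e p) := by
    have h2 : ContMDiffAt (𝓡 d) 𝓘(ℝ, Euc d) ∞ (extChartAt (𝓡 d) p) (ρ (e p)) := by
      rw [h0]
      exact Mfd.sm_chart (mem_extChartAt_source p)
    exact (h2.comp _ hρ).contDiffAt
  obtain ⟨B, hB, h3⟩ := bdd h1
  have he := h.sm.continuous.continuousAt (x := p)
  have h4 : ∀ᶠ y in 𝓝 p, ρ (e y) = y := by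
    filter_upwards [he.eventually hi, h.ex.1.continuous.continuousAt.eventually (gt_mem_nhds hp)]
      with y k1 k2
    exact k1 y k2 rfl
  refine ⟨B, hB, ?_⟩
  filter_upwards [he.eventually h3, h4.eventually_nhds] with x k1 k2 w
  have k3 : (extChartAt (𝓡 d) p : W → Euc d) =ᶠ[𝓝 x]
      (fun v => extChartAt (𝓡 d) p (ρ v)) ∘ e := by
    filter_upwards [k2] with y hy
    simp only [Function.comp, hy]
  have k4 := mfderiv_comp (I := 𝓡 d) (I' := 𝓘(ℝ, V)) (I'' := 𝓘(ℝ, Euc d)) x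
    k1.1.mdifferentiableAt ((h.sm x).mdifferentiableAt (by simp))
  rw [mfderiv_eq_fderiv, ← k3.mfderiv_eq] at k4
  have k5 : dE (extChartAt (𝓡 d) p) x w = fderiv ℝ (fun v => extChartAt (𝓡 d) p (ρ v)) (e x)
      (show V from mfderiv (𝓡 d) 𝓘(ℝ, V) e x w) := congrArg (fun L => L w) k4
  rw [k5]
  exact ContinuousLinearMap.le_of_opNorm_le _ k1.2 _

omit [IsManifold (𝓡 d) ∞ W] in
/-- a map that is intertwined with a smooth map of the ambient space -/
theorem inter (h : Emb l Z φ e l' Pi φ') {G : W → W} {g : V → V} (hg : ContDiff ℝ ∞ g) {x : W}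
    (hx : ∀ᶠ y in 𝓝 x, φ (G y) < 4 ∧ e (G y) = g (e y)) :
    MDifferentiableAt (𝓡 d) (𝓡 d) G x ∧ ∀ w : Euc d,
      fderiv ℝ g (e x) (show V from mfderiv (𝓡 d) 𝓘(ℝ, V) e x w) =
        mfderiv (𝓡 d) 𝓘(ℝ, V) e (G x) (mfderiv (𝓡 d) (𝓡 d) G x w) := by
  have h0 := hx.self_of_nhds
  obtain ⟨ρ, hρ, hi⟩ := h.inv (G x) (by linarith [h0.1])
  rw [h0.2] at hρ hi
  have he : MDifferentiableAt (𝓡 d) 𝓘(ℝ, V) e x := (h.sm x).mdifferentiableAt (by simp)
  have hg' : MDifferentiableAt 𝓘(ℝ, V) 𝓘(ℝ, V) g (e x) :=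
    (hg.differentiable (by simp) _).mdifferentiableAt
  have h1 : MDifferentiableAt (𝓡 d) 𝓘(ℝ, V) (g ∘ e) x := hg'.comp x he
  have h2 : G =ᶠ[𝓝 x] ρ ∘ (g ∘ e) := by
    filter_upwards [hx, h1.continuousAt.eventually hi] with y k1 k2
    exact (k2 (G y) (by linarith [k1.1]) k1.2).symm
  have h3 : MDifferentiableAt (𝓡 d) (𝓡 d) G x :=
    (MDifferentiableAt.comp x (hρ.mdifferentiableAt (by simp)) h1).congr_of_eventuallyEq h2
  refine ⟨h3, fun w => ?_⟩
  have h4 : g ∘ e =ᶠ[𝓝 x] e ∘ G := by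
    filter_upwards [hx] with y k1
    exact k1.2.symm
  have h5 := mfderiv_comp x hg' he
  have h6 := mfderiv_comp x ((h.sm (G x)).mdifferentiableAt (by simp)) h3
  rw [mfderiv_eq_fderiv, h4.mfderiv_eq] at h5
  exact congrArg (fun L => L w) (h5.symm.trans h6)

end HypAux

theorem hyp (hSkF : SkFStmt) : HypStmt := by
  intro d W V _ _ _ _ _ _ _ l Z φ e l' Pi φ' F Z' fl ε h hF hC hS
  have hK : IsCompact ({x | φ x ≤ 2} ×ˢ {x | φ x ≤ 2}) := (h.ex.2 2).prod (h.ex.2 2)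
  obtain ⟨C, hC'⟩ := HypAux.unif hK (P := fun C z => z.1 ∈ skeleton Z → ∀ t : ℝ, 0 ≤ t →
      F (-t) z.1 = z.2 → (∀ᶠ y in 𝓝 z.1, φ (F (-t) y) < 4 ∧ e (F (-t) y) = fl (-t) (e y)) →
      ∀ w : Euc d, ‖fderiv ℝ (fl (-t)) (e z.1) (show V from mfderiv (𝓡 d) 𝓘(ℝ, V) e z.1 w)‖ ≤
        C * exp (ε * t) * ‖(show V from mfderiv (𝓡 d) 𝓘(ℝ, V) e z.1 w)‖)
    (fun C C' z hle k h1 t ht h2 h3 w => (k h1 t ht h2 h3 w).trans (by gcongr)) (by
      rintro ⟨p, q⟩ ⟨hp, -⟩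
      have hp' : φ p < 6 := lt_of_le_of_lt hp (by norm_num)
      obtain ⟨A, hA, h1⟩ := HypAux.upper h q
      obtain ⟨B, hB, h2⟩ := HypAux.lower h hp'
      obtain ⟨C, h3⟩ := hS p q
      refine ⟨A * max C 0 * B, ?_⟩
      filter_upwards [continuousAt_snd.eventually h1, continuousAt_fst.eventually h2, h3]
        with z k1 k2 k3 k4 t ht k5 k6 w
      have hfl : ContDiff ℝ ∞ (fl (-t)) :=
        hC.flow.sm.comp (contDiff_const.prodMk contDiff_id)
      obtain ⟨m1, m2⟩ := HypAux.inter h hfl k6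
      have m3 := k3 k4 t ht k5 w
      rw [← k5] at k1
      have m4 := k1.2 (mfderiv (𝓡 d) (𝓡 d) (F (-t)) z.1 w)
      have m5 : dE (fun y => extChartAt (𝓡 d) q (F (-t) y)) z.1 w =
          dE (extChartAt (𝓡 d) q) (F (-t) z.1) (mfderiv (𝓡 d) (𝓡 d) (F (-t)) z.1 w) :=
        congrArg (fun L => L w)
          (mfderiv_comp z.1 ((Mfd.sm_chart k1.1).mdifferentiableAt (by simp)) m1)
      rw [m5] at m3
      have m6 := k2 w
      have m7 := exp_pos (ε * t)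
      rw [m2 w]
      refine m4.trans ?_
      calc _ ≤ A * (max C 0 * exp (ε * t) * ‖dE (extChartAt (𝓡 d) p) z.1 w‖) := by
            refine mul_le_mul_of_nonneg_left (m3.trans ?_) hA
            gcongr
            exact le_max_left _ _
        _ ≤ A * (max C 0 * exp (ε * t) *
              (B * ‖(show V from mfderiv (𝓡 d) 𝓘(ℝ, V) e z.1 w)‖)) := by
            gcongr
        _ = _ := by ring)
  refine ⟨C, fun x' hx' t ht v hv _ => ⟨0, ?_⟩⟩
  obtain ⟨x, hx, rfl, h1⟩ := hSkF d W V l Z φ e l' Pi φ' F Z' fl h hF hC x' hx'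
  have h2 : φ x ≤ 2 := by
    have := (h1 0).1
    rwa [(hF x).1] at this
  rw [h.tg x (by linarith)] at hv
  obtain ⟨w, rfl⟩ := hv
  rw [zero_smul, sub_zero]
  exact hC' (x, F (-t) x) ⟨h2, (h1 (-t)).1⟩ hx t ht rfl (h1 (-t)).2 w

end Pool.Agent.MP_6d695c_gt.P

end PkHyp
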