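import Pool.Agent.MP_6d695c_gt.q.Base

/-! Slow skeleta: proofs of the steps, part F. -/

section PkGut

/-! PROJECT P, row Gut: the marker lemma. -/

open scoped Manifold ContDiff Topology MeasureTheory
open Set Metric Filter Real

namespace Pool.Agent.MP_6d695c_gt.P

open SW T1 Theta

namespace GutAux

/-- small balls of a countable family -/
theorem small {m : ℕ} (r : ℕ × ℕ → ℝ)
    (hr : ∀ p, r p ∈ Ioo (1 / ((p.2 : ℝ) + 1) / 2) (1 / ((p.2 : ℝ) + 1))) {G : Set (Y m)}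
    (hG : IsOpen G) {y : Y m} (hy : y ∈ G) :
    ∃ p : ℕ × ℕ, y ∈ ball (TopologicalSpace.denseSeq (Y m) p.1) (r p) ∧
      closedBall (TopologicalSpace.denseSeq (Y m) p.1) (r p) ⊆ G := by
  obtain ⟨ε, hε, hs⟩ := Metric.isOpen_iff.1 hG y hy
  obtain ⟨b, hb⟩ := exists_nat_one_div_lt (half_pos hε)
  have h0 : (0 : ℝ) < 1 / ((b : ℝ) + 1) / 2 := by positivity
  obtain ⟨a, ha⟩ := (TopologicalSpace.denseRange_denseSeq (Y m)).exists_dist_lt y h0
  have h1 := hr (a, b)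
  refine ⟨(a, b), mem_ball.2 (ha.trans h1.1), fun z hz => hs (mem_ball.2 ?_)⟩
  have h2 := dist_triangle_right z y (TopologicalSpace.denseSeq (Y m) a)
  have h3 := mem_closedBall.1 hz
  have h4 := h1.2
  simp only at h3 h4
  linarith

variable {V : Type} [NormedAddCommGroup V] [NormedSpace ℝ V] {m d₀ n : ℕ} {M U₀ C₀ : Set V}
  {l : V → V →L[ℝ] ℝ} {φ : V → ℝ} {Z : V → V} {fl : ℝ → V → V} {I : Type}
  {g : I → Y m → V} {κ : I → V → ℝ × Y m} {H S L : ℝ} {D B : I → Set (Y m)} {N : I → Set V}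
  {c : Fin n → ℝ} {r : I × Fin n × ℕ × ℕ → ℝ}

/-- the standing hypotheses -/
structure Hy (d₀ : ℕ) (M U₀ C₀ : Set V) (l : V → V →L[ℝ] ℝ) (φ : V → ℝ) (Z : V → V)
    (fl : ℝ → V → V) (g : I → Y m → V) (κ : I → V → ℝ × Y m) (H S L : ℝ) (D B : I → Set (Y m))
    (N : I → Set V) (c : Fin n → ℝ) (r : I × Fin n × ℕ × ℕ → ℝ) : Prop where
  hf : IsFlow Z fl
  H0 : 0 ≤ H
  S0 : 0 < S
  SL : S ≤ L
  hn : 2 * m + 1 + d₀ < n
  box : ∀ i, Box M l φ fl (g i) (κ i) (-L) L (D i) (N i)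
  hB : ∀ i, IsCompact (B i) ∧ B i ⊆ D i
  hC : IsCompact C₀
  op : ∀ x ∈ M, (∃ t ∈ Ioo 0 S, fl (-t) x ∈ U₀) →
    ∀ᶠ x' in 𝓝[M] x, ∃ t ∈ Ioo 0 S, fl (-t) x' ∈ U₀
  few : ∀ x ∈ M, (∀ t ∈ Ioo 0 S, fl (-t) x ∉ U₀) →
    ∃ T : Finset ℝ, T.card ≤ d₀ ∧ ∀ t ∈ Ioo 0 S, fl (-t) x ∈ C₀ → t ∈ T
  win : ∀ j t, |t - c j| ≤ H + 3 → t ∈ Ioo 0 S
  sep : ∀ j j' t, |t - c j| ≤ H + 3 → |t - c j'| ≤ H + 3 → j = j'
  rad : ∀ i j (p : ℕ × ℕ), r (i, j, p) ∈ Ioo (1 / ((p.2 : ℝ) + 1) / 2) (1 / ((p.2 : ℝ) + 1))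
  gen : ∀ x ∈ M, ∀ s : Finset (I × Fin n × ℕ × ℕ), (∀ k ∈ s, x ∈ N k.1 ∧
    ‖(κ k.1 x).2 - TopologicalSpace.denseSeq (Y m) k.2.2.1‖ = r k) → s.card ≤ 2 * m + 1

/-- admissible markers -/
def Mk (D : I → Set (Y m)) (r : I × Fin n × ℕ × ℕ → ℝ) (O C : I → Fin n → Set (Y m)) : Prop :=
  ∀ i j, IsOpen (O i j) ∧ IsCompact (C i j) ∧ O i j ⊆ C i j ∧ C i j ⊆ D i ∧
    ∀ z ∈ C i j, z ∉ O i j → ∃ p : ℕ × ℕ, ‖z - TopologicalSpace.denseSeq (Y m) p.1‖ = r (i, j, p)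

/-- the window of `y` meets `U₀` or an open marker -/
def Hit (U₀ : Set V) (fl : ℝ → V → V) (g : I → Y m → V) (S : ℝ) (c : Fin n → ℝ)
    (O : I → Fin n → Set (Y m)) (x : V) : Prop :=
  ∃ t ∈ Ioo 0 S, fl (-t) x ∈ U₀ ∨ ∃ i' j', ∃ z ∈ O i' j', fl (-t) x = Ps fl (g i') (-c j', z)

namespace Hy

variable (h : Hy d₀ M U₀ C₀ l φ Z fl g κ H S L D B N c r)
include h

theorem cw (j : Fin n) : c j ∈ Ioo 0 S := h.win j _ (by rw [sub_self, abs_zero]; linarith [h.H0])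

theorem gm (i : I) {t : ℝ} (h1 : -S < t) (h2 : t < S) {y : Y m} (hy : y ∈ D i) :
    Ps fl (g i) (t, y) ∈ M ∧ Ps fl (g i) (t, y) ∈ N i ∧ κ i (Ps fl (g i) (t, y)) = (t, y) :=
  (h.box i).par.gm _ ⟨⟨by linarith [h.SL], by linarith [h.SL]⟩, hy⟩

theorem g0 (i : I) {y : Y m} (hy : y ∈ D i) : g i y ∈ M := by
  have := (h.gm i (t := 0) (by linarith [h.S0]) h.S0 hy).1
  rwa [Ps_zero h.hf] at this

theorem cP (i : I) : Continuous (Ps fl (g i)) := (Ps_smooth h.hf (h.box i).sg).continuous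

theorem hit_open {O C : I → Fin n → Set (Y m)} (hM : Mk D r O C) (i : I) :
    IsOpen {y ∈ D i | Hit U₀ fl g S c O (g i y)} := by
  refine isOpen_iff_mem_nhds.2 fun y hy => ?_
  obtain ⟨hy, t, ht, hh⟩ := hy
  have hD : ∀ᶠ y' in 𝓝 y, y' ∈ D i := (h.box i).oD.mem_nhds hy
  rcases hh with hh | ⟨i', j', z, hz, e⟩
  · have h1 : Tendsto (g i) (𝓝 y) (𝓝[M] (g i y)) :=
      tendsto_nhdsWithin_iff.2 ⟨(h.box i).sg.continuous.tendsto y, hD.mono fun y' a => h.g0 i a⟩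
    filter_upwards [hD, h1.eventually (h.op _ (h.g0 i hy) ⟨t, ht, hh⟩)] with y' a b
    obtain ⟨t', b1, b2⟩ := b
    exact ⟨a, t', b1, Or.inl b2⟩
  · have hzD := (hM i' j').2.2.2.1 ((hM i' j').2.2.1 hz)
    have hc := h.cw j'
    obtain ⟨-, a2, a3⟩ := h.gm i' (t := -c j') (by linarith [hc.2]) (by linarith [hc.1, h.S0]) hzD
    have cx : Continuous fun y' => Ps fl (g i) (-t, y') :=
      (h.cP i).comp (continuous_const.prodMk continuous_id)
    have e' : Ps fl (g i) (-t, y) = Ps fl (g i') (-c j', z) := e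
    have ck : Continuous fun y' => κ i' (Ps fl (g i) (-t, y')) := (h.box i').sκ.continuous.comp cx
    have k0 : κ i' (Ps fl (g i) (-t, y)) = (-c j', z) := by rw [e', a3]
    have b1 : ∀ᶠ y' in 𝓝 y, Ps fl (g i) (-t, y') ∈ N i' :=
      cx.continuousAt.eventually_mem ((h.box i').par.oN.mem_nhds (by rwa [e']))
    have b2 : ∀ᶠ y' in 𝓝 y, (κ i' (Ps fl (g i) (-t, y'))).2 ∈ O i' j' :=
      ck.snd.continuousAt.eventually_mem ((hM i' j').1.mem_nhds (by rwa [k0]))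
    have b3 : ∀ᶠ y' in 𝓝 y, t + c j' + (κ i' (Ps fl (g i) (-t, y'))).1 ∈ Ioo 0 S :=
      ContinuousAt.eventually_mem (f := fun y' => t + c j' + (κ i' (Ps fl (g i) (-t, y'))).1)
        (continuous_const.add ck.fst).continuousAt
        (isOpen_Ioo.mem_nhds (by rw [k0]; simpa using ht))
    filter_upwards [hD, b1, b2, b3] with y' a b1 b2 b3
    refine ⟨a, _, b3, Or.inr ⟨i', j', _, b2, ?_⟩⟩
    have m1 := (h.gm i (t := -t) (by linarith [ht.2]) (by linarith [ht.1, h.S0]) a).1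
    have m2 := ((h.box i').par.rm _ m1 b1).2
    have m3 := fl_Ps h.hf (g i') (-c j' - (κ i' (Ps fl (g i) (-t, y'))).1)
      (κ i' (Ps fl (g i) (-t, y')))
    rw [m2, sub_add_cancel, fl_Ps h.hf] at m3
    rw [← m3]
    show fl _ (g i y') = fl _ (g i y')
    congr 1
    ring

/-- a free slot -/
theorem free {O C : I → Fin n → Set (Y m)} (hM : Mk D r O C) (i₀ : I) {x : V} (hx : x ∈ M)
    (hn : ¬ Hit U₀ fl g S c O x) : ∃ j, ∀ t, |t - c j| ≤ H + 3 →
      fl (-t) x ∉ C₀ ∪ ⋃ i', ⋃ j', (fun z => Ps fl (g i') (-c j', z)) '' C i' j' := by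
  classical
  by_contra hc
  push Not at hc
  choose t ht hK using hc
  have inj : Function.Injective t := fun j j' e => h.sep j j' (t j) (ht j) (e ▸ ht j')
  obtain ⟨T, hT, hT'⟩ := h.few x hx fun s hs a => hn ⟨s, hs, Or.inl a⟩
  have key : ∀ j, ∃ k : I × Fin n × ℕ × ℕ, fl (-t j) x ∉ C₀ → (x ∈ N k.1 ∧
      ‖(κ k.1 x).2 - TopologicalSpace.denseSeq (Y m) k.2.2.1‖ = r k) ∧
      (κ k.1 x).1 = t j - c k.2.1 := by
    intro j
    rcases hK j with a | a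
    · exact ⟨(i₀, j, 0, 0), fun b => absurd a b⟩
    · simp only [mem_iUnion, mem_image] at a
      obtain ⟨i', j', z, hz, e⟩ := a
      have hw := h.win j _ (ht j)
      have hc := h.cw j'
      obtain ⟨p, hp⟩ := (hM i' j').2.2.2.2 z hz fun b => hn ⟨_, hw, Or.inr ⟨i', j', z, b, e.symm⟩⟩
      have e1 : x = Ps fl (g i') (t j - c j', z) := by
        have := fl_Ps h.hf (g i') (t j) (-c j', z)
        rw [e, ← h.hf.add, add_neg_cancel, h.hf.zero] at this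
        exact this
      obtain ⟨-, a2, a3⟩ := h.gm i' (t := t j - c j') (by linarith [hw.1, hc.2])
        (by linarith [hw.2, hc.1]) ((hM i' j').2.2.2.1 hz)
      rw [← e1] at a2 a3
      exact ⟨(i', j', p), fun _ => ⟨⟨a2, by rw [a3]; exact hp⟩, by rw [a3]⟩⟩
  choose k hk using key
  have c1 : (Finset.univ.filter fun j => fl (-t j) x ∈ C₀).card ≤ d₀ :=
    (Finset.card_le_card_of_injOn t (fun j hj => hT' _ (h.win j _ (ht j))
      (Finset.mem_filter.1 hj).2) inj.injOn).trans hT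
  have c2 : (Finset.univ.filter fun j => ¬ fl (-t j) x ∈ C₀).card ≤ 2 * m + 1 := by
    rw [← Finset.card_image_of_injOn (f := k)]
    · refine h.gen x hx _ fun a ha => ?_
      obtain ⟨j, hj, rfl⟩ := Finset.mem_image.1 ha
      exact (hk j (Finset.mem_filter.1 hj).2).1
    · intro j hj j' hj' e
      have a1 := (hk j (Finset.mem_filter.1 hj).2).2
      have a2 := (hk j' (Finset.mem_filter.1 hj').2).2
      rw [e, a2] at a1
      exact inj (by linarith)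
  have c3 := Finset.card_filter_add_card_filter_not (s := (Finset.univ : Finset (Fin n)))
    fun j => fl (-t j) x ∈ C₀
  rw [Finset.card_univ, Fintype.card_fin] at c3
  have := h.hn
  omega

/-- the markers of one more box -/
theorem step [Finite I] {O C : I → Fin n → Set (Y m)} (hM : Mk D r O C) (i : I) :
    ∃ O' C' : Fin n → Set (Y m), (∀ j, IsOpen (O' j) ∧ IsCompact (C' j) ∧ O' j ⊆ C' j ∧
      C' j ⊆ D i ∧ ∀ z ∈ C' j, z ∉ O' j →
        ∃ p : ℕ × ℕ, ‖z - TopologicalSpace.denseSeq (Y m) p.1‖ = r (i, j, p)) ∧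
      (∀ j, ∀ y ∈ C' j, ∀ t, |t - c j| ≤ H + 3 →
        fl (-t) (g i y) ∉ C₀ ∪ ⋃ i', ⋃ j', (fun z => Ps fl (g i') (-c j', z)) '' C i' j') ∧
      ∀ y ∈ B i, Hit U₀ fl g S c O (g i y) ∨ ∃ j, y ∈ O' j := by
  classical
  set K := C₀ ∪ ⋃ i', ⋃ j', (fun z => Ps fl (g i') (-c j', z)) '' C i' j' with hK
  have cK : IsClosed K := (h.hC.union (isCompact_iUnion fun i' => isCompact_iUnion fun j' =>
    (hM i' j').2.1.image ((h.cP i').comp (continuous_const.prodMk continuous_id)))).isClosed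
  have oG : ∀ j, IsOpen {y ∈ D i | ∀ t, |t - c j| ≤ H + 3 → fl (-t) (g i y) ∉ K} := by
    intro j
    refine isOpen_iff_mem_nhds.2 fun y hy => ?_
    have c1 : Continuous fun z : Y m × ℝ => Ps fl (g i) (-z.2, z.1) :=
      (h.cP i).comp (continuous_snd.neg.prodMk continuous_fst)
    have := (isCompact_closedBall (c j) (H + 3)).eventually_forall_of_forall_eventually
      (x₀ := y) (P := fun y t => fl (-t) (g i y) ∉ K) fun t ht =>
        (c1.continuousAt (x := (y, t))).eventually_mem (cK.isOpen_compl.mem_nhds (hy.2 t ht))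
    filter_upwards [(h.box i).oD.mem_nhds hy.1, this] with y' a b
    exact ⟨a, fun t ht => b t ht⟩
  have cR := (h.hB i).1.diff (h.hit_open hM i)
  have ch : ∀ y ∈ B i \ {y ∈ D i | Hit U₀ fl g S c O (g i y)}, ∃ k : Fin n × ℕ × ℕ,
      y ∈ ball (TopologicalSpace.denseSeq (Y m) k.2.1) (r (i, k)) ∧
      closedBall (TopologicalSpace.denseSeq (Y m) k.2.1) (r (i, k)) ⊆
        {y ∈ D i | ∀ t, |t - c k.1| ≤ H + 3 → fl (-t) (g i y) ∉ K} := by
    intro y hy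
    have hD := (h.hB i).2 hy.1
    obtain ⟨j, hj⟩ := h.free hM i (h.g0 i hD) fun a => hy.2 ⟨hD, a⟩
    obtain ⟨p, hp⟩ := small (fun p => r (i, j, p)) (h.rad i j) (oG j) (y := y) ⟨hD, hj⟩
    exact ⟨(j, p), hp⟩
  choose k hk1 hk2 using ch
  obtain ⟨T, hT⟩ := cR.elim_nhds_subcover'
    (fun y hy => ball (TopologicalSpace.denseSeq (Y m) (k y hy).2.1) (r (i, k y hy)))
    fun y hy => isOpen_ball.mem_nhds (hk1 y hy)
  refine ⟨fun j => ⋃ a ∈ T.filter fun a => (k a.1 a.2).1 = j,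
      ball (TopologicalSpace.denseSeq (Y m) (k a.1 a.2).2.1) (r (i, k a.1 a.2)),
    fun j => ⋃ a ∈ T.filter fun a => (k a.1 a.2).1 = j,
      closedBall (TopologicalSpace.denseSeq (Y m) (k a.1 a.2).2.1) (r (i, k a.1 a.2)),
    fun j => ⟨?_, ?_, ?_, ?_, fun z hz hz' => ?_⟩, fun j y hy t ht => ?_, fun y hy => ?_⟩
  · exact isOpen_biUnion fun _ _ => isOpen_ball
  · exact Finset.isCompact_biUnion _ fun _ _ => isCompact_closedBall _ _
  · exact iUnion₂_mono fun _ _ => ball_subset_closedBall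
  · exact iUnion₂_subset fun a _ y hy => (hk2 a.1 a.2 hy).1
  · obtain ⟨a, ha, hz⟩ := mem_iUnion₂.1 hz
    refine ⟨(k a.1 a.2).2, ?_⟩
    rw [← (Finset.mem_filter.1 ha).2, ← dist_eq_norm]
    exact le_antisymm hz (not_lt.1 fun b => hz' (mem_iUnion₂.2 ⟨a, ha, b⟩))
  · obtain ⟨a, ha, hy⟩ := mem_iUnion₂.1 hy
    exact (hk2 a.1 a.2 hy).2 t (by rwa [(Finset.mem_filter.1 ha).2])
  · by_cases a : Hit U₀ fl g S c O (g i y)
    · exact Or.inl a
    · obtain ⟨b, hb, hy⟩ := mem_iUnion₂.1 (hT (⟨hy, fun b => a b.2⟩ :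
        y ∈ B i \ {y ∈ D i | Hit U₀ fl g S c O (g i y)}))
      exact Or.inr ⟨_, mem_iUnion₂.2 ⟨b, Finset.mem_filter.2 ⟨hb, rfl⟩, hy⟩⟩

theorem all [Finite I] (s : Finset I) : ∃ O C : I → Fin n → Set (Y m), Mk D r O C ∧
    (∀ i ∉ s, ∀ j, O i j = ∅) ∧
    (∀ i j i' j', (i, j) ≠ (i', j') → ∀ y ∈ C i j, ∀ y' ∈ C i' j', ∀ t, |t| ≤ H + 3 →
      fl t (Ps fl (g i) (-c j, y)) ≠ Ps fl (g i') (-c j', y')) ∧
    (∀ i j, ∀ y ∈ C i j, ∀ t, |t| ≤ H + 3 → fl t (Ps fl (g i) (-c j, y)) ∉ C₀) ∧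
    ∀ i ∈ s, ∀ y ∈ B i, Hit U₀ fl g S c O (g i y) := by
  classical
  induction s using Finset.induction_on with
  | empty => exact ⟨fun _ _ => ∅, fun _ _ => ∅, fun i j => by simp, by simp, by simp, by simp,
      by simp⟩
  | insert i₀ s hi ih =>
    obtain ⟨O, C, hM, h0, h1, h2, h3⟩ := ih
    obtain ⟨O', C', k1, k2, k3⟩ := h.step hM i₀
    have e0 : ∀ j t y, fl t (Ps fl (g i₀) (-c j, y)) = fl (-(c j - t)) (g i₀ y) := fun j t y => by
      rw [fl_Ps h.hf]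
      show fl _ (g i₀ y) = _
      congr 1
      ring
    have e1 : ∀ j t, |t| ≤ H + 3 → |c j - t - c j| ≤ H + 3 := fun j t ht => by
      rwa [sub_sub_cancel_left, abs_neg]
    have k4 : ∀ j i' j', ∀ y ∈ C' j, ∀ y' ∈ C i' j', ∀ t, |t| ≤ H + 3 →
        fl t (Ps fl (g i₀) (-c j, y)) ≠ Ps fl (g i') (-c j', y') := fun j i' j' y hy y' hy' t ht e =>
      k2 j y hy _ (e1 j t ht) (Or.inr (mem_iUnion₂.2 ⟨i', j', y', hy', by rw [← e0, e]⟩))
    have mono : ∀ x, Hit U₀ fl g S c O x → Hit U₀ fl g S c (Function.update O i₀ O') x := by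
      rintro x ⟨t, ht, a | ⟨i', j', z, hz, e⟩⟩
      · exact ⟨t, ht, Or.inl a⟩
      · have : i' ≠ i₀ := by
          rintro rfl
          rw [h0 _ hi] at hz
          exact hz
        exact ⟨t, ht, Or.inr ⟨i', j', z, by rwa [Function.update_of_ne this], e⟩⟩
    refine ⟨Function.update O i₀ O', Function.update C i₀ C', fun i j => ?_, fun i hi' j => ?_,
      fun i j i' j' hne y hy y' hy' t ht => ?_, fun i j y hy t ht => ?_, fun i hi' y hy => ?_⟩
    · by_cases a : i = i₀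
      · subst a
        simpa only [Function.update_self] using k1 j
      · simpa only [Function.update_of_ne a] using hM i j
    · rw [Finset.mem_insert, not_or] at hi'
      rw [Function.update_of_ne hi'.1, h0 i hi'.2]
    · by_cases a : i = i₀ <;> by_cases a' : i' = i₀
      · subst a
        subst a'
        rw [Function.update_self] at hy hy'
        intro e
        have w := h.win j _ (e1 j t ht)
        have w' := h.cw j'
        have b1 := (h.gm i' (t := t + -c j) (by linarith [w.2]) (by linarith [w.1, h.S0])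
          ((k1 j).2.2.2.1 hy)).2.2
        have b2 := (h.gm i' (t := -c j') (by linarith [w'.2]) (by linarith [w'.1, h.S0])
          ((k1 j').2.2.2.1 hy')).2.2
        rw [fl_Ps h.hf] at e
        rw [e, b2] at b1
        have b3 : c j - t - c j' = 0 := by linarith [(Prod.ext_iff.1 b1).1]
        exact hne (by rw [h.sep j j' _ (e1 j t ht) (by rw [b3, abs_zero]; linarith [h.H0])])
      · subst a
        rw [Function.update_self] at hy
        rw [Function.update_of_ne a'] at hy'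
        exact k4 j i' j' y hy y' hy' t ht
      · subst a'
        rw [Function.update_self] at hy'
        rw [Function.update_of_ne a] at hy
        intro e
        refine k4 j' i j y' hy' y hy (-t) (by rwa [abs_neg]) ?_
        rw [← e, ← h.hf.add, neg_add_cancel, h.hf.zero]
      · rw [Function.update_of_ne a] at hy
        rw [Function.update_of_ne a'] at hy'
        exact h1 i j i' j' hne y hy y' hy' t ht
    · by_cases a : i = i₀
      · subst a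
        rw [Function.update_self] at hy
        rw [e0]
        exact fun b => k2 j y hy _ (e1 j t ht) (Or.inl b)
      · rw [Function.update_of_ne a] at hy
        exact h2 i j y hy t ht
    · rcases Finset.mem_insert.1 hi' with rfl | a
      · rcases k3 y hy with b | ⟨j, b⟩
        · exact mono _ b
        · exact ⟨c j, h.cw j, Or.inr ⟨i, j, y, by rwa [Function.update_self], rfl⟩⟩
      · exact mono _ (h3 i a y hy)

end Hy

end GutAux

theorem gut (hGen : GenStmt) : GutStmt := by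
  intro V _ _ m d₀ M U₀ C₀ l φ Z fl I _ g κ H S L D B N hf hH hS hL hb hB hC ho hT
  obtain ⟨r, hr, hg⟩ := hGen V m M l φ Z fl I g κ L D N (I × Fin (2 * m + 2 + d₀) × ℕ × ℕ)
    (fun k => k.1) (fun k => TopologicalSpace.denseSeq (Y m) k.2.2.1)
    (fun k => 1 / ((k.2.2.2 : ℝ) + 1) / 2) (fun k => 1 / ((k.2.2.2 : ℝ) + 1)) hf hb
    fun k => half_lt_self (by positivity)
  have h : GutAux.Hy d₀ M U₀ C₀ l φ Z fl g κ H S L D B N
      (fun j : Fin (2 * m + 2 + d₀) => (((j : ℕ) : ℝ) + 1 / 2) * (2 * H + 10)) r := by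
    refine ⟨hf, hH, by rw [hS]; positivity, hL, by omega, hb, hB, hC, ho, hT, fun j t ht => ?_,
      fun j j' t ht ht' => ?_, fun i j p => hr (i, j, p), hg⟩
    · have a0 : (0 : ℝ) ≤ (j : ℕ) := Nat.cast_nonneg _
      have a1 : ((j : ℕ) : ℝ) + 1 ≤ 2 * m + 2 + d₀ := by exact_mod_cast j.2
      have a2 := abs_le.1 ht
      have a3 := mul_le_mul_of_nonneg_right a1 (by linarith : 0 ≤ 2 * H + 10)
      have a4 := mul_nonneg a0 (by linarith : 0 ≤ 2 * H + 10)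
      exact ⟨by nlinarith [a2.1], by rw [hS]; nlinarith [a2.2]⟩
    · have key : ∀ a b : ℕ, |t - ((a : ℝ) + 1 / 2) * (2 * H + 10)| ≤ H + 3 →
          |t - ((b : ℝ) + 1 / 2) * (2 * H + 10)| ≤ H + 3 → a ≤ b := fun a b ha hb => by
        by_contra c
        have a1 : (b : ℝ) + 1 ≤ a := by exact_mod_cast not_le.1 c
        have a3 := mul_le_mul_of_nonneg_right a1 (by linarith : 0 ≤ 2 * H + 10)
        nlinarith [(abs_le.1 ha).1, (abs_le.1 hb).2]
      exact Fin.ext (le_antisymm (key _ _ ht ht') (key _ _ ht' ht))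
  have := Fintype.ofFinite I
  obtain ⟨O, C, hM, -, h1, h2, h3⟩ := h.all Finset.univ
  exact ⟨O, C, fun i j => ⟨(hM i j).1, (hM i j).2.1, (hM i j).2.2.1, (hM i j).2.2.2.1⟩, h1, h2,
    fun i => h3 i (Finset.mem_univ i)⟩

end Pool.Agent.MP_6d695c_gt.P

end PkGut

section PkBlow

/-! PROJECT P, row BLOW: a contact map is a homomorphism at small scales. -/

open scoped Manifold ContDiff Topology MeasureTheory
open Set Metric Filter Real

namespace Pool.Agent.MP_6d695c_gt.P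

open SW T1 Theta

namespace BlowAux

variable {m : ℕ}

theorem al0_def (z v : Y m) : al0 z v = v.1 + ∑ j, z.2.2 j * v.2.1 j := by
  simp [al0, Lt_apply]

theorem sum_le' {a b : Fin m → ℝ} {t α β : ℝ} (hm : (m : ℝ) ≤ t) (ha : ‖a‖ ≤ α) (hb : ‖b‖ ≤ β) :
    |∑ j, a j * b j| ≤ t * (α * β) := by
  have h0 := (norm_nonneg _).trans ha
  have h1 := (Nat.cast_nonneg m).trans hm
  refine (sum_le a b).trans ?_
  gcongr

theorem om_le {u v : Hor m} {t α β : ℝ} (hm : (m : ℝ) ≤ t) (hu : ‖u‖ ≤ α) (hv : ‖v‖ ≤ β) :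
    |om u v| ≤ 2 * (t * (α * β)) := by
  have h1 := sum_le' hm ((norm_snd_le u).trans hu) ((norm_fst_le v).trans hv)
  have h2 := sum_le' hm ((norm_fst_le u).trans hu) ((norm_snd_le v).trans hv)
  rw [om, Finset.sum_sub_distrib]
  exact (abs_sub _ _).trans (by linarith)

theorem om_sub (w v : Hor m) (τ : ℝ) : om (w - τ • v) v = om w v := by
  refine Finset.sum_congr rfl fun j _ => ?_
  simp only [Prod.fst_sub, Prod.snd_sub, Prod.smul_fst, Prod.smul_snd, Pi.sub_apply,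
    Pi.smul_apply, smul_eq_mul]
  ring

theorem hq_sub {u v : Hor m} {t α β : ℝ} (hm : (m : ℝ) ≤ t) (hu : ‖u‖ ≤ α) (hv : ‖v‖ ≤ α)
    (hd : ‖u - v‖ ≤ β) : |hq u - hq v| ≤ t * (α * β) := by
  have h1 := sum_le' hm ((norm_fst_le u).trans hu) ((norm_snd_le (u - v)).trans hd)
  have h2 := sum_le' hm ((norm_snd_le v).trans hv) ((norm_fst_le (u - v)).trans hd)
  have e : hq u - hq v = (∑ j, u.1 j * (u - v).2 j + ∑ j, v.2 j * (u - v).1 j) / 2 := by
    rw [hq, hq, ← sub_div, ← Finset.sum_sub_distrib, ← Finset.sum_add_distrib]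
    refine congrArg (· / 2) (Finset.sum_congr rfl fun j _ => ?_)
    simp only [Prod.fst_sub, Prod.snd_sub, Pi.sub_apply]
    ring
  have h3 := abs_add_le (∑ j, u.1 j * (u - v).2 j) (∑ j, v.2 j * (u - v).1 j)
  rw [e, abs_div, abs_two]
  linarith

/-- the derivative of the symmetric vertical coordinate along a curve -/
theorem der_th (g : Y m) {c : ℝ → Y m} {c' : Y m} {τ : ℝ} (hc : HasDerivAt c c' τ) :
    HasDerivAt (fun τ => (ldiv g (c τ)).1 + hq ((c τ).2 - g.2))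
      (al0 (c τ) c' - om ((c τ).2 - g.2) c'.2 / 2) τ := by
  have d1 : HasDerivAt (fun τ => (c τ).1) c'.1 τ := hc.fst
  have dq : ∀ j, HasDerivAt (fun τ => (c τ).2.1 j - g.2.1 j) (c'.2.1 j) τ := fun j =>
    (hasDerivAt_pi.1 hc.snd.fst j).sub_const _
  have db : ∀ j, HasDerivAt (fun τ => (c τ).2.2 j - g.2.2 j) (c'.2.2 j) τ := fun j =>
    (hasDerivAt_pi.1 hc.snd.snd j).sub_const _
  have d := ((d1.sub_const g.1).fun_add (HasDerivAt.fun_sum (u := Finset.univ) fun j _ =>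
    (dq j).const_mul (g.2.2 j))).fun_add ((HasDerivAt.fun_sum (u := Finset.univ) fun j _ =>
      (dq j).fun_mul (db j)).div_const 2)
  refine HasDerivAt.congr_deriv (by simpa only [ldiv_def, hq, Prod.fst_sub, Prod.snd_sub,
    Pi.sub_apply] using d) ?_
  rw [al0_def, om, add_assoc, add_sub_assoc, Finset.sum_div, Finset.sum_div,
    ← Finset.sum_add_distrib, ← Finset.sum_sub_distrib]
  refine congrArg _ (Finset.sum_congr rfl fun j _ => ?_)
  simp only [Prod.fst_sub, Prod.snd_sub, Pi.sub_apply]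
  ring

/-- the path from `0` to `dil s η` along which the contact form is constant -/
noncomputable def gam (s : ℝ) (η : Y m) (τ : ℝ) : Y m :=
  (τ * (s ^ 2 * (η.1 + hq η.2)) - τ ^ 2 * (s ^ 2 * hq η.2), τ • s • η.2)

noncomputable def gad (s : ℝ) (η : Y m) (τ : ℝ) : Y m :=
  (s ^ 2 * (η.1 + hq η.2) - 2 * τ * (s ^ 2 * hq η.2), s • η.2)

theorem gam_der (s : ℝ) (η : Y m) (τ : ℝ) : HasDerivAt (gam s η) (gad s η τ) τ := by
  have h1 := ((hasDerivAt_id τ).mul_const (s ^ 2 * (η.1 + hq η.2))).fun_sub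
    ((hasDerivAt_pow 2 τ).mul_const (s ^ 2 * hq η.2))
  have h2 := (hasDerivAt_id τ).smul_const (s • η.2)
  refine HasDerivAt.congr_deriv (h1.prodMk h2) ?_
  simp [gad]

theorem gam_zero (s : ℝ) (η : Y m) : gam s η 0 = 0 := by simp [gam]

theorem gam_one (s : ℝ) (η : Y m) : gam s η 1 = dil s η := by
  rw [gam, dil_def, one_smul]
  refine Prod.ext ?_ rfl
  simp only
  ring

theorem al0_gam (y : Y m) (s : ℝ) (η : Y m) (τ : ℝ) :
    al0 (mul y (gam s η τ)) (Lt y (gad s η τ)) = s ^ 2 * (η.1 + hq η.2) := by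
  simp only [al0_def, mul_def, Lt_apply, gam, gad, hq, Prod.snd_add, Pi.add_apply, add_mul,
    Finset.sum_add_distrib, Prod.smul_fst, Prod.smul_snd, Pi.smul_apply, smul_eq_mul]
  rw [Finset.sum_congr rfl fun j _ => show τ * (s * η.2.2 j) * (s * η.2.1 j) =
    τ * s ^ 2 * (η.2.1 j * η.2.2 j) by ring, ← Finset.mul_sum]
  ring

theorem main {t r s f : ℝ} {h : Y m → Y m} {y η : Y m} {e : Y m → ℝ} (hm : (m : ℝ) ≤ t)
    (ht : 1 ≤ t) (hs : 0 < s) (hr : 6 * t ^ 5 * s ≤ r) (hs1 : 52 * t ^ 11 * s ≤ 1)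
    (sm : ContDiff ℝ ∞ h) (hy : ‖y‖ ≤ t) (hhy : ‖h y‖ ≤ t) (hη : ‖η‖ ≤ t)
    (b1 : ∀ z, ‖z - y‖ ≤ r → ‖fderiv ℝ h z‖ ≤ t ∧ ‖fderiv ℝ (fderiv ℝ h) z‖ ≤ t) (ey : e y = f)
    (ct : ∀ z, ‖z - y‖ ≤ r → ∀ v, al0 (h z) (fderiv ℝ h z v) = e z * al0 z v) :
    ‖dil s⁻¹ (ldiv (h y) (h (mul y (dil s η)))) - hom (hA h y) f η‖ ≤ 1100 * t ^ 18 * s := by
  have t0 : 0 < t := by linarith
  have pw : ∀ a b : ℕ, a ≤ b → t ^ a ≤ t ^ b := fun a b hab => pow_le_pow_right₀ ht hab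
  have p1 : ∀ a : ℕ, 1 ≤ t ^ a := fun a => one_le_pow₀ ht
  have s1 : s ≤ 1 := by nlinarith [p1 11]
  have r0 : 0 ≤ r := le_trans (by positivity) hr
  have hu : ‖η.2‖ ≤ t := (norm_snd_le η).trans hη
  have hqu : |hq η.2| ≤ t ^ 3 := (hq_le _).trans (by
    calc (m : ℝ) * ‖η.2‖ ^ 2 ≤ t * t ^ 2 := by gcongr
      _ = t ^ 3 := by ring)
  have hζ : |η.1 + hq η.2| ≤ 2 * t ^ 3 := by
    have h1 : |η.1| ≤ t := (norm_fst_le η).trans hη
    have h2 := pw 1 3 (by norm_num)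
    have h3 := abs_add_le η.1 (hq η.2)
    rw [pow_one] at h2
    linarith
  have hsu : ‖s • η.2‖ ≤ t ^ 3 * s := by
    have h2 := pw 1 3 (by norm_num)
    rw [pow_one] at h2
    rw [norm_smul, Real.norm_of_nonneg hs.le, mul_comm]
    gcongr
    exact hu.trans h2
  have a1 : |s ^ 2 * (η.1 + hq η.2)| ≤ 2 * t ^ 3 * s ^ 2 := by
    rw [abs_mul, abs_of_nonneg (sq_nonneg s), mul_comm]
    gcongr
  have a2 : |s ^ 2 * hq η.2| ≤ t ^ 3 * s ^ 2 := by
    rw [abs_mul, abs_of_nonneg (sq_nonneg s), mul_comm]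
    gcongr
  have ss : t ^ 3 * s ^ 2 ≤ t ^ 3 * s := by
    gcongr
    nlinarith
  have s0 : 0 ≤ t ^ 3 * s := by positivity
  have hL : ∀ (z ξ : Y m) (α : ℝ), ‖z‖ ≤ t → ‖ξ‖ ≤ α → ‖Lt z ξ‖ ≤ 2 * t ^ 2 * α :=
    fun z ξ α hz hξ => (norm_Lt_le z ξ).trans (by
      have h1 : (m : ℝ) * ‖z‖ ≤ t * t := by gcongr
      have h2 := p1 2
      gcongr
      nlinarith)
  have g1 : ∀ τ ∈ Icc (0 : ℝ) 1, ‖gam s η τ‖ ≤ 3 * t ^ 3 * s := fun τ hτ => by
    refine max_le ?_ ?_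
    · change |τ * (s ^ 2 * (η.1 + hq η.2)) - τ ^ 2 * (s ^ 2 * hq η.2)| ≤ _
      refine (abs_sub _ _).trans ?_
      rw [abs_mul τ, abs_mul (τ ^ 2), abs_of_nonneg hτ.1, abs_of_nonneg (sq_nonneg τ)]
      have h1 := mul_le_of_le_one_left (abs_nonneg (s ^ 2 * (η.1 + hq η.2))) hτ.2
      have h2 := mul_le_of_le_one_left (abs_nonneg (s ^ 2 * hq η.2)) (pow_le_one₀ (n := 2) hτ.1 hτ.2)
      linarith
    · change ‖τ • s • η.2‖ ≤ _
      rw [norm_smul, Real.norm_of_nonneg hτ.1]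
      have h1 := mul_le_of_le_one_left (norm_nonneg (s • η.2)) hτ.2
      linarith
  have g2 : ∀ τ ∈ Icc (0 : ℝ) 1, |(gad s η τ).1| ≤ 4 * t ^ 3 * s ^ 2 := fun τ hτ => by
    change |s ^ 2 * (η.1 + hq η.2) - 2 * τ * (s ^ 2 * hq η.2)| ≤ _
    refine (abs_sub _ _).trans ?_
    rw [mul_assoc 2 τ, abs_mul 2, abs_mul τ, abs_two, abs_of_nonneg hτ.1]
    have h2 := mul_le_of_le_one_left (abs_nonneg (s ^ 2 * hq η.2)) hτ.2
    linarith
  have g3 : ∀ τ ∈ Icc (0 : ℝ) 1, ‖gad s η τ‖ ≤ 4 * t ^ 3 * s := fun τ hτ =>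
    max_le ((g2 τ hτ).trans (by linarith)) (hsu.trans (by linarith))
  have q1 : ∀ τ ∈ Icc (0 : ℝ) 1, ‖mul y (gam s η τ) - y‖ ≤ 6 * t ^ 5 * s := fun τ hτ => by
    rw [mul, add_sub_cancel_left]
    exact (hL _ _ _ hy (g1 τ hτ)).trans (le_of_eq (by ring))
  have q2 : ∀ τ ∈ Icc (0 : ℝ) 1, ‖Lt y (gad s η τ)‖ ≤ 8 * t ^ 5 * s := fun τ hτ =>
    (hL _ _ _ hy (g3 τ hτ)).trans (le_of_eq (by ring))
  have d1 : Differentiable ℝ h := sm.differentiable (by simp)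
  have d2 : Differentiable ℝ (fderiv ℝ h) :=
    (sm.fderiv_right (m := ∞) (by simp)).differentiable (by simp)
  have my : y ∈ closedBall y r := mem_closedBall_self r0
  have l1 : ∀ z, ‖z - y‖ ≤ 6 * t ^ 5 * s → ‖h z - h y‖ ≤ 6 * t ^ 6 * s := fun z hz =>
    ((convex_closedBall y r).norm_image_sub_le_of_norm_fderiv_le (𝕜 := ℝ) (fun x _ => d1 x)
      (fun x hx => (b1 x (mem_closedBall_iff_norm.1 hx)).1) my
      (mem_closedBall_iff_norm.2 (hz.trans hr))).trans (by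
        calc t * ‖z - y‖ ≤ t * (6 * t ^ 5 * s) := by gcongr
          _ = _ := by ring)
  have l2 : ∀ z, ‖z - y‖ ≤ 6 * t ^ 5 * s → ‖fderiv ℝ h z - fderiv ℝ h y‖ ≤ 6 * t ^ 6 * s :=
    fun z hz =>
    ((convex_closedBall y r).norm_image_sub_le_of_norm_fderiv_le (𝕜 := ℝ) (fun x _ => d2 x)
      (fun x hx => (b1 x (mem_closedBall_iff_norm.1 hx)).2) my
      (mem_closedBall_iff_norm.2 (hz.trans hr))).trans (by
        calc t * ‖z - y‖ ≤ t * (6 * t ^ 5 * s) := by gcongr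
          _ = _ := by ring)
  have Dy : ‖fderiv ℝ h y‖ ≤ t := (b1 y (by simpa using r0)).1
  have dc : ∀ τ, HasDerivAt (fun τ => h (mul y (gam s η τ)))
      (fderiv ℝ h (mul y (gam s η τ)) (Lt y (gad s η τ))) τ := fun τ =>
    (d1 _).hasFDerivAt.comp_hasDerivAt τ
      (((Lt y).hasFDerivAt.comp_hasDerivAt τ (gam_der s η τ)).const_add y)
  have dc2 : ∀ τ, HasDerivAt (fun τ => (h (mul y (gam s η τ))).2)
      (fderiv ℝ h (mul y (gam s η τ)) (Lt y (gad s η τ))).2 τ := fun τ => (dc τ).snd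
  have c1 : ∀ τ ∈ Icc (0 : ℝ) 1,
      ‖(fderiv ℝ h (mul y (gam s η τ)) (Lt y (gad s η τ))).2‖ ≤ 8 * t ^ 6 * s := fun τ hτ => by
    refine (norm_snd_le _).trans ((ContinuousLinearMap.le_opNorm _ _).trans ?_)
    calc _ ≤ t * (8 * t ^ 5 * s) := by
          gcongr
          exacts [(b1 _ ((q1 τ hτ).trans hr)).1, q2 τ hτ]
      _ = _ := by ring
  have w1 : ∀ τ ∈ Icc (0 : ℝ) 1, ‖(fderiv ℝ h (mul y (gam s η τ)) (Lt y (gad s η τ))).2 -
      s • hA h y η.2‖ ≤ 52 * t ^ 11 * s ^ 2 := fun τ hτ => by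
    have e1 : Lt y (gad s η τ) = ((gad s η τ).1, 0) + s • Lt y (0, η.2) := by
      rw [← map_smul, show gad s η τ = ((gad s η τ).1, 0) + s • ((0 : ℝ), η.2) by simp [gad],
        map_add]
      simp [Lt_apply]
    have e2 : (fderiv ℝ h (mul y (gam s η τ)) (Lt y (gad s η τ))).2 - s • hA h y η.2 =
        ((fderiv ℝ h (mul y (gam s η τ)) - fderiv ℝ h y) (Lt y (gad s η τ)) +
          fderiv ℝ h y ((gad s η τ).1, 0)).2 := by
      have e3 : fderiv ℝ h y (Lt y (gad s η τ)) =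
          fderiv ℝ h y ((gad s η τ).1, 0) + s • fderiv ℝ h y (Lt y (0, η.2)) := by
        rw [← map_smul, ← map_add, ← e1]
      rw [sub_apply, e3]
      simp [hA]
      abel
    rw [e2]
    refine (norm_snd_le _).trans ((norm_add_le _ _).trans ?_)
    have h1 : ‖(fderiv ℝ h (mul y (gam s η τ)) - fderiv ℝ h y) (Lt y (gad s η τ))‖ ≤
        6 * t ^ 6 * s * (8 * t ^ 5 * s) := (ContinuousLinearMap.le_opNorm _ _).trans (by
      gcongr
      exacts [l2 _ (q1 τ hτ), q2 τ hτ])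
    have h2 : ‖fderiv ℝ h y ((gad s η τ).1, 0)‖ ≤ t * (4 * t ^ 3 * s ^ 2) :=
      (ContinuousLinearMap.le_opNorm _ _).trans (by
        gcongr
        simpa using g2 τ hτ)
    have h3 : t ^ 4 * s ^ 2 ≤ t ^ 11 * s ^ 2 := by
      gcongr
      norm_num
    nlinarith
  have w2 : ∀ τ ∈ Icc (0 : ℝ) 1, ‖(h (mul y (gam s η τ))).2 - (h y).2 - τ • s • hA h y η.2‖ ≤
      52 * t ^ 11 * s ^ 2 := fun τ hτ => by
    have h1 := norm_image_sub_le_of_norm_deriv_le_segment' (a := 0) (b := 1)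
      (f := fun τ => (h (mul y (gam s η τ))).2 - τ • s • hA h y η.2)
      (fun x _ => ((dc2 x).sub
        ((hasDerivAt_id x).smul_const (s • hA h y η.2))).hasDerivWithinAt)
      (fun x hx => by
        rw [one_smul]
        exact w1 x (Ico_subset_Icc_self hx)) τ hτ
    rw [gam_zero, mul_zero', zero_smul, sub_zero, sub_zero, sub_right_comm] at h1
    exact h1.trans (mul_le_of_le_one_right (by positivity) hτ.2)
  have w3 : ∀ τ ∈ Icc (0 : ℝ) 1, |om ((h (mul y (gam s η τ))).2 - (h y).2)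
      (fderiv ℝ h (mul y (gam s η τ)) (Lt y (gad s η τ))).2| ≤ 1664 * t ^ 18 * s ^ 3 :=
    fun τ hτ => by
    rw [← om_sub _ _ τ]
    refine (om_le hm (α := 104 * t ^ 11 * s ^ 2) ?_ (c1 τ hτ)).trans (le_of_eq (by ring))
    have e1 : ∀ a b c : Hor m, a - τ • b = (a - τ • c) - τ • (b - c) := fun a b c => by
      rw [smul_sub]
      abel
    rw [e1 _ _ (s • hA h y η.2)]
    refine (norm_sub_le _ _).trans ?_
    rw [norm_smul τ, Real.norm_of_nonneg hτ.1]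
    have h1 := (mul_le_of_le_one_left (norm_nonneg _) hτ.2).trans (w1 τ hτ)
    linarith [w2 τ hτ]
  have nR : ‖eR m‖ ≤ 1 := by simp [eR]
  have e1 : ∀ z, ‖z - y‖ ≤ 6 * t ^ 5 * s → |e z - f| ≤ 18 * t ^ 8 * s := fun z hz => by
    have k1 := ct z (hz.trans hr) (eR m)
    have k2 := ct y (by simpa using r0) (eR m)
    have k3 : ∀ z : Y m, al0 z (eR m) = 1 := fun z => by simp [al0_def, eR]
    rw [k3, mul_one] at k1 k2
    have k4 : e z - f = al0 (h y) ((fderiv ℝ h z - fderiv ℝ h y) (eR m)) +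
        ∑ j, (h z - h y).2.2 j * (fderiv ℝ h z (eR m)).2.1 j := by
      rw [← ey, ← k1, ← k2, sub_apply, map_sub, al0_def (h z),
        al0_def (h y) (fderiv ℝ h z (eR m))]
      simp only [Prod.snd_sub, Pi.sub_apply, sub_mul, Finset.sum_sub_distrib]
      ring
    have k5 : ‖(fderiv ℝ h z - fderiv ℝ h y) (eR m)‖ ≤ 6 * t ^ 6 * s :=
      (ContinuousLinearMap.le_opNorm _ _).trans
        ((mul_le_of_le_one_right (norm_nonneg _) nR).trans (l2 z hz))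
    have k6 : |al0 (h y) ((fderiv ℝ h z - fderiv ℝ h y) (eR m))| ≤ 2 * t ^ 2 * (6 * t ^ 6 * s) :=
      (norm_fst_le (Lt (-h y) _)).trans (hL _ _ _ (by rwa [norm_neg]) k5)
    have k7 : ‖fderiv ℝ h z (eR m)‖ ≤ t := (ContinuousLinearMap.le_opNorm _ _).trans
      ((mul_le_of_le_one_right (norm_nonneg _) nR).trans (b1 z (hz.trans hr)).1)
    have k8 := sum_le' hm (((norm_snd_le _).trans (norm_snd_le _)).trans (l1 z hz))
      (((norm_fst_le _).trans (norm_snd_le _)).trans k7)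
    rw [k4]
    refine (abs_add_le _ _).trans ((add_le_add k6 k8).trans (le_of_eq (by ring)))
  have v1 : |(ldiv (h y) (h (mul y (dil s η)))).1 + hq ((h (mul y (dil s η))).2 - (h y).2) -
      f * (s ^ 2 * (η.1 + hq η.2))| ≤ 868 * t ^ 18 * s ^ 3 := by
    have h1 := norm_image_sub_le_of_norm_deriv_le_segment_01' (C := 868 * t ^ 18 * s ^ 3)
      (f := fun τ => (ldiv (h y) (h (mul y (gam s η τ)))).1 +
        hq ((h (mul y (gam s η τ))).2 - (h y).2) - τ * (f * (s ^ 2 * (η.1 + hq η.2))))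
      (fun x _ => ((der_th (h y) (dc x)).sub
        ((hasDerivAt_id x).mul_const (f * (s ^ 2 * (η.1 + hq η.2))))).hasDerivWithinAt)
      (fun x hx => by
        have hx' := Ico_subset_Icc_self hx
        rw [ct _ ((q1 x hx').trans hr), al0_gam, one_mul, sub_right_comm, ← sub_mul,
          Real.norm_eq_abs]
        refine (abs_sub _ _).trans ?_
        rw [abs_mul, abs_div, abs_two]
        have k1 : |e (mul y (gam s η x)) - f| * |s ^ 2 * (η.1 + hq η.2)| ≤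
            18 * t ^ 8 * s * (2 * t ^ 3 * s ^ 2) := by
          gcongr
          exact e1 _ (q1 x hx')
        have k2 : t ^ 11 * s ^ 3 ≤ t ^ 18 * s ^ 3 := by
          gcongr
          norm_num
        nlinarith [w3 x hx'])
    simpa only [gam_zero, gam_one, mul_zero', ldiv_self', sub_self, hq_zero, one_mul, zero_mul,
      Prod.fst_zero, add_zero, sub_zero, Real.norm_eq_abs] using h1
  have v2 : ‖s⁻¹ • ((h (mul y (dil s η))).2 - (h y).2) - hA h y η.2‖ ≤ 52 * t ^ 11 * s := by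
    have h1 := w2 1 ⟨zero_le_one, le_rfl⟩
    rw [gam_one, one_smul] at h1
    have e2 : s⁻¹ • ((h (mul y (dil s η))).2 - (h y).2) - hA h y η.2 =
        s⁻¹ • ((h (mul y (dil s η))).2 - (h y).2 - s • hA h y η.2) := by
      rw [smul_sub s⁻¹ _ (s • _), smul_smul, inv_mul_cancel₀ hs.ne', one_smul]
    rw [e2, norm_smul, Real.norm_of_nonneg (inv_nonneg.2 hs.le), inv_mul_le_iff₀ hs]
    exact h1.trans (le_of_eq (by ring))
  have v3 : ‖hA h y η.2‖ ≤ 2 * t ^ 4 := by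
    refine (norm_snd_le (fderiv ℝ h y (Lt y (0, η.2)))).trans
      ((ContinuousLinearMap.le_opNorm _ _).trans ?_)
    calc _ ≤ t * (2 * t ^ 2 * t) := by
          gcongr
          exact hL _ _ _ hy (by simpa using hu)
      _ = _ := by ring
  have v4 : ‖s⁻¹ • ((h (mul y (dil s η))).2 - (h y).2)‖ ≤ 3 * t ^ 4 := by
    have h1 := norm_le_insert' (s⁻¹ • ((h (mul y (dil s η))).2 - (h y).2)) (hA h y η.2)
    linarith [p1 4]
  have v5 := hq_sub hm v4 (v3.trans (by linarith [p1 4])) v2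
  have v6 : t ^ 11 * s ≤ t ^ 18 * s := by
    gcongr
    norm_num
  have v7 : t ^ 16 * s ≤ t ^ 18 * s := by
    gcongr
    norm_num
  have v8 : 0 ≤ t ^ 18 * s := by positivity
  refine max_le ?_ (v2.trans (by linarith))
  change |s⁻¹ ^ 2 * (ldiv (h y) (h (mul y (dil s η)))).1 -
    (f * (η.1 + hq η.2) - hq (hA h y η.2))| ≤ _
  have e2 : s⁻¹ ^ 2 * (ldiv (h y) (h (mul y (dil s η)))).1 -
      (f * (η.1 + hq η.2) - hq (hA h y η.2)) =
      s⁻¹ ^ 2 * ((ldiv (h y) (h (mul y (dil s η)))).1 + hq ((h (mul y (dil s η))).2 - (h y).2) -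
        f * (s ^ 2 * (η.1 + hq η.2))) -
      (hq (s⁻¹ • ((h (mul y (dil s η))).2 - (h y).2)) - hq (hA h y η.2)) := by
    rw [hq_smul]
    field_simp
    ring
  rw [e2]
  refine (abs_sub _ _).trans ?_
  have k1 : |s⁻¹ ^ 2 * ((ldiv (h y) (h (mul y (dil s η)))).1 +
      hq ((h (mul y (dil s η))).2 - (h y).2) - f * (s ^ 2 * (η.1 + hq η.2)))| ≤
      868 * t ^ 18 * s := by
    rw [abs_mul, abs_of_nonneg (sq_nonneg _), inv_pow, inv_mul_le_iff₀ (by positivity)]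
    exact v1.trans (le_of_eq (by ring))
  nlinarith

end BlowAux

theorem blow : BlowStmt := by
  intro m
  have m0 : (0 : ℝ) ≤ m := Nat.cast_nonneg m
  refine ⟨1100 * (m + 1) ^ 18, 18, by nlinarith [one_le_pow₀ (n := 18) (show (1 : ℝ) ≤ m + 1 by
    linarith)], fun C R s δ f h y η hC hR hs hδ hsm hc hη => ?_⟩
  obtain ⟨e, ey, ct⟩ := hc.ct
  have k0 : 1 ≤ C * R := by nlinarith
  have k1 : C ≤ (m + 1) * (C * R) := by nlinarith
  have k2 : R ≤ (m + 1) * (C * R) := by nlinarith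
  have k3 : (m : ℝ) ≤ (m + 1) * (C * R) := by nlinarith
  have k4 : 1100 * ((m + 1) * (C * R)) ^ 18 * s ≤ δ := by
    rw [mul_pow, ← mul_assoc]
    exact hsm
  generalize ((m : ℝ) + 1) * (C * R) = t at k1 k2 k3 k4
  have ht : 1 ≤ t := hC.trans k1
  have k5 : t ^ 11 * s ≤ t ^ 18 * s := by
    gcongr
    norm_num
  have k6 : t ^ 6 * s ≤ t ^ 18 * s := by
    gcongr
    norm_num
  have k7 : 0 ≤ t ^ 18 * s := by positivity
  refine (BlowAux.main (r := C⁻¹) k3 ht hs ?_ (by linarith) hc.sm (hc.b0.1.trans k1)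
    (hc.b0.2.trans k1) (hη.trans k2)
    (fun z hz => ⟨(hc.b1 z hz).1.trans k1, (hc.b1 z hz).2.trans k1⟩) ey ct).trans k4
  rw [inv_eq_one_div, le_div_iff₀ (by linarith)]
  calc 6 * t ^ 5 * s * C ≤ 6 * t ^ 5 * s * t := by gcongr
    _ = 6 * (t ^ 6 * s) := by ring
    _ ≤ 1 := by linarith

end Pool.Agent.MP_6d695c_gt.P

end PkBlow

section PkHolC

/-! PROJECT P, row HOLC: the holonomy maps are contact maps with uniform bounds. -/

open scoped Manifold ContDiff Topology MeasureTheory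
open Set Metric Filter Real

namespace Pool.Agent.MP_6d695c_gt.P

open SW T1 Theta

namespace HolCAux

variable {m : ℕ}

theorem bd {F : Type} [NormedAddCommGroup F] [NormedSpace ℝ F] {u : ℝ × Y m → F}
    (hu : ContDiff ℝ ∞ u) {K : Set (ℝ × Y m)} (hK : IsCompact K) : ∃ C, ∀ p ∈ K, ‖u p‖ ≤ C :=
  hK.exists_bound_of_continuousOn hu.continuous.continuousOn

/-- the first two derivatives of a smooth family are bounded on compact sets -/
theorem bd2 {h : ℝ → Y m → Y m} (hh : ContDiff ℝ ∞ fun p : ℝ × Y m => h p.1 p.2)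
    {K : Set (ℝ × Y m)} (hK : IsCompact K) :
    ∃ C, ∀ p ∈ K, ‖fderiv ℝ (h p.1) p.2‖ ≤ C ∧ ‖fderiv ℝ (fderiv ℝ (h p.1)) p.2‖ ≤ C := by
  have h1 : ContDiff ℝ ∞ fun p : ℝ × Y m => fderiv ℝ (h p.1) p.2 :=
    ContDiff.fderiv (f := fun (p : ℝ × Y m) (z : Y m) => h p.1 z) (m := ∞)
      (hh.comp (contDiff_fst.fst.prodMk contDiff_snd)) contDiff_snd (by simp)
  have h2 : ContDiff ℝ ∞ fun p : ℝ × Y m => fderiv ℝ (fderiv ℝ (h p.1)) p.2 :=
    ContDiff.fderiv (f := fun (p : ℝ × Y m) (z : Y m) => fderiv ℝ (h p.1) z) (m := ∞)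
      (h1.comp (contDiff_fst.fst.prodMk contDiff_snd)) contDiff_snd (by simp)
  obtain ⟨C₁, c1⟩ := bd h1 hK
  obtain ⟨C₂, c2⟩ := bd h2 hK
  exact ⟨max C₁ C₂, fun p hp => ⟨(c1 p hp).trans (le_max_left _ _),
    (c2 p hp).trans (le_max_right _ _)⟩⟩

variable {V : Type} [NormedAddCommGroup V] [NormedSpace ℝ V] {Z : V → V} {fl : ℝ → V → V}

theorem dPs (hf : IsFlow Z fl) {g : Y m → V} (hg : ContDiff ℝ ∞ g) (y w : Y m) :
    fderiv ℝ (Ps fl g) (0, y) (0, w) = fderiv ℝ g y w := by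
  have h1 : HasFDerivAt (fun q : ℝ × Y m => (q.1, g q.2)) _ (0, y) :=
    hasFDerivAt_fst.prodMk
      ((hg.differentiable (by simp) y).hasFDerivAt.comp ((0 : ℝ), y) hasFDerivAt_snd)
  have h2 := (hf.sm.differentiable (by simp) (0, g y)).hasFDerivAt.comp ((0 : ℝ), y) h1
  have h3 := T1.Lie.flow_fderiv hf 0 (g y) 0 (fderiv ℝ g y w)
  rw [show fl 0 = id from funext hf.zero, fderiv_id, zero_smul, zero_add] at h3
  rw [show fderiv ℝ (Ps fl g) (0, y) = _ from h2.fderiv]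
  exact h3

theorem lam_exp (x v : ℝ × Y m) : lam0 x v = exp x.1 * al0 x.2 v.2 := by simp [lam0]

theorem back_sm (hf : IsFlow Z fl) {g : Y m → V} (hg : ContDiff ℝ ∞ g) :
    ContDiff ℝ ∞ fun p : ℝ × Y m => fl (-p.1) (g p.2) :=
  hf.sm.comp (contDiff_fst.neg.prodMk (hg.comp contDiff_snd))

/-- the backward orbits depend uniformly on the starting point -/
theorem unif (hf : IsFlow Z fl) {g : Y m → V} (hg : ContDiff ℝ ∞ g) {K : Set (Y m)}
    (hK : IsCompact K) (a b : ℝ) {δ : ℝ} (hδ : 0 < δ) : ∃ r, 0 < r ∧ ∀ t ∈ Icc a b, ∀ y ∈ K,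
      ∀ z ∈ K, ‖z - y‖ ≤ r → ‖fl (-t) (g z) - fl (-t) (g y)‖ ≤ δ := by
  obtain ⟨r, hr, H⟩ := Metric.uniformContinuousOn_iff_le.1
    (((isCompact_Icc (a := a) (b := b)).prod hK).uniformContinuousOn_of_continuous
      (back_sm hf hg).continuous.continuousOn) δ hδ
  refine ⟨r, hr, fun t ht y hy z hz h => ?_⟩
  rw [← dist_eq_norm] at h ⊢
  exact H (t, z) ⟨ht, hz⟩ (t, y) ⟨ht, hy⟩ (by simpa [Prod.dist_eq] using h)

end HolCAux

open HolCAux

theorem holC (hNbr : NbrStmt) (hXBox : XBoxStmt) : HolCStmt := by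
  intro V E _ _ _ _ _ m M K' K'' l Pi φ Z fl I _ τ H S₀ S hA' hc hK hLie hT
  have hf := hc.flow
  have hρ := hT.ρpos
  have cp : ∀ i, IsCompact (cthickening (8 * τ.ρ) (τ.A i)) := fun i => (hT.cpt i).cthickening
  have bot : ∀ i, ∀ y ∈ cthickening (8 * τ.ρ) (τ.A i),
      ((0 : ℝ), y) ∈ τ.reg i (-1) (H + 1) 10 := fun i y hy => hT.bot (by norm_num) hy
  have sm : ∀ i j, ContDiff ℝ ∞ fun p : ℝ × Y m => hol fl τ i j p.1 p.2 := fun i j =>
    ((hT.box j).sκ.comp (back_sm hf (hT.box i).sg)).snd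
  obtain ⟨δ, hδ, nb⟩ := hNbr V m M K' K'' l φ Z fl I τ H S₀ 1 hf hT one_pos
  choose r hr hr' using fun i => unif hf (hT.box i).sg (cp i) (H - 1) S hδ
  choose C₁ hC₁ using fun i => (cp i).isBounded.exists_norm_le
  choose C₂ hC₂ using fun q : I × I => bd2 (h := hol fl τ q.1 q.2) (sm q.1 q.2)
    ((isCompact_Icc (a := H - 1) (b := S)).prod (cp q.1))
  obtain ⟨c, hc'⟩ := (finite_range fun q : I × I =>
    max (max (r q.1)⁻¹ (C₁ q.1)) (max (C₂ q) τ.ρ⁻¹)).bddAbove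
  have hb : ∀ i j, ((r i)⁻¹ ≤ c ∧ C₁ i ≤ c) ∧ C₂ (i, j) ≤ c ∧ τ.ρ⁻¹ ≤ c := fun i j => by
    simpa only [max_le_iff] using hc' ⟨(i, j), rfl⟩
  refine ⟨c, fun C hC e he => ?_⟩
  obtain ⟨i, y, k, j, h, f⟩ := e
  obtain ⟨t, y', a, -, r1, r2⟩ := he
  dsimp only at a r1 r2 ⊢
  subst r1 r2
  have my : y ∈ cthickening (8 * τ.ρ) (τ.A i) := cthickening_mono (by linarith) _ a.my
  have my' : y' ∈ cthickening (8 * τ.ρ) (τ.A j) := cthickening_mono (by linarith) _ a.my'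
  have e0 : hol fl τ i j t y = y' := a.hol_eq hf hT
  have t0 : 0 ≤ t := by linarith [a.mt.1, hT.Hle]
  have mz : ∀ z, ‖z - y‖ ≤ C⁻¹ → z ∈ cthickening (8 * τ.ρ) (τ.A i) := fun z hz => by
    have h1 : dist z y ≤ τ.ρ := by
      rw [dist_eq_norm]
      exact hz.trans (inv_le_of_inv_le₀ hρ ((hb i j).2.2.trans hC))
    have h2 := cthickening_cthickening_subset hρ.le (by linarith : 0 ≤ 7 * τ.ρ) (τ.A i)
      (mem_cthickening_of_dist_le z y τ.ρ _ a.my h1)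
    rwa [show τ.ρ + 7 * τ.ρ = 8 * τ.ρ by ring] at h2
  refine ⟨(sm i j).comp (contDiff_const.prodMk contDiff_id),
    ⟨(hC₁ i y my).trans ((hb i j).1.2.trans hC), ?_⟩, fun z hz => ?_,
    fun z => exp (-t - (τ.κ j (fl (-t) (τ.g i z))).1), ?_, fun z hz v => ?_⟩
  · rw [e0]
    exact (hC₁ j y' my').trans ((hb j j).1.2.trans hC)
  · have := hC₂ (i, j) (t, z) ⟨a.mt, mz z hz⟩
    exact ⟨this.1.trans ((hb i j).2.1.trans hC), this.2.trans ((hb i j).2.1.trans hC)⟩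
  · dsimp only
    rw [a.hit, ← Ps_zero hf (τ.g j), (hT.kap (bot j y' my')).2.2, sub_zero]
  · have hz' := mz z hz
    have k1 := hT.kap (bot i z hz')
    have lo := (hT.box i).low _ (hT.mem (bot i z hz'))
    rw [Ps_zero hf] at k1 lo
    have d0 := dPs hf (hT.box i).sg z v
    have tv : fderiv ℝ (τ.g i) z v ∈ Tg M (τ.g i z) := by
      have := (hT.box i).par.tg (hT.mem (bot i z hz'))
      rw [Ps_zero hf] at this
      rw [this]
      exact ⟨_, d0⟩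
    have lv : l (τ.g i z) (fderiv ℝ (τ.g i) z v) = al0 z v := by
      have := (hT.box i).form _ (hT.mem (bot i z hz')) (0, v)
      rwa [Ps_zero hf, d0, lam_exp, exp_zero, one_mul] at this
    obtain ⟨tw, lw, -⟩ := hLie _ k1.1 (-t) (fun s hs => by
      rw [uIcc_of_ge (by linarith)] at hs
      have := hK.back _ k1.1 (by linarith) (-s) (by linarith [hs.2])
      rw [neg_neg] at this
      exact this.trans_lt (max_lt (by linarith) (by norm_num))) _ tv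
    have xM : fl (-t) (τ.g i z) ∈ M := (hc.inv _ _ k1.1 (by linarith)).1
    have xN : fl (-t) (τ.g i z) ∈ τ.N j := (nb j _ (bot j y' my') _ xM (by
      rw [Ps_zero hf, ← a.hit]
      exact hr' i t a.mt y my z hz'
        (hz.trans (inv_le_of_inv_le₀ (hr i) ((hb i j).1.1.trans hC))))).1
    have fo := (hXBox V E m M l Pi φ fl _ _ _ _ _ _ (smp_of_amb hA') (hT.box j) _ xM xN).1 _ tw
    have ch : fderiv ℝ (hol fl τ i j t) z v = (fderiv ℝ (τ.κ j) (fl (-t) (τ.g i z))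
        (fderiv ℝ (fl (-t)) (τ.g i z) (fderiv ℝ (τ.g i) z v))).2 := by
      have c1 := ((hT.box i).sg.differentiable (by simp) z).hasFDerivAt
      have c2 := ((T1.Lie.flow_sm hf (-t)).differentiable (by simp) (τ.g i z)).hasFDerivAt
      have c3 := ((hT.box j).sκ.differentiable (by simp) (fl (-t) (τ.g i z))).hasFDerivAt
      have c4 := (c3.comp z (c2.comp z c1)).snd
      rw [show fderiv ℝ (hol fl τ i j t) z = _ from c4.fderiv]
      rfl
    rw [lw, lv, lam_exp, ← ch] at fo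
    change al0 (τ.κ j (fl (-t) (τ.g i z))).2 _ = exp (-t - (τ.κ j (fl (-t) (τ.g i z))).1) * _
    rw [exp_sub, div_mul_eq_mul_div, ← fo, mul_div_cancel_left₀ _ (exp_pos _).ne']

end Pool.Agent.MP_6d695c_gt.P

end PkHolC

section PkMastP

/-! PROJECT P, row MASTP: the plug does not depend on the slow function. -/

open scoped Topology ContDiff
open Set Filter Real

namespace Pool.Agent.MP_6d695c_gt.P

open SW T1 Theta T1.Mst

theorem mastP_of (calcP : T1.CalcStmt) : MastPStmt := by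
  intro m G h B r γ η un hη
  obtain ⟨N, hN, hZ⟩ := exists_zeta
  have hB := un.one
  have hγ := un.γpos
  obtain ⟨c, hc⟩ : ∃ c : ℝ, c = 1 / (48 * (m + 1)) := ⟨_, rfl⟩
  have hc0 : 0 < c := hc ▸ by positivity
  obtain ⟨A, hA, hAγ⟩ : ∃ A : ℝ, 0 < A ∧ 2 ≤ γ * A :=
    ⟨2 / γ, by positivity, by rw [mul_div_cancel₀ _ hγ.ne']⟩
  obtain ⟨T, t1, t2, t3, t4⟩ : ∃ T : ℝ, 14 ≤ T ∧ (384 * A + 1) * B + 1 ≤ T ∧
      48 * N * A * ((6 * (192 * A) + 19) * B ^ 4) ≤ T ∧ 768 * N * A * B ^ 3 / η ≤ T :=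
    ((eventually_ge_atTop _).and ((eventually_ge_atTop _).and ((eventually_ge_atTop _).and
      (eventually_ge_atTop _)))).exists
  have t0 : 0 < T := by linarith
  obtain ⟨s₀, h0, hs⟩ : ∃ s₀ : ℝ, 0 < s₀ ∧ s₀ * T ^ 2 = 24 * A :=
    ⟨24 * A / T ^ 2, by positivity, div_mul_cancel₀ _ (by positivity)⟩
  obtain ⟨ζ, hζ, z1, z2, z3⟩ := hZ s₀ h0
  obtain ⟨σ, ⟨s1, s2, s3, s4, s5⟩, hσ⟩ := (((ev_small B one_pos).and
    ((ev_small (2 * m * B) (half_pos hc0)).and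
    ((ev_small (1 + 48 * A * B + 2 * (192 * A) * B) (show 0 < c / 4 by positivity)).and
    ((ev_small (8 / c * (4 * T)) (half_pos hη)).and (ev_small (B ^ 2) hγ))))).and
    self_mem_nhdsWithin).exists
  replace hσ : 0 < σ := hσ
  rw [mul_comm] at s1 s2
  refine ⟨T ^ 2, σ, by nlinarith, hσ, fun ℓ hℓ hr => ?_⟩
  obtain ⟨a₀, ha, hg⟩ := exists_a un ℓ hA
  have a0 : 0 < a₀ := hA.trans_le ha.1
  have e1 : N * s₀ * ((6 * (192 * A) + 19) * B ^ 4) ≤ 1 / 2 := by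
    refine le_of_mul_le_mul_right ?_ (show 0 < T ^ 2 by positivity)
    have : N * s₀ * ((6 * (192 * A) + 19) * B ^ 4) * T ^ 2 =
        48 * N * A * ((6 * (192 * A) + 19) * B ^ 4) / 2 := by
      linear_combination N * ((6 * (192 * A) + 19) * B ^ 4) * hs
    nlinarith
  have RI := fun (x : ℝ × Y m) (hx : 2 * s₀ < ss a₀ ℓ x) =>
    regI calcP un hζ hℓ ha hA (hr x.2) hσ.le s1 hc s2 s3 (z2 _ hx)
  have RII := fun (x : ℝ × Y m) (hx : ss a₀ ℓ x ≤ 2 * s₀) =>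
    regII calcP un hζ hℓ ha hA (hr x.2) s1 e1 (hx.trans (mul_le_mul_of_nonneg_right hN h0.le))
      (z3 _ (ss_pos a0 x) hx)
  have d1 : 0 ≤ 4 * (N * s₀) * B ^ 3 := by positivity
  have d2 : 0 ≤ σ * (8 / c) := by positivity
  have two : ∀ {v w : ℝ}, 1 / 2 ≤ w → |v| ≤ 2 * (N * s₀) * B ^ 3 →
      |v| ≤ (4 * (N * s₀) * B ^ 3 + σ * (8 / c)) * w := fun hw hv => by nlinarith
  have flat : ∀ F, Flat G σ F → ∀ x : ℝ × Y m, |fderiv ℝ F x.2 (XY (ff ζ a₀ ℓ h) x).2| ≤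
      (4 * (N * s₀) * B ^ 3 + σ * (8 / c)) *
        fderiv ℝ (La (192 * A + 1) a₀ G ℓ) x (XY (ff ζ a₀ ℓ h) x) := fun F hF x => by
    rcases le_or_gt (ss a₀ ℓ x) (2 * s₀) with hx | hx
    · exact two (RII x hx).1 ((RII x hx).2.2 F hF)
    · have p0 : 0 ≤ ss a₀ ℓ x * ‖nab G x.2‖ ^ 2 := by have := ss_pos (ℓ := ℓ) a0 x; positivity
      have p1 := (le_add_of_nonneg_left (sq_nonneg _)).trans (RI x hx).1
      have p2 := mul_le_mul_of_nonneg_left p1 d2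
      have p3 : σ * (8 / c) * (c / 4 * (ss a₀ ℓ x * ‖nab G x.2‖ ^ 2)) =
          2 * σ * (ss a₀ ℓ x * ‖nab G x.2‖ ^ 2) := by
        field_simp
        ring
      have p4 := mul_nonneg d1 (le_trans (by positivity) p1)
      have p5 := (RI x hx).2.2.1 F hF
      linarith
  have zero : ∀ x : ℝ × Y m, ss a₀ ℓ x ≤ s₀ → ff ζ a₀ ℓ h x = 0 := fun x hx => by
    simp [ff, z1 _ hx]
  refine ⟨T, (384 * A + 1) * B, 4 * (N * s₀) * B ^ 3 + σ * (8 / c), ff ζ a₀ ℓ h,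
    La (192 * A + 1) a₀ G ℓ, ?_, fun u hu => ⟨ff_smooth hζ hℓ.sm un.cr.sh,
      La_smooth un.cr.sG hℓ.sm, by linarith,
      add_nonneg d1 d2, fun x hx => zero x ?_, fun x hx => zero x ?_, fun x => ?_, fun x => ?_,
      fun x _ => ?_, fun x _ => flat ℓ hℓ x, fun x _ => flat u hu x, fun x x1 x2 x3 => ?_⟩⟩
  rotate_left
  · refine (ss_le a0 x).trans (le_of_mul_le_mul_right ?_ (show 0 < T ^ 2 by positivity))
    have p1 : exp (-ℓ x.2) * T ^ 2 ≤ 1 := by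
      rw [exp_neg, inv_mul_le_iff₀ (exp_pos _)]
      linarith [add_one_le_exp (ℓ x.2)]
    nlinarith [mul_le_mul ha.2 p1 (by positivity) (by positivity)]
  · have p1 : T ^ 2 ≤ x.1 ^ 2 := by
      rw [← sq_abs x.1]
      exact pow_le_pow_left₀ t0.le hx 2
    rw [ss, div_le_iff₀ (by positivity)]
    nlinarith [E_le ha hA (hr x.2), mul_le_mul_of_nonneg_left p1 h0.le]
  · rcases le_or_gt (ss a₀ ℓ x) (2 * s₀) with hx | hx
    · exact Or.inl (lt_of_lt_of_le (by norm_num) (RII x hx).1)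
    · exact lyI calcP un hζ hℓ ha hA hr hσ.le s1 hc s2 s3 h0 z2 hg hx
  · rw [La, add_sub_cancel_left, abs_mul]
    refine mul_le_mul ?_ (un.bG x.2) (abs_nonneg _) (by positivity)
    have := abs_le.1 (abs_rr ha hA (hr x.2))
    exact abs_le.2 ⟨by linarith, by linarith⟩
  · rcases le_or_gt (ss a₀ ℓ x) (2 * s₀) with hx | hx
    · exact (abs_le.1 (two (RII x hx).1 (RII x hx).2.1)).1
    · have p0 : 0 ≤ ss a₀ ℓ x * ‖nab G x.2‖ ^ 2 := by have := ss_pos (ℓ := ℓ) a0 x; positivity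
      exact (neg_nonpos.2 (mul_nonneg (add_nonneg d1 d2)
        (le_trans (by positivity) (RI x hx).1))).trans (RI x hx).2.1
  · have p1 : x.1 ^ 2 ≤ 1 := by
      rw [← sq_abs x.1]
      exact pow_le_one₀ (abs_nonneg _) x1
    have p2 : 1 / 3 ≤ exp (-ℓ x.2) := by
      rw [exp_neg, one_div]
      exact inv_anti₀ (exp_pos _)
        ((exp_le_exp.2 x3).trans (exp_one_lt_d9.le.trans (by norm_num)))
    have p3 : A / 4 ≤ ss a₀ ℓ x := by
      rw [ss, le_div_iff₀ (by positivity)]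
      nlinarith [mul_le_mul ha.1 p2 (by norm_num) a0.le]
    have p4 : 2 * s₀ < ss a₀ ℓ x := by
      have : 196 ≤ T ^ 2 := by nlinarith
      nlinarith [mul_le_mul_of_nonneg_left this h0.le]
    have p5 : ‖nab G x.2‖ ^ 2 ≤ B ^ 2 := pow_le_pow_left₀ (norm_nonneg _) (un.bD x.2) 2
    have p6 : σ * ‖nab G x.2‖ ^ 2 ≤ γ := (mul_le_mul_of_nonneg_left p5 hσ.le).trans s5
    have p7 : 2 * π * G x.2 ≤ -(3 * γ) := by nlinarith [pi_gt_three]
    have p8 := (ss_pos (ℓ := ℓ) a0 x).le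
    refine (RI x p4).2.2.2.1.trans ?_
    nlinarith [mul_le_mul_of_nonneg_left p6 p8, mul_le_mul_of_nonneg_left p7 p8,
      mul_le_mul_of_nonneg_left p3 hγ.le]
  · have p1 : 4 * (N * s₀) * B ^ 3 * (4 * T) ≤ η / 2 := by
      refine le_of_mul_le_mul_right ?_ t0
      rw [div_le_iff₀ hη] at t4
      have : 4 * (N * s₀) * B ^ 3 * (4 * T) * T = 768 * N * A * B ^ 3 / 2 := by
        linear_combination 16 * N * B ^ 3 * hs
      linarith
    refine (mul_le_mul_of_nonneg_left (show _ ≤ 4 * T by linarith) (add_nonneg d1 d2)).trans ?_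
    linarith

theorem mastP : MastPStmt := mastP_of T1.calcP

end Pool.Agent.MP_6d695c_gt.P

end PkMastP

section PkCore

/-! PROJECT P: the assembly in the ambient space. -/

open scoped Manifold ContDiff Topology MeasureTheory
open Set Metric Filter Real

namespace Pool.Agent.MP_6d695c_gt.P

open SW T1 Theta

namespace CoreAux

theorem height (H₁ : ℝ) {f₀ : ℝ} (h : 0 < f₀) : ∃ H, 10 ≤ H ∧ H₁ ≤ H ∧ exp (-(H - 1)) ≤ f₀ := by
  refine ⟨max (max 10 H₁) (1 - log f₀), (le_max_left _ _).trans (le_max_left _ _),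
    (le_max_right _ _).trans (le_max_left _ _), ?_⟩
  rw [← le_log_iff_exp_le h]
  linarith [le_max_right (max 10 H₁) (1 - log f₀)]

theorem big (a b c d e : ℝ) (hc : 0 < c) (hd : 0 < d) (he : 0 < e) :
    ∃ C : ℝ, 1 ≤ C ∧ a ≤ C ∧ b ≤ C ∧ C⁻¹ ≤ c ∧ C⁻¹ ≤ d ∧ C⁻¹ ≤ e := by
  have h : ∀ x : ℝ, 0 < x → ∀ᶠ C : ℝ in atTop, C⁻¹ ≤ x := fun x hx =>
    tendsto_inv_atTop_zero.eventually (ge_mem_nhds hx)
  exact ((eventually_ge_atTop 1).and ((eventually_ge_atTop a).and ((eventually_ge_atTop b).and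
    ((h c hc).and ((h d hd).and (h e he)))))).exists

theorem idx (m : ℕ) {H t : ℝ} (hH : 10 ≤ H) (ht : t ≤ Sret m H + H + 3) :
    ⌊t / H⌋₊ < 6 * m + 9 := by
  rw [Nat.floor_lt' (by omega), div_lt_iff₀ (by linarith)]
  have : (0 : ℝ) ≤ m := m.cast_nonneg
  rw [Sret] at ht
  push_cast
  nlinarith

theorem len (m : ℕ) {H : ℝ} (hH : 10 ≤ H) : Sret m H ≤ ((7 * m + 8 : ℕ) : ℝ) * (H - 1) := by
  have : (0 : ℝ) ≤ m := m.cast_nonneg
  rw [Sret]
  push_cast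
  nlinarith

theorem tube {V : Type} [NormedAddCommGroup V] [NormedSpace ℝ V] {Z : V → V} {fl : ℝ → V → V}
    (hf : IsFlow Z fl) {φ : V → ℝ} (hφ : Continuous φ) (S : ℝ) :
    IsOpen {x | ∀ t, |t| ≤ S → φ (fl t x) < 1} := by
  refine isOpen_iff_mem_nhds.2 fun x hx => ?_
  have := (isCompact_Icc (a := -S) (b := S)).eventually_forall_of_forall_eventually (x₀ := x)
    (P := fun y t => φ (fl t y) < 1) fun t ht =>
      ((hφ.comp (hf.sm.continuous.comp continuous_swap)).continuousAt (x := (x, t))).eventually_lt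
        continuousAt_const (hx t (abs_le.2 ht))
  exact this.mono fun y hy t ht => hy t (abs_le.1 ht)

end CoreAux

open CoreAux in
theorem core (hKin : KinStmt) (hLie : P.LieStmt) (hDual : DualStmt) (hAttr : AttrStmt)
    (hNormK : NormKStmt) (hNormU : NormUStmt) (hMark : MarkStmt) (hHolC : HolCStmt)
    (hFrame : FrameStmt) (hCoh : CohStmt) (hEdge : EdgeStmt) (hCfg : CfgStmt) (hStk : StkStmt)
    (hGlob : GlobStmt) (hConf : ConfStmt) (hCyc : CycStmt) : CoreStmt := by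
  intro m
  obtain ⟨Cb, hCb, hFr⟩ := hFrame m
  obtain ⟨R₀, Cg, M₀, b, -, hCg, hcfg⟩ := hCfg m Cb (6 * m + 9) (7 * m + 8) hCb
  obtain ⟨H₁, κ, f₀, hκ, hf₀, hf₁, hstk⟩ := hStk m M₀ b R₀ Cg (by linarith)
  obtain ⟨C₀, k, hC₀, hcfg⟩ := hcfg κ hκ
  obtain ⟨H, hH, hHH, hHf⟩ := height H₁ hf₀
  have hS₀ : 0 < Sret m H := by
    rw [Sret]
    positivity
  have hS : 0 < Sret m H + H + 3 := by positivity
  refine ⟨1 / (4 * (Sret m H + H + 3)), 2 * Sret m H, by positivity, by positivity,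
    fun V _ _ _ M l Pi φ Z fl hA hC hR hAp => ?_⟩
  have hf := hC.flow
  have hs := smp_of_amb hA
  have kin := hKin V _ M l Pi φ Z fl hA hC
  have lie := hLie V _ M l Pi φ Z fl hA hC
  have hZ : ∀ x ∈ Ksk M φ fl, Z x ≠ 0 := fun x hx h0 =>
    hAp x hx _ (by positivity) le_rfl (hf.fix h0 _)
  obtain ⟨Q, hQ⟩ := hNormK V _ M l Pi φ Z fl _ (Sret m H + H + 3) hA hC kin lie hR
    (hDual V _ M l Pi φ Z fl _ hA hC kin lie hR) hZ (by positivity) hS.le
    (by field_simp; norm_num)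
  obtain ⟨U, hU, hKU, hQ⟩ := hNormU V _ M l Pi φ Z fl _ Q hA hC kin lie hZ hQ
  obtain ⟨L, hL⟩ := hAttr V _ M (U ∩ {x | ∀ t, |t| ≤ Sret m H → φ (fl t x) < 1}) l Pi φ Z fl hA hC
    kin (hU.inter (tube hf hA.sφ.continuous _)) fun x hx => ⟨hKU hx, fun t _ => by
      linarith [kin.low _ (kin.inv x hx t)]⟩
  obtain ⟨I, _, τ, hT⟩ := hMark V m M _ l Pi φ L Z fl H hA hC kin lie hL hH hAp fun x hx => hx.2
  have hKM : Kl M φ L 0 ⊆ M := fun x hx => hx.1
  have hK' : IsCompact (Kl M φ L 0) := by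
    convert (hA.cpt 2 (by norm_num)).inter_right (isClosed_le hL.sm.continuous continuous_const
      (g := fun _ => 0)) using 1
    exact Set.ext fun x => and_assoc.symm
  obtain ⟨C₁, hC₁⟩ := hHolC V _ m M _ _ l Pi φ Z fl I τ H _ (Sret m H + H + 3) hA hC kin lie hT
  obtain ⟨B, B', C₂, hC₂, hnrm⟩ := hFr V _ M U _ _ l Pi φ Z fl I τ H _ _ Q hA hC kin lie hT
    (fun x hx => (hL.sub ⟨hx.1, hx.2.1, hx.2.2.trans zero_le_one⟩).1) hQ
  obtain ⟨δ₁, hδ₁, hcoh⟩ := hCoh V (Euc (2 * m + 2)) m M _ _ l Pi φ Z fl I τ H _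
    (Sret m H + H + 3) hC hT
  obtain ⟨δ₂, hδ₂, hedge⟩ := hEdge V (Euc (2 * m + 2)) m (7 * m + 8) M _ _ l Pi φ Z fl I τ H _
    (Sret m H + H + 3) hC hT hKM (by omega) (len m hH)
  obtain ⟨C, c1, c2, c3, c4, c5, c6⟩ := big C₁ C₂ δ₁ δ₂ τ.ρ hδ₁ hδ₂ hT.ρpos
  have hSys : Sys τ.A τ.ρ B B' (links fl τ H (Sret m H + H + 3)) C Cb f₀ (6 * m + 9)
      (7 * m + 8) :=
    ⟨hT.cpt, c6, hC₂ C c3, fun e ⟨t, y', a, e1, e2, e3⟩ => ⟨a.my, by
        rw [e2, a.hol_eq hf hT]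
        exact a.my', e1 ▸ idx m hH a.mt.2, e3 ▸ exp_pos _,
        e3 ▸ (exp_le_exp.2 (by linarith [a.mt.1])).trans hHf⟩, hC₁ C c2, hnrm,
      fun e he e' he' h1 h2 h3 => hcoh e he e' he' h1 h2 (h3.trans c4),
      fun e he h => hedge e he fun a ha => ⟨(h a ha).1, (h a ha).2.trans c5⟩⟩
  have hp : 0 < C₀ * C ^ k := by positivity
  obtain ⟨ι, _, tw, η, ζ, act, col, P, rk, hcf⟩ := hcfg I τ.A τ.ρ B B' _ C f₀ (C₀ * C ^ k)⁻¹ c1 hSys
    hf₁ hf₀.le (inv_pos.2 hp) (mul_inv_cancel₀ hp.ne').le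
  choose F Λ hF using fun i => hstk {c // tw c = i} (fun c => η c) (fun c => ζ c) (fun c => act c)
    (fun c => col c) (fun c => P c) (hcf.nod i) (fun c => hcf.good c) (fun c => hcf.lt c)
    fun c c' h => hcf.sep c c' (fun e => h (Subtype.ext e)) (c.2.trans c'.2.symm)
  obtain ⟨G, hG⟩ := hGlob V _ m M _ _ l Pi φ Z fl I τ H _ F Λ hs hf hT fun i =>
    ⟨(hF i).sF, (hF i).sΛ, (hF i).lyap, fun x hx => (hF i).out x (by
      by_contra c
      push Not at c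
      obtain ⟨h1, h2, c, h3, h4⟩ := c
      refine hx ⟨⟨by linarith, by linarith⟩, ?_⟩
      have := hcf.supp c x.2 h3 (by linarith)
      rwa [c.2] at this)⟩
  have hsup : ∀ x ∈ Supp fl τ H, φ x < 1 ∧ L x ≤ -(1 / 2) := fun x hx => by
    obtain ⟨i, q, hq, rfl⟩ := mem_iUnion.1 hx
    have h := TD.reg_mono hT.ρpos.le i (a' := -1) (b' := H + 1) (k' := 10) (by norm_num)
      (by linarith) (by norm_num) hq
    exact ⟨(hT.box i).low q (hT.mem h), (hT.ins i q h).2.2⟩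
  have hX : ∀ x ∈ M, x ∉ Supp fl τ H → Pi x (l x + fderiv ℝ G x) = Pi x (l x) := fun x hx h =>
    hs.congr hx fun v hv => by
      have := fderiv_congr_tg (hG.sm.differentiable (by simp) x) (differentiableAt_const 0) hx
        (hG.out x hx h) hv
      simpa using this
  have hXZ : ∀ x ∈ M, φ x ≤ 2 → x ∉ Supp fl τ H → Pi x (l x + fderiv ℝ G x) = Z x :=
    fun x hx h2 h => (hX x hx h).trans (hC.eq x hx (by linarith)).symm
  obtain ⟨𝒵, hfin, hgood, hzer⟩ := hG.zer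
  obtain ⟨ε₁, hε₁, hconf⟩ := hConf V M _ φ L Z (fun x => Pi x (l x + fderiv ℝ G x)) fl hL
    (hA.cpt 2 (by norm_num)) fun x hx h2 h => hXZ x hx h2 fun c => by linarith [(hsup x c).2]
  obtain ⟨Φ, A, B₀, h1, h2, h3, h4⟩ := SW.lyap aflow V _ M 𝒵 (fun x => Pi x (l x + fderiv ℝ G x)) φ
    hA.sub (hA.sP.clm_apply (hA.sl.add (hG.sm.fderiv_right (m := ∞) (by simp)))) hA.sφ
    (fun x hx => hA.tan x hx _) (hA.cpt 5 (by norm_num))
    (fun x hx h => by
      rw [hX x hx fun c => by linarith [(hsup x c).1]]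
      exact hA.shell x hx (by linarith)) hfin hgood fun x₀ _ _ h0 => by
      obtain ⟨ε₂, hε₂, hcyc⟩ := hCyc V m M _ _ l φ Z (fun x => Pi x (l x + fderiv ℝ G x)) fl I τ H
        H₁ _ R₀ Cg f₀ κ M₀ b ι tw η ζ act col P rk F Λ x₀ hf hT hK' hKM
        (fun x hx h => hXZ x hx.1 hx.2.1 h) hG.ins hκ hHH hcf hF
        fun i q hq h e => h0 (e ▸ hzer i q hq h)
      exact ⟨min ε₁ ε₂, lt_min hε₁ hε₂, fun c hc => hcyc c ⟨hc.cont, hc.per, hconf c
        ⟨hc.cont, hc.per, hc.mem, fun t => (hc.near t).mono (min_le_left _ _)⟩,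
        fun t => (hc.near t).mono (min_le_right _ _)⟩⟩
  exact ⟨A, B₀, G, Φ, h2, hG.sm, h1, fun q hq h => hG.out q hq fun c => by linarith [(hsup q c).1],
    fun q _ h => h3 q h, h4⟩

end Pool.Agent.MP_6d695c_gt.P

end PkCore

section PkFinal

/-! PROJECT P: from the ambient space to the manifold. -/

open scoped Manifold ContDiff Topology MeasureTheory
open Set Metric Filter Real

namespace Pool.Agent.MP_6d695c_gt.P

open SW T1 Theta

theorem final (hCore : CoreStmt) (hSkF : SkFStmt) (hHyp : HypStmt) (m : ℕ) :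
    ∃ ε T : ℝ, 0 < ε ∧ 0 < T ∧ ∀ (W : Type) [TopologicalSpace W] [ChartedSpace (Euc (2 * m + 2)) W]
      [IsManifold (𝓡 (2 * m + 2)) ∞ W] [T2Space W] (l : OneForm (𝓡 (2 * m + 2)) W)
      (Z : VField (𝓡 (2 * m + 2)) W) (F : ℝ → W → W), IsLiouville (𝓡 (2 * m + 2)) l Z →
      LiouvilleMfd (𝓡 (2 * m + 2)) l → FlowOf Z F → SlowBack (2 * m + 2) F (skeleton Z) ε →
      NoShort F (skeleton Z) T →
      ∃ l₁, Homotopic (𝓡 (2 * m + 2)) l l₁ ∧ WeinsteinMfd (𝓡 (2 * m + 2)) l₁ := by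
  obtain ⟨ε, T, hε, hT, core⟩ := hCore m
  refine ⟨ε, T, hε, hT, fun W _ _ _ _ l Z F hZ h hF hS hN => ?_⟩
  obtain ⟨Z', φ₀, K, hL, hex, hKc, hpos⟩ := h
  obtain rfl : Z' = Z := funext fun x => by
    have key : ∀ a b v : Euc (2 * m + 2), dForm (𝓡 (2 * m + 2)) l x (a - b) v =
        dForm (𝓡 (2 * m + 2)) l x a v - dForm (𝓡 (2 * m + 2)) l x b v := fun a b v => by
      simp only [dForm, map_sub, sub_apply]
      ring
    exact sub_eq_zero.1 (hZ.nondeg x _ fun v =>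
      (key (Z' x) (Z x) v).trans (sub_eq_zero.2 ((hL.dual x v).trans (hZ.dual x v).symm)))
  obtain ⟨N, φ, e, l', Pi, φ', hE⟩ := emb _ W l Z' φ₀ K ⟨hL.smooth, hL.nondeg, hL.dual⟩ hex hKc hpos
  have a := hE.amb
  have hA : Amb (Euc (2 * m + 2)) (e '' {x | φ x < 6}) l' Pi φ' (1 / 2) :=
    ⟨a.sub, a.sl, a.sP, a.sφ, a.tan, a.dual, a.cpt, a.nn, fun x hx h => a.shell x hx (by linarith)⟩
  obtain ⟨Y, -, fl, h1, -, h2, h3, h4⟩ := aflow _ _ _ (fun x => Pi x (l' x)) φ' 4 a.sub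
    (a.sP.clm_apply a.sl) a.sφ (fun x hx => a.tan x hx _) (a.cpt _ (by norm_num))
  have hC : T1.Cut (e '' {x | φ x < 6}) l' Pi φ' Y fl :=
    ⟨h1, h2, h3, fun t x hx h => by
      have := h4 t x hx (by linarith)
      exact ⟨this.1, by linarith [this.2]⟩⟩
  obtain ⟨A, B, G, Φ, hW⟩ := core _ _ l' Pi φ' Y fl hA hC
    (hHyp _ W _ l Z' φ e l' Pi φ' F Y fl ε hE hF hC hS) fun x' hx' t h0 ht c => by
      obtain ⟨x, hx, rfl, h⟩ := hSkF _ W _ l Z' φ e l' Pi φ' F Y fl hE hF hC x' hx'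
      have h6 : φ x < 6 := by
        have := (h 0).1
        rw [(hF x).1] at this
        linarith
      obtain ⟨ρ, -, hρ⟩ := hE.inv x h6
      have h7 := hρ.self_of_nhds
      exact hN x hx t h0 ht ((h7 _ (by linarith [(h t).1])
        ((h t).2.self_of_nhds.2.trans c)).symm.trans (h7 x h6 rfl))
  exact finG _ _ (𝓡 (2 * m + 2)) W _ _ l Z' φ e l' Pi φ' G Φ A B hL
    ⟨hE.ex, fun x hx => hE.shell x (by linarith), hE.sm, smp_of_amb a, a.sφ, hE.fn, hE.form, hE.tg,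
      hE.inj, hE.inv⟩ hW

end Pool.Agent.MP_6d695c_gt.P

end PkFinal
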