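import Pool.Agent.MP_6d695c_gt.q.A
import Pool.Agent.MP_6d695c_gt.q.B
import Pool.Agent.MP_6d695c_gt.q.C
import Pool.Agent.MP_6d695c_gt.q.D
import Pool.Agent.MP_6d695c_gt.q.E
import Pool.Agent.MP_6d695c_gt.q.F

/-! Slow skeleta: the assembly. -/

open scoped Manifold ContDiff

namespace Pool.Agent.MP_6d695c_gt.P

open SW T1

theorem aSBox : P.SBoxStmt :=
  P.sbox P.darbN

theorem aGut : P.GutStmt :=
  P.gut P.gen

theorem aMark : P.MarkStmt :=
  P.mark aSBox P.lbox aGut P.recent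

theorem aHolC : P.HolCStmt :=
  P.holC P.nbr P.xbox

theorem aFrame : P.FrameStmt :=
  P.frame P.la1 P.la2 P.symH aHolC P.nbr P.xbox

theorem aCoh : P.CohStmt :=
  P.coh P.nbr

theorem aEdge : P.EdgeStmt :=
  P.edge P.nbr

theorem aNet : P.NetStmt :=
  P.net P.geo

theorem aNodes : P.NodesStmt :=
  P.nodes aNet P.geo P.col

theorem aSheet : P.SheetStmt :=
  P.sheet P.blow P.symH

theorem aCfg : P.CfgStmt :=
  P.cfg aNodes P.geo aSheet P.rank P.autE

theorem aRawP : P.RawPStmt :=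
  P.rawP P.mastP P.trfP

theorem aCat : P.CatStmt :=
  P.cat aRawP P.shN

theorem aLay : P.LayStmt :=
  P.lay aCat P.psi P.place P.sumP P.rob

theorem aStk : P.StkStmt :=
  P.stk aLay P.join

theorem aGlob : P.GlobStmt :=
  P.glob P.xbox

theorem aLast : P.LastStmt :=
  P.last P.shad P.nbr

theorem aPrev : P.PrevStmt :=
  P.prev aLast P.shad P.nbr

theorem aBack : P.BackStmt :=
  P.back P.nbr

theorem aCyc : P.CycStmt :=
  P.cyc aLast aPrev aBack P.noCyc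

theorem aCore : P.CoreStmt :=
  P.core P.kin P.lieP P.dualP P.attr P.normK P.normU aMark aHolC
    aFrame aCoh aEdge aCfg aStk aGlob P.conf aCyc

theorem aHyp : P.HypStmt :=
  P.hyp P.skF

theorem all (m : ℕ) :
    ∃ ε T : ℝ, 0 < ε ∧ 0 < T ∧ ∀ (W : Type) [TopologicalSpace W] [ChartedSpace (Euc (2 * m + 2)) W]
      [IsManifold (𝓡 (2 * m + 2)) ∞ W] [T2Space W] (l : OneForm (𝓡 (2 * m + 2)) W)
      (Z : VField (𝓡 (2 * m + 2)) W) (F : ℝ → W → W), IsLiouville (𝓡 (2 * m + 2)) l Z →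
      LiouvilleMfd (𝓡 (2 * m + 2)) l → FlowOf Z F → SlowBack (2 * m + 2) F (skeleton Z) ε →
      NoShort F (skeleton Z) T →
      ∃ l₁, Homotopic (𝓡 (2 * m + 2)) l l₁ ∧ WeinsteinMfd (𝓡 (2 * m + 2)) l₁ :=
  final aCore P.skF aHyp m

end Pool.Agent.MP_6d695c_gt.P
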