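import Pool.Agent.MP_6d695c_gt.t1.All

/-! Slow skeleta: definitions, statements of the steps, small lemmas. -/

section PkDefs

/-! PROJECT P: definitions.  See /team-store/P_6d695c_BLUEPRINT.md. -/

open scoped Manifold ContDiff Topology MeasureTheory
open Set Metric Filter Real

namespace Pool.Agent.MP_6d695c_gt.P

open SW T1 Theta

noncomputable section

/-! ### The hypotheses on the manifold -/

section Mfd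
variable {d : ℕ} {W : Type} [TopologicalSpace W] [ChartedSpace (EuclideanSpace ℝ (Fin d)) W]

/-- `F` is the flow of `Z`. -/
def FlowOf (Z : VField (𝓡 d) W) (F : ℝ → W → W) : Prop :=
  ∀ x, F 0 x = x ∧ IsMIntegralCurve (fun t => F t x) Z

/-- The derivative at `x` in the direction `v` of a map to the model space. -/
def dE (f : W → EuclideanSpace ℝ (Fin d)) (x : W) (v : TangentSpace (𝓡 d) x) :
    EuclideanSpace ℝ (Fin d) := mfderiv (𝓡 d) (𝓡 d) f x v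

variable (d) in
/-- Along the orbits in `K` the differential of the backward flow grows at most like `exp (ε t)`;
the norms are those of the charts at `p` and `q`, for orbits from near `p` to near `q`. -/
def SlowBack (F : ℝ → W → W) (K : Set W) (ε : ℝ) : Prop :=
  ∀ p q : W, ∃ C : ℝ, ∀ᶠ z : W × W in 𝓝 (p, q), z.1 ∈ K → ∀ t : ℝ, 0 ≤ t → F (-t) z.1 = z.2 →
    ∀ v : TangentSpace (𝓡 d) z.1, ‖dE (fun y => extChartAt (𝓡 d) q (F (-t) y)) z.1 v‖ ≤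
      C * exp (ε * t) * ‖dE (extChartAt (𝓡 d) p) z.1 v‖

omit [TopologicalSpace W] in
/-- No point of `K` is fixed or has a period at most `T`. -/
def NoShort (F : ℝ → W → W) (K : Set W) (T : ℝ) : Prop :=
  ∀ x ∈ K, ∀ t : ℝ, 0 < t → t ≤ T → F t x ≠ x

end Mfd

/-! ### The hypotheses in the ambient space -/

section Amb
variable {V : Type} [NormedAddCommGroup V] [NormedSpace ℝ V]

omit [NormedAddCommGroup V] [NormedSpace ℝ V] in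
/-- the skeleton -/
def Ksk (M : Set V) (φ : V → ℝ) (fl : ℝ → V → V) : Set V := {x ∈ M | ∀ t, 0 ≤ t → φ (fl t x) ≤ 2}

/-- slow growth of the backward flow on `ker l / Z` -/
def Rate (M : Set V) (l : V → V →L[ℝ] ℝ) (φ : V → ℝ) (Z : V → V) (fl : ℝ → V → V) (ε : ℝ) :
    Prop :=
  ∃ C : ℝ, ∀ x ∈ Ksk M φ fl, ∀ t, 0 ≤ t → ∀ v ∈ Tg M x, l x v = 0 →
    ∃ a : ℝ, ‖fderiv ℝ (fl (-t)) x v - a • Z (fl (-t) x)‖ ≤ C * exp (ε * t) * ‖v‖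

/-- the dual bound for the forward flow -/
def RateF (M : Set V) (l : V → V →L[ℝ] ℝ) (φ : V → ℝ) (Z : V → V) (fl : ℝ → V → V) (ε : ℝ) :
    Prop :=
  ∃ C : ℝ, ∀ x ∈ Ksk M φ fl, ∀ t, 0 ≤ t → ∀ v ∈ Tg M x, l x v = 0 →
    ∃ a : ℝ, ‖fderiv ℝ (fl t) x v - a • Z (fl t x)‖ ≤ C * exp ((1 + ε) * t) * ‖v‖

omit [NormedAddCommGroup V] [NormedSpace ℝ V] in
/-- no zero and no short closed orbit -/
def Aper (M : Set V) (φ : V → ℝ) (fl : ℝ → V → V) (T : ℝ) : Prop :=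
  ∀ x ∈ Ksk M φ fl, ∀ t, 0 < t → t ≤ T → fl t x ≠ x

/-- elementary facts on the flow -/
structure Kin (M : Set V) (φ : V → ℝ) (fl : ℝ → V → V) : Prop where
  cpt : IsCompact (Ksk M φ fl)
  inv : ∀ x ∈ Ksk M φ fl, ∀ t, fl t x ∈ Ksk M φ fl
  low : ∀ x ∈ Ksk M φ fl, φ x ≤ 1 / 2
  back : ∀ x ∈ M, φ x ≤ 4 → ∀ t, 0 ≤ t → φ (fl (-t) x) ≤ max (φ x) (1 / 2)
  per : ∀ x ∈ M, φ x ≤ 2 → ∀ t, 0 < t → fl t x = x → x ∈ Ksk M φ fl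

/-- the flow scales `l` and `d l` -/
def Lie (M : Set V) (l : V → V →L[ℝ] ℝ) (φ : V → ℝ) (fl : ℝ → V → V) : Prop :=
  ∀ x ∈ M, ∀ t, (∀ s ∈ uIcc 0 t, φ (fl s x) < 4) → ∀ v ∈ Tg M x,
    fderiv ℝ (fl t) x v ∈ Tg M (fl t x) ∧ l (fl t x) (fderiv ℝ (fl t) x v) = exp t * l x v ∧
    ∀ w ∈ Tg M x, dd l (fl t x) (fderiv ℝ (fl t) x v) (fderiv ℝ (fl t) x w) = exp t * dd l x v w

omit [NormedAddCommGroup V] [NormedSpace ℝ V] in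
/-- a sublevel set of `L` -/
def Kl (M : Set V) (φ L : V → ℝ) (c : ℝ) : Set V := {x ∈ M | φ x ≤ 2 ∧ L x ≤ c}

/-- a function that grows like the time outside a small neighbourhood of the skeleton -/
structure Attr (M : Set V) (φ : V → ℝ) (Z : V → V) (fl : ℝ → V → V) (U : Set V) (L : V → ℝ) :
    Prop where
  sm : ContDiff ℝ ∞ L
  sub : Kl M φ L 1 ⊆ U
  up : ∀ x ∈ M, φ x ≤ 2 → -1 ≤ L x → 1 ≤ fderiv ℝ L x (Z x)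
  back : ∀ x ∈ M, φ x ≤ 2 → ∀ t, 0 ≤ t → L (fl (-t) x) ≤ max (L x - t) (-1)

/-- a two-sided Lyapunov form on `ker l / Z` over `U`; the bounds hold on `K` up to the time `S` -/
structure LyQ (M : Set V) (l : V → V →L[ℝ] ℝ) (Z : V → V) (fl : ℝ → V → V) (S : ℝ) (U K : Set V)
    (c : ℝ) (Q : V → V →L[ℝ] V →L[ℝ] ℝ) : Prop where
  cont : ContinuousOn Q U
  symm : ∀ x v w, Q x v w = Q x w v
  nn : ∀ x v, 0 ≤ Q x v v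
  kill : ∀ x ∈ U, ∀ v, Q x (Z x) v = 0
  pos : ∀ x ∈ U, ∀ v, Q x v v = 0 → ∃ a : ℝ, v = a • Z x
  bd : ∀ x ∈ M, x ∈ K → ∀ t ∈ Icc 0 S, fl (-t) x ∈ K → ∀ v ∈ Tg M x, l x v = 0 →
    Q (fl (-t) x) (fderiv ℝ (fl (-t)) x v) (fderiv ℝ (fl (-t)) x v) ≤ c * Q x v v ∧
    exp (-t) ^ 2 * Q x v v ≤ c * Q (fl (-t) x) (fderiv ℝ (fl (-t)) x v) (fderiv ℝ (fl (-t)) x v)

end Amb

/-! ### Homomorphisms of the Heisenberg group -/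

/-- the horizontal space -/
abbrev Hor (m : ℕ) : Type := (Fin m → ℝ) × (Fin m → ℝ)

/-- parameters of a sheet -/
abbrev Sp (m : ℕ) : Type := Y m × (Hor m →L[ℝ] Hor m) × ℝ

section Heis
variable {m : ℕ}

/-- `db ∧ dq` -/
def om (u v : Hor m) : ℝ := ∑ j, (u.2 j * v.1 j - u.1 j * v.2 j)

/-- half of `q · b` -/
def hq (u : Hor m) : ℝ := (∑ j, u.1 j * u.2 j) / 2

/-- the complex structure -/
def JH (u : Hor m) : Hor m := (u.2, -u.1)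

/-- `A` is conformally symplectic with the factor `f` -/
def Sym (A : Hor m →L[ℝ] Hor m) (f : ℝ) : Prop := ∀ u v, om (A u) (A v) = f * om u v

/-- the homomorphism with horizontal part `A` and vertical part `f` -/
def hom (A : Hor m →L[ℝ] Hor m) (f : ℝ) (y : Y m) : Y m := (f * (y.1 + hq y.2) - hq (A y.2), A y.2)

/-- the horizontal part of the differential of `h` at `y` -/
def hA (h : Y m → Y m) (y : Y m) : Hor m →L[ℝ] Hor m :=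
  (ContinuousLinearMap.snd ℝ ℝ (Hor m)).comp ((fderiv ℝ h y).comp
    ((Lt y).comp (ContinuousLinearMap.inr ℝ ℝ (Hor m))))

/-- coordinates of size `s` centred at `c` -/
def eta (s : ℝ) (c : Y m) (B' : Hor m →L[ℝ] Hor m) (y : Y m) : Y m :=
  dil s⁻¹ (hom B' 1 (ldiv c y))

/-- the inverse map -/
def zeta (s : ℝ) (c : Y m) (B : Hor m →L[ℝ] Hor m) (y : Y m) : Y m := mul c (hom B 1 (dil s y))

/-- a sheet -/
def Sh (R : ℝ) (p : Sp m) : Set (Y m) :=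
  (fun y => mul p.1 (hom p.2.1 p.2.2 y)) '' closedBall 0 R

/-- admissible parameters -/
def GoodP (C f₀ : ℝ) (p : Sp m) : Prop :=
  ‖p.1‖ ≤ C ∧ ‖p.2.1‖ ≤ C ∧ Sym p.2.1 p.2.2 ∧ 0 ≤ p.2.2 ∧ p.2.2 ≤ f₀

/-- a symplectic frame in which the form `q` commutes with the complex structure -/
structure Adp (q : Hor m →L[ℝ] Hor m →L[ℝ] ℝ) (B B' : Hor m →L[ℝ] Hor m) : Prop where
  symm : ∀ u v, q u v = q v u
  pos : ∀ u, u ≠ 0 → 0 < q u u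
  sym : Sym B 1
  li : ∀ u, B' (B u) = u
  ri : ∀ u, B (B' u) = u
  cm : ∀ u, q (B (JH u)) (B (JH u)) = q (B u) (B u)

/-- frames over `A` -/
structure Fr (A : Set (Y m)) (B B' : Y m → Hor m →L[ℝ] Hor m) (C Cb : ℝ) : Prop where
  one : 1 ≤ C
  sym : ∀ y ∈ A, Sym (B y) 1
  li : ∀ y ∈ A, ∀ u, B' y (B y u) = u
  ri : ∀ y ∈ A, ∀ u, B y (B' y u) = u
  bd : ∀ y ∈ A, ‖y‖ ≤ C ∧ ‖B y‖ ≤ C ∧ ‖B' y‖ ≤ C
  near : ∀ y ∈ A, ∀ y' ∈ A, ‖y - y'‖ ≤ C⁻¹ → ‖(B' y).comp (B y')‖ ≤ Cb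

/-- a contact map near `y` with bounds; `f` is the conformal factor at `y` -/
structure Ctc (C : ℝ) (h : Y m → Y m) (y : Y m) (f : ℝ) : Prop where
  sm : ContDiff ℝ ∞ h
  b0 : ‖y‖ ≤ C ∧ ‖h y‖ ≤ C
  b1 : ∀ z, ‖z - y‖ ≤ C⁻¹ → ‖fderiv ℝ h z‖ ≤ C ∧ ‖fderiv ℝ (fderiv ℝ h) z‖ ≤ C
  ct : ∃ e : Y m → ℝ, e y = f ∧
    ∀ z, ‖z - y‖ ≤ C⁻¹ → ∀ v, al0 (h z) (fderiv ℝ h z v) = e z * al0 z v

/-! ### Traps in the model -/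

/-- a trap that is slow for all functions of bounded slope -/
def RawP (U : Set (Y m)) (Cu η T B : ℝ) (C O : Set (Y m)) (f Λ : ℝ × Y m → ℝ) : Prop :=
  ∀ u : Y m → ℝ, ContDiff ℝ ∞ u → (∀ y, ‖nab u y‖ ≤ Cu) → ∃ Ξ E, Raw U u η T B C O f Λ Ξ E

/-- `u` decreases along the field of `f` -/
def Mono (f u : ℝ × Y m → ℝ) : Prop := ContDiff ℝ ∞ u ∧ ∀ x, fderiv ℝ u x (XY f x) ≤ 0

/-- a Hamiltonian over the compact set `C` between the heights `a` and `b` -/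
structure Pl (C : Set (Y m)) (a b : ℝ) (f Λ : ℝ × Y m → ℝ) : Prop where
  sf : ContDiff ℝ ∞ f
  sΛ : ContDiff ℝ ∞ Λ
  cpt : IsCompact C
  out : ∀ x : ℝ × Y m, x.1 ≤ a + 1 ∨ b - 1 ≤ x.1 ∨ x.2 ∉ C → f x = 0
  lyap : ∀ x, Ly univ (XY f) Λ x
  bd : ∃ B, ∀ x, |Λ x - x.1| ≤ B

/-- nodes of one tower: coordinates `η c` with inverse `ζ c` -/
structure Nod {ι : Type} (η ζ : ι → Y m → Y m) (R Cg : ℝ) : Prop where
  aut : ∀ c, ∃ k, Aut k (fun x : ℝ × Y m => (x.1, η c x.2)) fun x => (x.1, ζ c x.2)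
  slope : ∀ c c', (∃ y, ‖η c y‖ ≤ R ∧ ‖η c' y‖ ≤ R) → ∀ ψ : Y m → ℝ, ContDiff ℝ ∞ ψ → ∀ y,
    ‖nab (fun y => ψ (η c' (ζ c y))) y‖ ≤ Cg * ‖nab ψ (η c' (ζ c y))‖

/-- what a stack of traps between the heights `a` and `b` does: `Ra` is the radius in which the
curves are controlled, `R` bounds the supports, `β` the kicks, `κ` is the margin -/
structure Tow {ι : Type} (η : ι → Y m → Y m) (act : ι → Prop) (Γ : ι → Set (Y m))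
    (Ra R β κ a b : ℝ) (F Λ : ℝ × Y m → ℝ) : Prop where
  le : a ≤ b
  sF : ContDiff ℝ ∞ F
  sΛ : ContDiff ℝ ∞ Λ
  out : ∀ x : ℝ × Y m, x.1 ≤ a + 1 ∨ b - 1 ≤ x.1 ∨ (∀ c, act c → R ≤ ‖η c x.2‖) → F x = 0
  lyap : ∀ x, Ly univ (XY F) Λ x
  bd : ∃ B, ∀ x, |Λ x - x.1| ≤ B
  dyn : ∀ Ω : Set (ℝ × Y m), IsCompact Ω → ∃ ε, 0 < ε ∧ ∀ (γ : ℝ → ℝ × Y m) (s t : ℝ), s ≤ t →
    Crv (XY F) ε γ s t → (∀ r ∈ Icc s t, γ r ∈ Ω) → ∀ c, ‖η c (γ t).2‖ ≤ Ra →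
      (∀ r ∈ Icc s t, ‖η c (γ r).2 - η c (γ t).2‖ ≤ β) ∧
      ((γ s).1 ≤ a → b ≤ (γ t).1 → act c → ∀ p ∈ Γ c, κ ≤ ‖η c (γ t).2 - p‖)

/-! ### Link systems and configurations -/

/-- a link: the backward flow leads from `y` in the tower `i` to `h y` in the tower `j` -/
structure Lk (I : Type) (m : ℕ) where
  i : I
  y : Y m
  k : ℕ
  j : I
  h : Y m → Y m
  f : ℝ

/-- an abstract system of links between the sets `A i` -/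
structure Sys {I : Type} (A : I → Set (Y m)) (ρ : ℝ) (B B' : I → Y m → Hor m →L[ℝ] Hor m)
    (𝓛 : Set (Lk I m)) (C Cb f₀ : ℝ) (nb ne : ℕ) : Prop where
  cpt : ∀ i, IsCompact (A i)
  le : C⁻¹ ≤ ρ
  fr : ∀ i, Fr (cthickening (8 * ρ) (A i)) (B i) (B' i) C Cb
  mem : ∀ e ∈ 𝓛, e.y ∈ cthickening (7 * ρ) (A e.i) ∧ e.h e.y ∈ cthickening (7 * ρ) (A e.j) ∧
    e.k < nb ∧ 0 < e.f ∧ e.f ≤ f₀
  ctc : ∀ e ∈ 𝓛, Ctc C e.h e.y e.f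
  nrm : ∀ e ∈ 𝓛, ‖(B' e.j (e.h e.y)).comp ((hA e.h e.y).comp (B e.i e.y))‖ ≤ Cb
  coh : ∀ e ∈ 𝓛, ∀ e' ∈ 𝓛, e.i = e'.i → e.k = e'.k → ‖e.y - e'.y‖ ≤ C⁻¹ →
    e.j = e'.j ∧ e.h e'.y = e'.h e'.y
  edge : ∀ e : ℕ → Lk I m, (∀ a < ne, e a ∈ 𝓛) →
    (∀ a, a + 1 < ne → (e a).j = (e (a + 1)).i ∧ ‖(e a).h (e a).y - (e (a + 1)).y‖ ≤ C⁻¹) →
    ∃ a < ne, (e a).h (e a).y ∈ cthickening ρ (A (e a).j)

/-- nodes of all towers (without the ranks) -/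
structure Nods {I ι : Type} (A : I → Set (Y m)) (ρ : ℝ) (B B' : I → Y m → Hor m →L[ℝ] Hor m)
    (s R₀ R : ℝ) (M₀ : ℕ) (tw : ι → I) (ce : ι → Y m) (col : ι → ℕ) : Prop where
  mem : ∀ c, ce c ∈ cthickening (8 * ρ) (A (tw c))
  cover : ∀ i, ∀ y ∈ cthickening (8 * ρ) (A i), ∃ c, tw c = i ∧
    ‖eta s (ce c) (B' i (ce c)) y‖ ≤ R₀
  pack : ∀ i, ∀ y ∈ cthickening (8 * ρ) (A i),
    {c | tw c = i ∧ ‖eta s y (B' i y) (ce c)‖ ≤ R}.ncard ≤ M₀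
  lt : ∀ c, col c < M₀ + 1
  sep : ∀ c c', c ≠ c' → tw c = tw c' → col c = col c' → ∀ y,
    ‖eta s (ce c) (B' (tw c) (ce c)) y‖ ≤ R₀ + 4 → R₀ + 4 < ‖eta s (ce c') (B' (tw c') (ce c')) y‖

/-- the configuration of nodes, lists of sheets and ranks -/
structure Cfg {I ι : Type} (A : I → Set (Y m)) (ρ : ℝ) (𝓛 : Set (Lk I m)) (R₀ Cg f₀ κ : ℝ)
    (M₀ b : ℕ) (tw : ι → I) (η ζ : ι → Y m → Y m) (act : ι → Prop) (col : ι → ℕ)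
    (P : ι → Fin b → Sp m) (rk : ι → ℕ) : Prop where
  nod : ∀ i, Nod (fun c : {c // tw c = i} => η c) (fun c => ζ c) (R₀ + 4) Cg
  lt : ∀ c, col c < M₀
  sep : ∀ c c', c ≠ c' → tw c = tw c' → col c = col c' → ∀ y,
    ‖η c y‖ ≤ R₀ + 4 → R₀ + 4 < ‖η c' y‖
  good : ∀ c i, GoodP Cg f₀ (P c i)
  cover : ∀ i, ∀ y ∈ cthickening (8 * ρ) (A i), ∃ c, tw c = i ∧ ‖η c y‖ ≤ R₀
  small : ∀ c y y', ‖η c y‖ ≤ R₀ + 4 → ‖η c y'‖ ≤ R₀ + 4 → ‖y - y'‖ ≤ ρ / 2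
  supp : ∀ c y, act c → ‖η c y‖ ≤ R₀ + 4 → y ∈ cthickening (3 * ρ) (A (tw c))
  link : ∀ e ∈ 𝓛, ∀ u c, tw u = e.i → tw c = e.j → ‖η u e.y‖ ≤ R₀ + 1 →
    ‖η c (e.h e.y)‖ ≤ R₀ + 1 →
    rk u < rk c ∨ (act c ∧ ∃ i, ∃ p ∈ Sh Cg (P c i), ‖η c (e.h e.y) - p‖ ≤ κ / 2)

end Heis

/-! ### Boxes and towers -/

section Box
variable {m : ℕ} {V : Type} [NormedAddCommGroup V] [NormedSpace ℝ V]

omit [NormedAddCommGroup V] [NormedSpace ℝ V] in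
/-- the flow box over `g` -/
def Ps (fl : ℝ → V → V) (g : Y m → V) (q : ℝ × Y m) : V := fl q.1 (g q.2)

/-- a flow box in which `l = lam0` -/
structure Box (M : Set V) (l : V → V →L[ℝ] ℝ) (φ : V → ℝ) (fl : ℝ → V → V) (g : Y m → V)
    (κ : V → ℝ × Y m) (a b : ℝ) (D : Set (Y m)) (N : Set V) : Prop where
  sg : ContDiff ℝ ∞ g
  sκ : ContDiff ℝ ∞ κ
  oD : IsOpen D
  par : Par M (Ps fl g) κ (Ioo a b ×ˢ D) N
  form : ∀ q ∈ Ioo a b ×ˢ D, ∀ v, l (Ps fl g q) (fderiv ℝ (Ps fl g) q v) = lam0 q v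
  low : ∀ q ∈ Ioo a b ×ˢ D, φ (Ps fl g q) < 1

/-- data of finitely many towers -/
structure TD (V : Type) (m : ℕ) (I : Type) where
  g : I → Y m → V
  κ : I → V → ℝ × Y m
  D : I → Set (Y m)
  N : I → Set V
  A : I → Set (Y m)
  ρ : ℝ

omit [NormedAddCommGroup V] [NormedSpace ℝ V] in
/-- the part of the tower `i` between the heights `a`, `b` over the `k ρ`-neighbourhood of the
core -/
def TD.reg {I : Type} (τ : TD V m I) (i : I) (a b k : ℝ) : Set (ℝ × Y m) :=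
  Icc a b ×ˢ cthickening (k * τ.ρ) (τ.A i)

/-- disjoint towers of height `H` inside `K'` whose cores meet the backward orbits of `K'` -/
structure Tw (M : Set V) (l : V → V →L[ℝ] ℝ) (φ : V → ℝ) (fl : ℝ → V → V) {I : Type}
    (τ : TD V m I) (K' K'' : Set V) (H S₀ : ℝ) : Prop where
  Hle : 10 ≤ H
  ρpos : 0 < τ.ρ
  box : ∀ i, Box M l φ fl (τ.g i) (τ.κ i) (-2) (H + 2) (τ.D i) (τ.N i)
  cpt : ∀ i, IsCompact (τ.A i)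
  sub : ∀ i, cthickening (10 * τ.ρ) (τ.A i) ⊆ τ.D i
  disj : ∀ i j, i ≠ j → ∀ q ∈ τ.reg i (-1) (H + 1) 10, ∀ q' ∈ τ.reg j (-1) (H + 1) 10,
    Ps fl (τ.g i) q ≠ Ps fl (τ.g j) q'
  ins : ∀ i, ∀ q ∈ τ.reg i (-1) (H + 1) 10, Ps fl (τ.g i) q ∈ K''
  inK : K'' ⊆ K'
  back : ∀ x ∈ K', ∀ t, 0 ≤ t → fl (-t) x ∈ K'
  cover : ∀ x ∈ K', ∃ t ∈ Icc 1 S₀, ∃ i, ∃ y ∈ τ.A i, fl (-t) x = τ.g i y

omit [NormedAddCommGroup V] [NormedSpace ℝ V] in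
/-- the holonomy -/
def hol {I : Type} (fl : ℝ → V → V) (τ : TD V m I) (i j : I) (t : ℝ) (y : Y m) : Y m :=
  (τ.κ j (fl (-t) (τ.g i y))).2

/-- a true backward orbit from the bottom of the tower `i` to the bottom of the tower `j` that
crosses no core on the way -/
structure ALk {I : Type} (fl : ℝ → V → V) (τ : TD V m I) (H S : ℝ) (i : I) (y : Y m) (t : ℝ)
    (j : I) (y' : Y m) : Prop where
  my : y ∈ cthickening (7 * τ.ρ) (τ.A i)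
  my' : y' ∈ cthickening (7 * τ.ρ) (τ.A j)
  mt : t ∈ Icc (H - 1) S
  hit : fl (-t) (τ.g i y) = τ.g j y'
  avoid : ∀ s ∈ Icc (1 / 2) t, ∀ k, ∀ q ∈ τ.reg k (-(3 / 8)) (-(1 / 8)) 1,
    fl (-s) (τ.g i y) ≠ Ps fl (τ.g k) q

omit [NormedAddCommGroup V] [NormedSpace ℝ V] in
/-- the links of a system of towers -/
def links {I : Type} (fl : ℝ → V → V) (τ : TD V m I) (H S : ℝ) : Set (Lk I m) :=
  {e | ∃ t y', ALk fl τ H S e.i e.y t e.j y' ∧ e.k = ⌊t / H⌋₊ ∧ e.h = hol fl τ e.i e.j t ∧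
    e.f = exp (-t)}

omit [NormedAddCommGroup V] [NormedSpace ℝ V] in
/-- the region where the Hamiltonian acts -/
def Supp {I : Type} (fl : ℝ → V → V) (τ : TD V m I) (H : ℝ) : Set V :=
  ⋃ i, Ps fl (τ.g i) '' τ.reg i 1 (H - 1) 3

omit [NormedAddCommGroup V] [NormedSpace ℝ V] in
/-- the slabs on top of the towers -/
def Top {I : Type} (fl : ℝ → V → V) (τ : TD V m I) (H : ℝ) : Set V :=
  ⋃ i, Ps fl (τ.g i) '' τ.reg i H (H + 1 / 2) 4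

/-- the total Hamiltonian -/
structure Glob (M : Set V) (l : V → V →L[ℝ] ℝ) (Pi : V → (V →L[ℝ] ℝ) →L[ℝ] V)
    (fl : ℝ → V → V) {I : Type} (τ : TD V m I) (H : ℝ) (F : I → ℝ × Y m → ℝ) (G : V → ℝ) :
    Prop where
  sm : ContDiff ℝ ∞ G
  out : ∀ x ∈ M, x ∉ Supp fl τ H → ∀ᶠ x' in 𝓝[M] x, G x' = 0
  ins : ∀ i, ∀ q ∈ τ.reg i (-1) (H + 1) 9,
    fderiv ℝ (τ.κ i) (Ps fl (τ.g i) q) (Pi (Ps fl (τ.g i) q)
      (l (Ps fl (τ.g i) q) + fderiv ℝ G (Ps fl (τ.g i) q))) = XY (F i) q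
  zer : ∃ 𝒵 : Set V, 𝒵.Finite ∧
    (∀ p ∈ 𝒵, p ∈ M ∧ ∃ u, GoodWith M (fun x => Pi x (l x + fderiv ℝ G x)) p u) ∧
    ∀ i, ∀ q ∈ τ.reg i 0 (H + 1 / 2) 5, XY (F i) q = 0 → Ps fl (τ.g i) q ∈ 𝒵

end Box

/-- the return time of the markers -/
def Sret (m : ℕ) (H : ℝ) : ℝ := (2 * m + 2) * (2 * H + 10) + 4

end

end Pool.Agent.MP_6d695c_gt.P

end PkDefs

section PkSpec

/-! PROJECT P: statements of the rows.  See /team-store/P_6d695c_BLUEPRINT.md. -/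

open scoped Manifold ContDiff Topology MeasureTheory
open Set Metric Filter Real

namespace Pool.Agent.MP_6d695c_gt.P

open SW T1 Theta

/-! ### Linear algebra and small scale geometry -/

/-- LA1: adapted frames exist -/
def La1Stmt : Prop :=
  ∀ (m : ℕ) (q : Hor m →L[ℝ] Hor m →L[ℝ] ℝ), (∀ u v, q u v = q v u) → (∀ u, u ≠ 0 → 0 < q u u) →
    ∃ B B', Adp q B B'

/-- LA2: two-sided bounds give a bound in adapted frames -/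
def La2Stmt : Prop :=
  ∀ m : ℕ, ∃ Cb : ℝ, 1 ≤ Cb ∧ ∀ (q q' : Hor m →L[ℝ] Hor m →L[ℝ] ℝ)
    (B B' D D' A : Hor m →L[ℝ] Hor m) (f c : ℝ), Adp q B B' → Adp q' D D' → Sym A f → 0 < f →
    0 < c → (∀ v, q' (A v) (A v) ≤ c ^ 2 * q v v) → (∀ v, f ^ 2 * q v v ≤ c ^ 2 * q' (A v) (A v)) →
    ‖D'.comp (A.comp B)‖ ≤ Cb * c

/-- AUTE: the coordinates of a node are automorphisms; slopes -/
def AutEStmt : Prop :=
  ∀ m : ℕ, (∀ (s : ℝ) (c : Y m) (B B' : Hor m →L[ℝ] Hor m), 0 < s → Sym B 1 →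
      (∀ u, B' (B u) = u) → (∀ u, B (B' u) = u) →
      Aut (s⁻¹ ^ 2) (fun x : ℝ × Y m => (x.1, eta s c B' x.2)) fun x => (x.1, zeta s c B x.2)) ∧
    ∀ (g : Y m) (U : Hor m →L[ℝ] Hor m) (ψ : Y m → ℝ), Sym U 1 → ContDiff ℝ ∞ ψ → ∀ y,
      ‖nab (fun y => ψ (mul g (hom U 1 y))) y‖ ≤ max 1 ‖U‖ * ‖nab ψ (mul g (hom U 1 y))‖

/-- SYMH: the horizontal part of a contact map is conformally symplectic -/
def SymHStmt : Prop :=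
  ∀ (m : ℕ) (C f : ℝ) (h : Y m → Y m) (y : Y m), 1 ≤ C → Ctc C h y f → Sym (hA h y) f

/-- BLOW: a contact map is a homomorphism at small scales -/
def BlowStmt : Prop :=
  ∀ m : ℕ, ∃ (C₀ : ℝ) (k : ℕ), 1 ≤ C₀ ∧ ∀ (C R s δ f : ℝ) (h : Y m → Y m) (y η : Y m), 1 ≤ C →
    1 ≤ R → 0 < s → δ ≤ 1 → C₀ * (C * R) ^ k * s ≤ δ → Ctc C h y f → ‖η‖ ≤ R →
    ‖dil s⁻¹ (ldiv (h y) (h (mul y (dil s η)))) - hom (hA h y) f η‖ ≤ δ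

/-- GEO: sizes of the cells, change of centre -/
def GeoStmt : Prop :=
  ∀ (m : ℕ) (Cb R : ℝ), ∃ (R' C₀ : ℝ) (k : ℕ), R ≤ R' ∧ 1 ≤ C₀ ∧ ∀ (A : Set (Y m))
    (B B' : Y m → Hor m →L[ℝ] Hor m) (C s : ℝ), Fr A B B' C Cb → 0 < s → C₀ * C ^ k * s ≤ 1 →
    ∀ c ∈ A, ∀ y, ‖eta s c (B' c) y‖ ≤ R → ‖y - c‖ ≤ C⁻¹ / 4 ∧
      (y ∈ A → ∀ y', ‖eta s c (B' c) y'‖ ≤ R → ‖eta s y (B' y) y'‖ ≤ R')

/-- NET: a finite net with bounded multiplicity -/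
def NetStmt : Prop :=
  ∀ (m : ℕ) (Cb : ℝ), ∃ R₀ : ℝ, 1 ≤ R₀ ∧ ∀ R : ℝ, ∃ (M₀ : ℕ) (C₀ : ℝ) (k : ℕ), 1 ≤ C₀ ∧
    ∀ (A : Set (Y m)) (B B' : Y m → Hor m →L[ℝ] Hor m) (C s : ℝ), IsCompact A → Fr A B B' C Cb →
    0 < s → C₀ * C ^ k * s ≤ 1 → ∃ N : Set (Y m), N.Finite ∧ N ⊆ A ∧
      (∀ y ∈ A, ∃ c ∈ N, ‖eta s c (B' c) y‖ ≤ R₀) ∧
      ∀ y ∈ A, {c ∈ N | ‖eta s y (B' y) c‖ ≤ R}.ncard ≤ M₀

/-- COL: greedy colouring -/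
def ColStmt : Prop :=
  ∀ (ι : Type) [Finite ι] (r : ι → ι → Prop) (M₀ : ℕ), (∀ a b, r a b → r b a) →
    (∀ a, {b | r a b}.ncard ≤ M₀) →
    ∃ col : ι → ℕ, (∀ a, col a < M₀ + 1) ∧ ∀ a b, a ≠ b → r a b → col a ≠ col b

/-- NODES: the nodes of all towers -/
def NodesStmt : Prop :=
  ∀ (m : ℕ) (Cb : ℝ), ∃ R₀ : ℝ, 1 ≤ R₀ ∧ ∀ R : ℝ, ∃ (M₀ : ℕ) (C₀ : ℝ) (k : ℕ), 1 ≤ C₀ ∧
    ∀ (I : Type) [Finite I] (A : I → Set (Y m)) (ρ : ℝ) (B B' : I → Y m → Hor m →L[ℝ] Hor m)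
      (C s : ℝ), (∀ i, IsCompact (A i)) →
      (∀ i, Fr (cthickening (8 * ρ) (A i)) (B i) (B' i) C Cb) → 0 < s → C₀ * C ^ k * s ≤ 1 →
      ∃ (ι : Type) (_ : Finite ι) (tw : ι → I) (ce : ι → Y m) (col : ι → ℕ),
        Nods A ρ B B' s R₀ R M₀ tw ce col

/-- SHEET: the image of a cell is close to a sheet -/
def SheetStmt : Prop :=
  ∀ (m : ℕ) (Cb R : ℝ), ∃ Cg : ℝ, 1 ≤ Cg ∧ ∀ κ : ℝ, 0 < κ → ∃ (C₀ : ℝ) (k : ℕ), 1 ≤ C₀ ∧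
    ∀ (C s f f₀ : ℝ) (h : Y m → Y m) (y y' c : Y m) (B B' D' : Hor m →L[ℝ] Hor m), 1 ≤ C → 0 < s →
    C₀ * C ^ k * s ≤ 1 → Ctc C h y f → 0 ≤ f → f ≤ f₀ → f₀ ≤ 1 → Sym B 1 → (∀ u, B (B' u) = u) →
    Sym D' 1 → ‖B‖ ≤ C → ‖D'‖ ≤ C → ‖D'.comp ((hA h y).comp B)‖ ≤ Cb →
    ‖eta s y B' y'‖ ≤ R → ‖eta s c D' (h y)‖ ≤ R →
    GoodP Cg f₀ (eta s c D' (h y), D'.comp ((hA h y).comp B), f) ∧ ‖eta s c D' (h y')‖ ≤ Cg ∧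
      ∃ p ∈ Sh Cg (eta s c D' (h y), D'.comp ((hA h y).comp B), f), ‖eta s c D' (h y') - p‖ ≤ κ

/-- RANK: the degeneracy order -/
def RankStmt : Prop :=
  ∀ C₂ ne : ℕ, ∃ b₀ : ℕ, ∀ (ι : Type) [Finite ι] (E : ι → ι → Prop) (act : ι → Prop),
    (∀ u, {c | E u c}.ncard ≤ C₂) →
    (∀ u : ℕ → ι, (∀ a < ne, E (u a) (u (a + 1))) → ∃ a < ne, act (u (a + 1))) →
    ∃ rk : ι → ℕ, ∀ c, (act c → {u | E u c ∧ rk c ≤ rk u}.ncard ≤ b₀) ∧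
      (¬ act c → ∀ u, E u c → rk u < rk c)

/-- CFG: the configuration -/
def CfgStmt : Prop :=
  ∀ (m : ℕ) (Cb : ℝ) (nb ne : ℕ), 1 ≤ Cb → ∃ (R₀ Cg : ℝ) (M₀ b : ℕ), 1 ≤ R₀ ∧ 1 ≤ Cg ∧
    ∀ κ : ℝ, 0 < κ → ∃ (C₀ : ℝ) (k : ℕ), 1 ≤ C₀ ∧ ∀ (I : Type) [Finite I] (A : I → Set (Y m))
      (ρ : ℝ) (B B' : I → Y m → Hor m →L[ℝ] Hor m) (𝓛 : Set (Lk I m)) (C f₀ s : ℝ), 1 ≤ C →
      Sys A ρ B B' 𝓛 C Cb f₀ nb ne → f₀ ≤ 1 → 0 ≤ f₀ → 0 < s → C₀ * C ^ k * s ≤ 1 →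
      ∃ (ι : Type) (_ : Finite ι) (tw : ι → I) (η ζ : ι → Y m → Y m) (act : ι → Prop)
        (col : ι → ℕ) (P : ι → Fin b → Sp m) (rk : ι → ℕ),
        Cfg A ρ 𝓛 R₀ Cg f₀ κ M₀ b tw η ζ act col P rk

/-! ### Traps in the model -/

/-- MASTP: the plug does not depend on the slow function -/
def MastPStmt : Prop :=
  ∀ (m : ℕ) (G h : Y m → ℝ) (B r γ η : ℝ), Uni G h B r γ → 0 < η →
    ∃ Lm σ, 1 ≤ Lm ∧ 0 < σ ∧ ∀ ℓ : Y m → ℝ, Flat G σ ℓ → (∀ y, -1 ≤ ℓ y) →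
      ∃ T B' δ f Λ, δ * (2 * (T + B') + 2) ≤ η ∧
        ∀ u : Y m → ℝ, Flat G σ u → Mast G ℓ u γ Lm T B' δ f Λ

/-- TRFP: the transfer with explicit data -/
def TrfPStmt : Prop :=
  ∀ (m : ℕ) (G ℓ u' u ρ κ : Y m → ℝ) (ϕ : Y m → Y m) (γ Lm η T B k M : ℝ)
    (f Λ Ξ E : ℝ × Y m → ℝ) (A' : ℝ × Y m → ℝ × Y m) (U : Set (Y m)),
    Plug G ℓ u' γ Lm η T B f Λ Ξ E → Aut k (fun x => (x.1 + κ x.2, ϕ x.2)) A' →
    (∀ y, |κ y| ≤ M) → ContDiff ℝ ∞ u' → ContDiff ℝ ∞ u → ContDiff ℝ ∞ ρ →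
    IsCompact {y | ρ y ≤ Lm + 1} → {y | ρ y ≤ Lm + 1} ⊆ U →
    (∀ y, ℓ (ϕ y) < Lm → ρ y ≤ Lm + 1 / 4) → (∀ y, ρ y ≤ Lm + 1 → |u' (ϕ y) - u y| ≤ η) →
    ∃ Ξ' E', Raw U u (2 * η) (T + M) (B + M) {y | ρ y ≤ Lm + 1}
      {y | G (ϕ y) < -γ ∧ ℓ (ϕ y) < 1 / 4} (fun x => k⁻¹ * f (x.1 + κ x.2, ϕ x.2))
      (fun x => Λ (x.1 + κ x.2, ϕ x.2)) Ξ' E'

/-- RAWP: one trap for all functions of bounded slope -/
def RawPStmt : Prop :=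
  ∀ (m : ℕ) (K U : Set (Y m)) (Cu η : ℝ), IsCompact K → IsOpen U → K ⊆ U → μH[m + 1] K = 0 →
    0 < η → ∃ T B C O f Λ, IsOpen O ∧ K ⊆ O ∧ RawP U Cu η T B C O f Λ

/-- SHN: degenerate sheets are thin -/
def ShNStmt : Prop :=
  ∀ (m : ℕ) (R : ℝ) (g : Y m) (A : Hor m →L[ℝ] Hor m), Sym A 0 → μH[m + 1] (Sh R (g, A, 0)) = 0

/-- CAT: uniform traps for lists of sheets -/
def CatStmt : Prop :=
  ∀ (m b : ℕ) (R₀ Cg Cu η : ℝ), 0 < η → ∃ T κ f₀ : ℝ, 0 ≤ T ∧ 0 < κ ∧ 0 < f₀ ∧ f₀ ≤ 1 ∧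
    ∀ P : Fin b → Sp m, (∀ i, GoodP Cg f₀ (P i)) → ∃ B C O f Λ,
      RawP (ball 0 (R₀ + 3)) Cu η T B C O f Λ ∧
      ∀ y : Y m, ‖y‖ ≤ R₀ + 1 → ∀ i, ∀ p ∈ Sh Cg (P i), ‖y - p‖ < κ → y ∈ O

/-- PSI: test functions -/
def PsiStmt : Prop :=
  ∀ (m : ℕ) (R δ : ℝ), 0 < δ → ∃ (ψ : Y m → ℝ) (Cu : ℝ), ContDiff ℝ ∞ ψ ∧ 0 ≤ Cu ∧
    (∀ y, ψ y ∈ Icc (0 : ℝ) 1) ∧ (∀ y, ‖y‖ ≤ δ → ψ y = 0) ∧ (∀ y, 2 * δ ≤ ‖y‖ → ψ y = 1) ∧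
    ∀ y₀ : Y m, ‖y₀‖ ≤ R → ∀ y, ‖nab (fun y => -ψ (y - y₀)) y‖ ≤ Cu

/-- PLACE: a trap is moved to a node and to the height `h` -/
def PlaceStmt : Prop :=
  ∀ (m : ℕ) (k h e T B : ℝ) (η ζ : Y m → Y m) (U C O : Set (Y m)) (u : Y m → ℝ)
    (f Λ Ξ E : ℝ × Y m → ℝ), Aut k (fun x : ℝ × Y m => (x.1, η x.2)) (fun x => (x.1, ζ x.2)) →
    ContDiff ℝ ∞ u → Raw U u e T B C O f Λ Ξ E →
    Pl (ζ '' C) (h - T - 1) (h + T + 1) (fun x => (k * exp (-h))⁻¹ * f (x.1 - h, η x.2))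
      (fun x => Λ (x.1 - h, η x.2)) ∧
    Mono (fun x => (k * exp (-h))⁻¹ * f (x.1 - h, η x.2)) (fun x => Ξ (x.1 - h, η x.2)) ∧
    Mono (fun x => (k * exp (-h))⁻¹ * f (x.1 - h, η x.2))
      fun x => u (η x.2) + E (x.1 - h, η x.2)

/-- SUM: traps with disjoint supports -/
def SumStmt : Prop :=
  ∀ (m : ℕ) (ι : Type) [Fintype ι] (C : ι → Set (Y m)) (a b : ℝ) (f Λ : ι → ℝ × Y m → ℝ),
    (∀ c, Pl (C c) a b (f c) (Λ c)) → (∀ c c', c ≠ c' → Disjoint (C c) (C c')) →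
    (∃ Λ', Pl (⋃ c, C c) a b (fun x => ∑ c, f c x) Λ') ∧
    ∀ (u : Y m → ℝ) (E : ι → ℝ × Y m → ℝ), ContDiff ℝ ∞ u →
      (∀ c, (∀ x : ℝ × Y m, x.2 ∉ C c → E c x = 0) ∧ Mono (f c) fun x => u x.2 + E c x) →
      Mono (fun x => ∑ c, f c x) fun x => u x.2 + ∑ c, E c x

/-- ROB: monotone functions are almost monotone along pseudo-orbits -/
def RobStmt : Prop :=
  ∀ (X : Type) [NormedAddCommGroup X] [NormedSpace ℝ X] [FiniteDimensional ℝ X] (Z : X → X)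
    (Λ u : X → ℝ) (Ω : Set X) (δ : ℝ), ContDiff ℝ ∞ Z → ContDiff ℝ ∞ Λ → ContDiff ℝ ∞ u →
    IsCompact Ω → (∀ x ∈ Ω, Ly univ Z Λ x) → (∀ x ∈ Ω, fderiv ℝ u x (Z x) ≤ 0) → 0 < δ →
    ∃ ε, 0 < ε ∧ ∀ (γ : ℝ → X) (s t : ℝ), s ≤ t → Crv Z ε γ s t → (∀ r ∈ Icc s t, γ r ∈ Ω) →
      u (γ t) ≤ u (γ s) + δ

/-- NOCYC: no periodic pseudo-orbit through a regular point -/
def NoCycStmt : Prop :=
  ∀ (X : Type) [NormedAddCommGroup X] [NormedSpace ℝ X] [FiniteDimensional ℝ X] (Z : X → X)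
    (Λ : X → ℝ) (Ω : Set X) (x₀ : X), ContDiff ℝ ∞ Z → ContDiff ℝ ∞ Λ → IsCompact Ω →
    (∀ x ∈ Ω, Ly univ Z Λ x) → Z x₀ ≠ 0 → ∃ ε, 0 < ε ∧ ∀ c, Cyc Ω Z ε c → ∀ t, c t ≠ x₀

/-- LAY: one layer of traps -/
def LayStmt : Prop :=
  ∀ (m b : ℕ) (R₀ Cg β : ℝ), 0 ≤ Cg → 0 < β → ∃ T κ f₀ : ℝ, 0 ≤ T ∧ 0 < κ ∧ 0 < f₀ ∧ f₀ ≤ 1 ∧
    ∀ (ι : Type) [Finite ι] (η ζ : ι → Y m → Y m) (act : ι → Prop) (P : ι → Fin b → Sp m)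
      (h : ℝ), Nod η ζ (R₀ + 4) Cg → (∀ c i, GoodP Cg f₀ (P c i)) →
      (∀ c c', c ≠ c' → act c → act c' → ∀ y, ‖η c y‖ ≤ R₀ + 4 → R₀ + 4 < ‖η c' y‖) →
      ∃ F Λ, Tow η act (fun c => ⋃ i, Sh Cg (P c i)) (R₀ + 1) (R₀ + 3) β κ h (h + T) F Λ

/-- JOIN: a stack on top of a stack -/
def JoinStmt : Prop :=
  ∀ (m : ℕ) (ι : Type) (η : ι → Y m → Y m) (act act₁ act₂ : ι → Prop) (Γ : ι → Set (Y m))
    (Ra Ra₁ Ra₂ R β₁ β₂ κ κ₁ κ₂ a b c : ℝ) (F₁ Λ₁ F₂ Λ₂ : ℝ × Y m → ℝ),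
    Tow η act₁ Γ Ra₁ R β₁ κ₁ a b F₁ Λ₁ → Tow η act₂ Γ Ra₂ R β₂ κ₂ b c F₂ Λ₂ →
    (∀ i, act i ↔ act₁ i ∨ act₂ i) → 0 ≤ β₁ → 0 ≤ β₂ → Ra ≤ Ra₂ → Ra + β₂ ≤ Ra₁ → κ + β₂ ≤ κ₁ →
    κ ≤ κ₂ → ∃ Λ, Tow η act Γ Ra R (β₁ + β₂) κ a c (fun x => F₁ x + F₂ x) Λ

/-- STK: all layers -/
def StkStmt : Prop :=
  ∀ (m M₀ b : ℕ) (R₀ Cg : ℝ), 0 ≤ Cg → ∃ H₁ κ f₀ : ℝ, 0 < κ ∧ 0 < f₀ ∧ f₀ ≤ 1 ∧
    ∀ (ι : Type) [Finite ι] (η ζ : ι → Y m → Y m) (act : ι → Prop) (col : ι → ℕ)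
      (P : ι → Fin b → Sp m), Nod η ζ (R₀ + 4) Cg → (∀ c i, GoodP Cg f₀ (P c i)) →
      (∀ c, col c < M₀) →
      (∀ c c', c ≠ c' → col c = col c' → ∀ y, ‖η c y‖ ≤ R₀ + 4 → R₀ + 4 < ‖η c' y‖) →
      ∃ F Λ, Tow η act (fun c => ⋃ i, Sh Cg (P c i)) R₀ (R₀ + 3) 1 κ 0 H₁ F Λ

/-! ### The flow near the skeleton -/

/-- KIN -/
def KinStmt : Prop :=
  ∀ (V E : Type) [NormedAddCommGroup V] [NormedSpace ℝ V] [FiniteDimensional ℝ V]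
    [NormedAddCommGroup E] [NormedSpace ℝ E] (M : Set V) (l : V → V →L[ℝ] ℝ)
    (Pi : V → (V →L[ℝ] ℝ) →L[ℝ] V) (φ : V → ℝ) (Z : V → V) (fl : ℝ → V → V),
    Amb E M l Pi φ (1 / 2) → T1.Cut M l Pi φ Z fl → Kin M φ fl

/-- LIE -/
def LieStmt : Prop :=
  ∀ (V E : Type) [NormedAddCommGroup V] [NormedSpace ℝ V] [FiniteDimensional ℝ V]
    [NormedAddCommGroup E] [NormedSpace ℝ E] (M : Set V) (l : V → V →L[ℝ] ℝ)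
    (Pi : V → (V →L[ℝ] ℝ) →L[ℝ] V) (φ : V → ℝ) (Z : V → V) (fl : ℝ → V → V),
    Amb E M l Pi φ (1 / 2) → T1.Cut M l Pi φ Z fl → Lie M l φ fl

/-- DUAL: the forward bound -/
def DualStmt : Prop :=
  ∀ (V E : Type) [NormedAddCommGroup V] [NormedSpace ℝ V] [FiniteDimensional ℝ V]
    [NormedAddCommGroup E] [NormedSpace ℝ E] (M : Set V) (l : V → V →L[ℝ] ℝ)
    (Pi : V → (V →L[ℝ] ℝ) →L[ℝ] V) (φ : V → ℝ) (Z : V → V) (fl : ℝ → V → V) (ε : ℝ),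
    Amb E M l Pi φ (1 / 2) → T1.Cut M l Pi φ Z fl → Kin M φ fl → Lie M l φ fl →
    Rate M l φ Z fl ε → RateF M l φ Z fl ε

/-- ATTR -/
def AttrStmt : Prop :=
  ∀ (V E : Type) [NormedAddCommGroup V] [NormedSpace ℝ V] [FiniteDimensional ℝ V]
    [NormedAddCommGroup E] [NormedSpace ℝ E] (M U : Set V) (l : V → V →L[ℝ] ℝ)
    (Pi : V → (V →L[ℝ] ℝ) →L[ℝ] V) (φ : V → ℝ) (Z : V → V) (fl : ℝ → V → V),
    Amb E M l Pi φ (1 / 2) → T1.Cut M l Pi φ Z fl → Kin M φ fl → IsOpen U → Ksk M φ fl ⊆ U →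
    ∃ L, Attr M φ Z fl U L

/-- NORMK: the Lyapunov form with the bounds on the skeleton -/
def NormKStmt : Prop :=
  ∀ (V E : Type) [NormedAddCommGroup V] [NormedSpace ℝ V] [FiniteDimensional ℝ V]
    [NormedAddCommGroup E] [NormedSpace ℝ E] (M : Set V) (l : V → V →L[ℝ] ℝ)
    (Pi : V → (V →L[ℝ] ℝ) →L[ℝ] V) (φ : V → ℝ) (Z : V → V) (fl : ℝ → V → V) (ε S : ℝ),
    Amb E M l Pi φ (1 / 2) → T1.Cut M l Pi φ Z fl → Kin M φ fl → Lie M l φ fl →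
    Rate M l φ Z fl ε → RateF M l φ Z fl ε → (∀ x ∈ Ksk M φ fl, Z x ≠ 0) → 0 < ε → 0 ≤ S →
    4 * ε * S ≤ 1 → ∃ Q, LyQ M l Z fl S {x | Z x ≠ 0} (Ksk M φ fl) 6 Q

/-- NORMU: the bounds hold near the skeleton -/
def NormUStmt : Prop :=
  ∀ (V E : Type) [NormedAddCommGroup V] [NormedSpace ℝ V] [FiniteDimensional ℝ V]
    [NormedAddCommGroup E] [NormedSpace ℝ E] (M : Set V) (l : V → V →L[ℝ] ℝ)
    (Pi : V → (V →L[ℝ] ℝ) →L[ℝ] V) (φ : V → ℝ) (Z : V → V) (fl : ℝ → V → V) (S : ℝ)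
    (Q : V → V →L[ℝ] V →L[ℝ] ℝ), Amb E M l Pi φ (1 / 2) → T1.Cut M l Pi φ Z fl → Kin M φ fl →
    Lie M l φ fl → (∀ x ∈ Ksk M φ fl, Z x ≠ 0) →
    LyQ M l Z fl S {x | Z x ≠ 0} (Ksk M φ fl) 6 Q →
    ∃ U, IsOpen U ∧ Ksk M φ fl ⊆ U ∧ LyQ M l Z fl S U U 9 Q

/-! ### Boxes and markers -/

/-- DARBN: a short chart -/
def DarbNStmt : Prop :=
  ∀ (V : Type) [NormedAddCommGroup V] [NormedSpace ℝ V] [FiniteDimensional ℝ V] (m : ℕ)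
    (M : Set V) (l : V → V →L[ℝ] ℝ) (Pi : V → (V →L[ℝ] ℝ) →L[ℝ] V) (φ : V → ℝ) (s : ℝ),
    Amb (Euc (2 * m + 2)) M l Pi φ s → ∀ p ∈ M, Pi p (l p) ≠ 0 →
    ∃ (Ψ : ℝ × Y m → V) (κ : V → ℝ × Y m) (O : Set (ℝ × Y m)) (N : Set V), Par M Ψ κ O N ∧
      p ∈ N ∧ ∀ q ∈ O, ∀ v, l (Ψ q) (fderiv ℝ Ψ q v) = lam0 q v

/-- SBOX: a short flow box through a point -/
def SBoxStmt : Prop :=
  ∀ (V : Type) [NormedAddCommGroup V] [NormedSpace ℝ V] [FiniteDimensional ℝ V] (m : ℕ)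
    (M : Set V) (l : V → V →L[ℝ] ℝ) (Pi : V → (V →L[ℝ] ℝ) →L[ℝ] V) (φ : V → ℝ) (Z : V → V)
    (fl : ℝ → V → V) (x : V), Amb (Euc (2 * m + 2)) M l Pi φ (1 / 2) → T1.Cut M l Pi φ Z fl →
    x ∈ M → φ x < 1 → Z x ≠ 0 →
    ∃ (g : Y m → V) (κ : V → ℝ × Y m) (a : ℝ) (D : Set (Y m)) (N : Set V) (y₀ : Y m), 0 < a ∧
      Box M l φ fl g κ (-a) a D N ∧ y₀ ∈ D ∧ g y₀ = x

/-- LBOX: a long flow box -/
def LBoxStmt : Prop :=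
  ∀ (V E : Type) [NormedAddCommGroup V] [NormedSpace ℝ V] [FiniteDimensional ℝ V]
    [NormedAddCommGroup E] [NormedSpace ℝ E] (m : ℕ) (M N₀ : Set V) (l : V → V →L[ℝ] ℝ)
    (Pi : V → (V →L[ℝ] ℝ) →L[ℝ] V) (φ : V → ℝ) (Z : V → V) (fl : ℝ → V → V) (g : Y m → V)
    (κ : V → ℝ × Y m) (a L : ℝ) (D : Set (Y m)) (N : Set V) (y₀ : Y m), Amb E M l Pi φ (1 / 2) →
    T1.Cut M l Pi φ Z fl → Lie M l φ fl → 0 < a → Box M l φ fl g κ (-a) a D N → y₀ ∈ D → 0 < L →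
    (∀ t, |t| ≤ L → φ (fl t (g y₀)) < 1) → (∀ t, 0 < t → t ≤ 2 * L → fl t (g y₀) ≠ g y₀) →
    IsOpen N₀ → g y₀ ∈ N₀ →
    ∃ κ' D' N', Box M l φ fl g κ' (-L) L D' N' ∧ y₀ ∈ D' ∧ ∀ y ∈ D', g y ∈ N₀

/-- RECENT: a box is restricted and centred at the height `c` -/
def RecentStmt : Prop :=
  ∀ (V : Type) [NormedAddCommGroup V] [NormedSpace ℝ V] (m : ℕ) (M : Set V) (l : V → V →L[ℝ] ℝ)
    (φ : V → ℝ) (Z : V → V) (fl : ℝ → V → V) (g : Y m → V) (κ : V → ℝ × Y m) (a b a' b' c : ℝ)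
    (D : Set (Y m)) (N : Set V), IsFlow Z fl → Box M l φ fl g κ a b D N → a ≤ a' + c →
    b' + c ≤ b → ∃ N', Box M l φ fl (fun y => fl c (g (dil (exp (-c / 2)) y)))
      (fun x => ((κ x).1 - c, dil (exp (c / 2)) (κ x).2)) a' b' (dil (exp (-c / 2)) ⁻¹' D) N'

/-- GEN: generic radii -/
def GenStmt : Prop :=
  ∀ (V : Type) [NormedAddCommGroup V] [NormedSpace ℝ V] (m : ℕ) (M : Set V) (l : V → V →L[ℝ] ℝ)
    (φ : V → ℝ) (Z : V → V) (fl : ℝ → V → V) (I : Type) (g : I → Y m → V) (κ : I → V → ℝ × Y m)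
    (L : ℝ) (D : I → Set (Y m)) (N : I → Set V) (ι : Type) [Countable ι] (k : ι → I)
    (q : ι → Y m) (a b : ι → ℝ), IsFlow Z fl →
    (∀ i, Box M l φ fl (g i) (κ i) (-L) L (D i) (N i)) → (∀ i, a i < b i) →
    ∃ r : ι → ℝ, (∀ i, r i ∈ Ioo (a i) (b i)) ∧ ∀ x ∈ M, ∀ s : Finset ι,
      (∀ i ∈ s, x ∈ N (k i) ∧ ‖(κ (k i) x).2 - q i‖ = r i) → s.card ≤ 2 * m + 1

/-- GUT: the marker lemma, relative to a given pair `U₀ ⊆ C₀` -/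
def GutStmt : Prop :=
  ∀ (V : Type) [NormedAddCommGroup V] [NormedSpace ℝ V] (m d₀ : ℕ) (M U₀ C₀ : Set V)
    (l : V → V →L[ℝ] ℝ) (φ : V → ℝ) (Z : V → V) (fl : ℝ → V → V) (I : Type) [Finite I]
    (g : I → Y m → V) (κ : I → V → ℝ × Y m) (H S L : ℝ) (D B : I → Set (Y m)) (N : I → Set V),
    IsFlow Z fl → 0 ≤ H → S = (2 * m + 2 + d₀) * (2 * H + 10) → S ≤ L →
    (∀ i, Box M l φ fl (g i) (κ i) (-L) L (D i) (N i)) → (∀ i, IsCompact (B i) ∧ B i ⊆ D i) →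
    IsCompact C₀ →
    (∀ x ∈ M, (∃ t ∈ Ioo 0 S, fl (-t) x ∈ U₀) → ∀ᶠ x' in 𝓝[M] x, ∃ t ∈ Ioo 0 S, fl (-t) x' ∈ U₀) →
    (∀ x ∈ M, (∀ t ∈ Ioo 0 S, fl (-t) x ∉ U₀) →
      ∃ T : Finset ℝ, T.card ≤ d₀ ∧ ∀ t ∈ Ioo 0 S, fl (-t) x ∈ C₀ → t ∈ T) →
    ∃ O C : I → Fin (2 * m + 2 + d₀) → Set (Y m),
      (∀ i j, IsOpen (O i j) ∧ IsCompact (C i j) ∧ O i j ⊆ C i j ∧ C i j ⊆ D i) ∧
      (∀ i j i' j', (i, j) ≠ (i', j') → ∀ y ∈ C i j, ∀ y' ∈ C i' j', ∀ t, |t| ≤ H + 3 →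
        fl t (Ps fl (g i) (-(((j : ℕ) + 1 / 2) * (2 * H + 10)), y)) ≠
          Ps fl (g i') (-(((j' : ℕ) + 1 / 2) * (2 * H + 10)), y')) ∧
      (∀ i j, ∀ y ∈ C i j, ∀ t, |t| ≤ H + 3 →
        fl t (Ps fl (g i) (-(((j : ℕ) + 1 / 2) * (2 * H + 10)), y)) ∉ C₀) ∧
      ∀ i, ∀ y ∈ B i, ∃ t ∈ Ioo 0 S, fl (-t) (g i y) ∈ U₀ ∨ ∃ i' j', ∃ z ∈ O i' j',
        fl (-t) (g i y) = Ps fl (g i') (-(((j' : ℕ) + 1 / 2) * (2 * H + 10)), z)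

/-- MARK: the towers -/
def MarkStmt : Prop :=
  ∀ (V : Type) [NormedAddCommGroup V] [NormedSpace ℝ V] [FiniteDimensional ℝ V] (m : ℕ)
    (M U : Set V) (l : V → V →L[ℝ] ℝ) (Pi : V → (V →L[ℝ] ℝ) →L[ℝ] V) (φ L : V → ℝ) (Z : V → V)
    (fl : ℝ → V → V) (H : ℝ), Amb (Euc (2 * m + 2)) M l Pi φ (1 / 2) → T1.Cut M l Pi φ Z fl →
    Kin M φ fl → Lie M l φ fl → Attr M φ Z fl U L → 10 ≤ H → Aper M φ fl (2 * Sret m H) →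
    (∀ x ∈ U, ∀ t, |t| ≤ Sret m H → φ (fl t x) < 1) →
    ∃ (I : Type) (_ : Finite I) (τ : TD V m I),
      Tw M l φ fl τ (Kl M φ L 0) (Kl M φ L (-(1 / 2))) H (Sret m H)

/-! ### The link system of the towers -/

/-- XBOX: the fields in a box -/
def XBoxStmt : Prop :=
  ∀ (V E : Type) [NormedAddCommGroup V] [NormedSpace ℝ V] [NormedAddCommGroup E] [NormedSpace ℝ E]
    (m : ℕ) (M : Set V) (l : V → V →L[ℝ] ℝ) (Pi : V → (V →L[ℝ] ℝ) →L[ℝ] V) (φ : V → ℝ)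
    (fl : ℝ → V → V) (g : Y m → V) (κ : V → ℝ × Y m) (a b : ℝ) (D : Set (Y m)) (N : Set V),
    Smp E M l Pi → Box M l φ fl g κ a b D N → ∀ x ∈ M, x ∈ N →
    (∀ v ∈ Tg M x, lam0 (κ x) (fderiv ℝ κ x v) = l x v) ∧
    ∀ (F : ℝ × Y m → ℝ) (G : V → ℝ), ContDiff ℝ ∞ F → ContDiff ℝ ∞ G →
      (∀ᶠ x' in 𝓝[M] x, G x' = F (κ x')) →
      fderiv ℝ κ x (Pi x (l x + fderiv ℝ G x)) = XY F (κ x)

/-- NBR: points of `M` near a tower -/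
def NbrStmt : Prop :=
  ∀ (V : Type) [NormedAddCommGroup V] [NormedSpace ℝ V] (m : ℕ) (M K' K'' : Set V)
    (l : V → V →L[ℝ] ℝ) (φ : V → ℝ) (Z : V → V) (fl : ℝ → V → V) (I : Type) [Finite I]
    (τ : TD V m I) (H S₀ δ₁ : ℝ), IsFlow Z fl → Tw M l φ fl τ K' K'' H S₀ → 0 < δ₁ →
    ∃ δ, 0 < δ ∧ ∀ i, ∀ q ∈ τ.reg i (-1) (H + 1) 10, ∀ x ∈ M, ‖x - Ps fl (τ.g i) q‖ ≤ δ →
      x ∈ τ.N i ∧ ‖τ.κ i x - q‖ ≤ δ₁ ∧ Ps fl (τ.g i) (τ.κ i x) = x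

/-- HOLC: the holonomy maps are contact maps with uniform bounds -/
def HolCStmt : Prop :=
  ∀ (V E : Type) [NormedAddCommGroup V] [NormedSpace ℝ V] [FiniteDimensional ℝ V]
    [NormedAddCommGroup E] [NormedSpace ℝ E] (m : ℕ) (M K' K'' : Set V) (l : V → V →L[ℝ] ℝ)
    (Pi : V → (V →L[ℝ] ℝ) →L[ℝ] V) (φ : V → ℝ) (Z : V → V) (fl : ℝ → V → V) (I : Type) [Finite I]
    (τ : TD V m I) (H S₀ S : ℝ), Amb E M l Pi φ (1 / 2) → T1.Cut M l Pi φ Z fl → Kin M φ fl →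
    Lie M l φ fl → Tw M l φ fl τ K' K'' H S₀ →
    ∃ C₀, ∀ C, C₀ ≤ C → ∀ e ∈ links fl τ H S, Ctc C e.h e.y e.f

/-- FRAME: adapted frames over the towers -/
def FrameStmt : Prop :=
  ∀ m : ℕ, ∃ Cb : ℝ, 1 ≤ Cb ∧
    ∀ (V E : Type) [NormedAddCommGroup V] [NormedSpace ℝ V] [FiniteDimensional ℝ V]
    [NormedAddCommGroup E] [NormedSpace ℝ E] (M U K' K'' : Set V) (l : V → V →L[ℝ] ℝ)
    (Pi : V → (V →L[ℝ] ℝ) →L[ℝ] V) (φ : V → ℝ) (Z : V → V) (fl : ℝ → V → V) (I : Type) [Finite I]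
    (τ : TD V m I) (H S₀ S : ℝ) (Q : V → V →L[ℝ] V →L[ℝ] ℝ), Amb E M l Pi φ (1 / 2) →
    T1.Cut M l Pi φ Z fl → Kin M φ fl → Lie M l φ fl → Tw M l φ fl τ K' K'' H S₀ → K' ⊆ U →
    LyQ M l Z fl S U U 9 Q →
    ∃ (B B' : I → Y m → Hor m →L[ℝ] Hor m) (C₀ : ℝ),
      (∀ C, C₀ ≤ C → ∀ i, Fr (cthickening (8 * τ.ρ) (τ.A i)) (B i) (B' i) C Cb) ∧
      ∀ e ∈ links fl τ H S, ‖(B' e.j (e.h e.y)).comp ((hA e.h e.y).comp (B e.i e.y))‖ ≤ Cb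

/-- COH: links from nearby points are coherent -/
def CohStmt : Prop :=
  ∀ (V E : Type) [NormedAddCommGroup V] [NormedSpace ℝ V] [FiniteDimensional ℝ V]
    [NormedAddCommGroup E] [NormedSpace ℝ E] (m : ℕ) (M K' K'' : Set V) (l : V → V →L[ℝ] ℝ)
    (Pi : V → (V →L[ℝ] ℝ) →L[ℝ] V) (φ : V → ℝ) (Z : V → V) (fl : ℝ → V → V) (I : Type) [Finite I]
    (τ : TD V m I) (H S₀ S : ℝ), T1.Cut M l Pi φ Z fl → Tw M l φ fl τ K' K'' H S₀ →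
    ∃ δ, 0 < δ ∧ ∀ e ∈ links fl τ H S, ∀ e' ∈ links fl τ H S, e.i = e'.i → e.k = e'.k →
      ‖e.y - e'.y‖ ≤ δ → e.j = e'.j ∧ e.h e'.y = e'.h e'.y

/-- EDGE: a long chain of links meets a core -/
def EdgeStmt : Prop :=
  ∀ (V E : Type) [NormedAddCommGroup V] [NormedSpace ℝ V] [FiniteDimensional ℝ V]
    [NormedAddCommGroup E] [NormedSpace ℝ E] (m ne : ℕ) (M K' K'' : Set V) (l : V → V →L[ℝ] ℝ)
    (Pi : V → (V →L[ℝ] ℝ) →L[ℝ] V) (φ : V → ℝ) (Z : V → V) (fl : ℝ → V → V) (I : Type) [Finite I]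
    (τ : TD V m I) (H S₀ S : ℝ), T1.Cut M l Pi φ Z fl → Tw M l φ fl τ K' K'' H S₀ → K' ⊆ M →
    0 < ne → S₀ ≤ ne * (H - 1) →
    ∃ δ, 0 < δ ∧ ∀ e : ℕ → Lk I m, (∀ a < ne, e a ∈ links fl τ H S) →
      (∀ a, a + 1 < ne → (e a).j = (e (a + 1)).i ∧ ‖(e a).h (e a).y - (e (a + 1)).y‖ ≤ δ) →
      ∃ a < ne, (e a).h (e a).y ∈ cthickening τ.ρ (τ.A (e a).j)

/-! ### Periodic pseudo-orbits -/

/-- GLOB: the total Hamiltonian -/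
def GlobStmt : Prop :=
  ∀ (V E : Type) [NormedAddCommGroup V] [NormedSpace ℝ V] [FiniteDimensional ℝ V]
    [NormedAddCommGroup E] [NormedSpace ℝ E] (m : ℕ) (M K' K'' : Set V) (l : V → V →L[ℝ] ℝ)
    (Pi : V → (V →L[ℝ] ℝ) →L[ℝ] V) (φ : V → ℝ) (Z : V → V) (fl : ℝ → V → V) (I : Type) [Finite I]
    (τ : TD V m I) (H S₀ : ℝ) (F Λ : I → ℝ × Y m → ℝ), Smp E M l Pi → IsFlow Z fl →
    Tw M l φ fl τ K' K'' H S₀ →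
    (∀ i, ContDiff ℝ ∞ (F i) ∧ ContDiff ℝ ∞ (Λ i) ∧ (∀ x, Ly univ (XY (F i)) (Λ i) x) ∧
      ∀ x : ℝ × Y m, x ∉ τ.reg i 1 (H - 1) 3 → F i x = 0) →
    ∃ G, Glob M l Pi fl τ H F G

/-- SHAD: pseudo-orbits follow the flow for a bounded time -/
def ShadStmt : Prop :=
  ∀ (V : Type) [NormedAddCommGroup V] [NormedSpace ℝ V] [FiniteDimensional ℝ V] (Z : V → V)
    (fl : ℝ → V → V) (D : Set V) (L δ : ℝ), IsFlow Z fl → IsCompact D → 0 < δ →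
    ∃ ε, 0 < ε ∧ ∀ (c : ℝ → V) (a b : ℝ), b ≤ a + L → ContinuousOn c (Icc a b) →
      (∀ t ∈ Ioo a b, Near c t (Z (c t)) ε) → (∀ t ∈ Icc a b, c t ∈ D) →
      ∀ s ∈ Icc a b, ∀ t ∈ Icc a b, ‖c t - fl (t - s) (c s)‖ ≤ δ

/-- CONF: periodic pseudo-orbits stay near the skeleton -/
def ConfStmt : Prop :=
  ∀ (V : Type) [NormedAddCommGroup V] [NormedSpace ℝ V] (M U : Set V) (φ L : V → ℝ) (Z X : V → V)
    (fl : ℝ → V → V), Attr M φ Z fl U L → IsCompact {x ∈ M | φ x ≤ 2} →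
    (∀ x ∈ M, φ x ≤ 2 → -(1 / 2) < L x → X x = Z x) →
    ∃ ε, 0 < ε ∧ ∀ c, Cyc {x ∈ M | φ x ≤ 2} X ε c → ∀ t, c t ∈ Kl M φ L 0

/-- LAST: the last visit to a support or to a top slab -/
def LastStmt : Prop :=
  ∀ (V : Type) [NormedAddCommGroup V] [NormedSpace ℝ V] [FiniteDimensional ℝ V] (m : ℕ)
    (M K' K'' : Set V) (l : V → V →L[ℝ] ℝ) (φ : V → ℝ) (Z X : V → V) (fl : ℝ → V → V) (I : Type)
    [Finite I] (τ : TD V m I) (H S₀ : ℝ), IsFlow Z fl → Tw M l φ fl τ K' K'' H S₀ →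
    IsCompact K' → K' ⊆ M → (∀ x ∈ K', x ∉ Supp fl τ H → X x = Z x) →
    ∃ ε, 0 < ε ∧ ∀ c, Cyc K' X ε c → ∀ t₀, ∃ t' ∈ Icc (t₀ - (S₀ + 1)) t₀,
      c t' ∈ Top fl τ H ∪ Supp fl τ H ∧ ∀ t ∈ Ioc t' t₀, c t ∉ Top fl τ H ∪ Supp fl τ H

/-- PREV: the link to the previous tower -/
def PrevStmt : Prop :=
  ∀ (V : Type) [NormedAddCommGroup V] [NormedSpace ℝ V] [FiniteDimensional ℝ V] (m : ℕ)
    (M K' K'' : Set V) (l : V → V →L[ℝ] ℝ) (φ : V → ℝ) (Z X : V → V) (fl : ℝ → V → V) (I : Type)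
    [Finite I] (τ : TD V m I) (H S₀ δ : ℝ), IsFlow Z fl → Tw M l φ fl τ K' K'' H S₀ →
    IsCompact K' → K' ⊆ M → (∀ x ∈ K', x ∉ Supp fl τ H → X x = Z x) → 0 < δ →
    ∃ ε, 0 < ε ∧ ∀ c, Cyc K' X ε c → ∀ t₀ i, ∀ y ∈ cthickening (5 * τ.ρ) (τ.A i), c t₀ = τ.g i y →
      ∃ t' ≤ t₀, ∃ j, ∃ q ∈ τ.reg j H (H + 1 / 2) 4, c t' = Ps fl (τ.g j) q ∧
        ∃ t y', ALk fl τ H (S₀ + H + 3) i y t j y' ∧ ‖y' - q.2‖ ≤ δ

/-- BACK: the passage through a tower -/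
def BackStmt : Prop :=
  ∀ (V : Type) [NormedAddCommGroup V] [NormedSpace ℝ V] [FiniteDimensional ℝ V] (m : ℕ)
    (M K' K'' : Set V) (l : V → V →L[ℝ] ℝ) (φ : V → ℝ) (Z X : V → V) (fl : ℝ → V → V) (I : Type)
    [Finite I] (τ : TD V m I) (H S₀ ε₀ : ℝ) (j : I) (F : ℝ × Y m → ℝ), IsFlow Z fl →
    Tw M l φ fl τ K' K'' H S₀ → IsCompact K' → K' ⊆ M → 0 < ε₀ →
    (∀ q ∈ τ.reg j (-1) (H + 1) 9,
      fderiv ℝ (τ.κ j) (Ps fl (τ.g j) q) (X (Ps fl (τ.g j) q)) = XY F q) →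
    (∀ x : ℝ × Y m, H - 1 ≤ x.1 → F x = 0) →
    (∀ (γ : ℝ → ℝ × Y m) (s t : ℝ), s ≤ t → Crv (XY F) ε₀ γ s t →
      (∀ r ∈ Icc s t, γ r ∈ τ.reg j 0 (H + 1 / 2) 5) → (γ t).2 ∈ cthickening (4 * τ.ρ) (τ.A j) →
      ‖(γ s).2 - (γ t).2‖ ≤ τ.ρ / 2) →
    ∃ ε, 0 < ε ∧ ∀ c, Cyc K' X ε c → ∀ t', ∀ q ∈ τ.reg j 1 (H + 1 / 2) 4,
      c t' = Ps fl (τ.g j) q →
      (∃ t ≤ t', (τ.κ j (c t)).1 = 0 ∧ Crv (XY F) ε₀ (fun r => τ.κ j (c r)) t t' ∧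
        ∀ r ∈ Icc t t', τ.κ j (c r) ∈ τ.reg j 0 (H + 1 / 2) 5 ∧
          Ps fl (τ.g j) (τ.κ j (c r)) = c r) ∨
      (Cyc (τ.reg j 0 (H + 1 / 2) 5) (XY F) ε₀ (fun r => τ.κ j (c r)) ∧
        ∀ r, 0 < (τ.κ j (c r)).1 ∧ Ps fl (τ.g j) (τ.κ j (c r)) = c r)

/-- CYC: the rank argument -/
def CycStmt : Prop :=
  ∀ (V : Type) [NormedAddCommGroup V] [NormedSpace ℝ V] [FiniteDimensional ℝ V] (m : ℕ)
    (M K' K'' : Set V) (l : V → V →L[ℝ] ℝ) (φ : V → ℝ) (Z X : V → V) (fl : ℝ → V → V) (I : Type)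
    [Finite I] (τ : TD V m I) (H H₁ S₀ R₀ Cg f₀ κ : ℝ) (M₀ b : ℕ) (ι : Type) [Finite ι]
    (tw : ι → I) (η ζ : ι → Y m → Y m) (act : ι → Prop) (col : ι → ℕ) (P : ι → Fin b → Sp m)
    (rk : ι → ℕ) (F Λ : I → ℝ × Y m → ℝ) (x₀ : V), IsFlow Z fl → Tw M l φ fl τ K' K'' H S₀ →
    IsCompact K' → K' ⊆ M → (∀ x ∈ K', x ∉ Supp fl τ H → X x = Z x) →
    (∀ j, ∀ q ∈ τ.reg j (-1) (H + 1) 9,
      fderiv ℝ (τ.κ j) (Ps fl (τ.g j) q) (X (Ps fl (τ.g j) q)) = XY (F j) q) →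
    0 < κ → H₁ ≤ H →
    Cfg τ.A τ.ρ (links fl τ H (S₀ + H + 3)) R₀ Cg f₀ κ M₀ b tw η ζ act col P rk →
    (∀ i, Tow (fun c : {c // tw c = i} => η c) (fun c => act c) (fun c => ⋃ k, Sh Cg (P c k))
      R₀ (R₀ + 3) 1 κ 0 H₁ (F i) (Λ i)) →
    (∀ i, ∀ q ∈ τ.reg i 0 (H + 1 / 2) 5, XY (F i) q = 0 → Ps fl (τ.g i) q ≠ x₀) →
    ∃ ε, 0 < ε ∧ ∀ c, Cyc K' X ε c → ∀ t, c t ≠ x₀

/-- CORE: the ambient form of the theorem -/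
def CoreStmt : Prop :=
  ∀ m : ℕ, ∃ ε T : ℝ, 0 < ε ∧ 0 < T ∧
    ∀ (V : Type) [NormedAddCommGroup V] [NormedSpace ℝ V] [FiniteDimensional ℝ V] (M : Set V)
    (l : V → V →L[ℝ] ℝ) (Pi : V → (V →L[ℝ] ℝ) →L[ℝ] V) (φ : V → ℝ) (Z : V → V) (fl : ℝ → V → V),
    Amb (Euc (2 * m + 2)) M l Pi φ (1 / 2) → T1.Cut M l Pi φ Z fl → Rate M l φ Z fl ε →
    Aper M φ fl T → ∃ A B G Φ, Wein M l Pi φ A B G Φ

/-! ### Manifolds -/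

/-- SKF: the skeleton and the flow in the ambient space -/
def SkFStmt : Prop :=
  ∀ (d : ℕ) (W V : Type) [TopologicalSpace W] [ChartedSpace (Euc d) W] [IsManifold (𝓡 d) ∞ W]
    [T2Space W] [NormedAddCommGroup V] [NormedSpace ℝ V] [FiniteDimensional ℝ V]
    (l : OneForm (𝓡 d) W) (Z : VField (𝓡 d) W) (φ : W → ℝ) (e : W → V) (l' : V → V →L[ℝ] ℝ)
    (Pi : V → (V →L[ℝ] ℝ) →L[ℝ] V) (φ' : V → ℝ) (F : ℝ → W → W) (Z' : V → V) (fl : ℝ → V → V),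
    Emb l Z φ e l' Pi φ' → FlowOf Z F → T1.Cut (e '' {x | φ x < 6}) l' Pi φ' Z' fl →
    ∀ x' ∈ Ksk (e '' {x | φ x < 6}) φ' fl, ∃ x ∈ skeleton Z, e x = x' ∧ ∀ t, φ (F t x) ≤ 2 ∧
      ∀ᶠ y in 𝓝 x, φ (F t y) < 4 ∧ e (F t y) = fl t (e y)

/-- HYP: the hypotheses pass to the ambient space -/
def HypStmt : Prop :=
  ∀ (d : ℕ) (W V : Type) [TopologicalSpace W] [ChartedSpace (Euc d) W] [IsManifold (𝓡 d) ∞ W]
    [T2Space W] [NormedAddCommGroup V] [NormedSpace ℝ V] [FiniteDimensional ℝ V]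
    (l : OneForm (𝓡 d) W) (Z : VField (𝓡 d) W) (φ : W → ℝ) (e : W → V) (l' : V → V →L[ℝ] ℝ)
    (Pi : V → (V →L[ℝ] ℝ) →L[ℝ] V) (φ' : V → ℝ) (F : ℝ → W → W) (Z' : V → V) (fl : ℝ → V → V)
    (ε : ℝ), Emb l Z φ e l' Pi φ' → FlowOf Z F → T1.Cut (e '' {x | φ x < 6}) l' Pi φ' Z' fl →
    SlowBack d F (skeleton Z) ε → Rate (e '' {x | φ x < 6}) l' φ' Z' fl ε

end Pool.Agent.MP_6d695c_gt.P

end PkSpec

section PkAlg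

/-! PROJECT P: shared small lemmas. -/

open scoped ContDiff Topology
open Set Metric Filter Real

namespace Pool.Agent.MP_6d695c_gt.P

open SW T1 Theta

section Alg
variable {m : ℕ}

theorem mul_def (p η : Y m) :
    mul p η = (p.1 + (η.1 - ∑ j, p.2.2 j * η.2.1 j), p.2 + η.2) := rfl

theorem ldiv_def (p y : Y m) :
    ldiv p y = (y.1 - p.1 + ∑ j, p.2.2 j * (y.2.1 j - p.2.1 j), y.2 - p.2) := by
  ext <;> simp [ldiv, Lt_apply]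

theorem dil_def (w : ℝ) (y : Y m) : dil w y = (w ^ 2 * y.1, w • y.2) := rfl

theorem hq_add (u v : Hor m) : hq (u + v) = hq u + hq v + ∑ j, u.2 j * v.1 j - om u v / 2 := by
  simp only [hq, om, Prod.fst_add, Prod.snd_add, Pi.add_apply, add_mul, mul_add,
    Finset.sum_add_distrib, Finset.sum_sub_distrib]
  rw [Finset.sum_congr rfl fun j _ => mul_comm (v.1 j) (u.2 j)]
  ring

theorem hq_smul (w : ℝ) (u : Hor m) : hq (w • u) = w ^ 2 * hq u := by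
  simp only [hq, Prod.smul_fst, Prod.smul_snd, Pi.smul_apply, smul_eq_mul]
  rw [Finset.sum_congr rfl fun j _ => show w * u.1 j * (w * u.2 j) = w ^ 2 * (u.1 j * u.2 j) by
    ring, ← Finset.mul_sum]
  ring

theorem hq_zero : hq (0 : Hor m) = 0 := by simp [hq]

theorem om_self (u : Hor m) : om u u = 0 := by simp [om, mul_comm]

theorem om_swap (u v : Hor m) : om u v = -om v u := by
  simp only [om, ← Finset.sum_neg_distrib]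
  exact Finset.sum_congr rfl fun j _ => by ring

theorem mul_assoc' (a b c : Y m) : mul (mul a b) c = mul a (mul b c) := by
  simp only [mul_def, Prod.snd_add, Prod.fst_add, Pi.add_apply, add_mul, mul_add,
    Finset.sum_add_distrib]
  ext <;> simp [add_assoc]
  ring

theorem mul_zero' (a : Y m) : mul a 0 = a := by simp [mul]

theorem zero_mul' (a : Y m) : mul 0 a = a := by simp [mul_def]

theorem mul_ldiv' (a y : Y m) : mul a (ldiv a y) = y := by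
  simp only [mul_def, ldiv_def]
  ext <;> simp

theorem ldiv_mul' (a y : Y m) : ldiv a (mul a y) = y := by
  simp only [mul_def, ldiv_def]
  ext <;> simp

theorem ldiv_self' (a : Y m) : ldiv a a = 0 := by simp [ldiv]

theorem ldiv_mul_right (a b c : Y m) : ldiv a (mul b c) = mul (ldiv a b) c := by
  conv_lhs => rw [← mul_ldiv' a b, mul_assoc', ldiv_mul']

theorem ldiv_mul_mul (a b c : Y m) : ldiv (mul a b) (mul a c) = ldiv b c := by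
  conv_lhs => rw [← mul_ldiv' b c, ← mul_assoc', ldiv_mul']

theorem dil_dil' (a b : ℝ) (y : Y m) : dil a (dil b y) = dil (a * b) y := by
  simp only [dil_def, smul_smul]
  ext <;> simp
  ring

theorem dil_one' (y : Y m) : dil 1 y = y := by simp [dil_def]

theorem dil_zero' (w : ℝ) : dil w (0 : Y m) = 0 := by simp [dil_def]

theorem dil_mul' (w : ℝ) (a b : Y m) : dil w (mul a b) = mul (dil w a) (dil w b) := by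
  simp only [dil_def, mul_def, Prod.smul_fst, Prod.smul_snd, Pi.smul_apply, smul_eq_mul, smul_add]
  rw [Finset.sum_congr rfl fun j _ => show w * a.2.2 j * (w * b.2.1 j) =
    w ^ 2 * (a.2.2 j * b.2.1 j) by ring, ← Finset.mul_sum]
  ext <;> simp
  ring

theorem dil_ldiv' (w : ℝ) (a b : Y m) : dil w (ldiv a b) = ldiv (dil w a) (dil w b) := by
  conv_rhs => rw [← mul_ldiv' a b, dil_mul', ldiv_mul']

variable {A A' B B' D D' : Hor m →L[ℝ] Hor m} {f f' s : ℝ}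

theorem hom_hom (A A' : Hor m →L[ℝ] Hor m) (f f' : ℝ) (y : Y m) :
    hom A f (hom A' f' y) = hom (A.comp A') (f * f') y := by
  simp only [hom, ContinuousLinearMap.comp_apply]
  ext <;> simp
  ring

theorem hom_id (h : ∀ u, A u = u) (y : Y m) : hom A 1 y = y := by
  simp [hom, h]

theorem hom_zero (A : Hor m →L[ℝ] Hor m) (f : ℝ) : hom A f 0 = 0 := by
  simp [hom, hq_zero]

theorem hom_dil (A : Hor m →L[ℝ] Hor m) (f w : ℝ) (y : Y m) :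
    hom A f (dil w y) = dil w (hom A f y) := by
  simp only [hom, dil_def, map_smul, hq_smul]
  ext <;> simp
  ring

theorem Sym.hom_mul (h : Sym A f) (a b : Y m) :
    hom A f (mul a b) = mul (hom A f a) (hom A f b) := by
  simp only [hom, mul_def, map_add, hq_add, h a.2 b.2]
  ext <;> simp
  ring

theorem Sym.hom_ldiv (h : Sym A f) (a b : Y m) :
    hom A f (ldiv a b) = ldiv (hom A f a) (hom A f b) := by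
  conv_rhs => rw [← mul_ldiv' a b, h.hom_mul, ldiv_mul']

theorem Sym.comp (h : Sym A f) (h' : Sym A' f') : Sym (A.comp A') (f * f') := fun u v => by
  rw [ContinuousLinearMap.comp_apply, ContinuousLinearMap.comp_apply, h, h', mul_assoc]

theorem Sym.inv (h : Sym B 1) (ri : ∀ u, B (B' u) = u) : Sym B' 1 := fun u v => by
  have := h (B' u) (B' v)
  rw [ri, ri] at this
  linarith

theorem hom_inv (ri : ∀ u, B (B' u) = u) (y : Y m) : hom B 1 (hom B' 1 y) = y := by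
  rw [hom_hom, one_mul]
  exact hom_id ri y

theorem eta_self (s : ℝ) (c : Y m) (B' : Hor m →L[ℝ] Hor m) : eta s c B' c = 0 := by
  rw [eta, ldiv_self', hom_zero, dil_zero']

theorem zeta_eta (hs : s ≠ 0) (ri : ∀ u, B (B' u) = u) (c y : Y m) :
    zeta s c B (eta s c B' y) = y := by
  rw [zeta, eta, dil_dil', mul_inv_cancel₀ hs, dil_one', hom_inv ri, mul_ldiv']

theorem eta_zeta (hs : s ≠ 0) (li : ∀ u, B' (B u) = u) (c y : Y m) :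
    eta s c B' (zeta s c B y) = y := by
  rw [zeta, eta, ldiv_mul', hom_inv li, dil_dil', inv_mul_cancel₀ hs, dil_one']

/-- change of the centre -/
theorem eta_mul (hs : s ≠ 0) (h : Sym D' 1) (c c' y : Y m) :
    eta s c' D' (mul c (dil s y)) = mul (eta s c' D' c) (hom D' 1 y) := by
  rw [eta, eta, ldiv_mul_right, h.hom_mul, dil_mul', hom_dil, dil_dil', inv_mul_cancel₀ hs,
    dil_one']

/-- the transition between two nodes -/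
theorem eta_trans (hs : s ≠ 0) (h : Sym D' 1) (B : Hor m →L[ℝ] Hor m) (c c' y : Y m) :
    eta s c' D' (zeta s c B y) = mul (eta s c' D' c) (hom (D'.comp B) 1 y) := by
  rw [zeta, hom_dil, eta_mul hs h, hom_hom, one_mul]

/-- the coordinates at `y` in terms of the coordinates at `c` -/
theorem eta_eta (hs : s ≠ 0) (h : Sym B 1) (ri : ∀ u, B (B' u) = u) (D' : Hor m →L[ℝ] Hor m)
    (c y y' : Y m) :
    eta s y D' y' = hom (D'.comp B) 1 (ldiv (eta s c B' y) (eta s c B' y')) := by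
  conv_lhs => rw [← zeta_eta hs ri c y, ← zeta_eta hs ri c y']
  rw [eta, zeta, zeta, ldiv_mul_mul, ← h.hom_ldiv, ← dil_ldiv', hom_hom, one_mul, hom_dil,
    dil_dil', inv_mul_cancel₀ hs, dil_one']

theorem sum_le (a b : Fin m → ℝ) : |∑ j, a j * b j| ≤ m * (‖a‖ * ‖b‖) := by
  refine (Finset.abs_sum_le_sum_abs _ _).trans ?_
  have := Finset.sum_le_card_nsmul Finset.univ (fun j => |a j * b j|) (‖a‖ * ‖b‖) fun j _ => by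
    rw [abs_mul]
    exact mul_le_mul (norm_le_pi_norm a j) (norm_le_pi_norm b j) (abs_nonneg _) (norm_nonneg _)
  simpa using this

theorem hq_le (u : Hor m) : |hq u| ≤ m * ‖u‖ ^ 2 := by
  rw [hq, abs_div, abs_two]
  have h1 := sum_le u.1 u.2
  have h2 : ‖u.1‖ * ‖u.2‖ ≤ ‖u‖ ^ 2 := by
    rw [sq]
    exact mul_le_mul (norm_fst_le u) (norm_snd_le u) (norm_nonneg _) (norm_nonneg _)
  have h3 : (m : ℝ) * (‖u.1‖ * ‖u.2‖) ≤ m * ‖u‖ ^ 2 := by gcongr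
  have := abs_nonneg (∑ j, u.1 j * u.2 j)
  linarith

theorem norm_Lt_le (p ξ : Y m) : ‖Lt p ξ‖ ≤ (1 + m * ‖p‖) * ‖ξ‖ := by
  have h1 := sum_le p.2.2 ξ.2.1
  have h2 : ‖p.2.2‖ * ‖ξ.2.1‖ ≤ ‖p‖ * ‖ξ‖ :=
    mul_le_mul ((norm_snd_le _).trans (norm_snd_le p)) ((norm_fst_le _).trans (norm_snd_le ξ))
      (norm_nonneg _) (norm_nonneg _)
  have h3 : (m : ℝ) * (‖p.2.2‖ * ‖ξ.2.1‖) ≤ m * (‖p‖ * ‖ξ‖) := by gcongr
  have h4 : |ξ.1| ≤ ‖ξ‖ := norm_fst_le ξ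
  have h5 : 0 ≤ (m : ℝ) * (‖p‖ * ‖ξ‖) := by positivity
  refine max_le ?_ (show ‖ξ.2‖ ≤ _ by nlinarith [norm_snd_le ξ])
  change |ξ.1 - ∑ j, p.2.2 j * ξ.2.1 j| ≤ _
  refine (abs_sub _ _).trans ?_
  nlinarith

theorem norm_dil_le {w : ℝ} (h0 : 0 ≤ w) (h1 : w ≤ 1) (y : Y m) : ‖dil w y‖ ≤ w * ‖y‖ := by
  refine max_le ?_ ?_
  · change |w ^ 2 * y.1| ≤ _
    rw [abs_mul, abs_of_nonneg (sq_nonneg w)]
    exact mul_le_mul (by nlinarith) (norm_fst_le y) (abs_nonneg _) h0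
  · change ‖w • y.2‖ ≤ _
    rw [norm_smul, Real.norm_of_nonneg h0]
    exact mul_le_mul_of_nonneg_left (norm_snd_le y) h0

theorem norm_hom_le {C R : ℝ} {y : Y m} (hA : ‖A‖ ≤ C) (hC : 1 ≤ C) (h0 : 0 ≤ f) (h1 : f ≤ 1)
    (hy : ‖y‖ ≤ R) : ‖hom A f y‖ ≤ C * R + 2 * m * (C * R) ^ 2 := by
  have r0 : 0 ≤ R := (norm_nonneg _).trans hy
  have a1 : ‖y.2‖ ≤ R := (norm_snd_le y).trans hy
  have a2 : ‖A y.2‖ ≤ C * R := (A.le_opNorm _).trans (by gcongr)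
  have a3 : R ≤ C * R := by nlinarith
  have a4 : |hq y.2| ≤ m * (C * R) ^ 2 := (hq_le _).trans (by gcongr; exact a1.trans a3)
  have a5 : |hq (A y.2)| ≤ m * (C * R) ^ 2 := (hq_le _).trans (by gcongr)
  have a6 : |y.1| ≤ R := (norm_fst_le y).trans hy
  have a7 : 0 ≤ (m : ℝ) * (C * R) ^ 2 := by positivity
  refine max_le ?_ (show ‖A y.2‖ ≤ _ by nlinarith)
  change |f * (y.1 + hq y.2) - hq (A y.2)| ≤ _
  refine (abs_sub _ _).trans ?_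
  rw [abs_mul, abs_of_nonneg h0]
  have a8 := abs_add_le y.1 (hq y.2)
  have a9 : f * |y.1 + hq y.2| ≤ |y.1 + hq y.2| := mul_le_of_le_one_left (abs_nonneg _) h1
  nlinarith

theorem hq_smooth : ContDiff ℝ ∞ (hq (m := m)) := by
  unfold hq
  fun_prop

theorem hom_smooth (A : Hor m →L[ℝ] Hor m) (f : ℝ) : ContDiff ℝ ∞ (hom A f) := by
  have := hq_smooth (m := m)
  unfold hom
  fun_prop

theorem GoodP.mono {C f₀ f₁ : ℝ} {p : Sp m} (h : GoodP C f₀ p) (hf : f₀ ≤ f₁) : GoodP C f₁ p :=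
  ⟨h.1, h.2.1, h.2.2.1, h.2.2.2.1, h.2.2.2.2.trans hf⟩

end Alg

section Crv
variable {X : Type} [NormedAddCommGroup X] [NormedSpace ℝ X]

theorem Crv_sub {Z : X → X} {ε ε' a b a' b' : ℝ} {c : ℝ → X} (h : Crv Z ε c a b) (ha : a ≤ a')
    (hb : b' ≤ b) (hε : ε ≤ ε') : Crv Z ε' c a' b' :=
  ⟨h.1.mono (Icc_subset_Icc ha hb), fun t ht => (h.2 t ⟨ha.trans ht.1, ht.2.trans_le hb⟩).mono hε⟩

theorem Ly_nonneg {Z : X → X} {Φ : X → ℝ} {S : Set X} {x : X} (h : Ly S Z Φ x) :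
    0 ≤ fderiv ℝ Φ x (Z x) := by
  rcases h with h | ⟨u, h, -⟩
  · exact h.le
  · rw [h.1, map_zero]

theorem Ly_pos {Z : X → X} {Φ : X → ℝ} {S : Set X} {x : X} (h : Ly S Z Φ x) (hx : Z x ≠ 0) :
    0 < fderiv ℝ Φ x (Z x) :=
  h.resolve_right fun ⟨_, h, _⟩ => hx h.1

end Crv

section Tow
variable {m : ℕ} {ι : Type} {η : ι → Y m → Y m} {act : ι → Prop} {Γ : ι → Set (Y m)}
  {Ra R β κ a b Ra' β' κ' : ℝ} {F Λ : ℝ × Y m → ℝ}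

theorem Tow.mono (h : Tow η act Γ Ra R β κ a b F Λ) (h1 : Ra' ≤ Ra) (h2 : β ≤ β') (h3 : κ' ≤ κ) :
    Tow η act Γ Ra' R β' κ' a b F Λ :=
  ⟨h.le, h.sF, h.sΛ, h.out, h.lyap, h.bd, fun Ω hΩ => by
    obtain ⟨ε, hε, H⟩ := h.dyn Ω hΩ
    refine ⟨ε, hε, fun γ s t hst hγ hm c hc => ?_⟩
    obtain ⟨H1, H2⟩ := H γ s t hst hγ hm c (hc.trans h1)
    exact ⟨fun r hr => (H1 r hr).trans h2, fun ha hb hc p hp => h3.trans (H2 ha hb hc p hp)⟩⟩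

end Tow

section Box
variable {m : ℕ} {V : Type} [NormedAddCommGroup V] [NormedSpace ℝ V] {M K' K'' : Set V}
  {l : V → V →L[ℝ] ℝ} {φ : V → ℝ} {Z : V → V} {fl : ℝ → V → V} {I : Type} {τ : TD V m I}
  {H S₀ S : ℝ}

theorem Ps_zero (hf : IsFlow Z fl) (g : Y m → V) (y : Y m) : Ps fl g (0, y) = g y := hf.zero _

theorem fl_Ps (hf : IsFlow Z fl) (g : Y m → V) (t : ℝ) (q : ℝ × Y m) :
    fl t (Ps fl g q) = Ps fl g (t + q.1, q.2) := (hf.add _ _ _).symm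

omit [NormedAddCommGroup V] [NormedSpace ℝ V] in
theorem TD.reg_mono (h : 0 ≤ τ.ρ) (i : I) {a b k a' b' k' : ℝ} (ha : a' ≤ a) (hb : b ≤ b')
    (hk : k ≤ k') : τ.reg i a b k ⊆ τ.reg i a' b' k' :=
  prod_mono (Icc_subset_Icc ha hb) (cthickening_mono (by gcongr) _)

theorem Tw.reg_cpt (h : Tw M l φ fl τ K' K'' H S₀) (i : I) (a b k : ℝ) :
    IsCompact (τ.reg i a b k) := isCompact_Icc.prod (h.cpt i).cthickening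

theorem Tw.mem (h : Tw M l φ fl τ K' K'' H S₀) {i : I} {q : ℝ × Y m}
    (hq : q ∈ τ.reg i (-1) (H + 1) 10) : q ∈ Ioo (-2) (H + 2) ×ˢ τ.D i :=
  ⟨⟨by linarith [hq.1.1], by linarith [hq.1.2]⟩, h.sub i hq.2⟩

/-- the chart inverts the parametrisation -/
theorem Tw.kap (h : Tw M l φ fl τ K' K'' H S₀) {i : I} {q : ℝ × Y m}
    (hq : q ∈ τ.reg i (-1) (H + 1) 10) :
    Ps fl (τ.g i) q ∈ M ∧ Ps fl (τ.g i) q ∈ τ.N i ∧ τ.κ i (Ps fl (τ.g i) q) = q :=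
  (h.box i).par.gm q (h.mem hq)

/-- the towers are disjoint and embedded -/
theorem Tw.inj (h : Tw M l φ fl τ K' K'' H S₀) {i j : I} {q q' : ℝ × Y m}
    (hq : q ∈ τ.reg i (-1) (H + 1) 10) (hq' : q' ∈ τ.reg j (-1) (H + 1) 10)
    (e : Ps fl (τ.g i) q = Ps fl (τ.g j) q') : i = j ∧ q = q' := by
  obtain rfl : i = j := by_contra fun c => h.disj i j c q hq q' hq' e
  exact ⟨rfl, by rw [← (h.kap hq).2.2, e, (h.kap hq').2.2]⟩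

theorem Tw.bot (h : Tw M l φ fl τ K' K'' H S₀) {i : I} {y : Y m} {k : ℝ} (hk : k ≤ 10)
    (hy : y ∈ cthickening (k * τ.ρ) (τ.A i)) : ((0 : ℝ), y) ∈ τ.reg i (-1) (H + 1) 10 :=
  ⟨⟨by norm_num, by linarith [h.Hle]⟩, cthickening_mono (by have := h.ρpos; gcongr) _ hy⟩

/-- the value of the holonomy -/
theorem ALk.hol_eq (hf : IsFlow Z fl) (h : Tw M l φ fl τ K' K'' H S₀) {i j : I} {y y' : Y m}
    {t : ℝ} (a : ALk fl τ H S i y t j y') : hol fl τ i j t y = y' := by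
  rw [hol, a.hit, ← Ps_zero hf (τ.g j), (h.kap (h.bot (by norm_num) a.my')).2.2]

theorem Ps_smooth (hf : IsFlow Z fl) {g : Y m → V} (hg : ContDiff ℝ ∞ g) :
    ContDiff ℝ ∞ (Ps fl g) :=
  hf.sm.comp (contDiff_fst.prodMk (hg.comp contDiff_snd))

end Box

end Pool.Agent.MP_6d695c_gt.P

end PkAlg
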